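import Pool.Agent.WFC.ElimDefs

set_option autoImplicit false

/-!
# EL4: short names and closed names of anchored sets
-/

namespace Pool.Agent.WFC

variable {K m : ℕ}

/-- the levels of anchored words -/
def EL4_L (S : ElimSys K m) (V : Finset S.W) : ℕ → S.W → Prop
  | 0, x => ∃ t, S.rt t ∧ S.eqv x t
  | j + 1, x => EL4_L S V j x ∨ ∃ y ∈ V, ∃ p, EL4_L S V j y ∧ S.eqv x (S.app y p)

theorem EL4_L_mono (S : ElimSys K m) (V : Finset S.W) {i j : ℕ} (h : i ≤ j) {x : S.W}
    (hx : EL4_L S V i x) : EL4_L S V j x := by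
  induction h with
  | refl => exact hx
  | step _ ih => exact Or.inl ih

theorem EL4_L_exists (S : ElimSys K m) (V : Finset S.W) {x : S.W} (h : S.Anc ↑V x) :
    ∃ j, EL4_L S V j x := by
  induction h with
  | root ht he => exact ⟨0, _, ht, he⟩
  | step hy _ he ih =>
    obtain ⟨j, hj⟩ := ih
    exact ⟨j + 1, Or.inr ⟨_, hy, _, hj, he⟩⟩

/-- NAMES. If all words of `V` are anchored in `V`, there is a choice of names `f x ~ x` such that every `f x` is a root
word or `app (f y) p` with `y ∈ V` of smaller level. Proof: levels `A 0 = {x ∈ V : x ~ root word}`,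
`A (j+1) = A j ∪ {x ∈ V : x ~ app y p, y ∈ A j}`; by induction on the derivation every anchored `x ∈ V` is in some
`A j`; let `lv x` be the least such `j`. Define `f` by recursion on `lv`. -/
theorem ElimSys.names (S : ElimSys K m) (V : Finset S.W) (hV : ∀ x ∈ V, S.Anc ↑V x) :
    ∃ (f : S.W → S.W) (lv : S.W → ℕ), ∀ x ∈ V, S.eqv x (f x) ∧
      ((lv x = 0 ∧ S.rt (f x)) ∨ ∃ y ∈ V, ∃ p, lv y + 1 = lv x ∧ f x = S.app (f y) p) := by
  classical
  obtain ⟨lv, hlv⟩ : ∃ lv : S.W → ℕ, lv = fun x => sInf {j | EL4_L S V j x} := ⟨_, rfl⟩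
  have h1 : ∀ x ∈ V, EL4_L S V (lv x) x := by
    intro x hx
    rw [hlv]
    exact Nat.sInf_mem (s := {j | EL4_L S V j x}) (EL4_L_exists S V (hV x hx))
  have h2 : ∀ x j, EL4_L S V j x → lv x ≤ j := by
    intro x j hj
    rw [hlv]
    exact Nat.sInf_le hj
  have h3 : ∀ x, x ∈ V → lv x ≠ 0 → ∃ y p, y ∈ V ∧ lv y + 1 = lv x ∧ S.eqv x (S.app y p) := by
    intro x hx hne
    obtain ⟨j, hj⟩ := Nat.exists_eq_succ_of_ne_zero hne
    have hL := h1 x hx
    rw [hj] at hL
    rcases hL with hL | ⟨y, hy, p, hLy, he⟩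
    · have := h2 x j hL
      omega
    · refine ⟨y, p, hy, ?_, he⟩
      have h4 := h2 y j hLy
      by_contra hcon
      have h5 : lv y + 1 ≤ j := by omega
      have h6 : EL4_L S V (lv y + 1) x := Or.inr ⟨y, hy, p, h1 y hy, he⟩
      have := h2 x _ (EL4_L_mono S V h5 h6)
      omega
  choose py pp hpy using h3
  obtain ⟨tt, htt⟩ : ∃ tt : S.W → S.W, ∀ x, EL4_L S V 0 x → S.rt (tt x) ∧ S.eqv x (tt x) := by
    refine ⟨fun x => if h : EL4_L S V 0 x then Classical.choose h else x, ?_⟩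
    intro x hx
    simp only [dif_pos hx]
    exact Classical.choose_spec hx
  obtain ⟨F, hF0, hFs⟩ : ∃ F : ℕ → S.W → S.W, (∀ x, F 0 x = tt x) ∧
      ∀ j x (h : x ∈ V) (h' : lv x ≠ 0), F (j + 1) x = S.app (F j (py x h h')) (pp x h h') := by
    refine ⟨fun j => Nat.rec (motive := fun _ => S.W → S.W) tt (fun _ G x =>
      if h : x ∈ V ∧ lv x ≠ 0 then S.app (G (py x h.1 h.2)) (pp x h.1 h.2) else tt x) j,
      fun x => rfl, ?_⟩
    intro j x h h'
    simp only [dif_pos (⟨h, h'⟩ : x ∈ V ∧ lv x ≠ 0)]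
  have hstep : ∀ x (h : x ∈ V) (h' : lv x ≠ 0),
      F (lv x) x = S.app (F (lv (py x h h')) (py x h h')) (pp x h h') := by
    intro x h h'
    have e := (hpy x h h').2.1
    conv_lhs => rw [← e]
    exact hFs _ x h h'
  have heqv : ∀ j x, x ∈ V → lv x = j → S.eqv x (F (lv x) x) := by
    intro j
    induction j with
    | zero =>
      intro x hx hj
      rw [hj, hF0]
      have := h1 x hx
      rw [hj] at this
      exact (htt x this).2
    | succ j ih =>
      intro x hx hj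
      have hne : lv x ≠ 0 := by omega
      rw [hstep x hx hne]
      obtain ⟨a1, a2, a3⟩ := hpy x hx hne
      exact S.eqv_equiv.trans a3 (S.app_eqv _ _ _ (ih _ a1 (by omega)))
  refine ⟨fun x => F (lv x) x, lv, fun x hx => ⟨heqv _ x hx rfl, ?_⟩⟩
  by_cases h0 : lv x = 0
  · left
    refine ⟨h0, ?_⟩
    show S.rt (F (lv x) x)
    rw [h0, hF0]
    have := h1 x hx
    rw [h0] at this
    exact (htt x this).1
  · right
    exact ⟨py x hx h0, (hpy x hx h0).1, pp x hx h0, (hpy x hx h0).2.1, hstep x hx h0⟩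

theorem EL4_len (S : ElimSys K m) (V : Finset S.W) {f : S.W → S.W} {lv : S.W → ℕ}
    (h : ∀ x ∈ V, S.eqv x (f x) ∧
      ((lv x = 0 ∧ S.rt (f x)) ∨ ∃ y ∈ V, ∃ p, lv y + 1 = lv x ∧ f x = S.app (f y) p)) :
    ∀ x ∈ V, S.len (f x) ≤ V.card := by
  classical
  have h1 : ∀ j, ∀ x ∈ V, lv x = j → S.len (f x) ≤ 1 + j := by
    intro j
    induction j with
    | zero =>
      intro x hx hj
      rcases (h x hx).2 with ⟨_, hr⟩ | ⟨y, _, p, hl, _⟩
      · exact S.len_rt _ hr
      · omega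
    | succ j ih =>
      intro x hx hj
      rcases (h x hx).2 with ⟨h0, _⟩ | ⟨y, hy, p, hl, he⟩
      · omega
      · rw [he, S.len_app]
        have := ih y hy (by omega)
        omega
  have h2 : ∀ j, ∀ x ∈ V, lv x = j → ∀ i ≤ j, ∃ y ∈ V, lv y = i := by
    intro j
    induction j with
    | zero =>
      intro x hx hj i hi
      exact ⟨x, hx, by omega⟩
    | succ j ih =>
      intro x hx hj i hi
      rcases Nat.lt_or_eq_of_le hi with hlt | heq
      · rcases (h x hx).2 with ⟨h0, _⟩ | ⟨y, hy, p, hl, he⟩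
        · omega
        · exact ih y hy (by omega) i (by omega)
      · exact ⟨x, hx, by omega⟩
  intro x hx
  have h3 : Finset.range (lv x + 1) ⊆ V.image lv := by
    intro i hi
    obtain ⟨y, hy, hyi⟩ := h2 _ x hx rfl i (by have := Finset.mem_range.1 hi; omega)
    exact Finset.mem_image.2 ⟨y, hy, hyi⟩
  have h4 := (Finset.card_le_card h3).trans Finset.card_image_le
  rw [Finset.card_range] at h4
  have h5 := h1 _ x hx rfl
  omega

/-- SHORT NAMES: with the names of `names`, `len (f x) ≤ 1 + lv x`, and `lv x < |V|` because `V` contains words of all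
levels `0, ..., lv x`. So every `x ∈ V` is equivalent to a word of length at most `|V|`. -/
theorem ElimSys.short (S : ElimSys K m) (V : Finset S.W) (hV : ∀ x ∈ V, S.Anc ↑V x) :
    ∀ x ∈ V, ∃ y, S.eqv x y ∧ S.len y ≤ V.card := by
  obtain ⟨f, lv, h⟩ := S.names V hV
  intro x hx
  exact ⟨f x, (h x hx).1, EL4_len S V h x hx⟩

/-- CLOSED NAMES: the image of `V` under `f` is closed under taking predecessors. -/
theorem ElimSys.closed (S : ElimSys K m) (V : Finset S.W) (hV : ∀ x ∈ V, S.Anc ↑V x) :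
    ∃ S₀ : Finset S.W, S₀.card ≤ V.card ∧ (∀ s ∈ S₀, S.rt s ∨ ∃ y ∈ S₀, ∃ p, s = S.app y p) ∧
      (∀ s ∈ S₀, S.len s ≤ V.card) ∧ (∀ x ∈ V, ∃ s ∈ S₀, S.eqv x s) ∧ ∀ s ∈ S₀, ∃ x ∈ V, S.eqv x s := by
  classical
  obtain ⟨f, lv, h⟩ := S.names V hV
  refine ⟨V.image f, Finset.card_image_le, ?_, ?_, ?_, ?_⟩
  · intro s hs
    obtain ⟨x, hx, rfl⟩ := Finset.mem_image.1 hs
    rcases (h x hx).2 with ⟨_, hr⟩ | ⟨y, hy, p, _, he⟩
    · exact Or.inl hr
    · exact Or.inr ⟨f y, Finset.mem_image_of_mem f hy, p, he⟩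
  · intro s hs
    obtain ⟨x, hx, rfl⟩ := Finset.mem_image.1 hs
    exact EL4_len S V h x hx
  · intro x hx
    exact ⟨f x, Finset.mem_image_of_mem f hx, (h x hx).1⟩
  · intro s hs
    obtain ⟨x, hx, rfl⟩ := Finset.mem_image.1 hs
    exact ⟨x, hx, (h x hx).1⟩

end Pool.Agent.WFC
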