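import Pool.Agent.WFC.EL3
import Pool.Agent.WFC.EL4

set_option autoImplicit false

/-!
# EL5: the combinatorial lemma
-/

namespace Pool.Agent.WFC

variable {K m : ℕ}

theorem EL5_sum_image {W : Type} [DecidableEq W] (V : Finset W) (g : W → W) (c : W → ℕ)
    (h : ∀ x ∈ V, c (g x) = c x) : ∑ y ∈ V.image g, c y ≤ ∑ x ∈ V, c x := by
  induction V using Finset.induction_on with
  | empty => simp
  | insert a V ha ih =>
    rw [Finset.image_insert, Finset.sum_insert ha]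
    have ih' := ih (fun x hx => h x (Finset.mem_insert_of_mem hx))
    by_cases hm : g a ∈ V.image g
    · rw [Finset.insert_eq_self.2 hm]
      omega
    · rw [Finset.sum_insert hm, h a (Finset.mem_insert_self a V)]
      omega

/-- One big round with shrinking: from `V` with `|V| ≤ K`, words of length at most `M + 1` (`M = K + K μ₀`), to
`V''` of the same kind, with `rs V'' ≤ rs V`, strictly if `V` has a non-anchored word. Proof: `mu ω V ≤ μ₀` by `mu_le`;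
`bigRound` gives `V₁`; `E_small` gives `V' ⊆ V₁` with `|V'| ≤ K`; replace every word of `V'` by a short equivalent one
(`short` for `V₁`: length at most `|V₁| ≤ M`); use `E_ren`, `cw_eqv`, `rk_eqv`. -/
theorem ElimSys.round (S : ElimSys K m) {ω : ℕ} (hω : Nat.card S.O ≤ ω)
    (hR : (K + K * (K * (K + 1) ^ (2 * ω + 1))) + 1 + (K + 1) * (K * (K + 1) ^ (2 * ω + 1)) ≤ S.R1)
    (V : Finset S.W) (hc : V.card ≤ K)
    (hV : ∀ x ∈ V, S.cw x ∧ S.len x ≤ K + K * (K * (K + 1) ^ (2 * ω + 1)) + 1) (hE : S.E ↑V) :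
    ∃ V' : Finset S.W, V'.card ≤ K ∧ (∀ x ∈ V', S.cw x ∧ S.len x ≤ K + K * (K * (K + 1) ^ (2 * ω + 1)) + 1) ∧
      S.E ↑V' ∧ S.rs V' ≤ S.rs V ∧ ((∃ x ∈ V, ¬ S.Anc ↑V x) → S.rs V' < S.rs V) := by
  classical
  obtain ⟨μ, hμ⟩ : ∃ μ, μ = K * (K + 1) ^ (2 * ω + 1) := ⟨_, rfl⟩
  rw [← hμ] at hR hV ⊢
  have hmu : S.mu ω V ≤ μ := by
    rw [hμ]
    exact (S.mu_le ω V).trans (Nat.mul_le_mul_right _ hc)
  obtain ⟨V₁, c1, a1, e1, r1, r2⟩ := S.bigRound (M := K + K * μ) hω V (K + K * μ + 1) hV hE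
    (Nat.add_le_add hc (Nat.mul_le_mul_left _ hmu))
    (le_trans (Nat.add_le_add_left (Nat.mul_le_mul_left _ hmu) _) hR)
  obtain ⟨V', hV'1, hV'c, hV'E⟩ := S.E_small V₁ e1
  have hs := S.short V₁ (fun x hx => (a1 x hx).2.2)
  choose! g hg1 hg2 using hs
  have hrs : S.rs (V'.image g) ≤ S.rs V₁ := by
    unfold ElimSys.rs
    refine le_trans (EL5_sum_image V' g (fun x => (K + 1) ^ S.rk x) ?_)
      (Finset.sum_le_sum_of_subset hV'1)
    intro x hx
    show (K + 1) ^ S.rk (g x) = (K + 1) ^ S.rk x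
    rw [S.rk_eqv x (g x) (hg1 x (hV'1 hx))]
  refine ⟨V'.image g, Finset.card_image_le.trans hV'c, ?_, ?_, hrs.trans r1,
    fun h => lt_of_le_of_lt hrs (r2 h)⟩
  · intro y hy
    obtain ⟨x, hx, rfl⟩ := Finset.mem_image.1 hy
    have hx1 := hV'1 hx
    refine ⟨S.cw_eqv x (g x) (a1 x hx1).2.1 (a1 x hx1).1 (hg1 x hx1), ?_⟩
    have := hg2 x hx1
    omega
  · refine S.E_ren V' (V'.image g) ?_ ?_ ?_ hV'E
    · intro x hx
      exact ⟨(a1 x (hV'1 hx)).1, (a1 x (hV'1 hx)).2.1⟩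
    · intro y hy
      obtain ⟨x, hx, rfl⟩ := Finset.mem_image.1 hy
      have := hg2 x (hV'1 hx)
      omega
    · intro x hx
      exact ⟨g x, Finset.mem_image_of_mem g hx, hg1 x (hV'1 hx)⟩

/-- THE COMBINATORIAL LEMMA: take `V` minimal for `rs` among the sets with `|V| ≤ K`, words of length at most `M + 1`
and `E V`; by `round` it has no non-anchored word. -/
theorem ElimSys.final (S : ElimSys K m) {ω : ℕ} (hω : Nat.card S.O ≤ ω)
    (hR : (K + K * (K * (K + 1) ^ (2 * ω + 1))) + 1 + (K + 1) * (K * (K + 1) ^ (2 * ω + 1)) ≤ S.R1)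
    (V : Finset S.W) (hc : V.card ≤ K) (hV : ∀ x ∈ V, S.cw x ∧ S.len x ≤ 1) (hE : S.E ↑V) :
    ∃ V' : Finset S.W, V'.card ≤ K ∧ (∀ x ∈ V', S.cw x ∧ S.len x ≤ S.R1 ∧ S.Anc ↑V' x) ∧ S.E ↑V' := by
  have key : ∀ r : ℕ, ∀ V : Finset S.W, S.rs V = r → V.card ≤ K →
      (∀ x ∈ V, S.cw x ∧ S.len x ≤ K + K * (K * (K + 1) ^ (2 * ω + 1)) + 1) → S.E ↑V →
      ∃ V' : Finset S.W, V'.card ≤ K ∧ (∀ x ∈ V', S.cw x ∧ S.len x ≤ S.R1 ∧ S.Anc ↑V' x) ∧
        S.E ↑V' := by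
    intro r
    induction r using Nat.strong_induction_on with
    | _ r ih =>
      intro V hr hc hV hE
      by_cases hna : ∃ x ∈ V, ¬ S.Anc ↑V x
      · obtain ⟨V', c', a', e', _, r'⟩ := S.round hω hR V hc hV hE
        have hlt := r' hna
        rw [hr] at hlt
        exact ih _ hlt V' rfl c' a' e'
      · push Not at hna
        exact ⟨V, hc, fun x hx => ⟨(hV x hx).1, by have := (hV x hx).2; omega, hna x hx⟩, hE⟩
  exact key _ V rfl hc (fun x hx => ⟨(hV x hx).1, by have := (hV x hx).2; omega⟩) hE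

end Pool.Agent.WFC
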