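import Pool.Agent.WFC.Base

set_option autoImplicit false

/-!
# SM: small supports
-/

namespace Pool.Agent.WFC

open Pool.Agent.H56

variable {k : ℕ} {ar : Fin k → ℕ} {T : List (Rule ar)} {D : Type}

/-- `EntG` only depends on the equivalence generated by `R`. -/
theorem entG_eqvGen (J : Inst ar D) (q : CQ ar) {X : Type} (R : X → X → Prop) (cD : D → X)
    (F : Set (Atom ar X)) : EntG T J q (Relation.EqvGen R) cD F ↔ EntG T J q R cD F := by
  constructor
  · intro H N I hI h hR hJ hF
    refine H N I hI h (fun x y hxy => ?_) hJ hF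
    induction hxy with
    | rel x y hxy => exact hR x y hxy
    | refl x => rfl
    | symm x y _ ih => exact ih.symm
    | trans x y z _ _ ih1 ih2 => exact ih1.trans ih2
  · intro H N I hI h hR hJ hF
    exact H N I hI h (fun x y hxy => hR x y (Relation.EqvGen.rel x y hxy)) hJ hF

theorem EntG.mono {J : Inst ar D} {q : CQ ar} {X : Type} {R R' : X → X → Prop} {cD : D → X}
    {F F' : Set (Atom ar X)} (h : EntG T J q R cD F) (hR : ∀ x y, R x y → R' x y) (hF : F ⊆ F') :
    EntG T J q R' cD F' :=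
  fun N I hI g hg hJ hF' => h N I hI g (fun x y hxy => hg x y (hR x y hxy)) hJ (fun α hα => hF' α (hF hα))

/-- SMALL SUPPORTS. Same proof as `H56.small` (file `Pool/Agent/H56/Bad.lean`): by `entG_eqvGen` let `R` be an
equivalence relation. Let `E` be the finite set of the nodes of `cD` and of the atoms of `F`, `P` the quotient of the
subtype `E` by `R`, and `JP F'` the instance on `P` with the images of the facts of `J` (at `cD`) and of the atoms of
`F'`. `EntG` for `F` gives `Entails T (JP F) q` (compose `P → N` with the quotient map, and use a default value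
outside of `E`; nodes `R`-related to nodes of `E` must get the value of this node: define `h x := f [y]` if
`R x y` for some `y ∈ E`). The rewriting gives a match of some `p ∈ Φ'` in `JP F`; choose an owner in `F` for every
atom of `p` which is not a fact of `J`; let `F'` be the set of the owners: at most `p.2.length` elements. Then
`Sat (JP F') p`, so `Entails T (JP F') q`, which gives `EntG` for `F'`. -/
theorem small_of_rewritable {q : CQ ar} {Φ' : List (CQ ar)}
    (hq : ∀ (D : Type), Finite D → ∀ J : Inst ar D, Entails T J q ↔ ∃ p ∈ Φ', Sat J p) [Finite D] [Nonempty D]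
    (J : Inst ar D) : Small T J q (Φ'.map (fun p => p.2.length)).sum := by
  classical
  intro X R cD F hF h
  obtain ⟨d₀⟩ := ‹Nonempty D›
  let E : Set X := Set.range cD ∪ ⋃ α ∈ F, Set.range α.2
  have hE : E.Finite := by
    refine (Set.finite_range _).union ?_
    exact hF.biUnion (fun α _ => Set.finite_range _)
  have hEc : ∀ d, cD d ∈ E := fun d => Or.inl ⟨d, rfl⟩
  have hEF : ∀ α ∈ F, ∀ p, α.2 p ∈ E := fun α hα p => Or.inr (Set.mem_biUnion (x := α) hα ⟨p, rfl⟩)
  let P : Type := {c : Quot R // ∃ y ∈ E, Quot.mk R y = c}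
  have hPf : Finite P := by
    have : (Quot.mk R '' E).Finite := hE.image _
    exact this
  let mk : X → P := fun x => if h : ∃ y ∈ E, Quot.mk R y = Quot.mk R x then ⟨Quot.mk R x, h⟩
    else ⟨Quot.mk R (cD d₀), ⟨cD d₀, hEc d₀, rfl⟩⟩
  have hmk : ∀ e, e ∈ E → (mk e).1 = Quot.mk R e := by
    intro e he
    have h1 : ∃ y ∈ E, Quot.mk R y = Quot.mk R e := ⟨e, he, rfl⟩
    simp only [mk, dif_pos h1]
  have hmkR : ∀ x y, R x y → mk x = mk y := by
    intro x y hxy
    have h1 : Quot.mk R x = Quot.mk R y := Quot.sound hxy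
    simp only [mk, h1]
  let JP : Set (Atom ar X) → Inst ar P := fun F' i t =>
    (∃ t₀ : Fin (ar i) → D, J i t₀ ∧ t = fun p => mk (cD (t₀ p))) ∨
    (∃ α ∈ F', (⟨i, t⟩ : Atom ar P) = amap mk α)
  have h1 : Entails T (JP F) q := by
    rintro N I hI ⟨f, hf⟩
    refine h N I hI (fun x => f (mk x)) (fun x y hxy => congrArg f (hmkR x y hxy)) ?_ ?_
    · intro i t ht
      exact hf i _ (Or.inl ⟨t, ht, rfl⟩)
    · intro α hα
      exact hf _ _ (Or.inr ⟨α, hα, rfl⟩)
  obtain ⟨p, hp, v, hv⟩ := (hq P hPf (JP F)).1 h1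
  have hown : ∀ α : Σ i : Fin k, Fin (ar i) → Fin p.1, α ∈ p.2 → ∃ o : Option (Atom ar X),
      (∀ e, o = some e → e ∈ F) ∧ ∀ F' : Set (Atom ar X), (∀ e, o = some e → e ∈ F') → JP F' α.1 (v ∘ α.2) := by
    intro α hα
    rcases hv α hα with h2 | ⟨β, hβ, heq⟩
    · exact ⟨none, by simp, fun F' _ => Or.inl h2⟩
    · refine ⟨some β, ?_, fun F' hF' => Or.inr ⟨β, hF' _ rfl, heq⟩⟩
      intro e he
      cases he
      exact hβ
  choose! own hown1 hown2 using hown
  let O' : Finset (Atom ar X) := (p.2.filterMap own).toFinset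
  have hO'mem : ∀ α ∈ p.2, ∀ e, own α = some e → e ∈ O' := by
    intro α hα e he
    exact List.mem_toFinset.mpr (List.mem_filterMap.mpr ⟨α, hα, he⟩)
  have hO'sub : ∀ e ∈ O', e ∈ F := by
    intro e he
    obtain ⟨α, hα, hαe⟩ := List.mem_filterMap.mp (List.mem_toFinset.mp he)
    exact hown1 α hα e hαe
  refine ⟨↑O', hO'sub, ?_, ?_⟩
  · rw [Set.ncard_coe_finset]
    calc O'.card ≤ (p.2.filterMap own).length := List.toFinset_card_le _
      _ ≤ p.2.length := List.length_filterMap_le _ _
      _ ≤ (Φ'.map (fun p => p.2.length)).sum := List.le_sum_of_mem (List.mem_map.mpr ⟨p, hp, rfl⟩)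
  · have h3 : Entails T (JP ↑O') q :=
      (hq P hPf (JP ↑O')).2 ⟨p, hp, v, fun α hα => hown2 α hα ↑O' (fun e he => hO'mem α hα e he)⟩
    intro N I hI g hgR hgJ hgF
    let f : P → N := fun c => Quot.lift g hgR c.1
    have hfmk : ∀ e, e ∈ E → f (mk e) = g e := by
      intro e he
      simp only [f]
      rw [hmk e he]
    apply h3 N I hI
    refine ⟨f, ?_⟩
    rintro i t (⟨t₀, ht₀, rfl⟩ | ⟨α, hα, heq⟩)
    · have h4 : (f ∘ fun p => mk (cD (t₀ p))) = (fun d => g (cD d)) ∘ t₀ := by
        funext p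
        exact hfmk _ (hEc _)
      rw [h4]
      exact hgJ i t₀ ht₀
    · have h5 := hgF α hα
      obtain ⟨rfl, h6⟩ := Sigma.mk.inj_iff.mp heq
      have h7 := eq_of_heq h6
      subst h7
      have h8 : (f ∘ (mk ∘ α.2)) = fun p => g (α.2 p) := by
        funext p
        exact hfmk _ (hEF α (hO'sub α hα) p)
      rw [h8]
      exact h5

theorem Small.mono {J : Inst ar D} {q : CQ ar} {K K' : ℕ} (h : Small T J q K) (hK : K ≤ K') : Small T J q K' := by
  intro X R cD F hF hE
  obtain ⟨F', h1, h2, h3⟩ := h X R cD F hF hE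
  exact ⟨F', h1, h2.trans hK, h3⟩

end Pool.Agent.WFC
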