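import Pool.Agent.WFC.MA1

set_option autoImplicit false

/-!
# MA2: finitely many queries
-/

namespace Pool.Agent.WFC

open Pool.Agent.H56

variable {k : ℕ} {ar : Fin k → ℕ}

/-- Finitely many queries: the product of the finite instances of `one_query` for the queries in `Q` which are not
entailed, and of the image of the chase under `lab` (to have the last property also if all queries are entailed).
`Entails T IH q → Entails T J q` for `q ∈ Q`: otherwise the projection to the factor of `q` is a homomorphism, so this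
factor entails `q`. The converse: `J → chase → IH`. -/
theorem many_queries (T : List (Rule ar)) (Q : List (CQ ar)) (hQ : ∀ q ∈ Q, Rewritable T q) (D : Type) [Finite D]
    [Nonempty D] (J : Inst ar D) :
    ∃ (H : Type) (_ : Finite H) (IH : Inst ar H) (g : Leg (T := T) J → H), IsHom (chaseInst J) IH g ∧
      (∀ q ∈ Q, Entails T IH q ↔ Entails T J q) ∧
      ∀ (e : Leg (T := T) J) (d : D), g e = g ⟨.base d, base_leg J d⟩ → e = ⟨.base d, base_leg J d⟩ := by
  classical
  have hex : ∀ j : {j : Fin Q.length // ¬ Entails T J (Q.get j)},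
      ∃ (H : Type) (_ : Finite H) (IH : Inst ar H) (g : Leg (T := T) J → H), IsHom (chaseInst J) IH g ∧
        ¬ Entails T IH (Q.get j.1) ∧
        ∀ (e : Leg (T := T) J) (d : D), g e = g ⟨.base d, base_leg J d⟩ → e = ⟨.base d, base_leg J d⟩ :=
    fun j => one_query T (Q.get j.1) (hQ _ (List.get_mem Q j.1)) D J j.2
  choose H hfin IH g hhom hnot _ using hex
  let IP : Inst ar ((∀ j, H j) × (D ⊕ Fin T.length)) := fun i t =>
    (∀ j, IH j i (fun p => (t p).1 j)) ∧
      ∃ t' : Fin (ar i) → Leg (T := T) J, chaseInst J i t' ∧ ∀ p, (t p).2 = lab (t' p).1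
  have hP : IsHom (chaseInst J) IP (fun e : Leg (T := T) J => ((fun j => g j e, lab e.1) :
      (∀ j, H j) × (D ⊕ Fin T.length))) := by
    intro i t ht
    exact ⟨fun j => hhom j i t ht, t, ht, fun p => rfl⟩
  refine ⟨(∀ j, H j) × (D ⊕ Fin T.length), inferInstance, IP, fun e => (fun j => g j e, lab e.1), hP, ?_, ?_⟩
  · intro q hq
    constructor
    · intro h
      by_contra hne
      obtain ⟨j, rfl⟩ := List.get_of_mem hq
      refine hnot ⟨j, hne⟩ ?_
      rintro M I hI ⟨f, hf⟩
      refine h M I hI ⟨fun x => f (x.1 ⟨j, hne⟩), ?_⟩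
      intro i t ht
      exact hf i _ (ht.1 ⟨j, hne⟩)
    · intro h M I hI ⟨f, hf⟩
      refine h M I hI ⟨fun d => f (fun j => g j ⟨.base d, base_leg J d⟩, lab (.base d : Elem T D)), ?_⟩
      intro i t ht
      exact hf i _ (hP i _ (chase_hom (T := T) J i t ht))
  · intro e d hed
    have h1 : lab e.1 = lab (.base d : Elem T D) := congrArg Prod.snd hed
    have h2 : lab e.1 = .inl d := h1
    exact Subtype.ext (lab_base h2)

end Pool.Agent.WFC
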