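import Pool.Agent.WFC.CP

set_option autoImplicit false

/-!
# BC: the chain argument
-/

namespace Pool.Agent.WFC

open Pool.Agent.H56

variable {k : ℕ} {ar : Fin k → ℕ} {T : List (Rule ar)} {D : Type} {K m : ℕ} {hm : ∀ i, ar i ≤ m} {J : Inst ar D}
  {q : CQ ar} {𝔽 : Fr hm J q T K} {st : List (Stg K m)} {τ : Tsk K m}

theorem Fails.sub {B B' : Box T D K} (h : Fails 𝔽 B) (hB : ∀ i, B' i ⊆ B i) : Fails 𝔽 B' := by
  obtain ⟨o, o', hc, hne, hall⟩ := h
  exact ⟨o, o', hc, hne, fun b hb b' hb' => hall b (hB _ hb) b' (hB _ hb')⟩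

theorem Det.sub {B B' : Box T D K} {M : Set (Occ K m)} {β : Type} {f : Row K → Elem T D → β} (h : Det 𝔽 B M f)
    (hB : ∀ i, B' i ⊆ B i) : Det 𝔽 B' M f := by
  intro o o' hc hne hM b hb b' hb' he
  exact h o o' hc hne hM b (hB _ hb) b' (hB _ hb') he

theorem Refutes.sub {B B' : Box T D K} {σ : Stg K m} (h : Refutes 𝔽 B σ) (hB : ∀ i, B' i ⊆ B i) :
    Refutes 𝔽 B' σ := by
  obtain ⟨fam, hdet, w, w', z, hE, hz, hall⟩ := h
  exact ⟨fam, hdet.sub hB, w, w', z, hE, hz, fun b hb => hall b (hB _ hb)⟩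

theorem BoxOk.sub {n : ℕ} {B B' : Box T D K} (h : BoxOk 𝔽 n B) (hB : ∀ i, B' i ⊆ B i) : BoxOk 𝔽 n B' :=
  ⟨fun ρ b hb => h.stg ρ b (hB _ hb), fun ρ b hb => h.lbl ρ b (hB _ hb),
    fun ρ b hb => h.eqp ρ b (hB _ hb)⟩

/-- On an empty box the claim between the tops of the two clones of a row fails. -/
theorem fails_of_empty {B : Box T D K} {ρ : Row K} (h : B ρ = ∅) : Fails 𝔽 B := by
  obtain ⟨e, c⟩ := ρ
  refine ⟨((e, c), none), ((e, !c), none), ⟨⟨?_, ?_⟩, ⟨?_, ?_⟩, ?_⟩, ?_, ?_⟩
  · intro p hp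
    simp at hp
  · exact 𝔽.ok.top e
  · intro p hp
    simp at hp
  · exact 𝔽.ok.top e
  · exact 𝔽.ok.eqv.refl _
  · intro hc
    have h1 : c = !c := congrArg Prod.snd hc
    cases c <;> simp at h1
  · intro b hb
    have hb' : b ∈ B (e, c) := hb
    rw [h] at hb'
    exact absurd hb' (Set.notMem_empty _)

/-- THE CHAIN ARGUMENT. Let `y` be a defined short word with `X(y) = X'(y) = M`, and let `Pred` be predicates of the
rows which are determined by the occurrences in `M`, such that on the whole box the truth value of `Pred` at the value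
of every word `(ρ, w) ~ y`, `(ρ, none) ∈ M`, is given by `bits`. If two words of a row in the class of `y` have
different bits, a cross-row claim fails or a stage is refuted.
Proof: we may assume that all `B ρ` are nonempty. Follow the chain of steps (in both directions) from `(ρ₀, w₁)` to
`(ρ₀, w₂)`; all words on it are equivalent to `y`, so their rows are in `M` (`nonvar_row`), and some step changes the
bit. Let the step be `ext g z`, `ext g' z` with a generator `(g, g')`.
* cross-row claim `o`, `o'`: `o ∈ X(y) = M`; the claim fails on the whole box: if `b`, `b'` have the same value at `o`,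
  `o'`, then `Pred` is the same set for `b`, `b'`, and the values at `ext (ow o) z`, `ext (ow o') z` are equal
  (`up_append`), so the bits are equal.
* equal values: `w`, `w'` in the same row with equal values on the whole box (`BoxOk.eqp`), so `ext` by `z` has equal
  values, and the bits are equal for any `b` in the box; impossible.
* merged words of a stage `σ`: `Refutes` with `fam = Pred`: `Det` on `σ.X ⊆ X(ext g z) = X(y) = M` (`stage_sees`);
  `|z| ≤ N` by the class lemma. -/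
theorem chain (hv : Valid 𝔽 st) {n : ℕ} {B : Box T D K} (hB : BoxOk 𝔽 n B) {M : Set (Occ K m)} {y : Wd K m}
    (hy : y.2.length ≤ cR K m) (hd : 𝔽.lbl y ≠ none) (hX : XX 𝔽 st y = M) (hX' : XX' 𝔽 st y = M)
    (Pred : Row K → Elem T D → Set (Elem T D)) (hdet : Det 𝔽 B M Pred) (bits : Row K → Set (List (Fin m)))
    (hbits : ∀ ρ, ((ρ, none) : Occ K m) ∈ M → ∀ b ∈ B ρ, ∀ w, Eqw 𝔽 st (ρ, w) y →
      (InS (up w b) (Pred ρ b) ↔ w ∈ bits ρ))
    {ρ₀ : Row K} {w₁ w₂ : List (Fin m)} (h1 : Eqw 𝔽 st (ρ₀, w₁) y) (h2 : Eqw 𝔽 st (ρ₀, w₂) y)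
    (hb1 : w₁ ∈ bits ρ₀) (hb2 : w₂ ∉ bits ρ₀) :
    Fails 𝔽 B ∨ ∃ σ ∈ st, Refutes 𝔽 B σ := by
  by_contra hcon
  push Not at hcon
  obtain ⟨hnf, hnr⟩ := hcon
  have hne : ∀ ρ, (B ρ).Nonempty := by
    intro ρ
    rw [Set.nonempty_iff_ne_empty]
    intro h
    exact hnf (fails_of_empty h)
  have hXX : XX 𝔽 st y = XX' 𝔽 st y := by rw [hX, hX']
  have hrow : ∀ x : Wd K m, Eqw 𝔽 st x y → ((x.1, none) : Occ K m) ∈ M := by
    intro x hx
    rw [← hX']
    exact (nonvar_row hv hXX hx).2
  -- the bits of the words of the class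
  have hbit : ∀ x : Wd K m, Eqw 𝔽 st x y → ∀ b ∈ B x.1,
      (InS (up x.2 b) (Pred x.1 b) ↔ x.2 ∈ bits x.1) := by
    intro x hx b hb
    exact hbits x.1 (hrow x hx) b hb x.2 hx
  have hstep : ∀ a b : Wd K m, Stp 𝔽 st a b → Eqw 𝔽 st a y → (a.2 ∈ bits a.1 ↔ b.2 ∈ bits b.1) := by
    rintro a b ⟨g, g', z, hg, rfl, rfl⟩ ha
    have hab : Eqw 𝔽 st (ext g z) (ext g' z) := Relation.EqvGen.rel _ _ ⟨g, g', z, hg, rfl, rfl⟩
    have hb : Eqw 𝔽 st (ext g' z) y := hab.symm.trans ha
    cases hg with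
    | @tr o o' hc hoo =>
      have hoM : o ∈ M := by
        rw [← hX]
        exact ⟨hc.1, z, ha⟩
      have hex : ∃ b ∈ B o.1, ∃ b' ∈ B o'.1, up (ow o).2 b = up (ow o').2 b' := by
        by_contra hcc
        push Not at hcc
        exact hnf ⟨o, o', hc, hoo, hcc⟩
      obtain ⟨b, hbB, b', hbB', hbb⟩ := hex
      have hP := hdet o o' hc hoo hoM b hbB b' hbB' hbb
      have e1 := hbit _ ha b hbB
      have e2 := hbit _ hb b' hbB'
      rw [← e1, ← e2]
      have e3 : up (ext (ow o) z).2 b = up (ext (ow o') z).2 b' := by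
        rw [ext_snd, ext_snd, up_append, up_append, hbb]
      rw [e3]
      exact iff_of_eq (congrArg (InS _) hP)
    | @eq ρ w w' e hw hw' he he' =>
      obtain ⟨b, hbB⟩ := hne ρ
      have h3 := hB.eqp ρ b hbB w w' hw hw' e he he'
      have e1 := hbit _ ha b hbB
      have e2 := hbit _ hb b hbB
      rw [← e1, ← e2]
      have e3 : up (ext (ρ, w) z).2 b = up (ext ((ρ, w') : Wd K m) z).2 b := by
        rw [ext_snd, ext_snd, up_append, up_append, h3]
      rw [e3]
      exact Iff.rfl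
    | @mg σ w w' hσ hw =>
      by_contra hcc
      apply hnr σ hσ
      have hsees := (stage_sees hv hσ hw z).1
      rw [XX_eqw ha, hX] at hsees
      refine ⟨Pred, ?_, w, w', z, hw, ?_, ?_⟩
      · intro o o' hc hoo hoX b hb b' hb' he
        exact hdet o o' hc hoo (hsees hoX) b hb b' hb' he
      · have h3 := (class_lemma hv hy hd ha.symm).1
        rw [ext_snd, List.length_append] at h3
        omega
      · intro b hbB hiff
        apply hcc
        have e1 := hbit _ ha b hbB
        have e2 := hbit _ hb b hbB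
        rw [← e1, ← e2]
        exact hiff
  have hmain : ∀ a b : Wd K m, Eqw 𝔽 st a b → Eqw 𝔽 st a y → (a.2 ∈ bits a.1 ↔ b.2 ∈ bits b.1) := by
    intro a b hab
    induction hab with
    | rel a b h => exact hstep a b h
    | refl a => exact fun _ => Iff.rfl
    | symm a b h ih => exact fun hb => (ih (Eqw.trans h hb)).symm
    | trans a b c h h' ih ih' =>
      exact fun ha => (ih ha).trans (ih' (Eqw.trans (Eqw.symm h) ha))
  exact hb2 ((hmain _ _ (h1.trans h2.symm) h1).1 hb1)

end Pool.Agent.WFC
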