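import Pool.Agent.WFC.Defs

set_option autoImplicit false

/-!
# Base: elementary lemmas on words, values and stages (complete)
-/

namespace Pool.Agent.WFC

open Pool.Agent.H56

variable {k : ℕ} {ar : Fin k → ℕ} {T : List (Rule ar)} {D : Type} {K m : ℕ}

@[simp] theorem ext_nil (x : Wd K m) : ext x [] = x := rfl

theorem ext_ext (x : Wd K m) (z z' : List (Fin m)) : ext (ext x z) z' = ext x (z' ++ z) := by
  simp [ext]

theorem ext_cons (x : Wd K m) (p : Fin m) (z : List (Fin m)) : ext (ext x z) [p] = ext x (p :: z) := rfl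

@[simp] theorem ext_fst (x : Wd K m) (z : List (Fin m)) : (ext x z).1 = x.1 := rfl

@[simp] theorem ext_snd (x : Wd K m) (z : List (Fin m)) : (ext x z).2 = z ++ x.2 := rfl

@[simp] theorem ow_none (ρ : Row K) : ow ((ρ, none) : Occ K m) = (ρ, []) := rfl

@[simp] theorem ow_some (ρ : Row K) (p : Fin m) : ow ((ρ, some p) : Occ K m) = (ρ, [p]) := rfl

theorem ow_len (o : Occ K m) : (ow o).2.length ≤ 1 := by
  rcases o with ⟨ρ, _ | p⟩ <;> simp

@[simp] theorem ow_fst (o : Occ K m) : (ow o).1 = o.1 := rfl

@[simp] theorem up_nil (e : Elem T D) : up ([] : List (Fin m)) e = some e := rfl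

theorem up_cons (p : Fin m) (w : List (Fin m)) (e : Elem T D) : up (p :: w) e = (up w e).bind (up1 p) := rfl

theorem up_append (z w : List (Fin m)) (e : Elem T D) : up (z ++ w) e = (up w e).bind (up z) := by
  induction z with
  | nil => cases h : up w e <;> simp [h]
  | cons p z ih =>
    rw [List.cons_append, up_cons, ih]
    cases h : up w e <;> simp [up_cons]

theorem val_ext (a : Row K → Elem T D) (x : Wd K m) (z : List (Fin m)) :
    val a (ext x z) = (val a x).bind (up z) := up_append z x.2 (a x.1)

theorem val_ow_none (a : Row K → Elem T D) (ρ : Row K) : val a (ow ((ρ, none) : Occ K m)) = some (a ρ) := rfl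

/-- Values of prefixes of defined words are defined. -/
theorem up_tail_ne {z w : List (Fin m)} {e : Elem T D} (h : up (z ++ w) e ≠ none) : up w e ≠ none := by
  intro h'
  rw [up_append, h'] at h
  exact h rfl

theorem val_tail_ne {a : Row K → Elem T D} {x : Wd K m} {z : List (Fin m)} (h : val a (ext x z) ≠ none) :
    val a x ≠ none := up_tail_ne h

theorem map_ne_none {α β : Type} {f : α → β} {x : Option α} : x.map f ≠ none ↔ x ≠ none := by
  cases x <;> simp

theorem up1_eq_some {p : Fin m} {e e' : Elem T D} (h : up1 p e = some e') :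
    ∃ (r : Fin T.length) (v : Fin (T.get r).1 → Elem T D) (hp : p.1 < ar (symOf r)) (x : Fin (T.get r).1),
      e = .new r v ∧ headOf r ⟨p.1, hp⟩ = some x ∧ e' = v x := by
  cases e with
  | base d => simp [up1] at h
  | new r v =>
    simp only [up1] at h
    split_ifs at h with hp
    rw [Option.map_eq_some_iff] at h
    obtain ⟨x, hx, rfl⟩ := h
    exact ⟨r, v, hp, x, rfl, hx, rfl⟩

theorem up1_new {p : Fin m} {r : Fin T.length} {v : Fin (T.get r).1 → Elem T D} {hp : p.1 < ar (symOf r)}
    {x : Fin (T.get r).1} (h : headOf r ⟨p.1, hp⟩ = some x) : up1 p (.new r v) = some (v x) := by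
  simp only [up1, dif_pos hp, h, Option.map_some]

/-- The parent of `e` at `p` is defined iff `p` is a proper position of the rule of `e`. -/
theorem up1_ne_none_iff {p : Fin m} {e : Elem T D} {r : Fin T.length} (he : lab e = .inr r) :
    up1 p e ≠ none ↔ Proper r p := by
  cases e with
  | base d => simp [lab] at he
  | new r' v =>
    have : r' = r := by simpa [lab] using he
    subst this
    constructor
    · intro h
      obtain ⟨e', he'⟩ := Option.ne_none_iff_exists'.mp h
      obtain ⟨r, v', hp, x, h1, h2, -⟩ := up1_eq_some he'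
      cases h1
      exact ⟨hp, x, h2⟩
    · rintro ⟨hp, x, hx⟩
      rw [up1_new hx]
      simp

theorem up1_base_eq_none {p : Fin m} {e : Elem T D} {d : D} (he : lab e = .inl d) : up1 p e = none := by
  cases e with
  | base d' => rfl
  | new r v => simp [lab] at he

theorem lab_base {e : Elem T D} {d : D} (he : lab e = .inl d) : e = .base d := by
  cases e with
  | base d' =>
    have : d' = d := by simpa [lab] using he
    rw [this]
  | new r v => simp [lab] at he

theorem lab_new {e : Elem T D} {r : Fin T.length} (he : lab e = .inr r) : ∃ v, e = .new r v := by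
  cases e with
  | base d' => simp [lab] at he
  | new r' v =>
    have : r' = r := by simpa [lab] using he
    subst this
    exact ⟨v, rfl⟩

/-- Depth decreases along nonempty paths. -/
theorem dep_up1 {p : Fin m} {e e' : Elem T D} (h : up1 p e = some e') : dep e' < dep e := by
  obtain ⟨r, v, hp, x, rfl, -, rfl⟩ := up1_eq_some h
  simp only [dep]
  exact Nat.lt_succ_of_le (Finset.le_sup (f := fun x => dep (v x)) (Finset.mem_univ x))

theorem dep_up {w : List (Fin m)} {e e' : Elem T D} (h : up w e = some e') : dep e' + w.length ≤ dep e := by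
  induction w generalizing e' with
  | nil =>
    simp only [up_nil, Option.some.injEq] at h
    subst h
    simp
  | cons p w ih =>
    rw [up_cons, Option.bind_eq_some_iff] at h
    obtain ⟨e₁, h1, h2⟩ := h
    have := ih h1
    have := dep_up1 h2
    simp only [List.length_cons]
    omega

variable (J : Inst ar D)

theorem up1_stage {n : ℕ} {p : Fin m} {e e' : Elem T D} (he : e ∈ stage J (n + 1)) (h : up1 p e = some e') :
    e' ∈ stage J n := by
  obtain ⟨r, v, hp, x, rfl, -, rfl⟩ := up1_eq_some h
  obtain ⟨i, hi, -, hv, -⟩ := new_mem J he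
  exact stage_mono J (by omega) (hv x)

theorem up_stage {n : ℕ} {w : List (Fin m)} {e e' : Elem T D} (he : e ∈ stage J n) (h : up w e = some e') :
    e' ∈ stage J n := by
  induction w generalizing e' with
  | nil =>
    simp only [up_nil, Option.some.injEq] at h
    subst h
    exact he
  | cons p w ih =>
    rw [up_cons, Option.bind_eq_some_iff] at h
    obtain ⟨e₁, h1, h2⟩ := h
    exact up1_stage J (stage_succ J n (ih h1)) h2

/-- Proper ancestors of elements of stage `n + 1` are in stage `n`. -/
theorem up_stage_lt {n : ℕ} {w : List (Fin m)} (hw : w ≠ []) {e e' : Elem T D} (he : e ∈ stage J (n + 1))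
    (h : up w e = some e') : e' ∈ stage J n := by
  cases w with
  | nil => exact absurd rfl hw
  | cons p w =>
    rw [up_cons, Option.bind_eq_some_iff] at h
    obtain ⟨e₁, h1, h2⟩ := h
    exact up1_stage J (up_stage J he h1) h2

theorem up_leg {w : List (Fin m)} {e e' : Elem T D} (he : e ∈ Leg J) (h : up w e = some e') : e' ∈ Leg J := by
  obtain ⟨n, hn⟩ := he
  exact ⟨n, up_stage J hn h⟩

/-- Stage `0` contains no new elements. -/
theorem not_new_stage_zero {e : Elem T D} (he : e ∈ stage J 0) {r : Fin T.length} : lab e ≠ .inr r := by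
  obtain ⟨d, rfl⟩ := he
  simp [lab]

theorem val_map_lab {N : ℕ} {Λ : Type} {ℓ : Elem T D → Λ} (h : GoodLab N m ℓ) {x y : Option (Elem T D)}
    (hxy : x.map ℓ = y.map ℓ) : x.map lab = y.map lab := by
  cases x <;> cases y <;> simp_all
  exact h.lab _ _ hxy

/-- Refinements of good labellings are good. -/
theorem GoodLab.prod {N : ℕ} {Λ Λ' : Type} {ℓ : Elem T D → Λ} (h : GoodLab N m ℓ) (g : Elem T D → Λ') :
    GoodLab N m (fun e => (ℓ e, g e)) :=
  ⟨fun e e' he => h.lab e e' (Prod.mk.inj he).1, fun z e e' hz hl hu he => h.acyc z e e' hz hl hu (Prod.mk.inj he).1⟩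

/-- The parents of a cell at a value. -/
theorem up1_cell (hm : ∀ i, ar i ≤ m) {r : Fin T.length} {v : Fin (T.get r).1 → Elem T D} {p : Fin (ar (symOf r))}
    {x : Fin (T.get r).1} (h : headOf r p = some x) :
    up1 (⟨p.1, lt_of_lt_of_le p.2 (hm _)⟩ : Fin m) (.new r v) = some (v x) :=
  up1_new (hp := p.2) h

/-- The atom `cell` evaluated by `h`. -/
theorem cell_args (hm : ∀ i, ar i ≤ m) {X N : Type} (r : Fin T.length) (top : X) (arg : Fin m → X) (h : X → N)
    (p : Fin (ar (symOf r))) : h ((cell hm r top arg).2 p) =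
      if headOf r p = none then h top else h (arg ⟨p.1, lt_of_lt_of_le p.2 (hm _)⟩) := by
  simp only [cell]
  split_ifs <;> rfl

end Pool.Agent.WFC
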