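import Pool.Agent.WFC.GL

set_option autoImplicit false

/-!
# CL1: elementary properties of the equivalences of words
-/

namespace Pool.Agent.WFC

open Pool.Agent.H56

variable {k : ℕ} {ar : Fin k → ℕ} {T : List (Rule ar)} {D : Type} {K m : ℕ} {hm : ∀ i, ar i ≤ m} {J : Inst ar D}
  {q : CQ ar} {𝔽 : Fr hm J q T K} {st st' : List (Stg K m)} {τ : Tsk K m}

theorem Eqw.refl (x : Wd K m) : Eqw 𝔽 st x x := Relation.EqvGen.refl x

theorem Eqw.symm {x y : Wd K m} (h : Eqw 𝔽 st x y) : Eqw 𝔽 st y x := Relation.EqvGen.symm _ _ h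

theorem Eqw.trans {x y z : Wd K m} (h : Eqw 𝔽 st x y) (h' : Eqw 𝔽 st y z) : Eqw 𝔽 st x z :=
  Relation.EqvGen.trans _ _ _ h h'

/-- The equivalence is a congruence for extensions. -/
theorem Eqw.ext {x y : Wd K m} (h : Eqw 𝔽 st x y) (z : List (Fin m)) : Eqw 𝔽 st (ext x z) (ext y z) := by
  induction h with
  | rel x y h =>
    obtain ⟨g, g', z0, hg, rfl, rfl⟩ := h
    exact Relation.EqvGen.rel _ _ ⟨g, g', z ++ z0, hg, ext_ext g z0 z, ext_ext g' z0 z⟩
  | refl x => exact Relation.EqvGen.refl _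
  | symm x y _ ih => exact Relation.EqvGen.symm _ _ ih
  | trans x y z' _ _ ih1 ih2 => exact Relation.EqvGen.trans _ _ _ ih1 ih2

theorem cl1_mono {α : Type} {r r' : α → α → Prop} (hr : ∀ a b, r a b → r' a b) {x y : α}
    (h : Relation.EqvGen r x y) : Relation.EqvGen r' x y := by
  induction h with
  | rel x y h => exact Relation.EqvGen.rel _ _ (hr _ _ h)
  | refl x => exact Relation.EqvGen.refl _
  | symm x y _ ih => exact Relation.EqvGen.symm _ _ ih
  | trans x y z' _ _ ih1 ih2 => exact Relation.EqvGen.trans _ _ _ ih1 ih2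

theorem cl1_gen {x y : Wd K m} (σ : Stg K m) (h : Gen 𝔽 st x y) : Gen 𝔽 (σ :: st) x y := by
  cases h with
  | tr h1 h2 => exact Gen.tr h1 h2
  | eq h1 h2 h3 h4 => exact Gen.eq h1 h2 h3 h4
  | mg h1 h2 => exact Gen.mg (List.mem_cons_of_mem _ h1) h2

theorem cl1_stp {x y : Wd K m} (σ : Stg K m) (h : Stp 𝔽 st x y) : Stp 𝔽 (σ :: st) x y := by
  obtain ⟨g, g', z, hg, h1, h2⟩ := h
  exact ⟨g, g', z, cl1_gen σ hg, h1, h2⟩

/-- More stages: a coarser equivalence. -/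
theorem Eqw.cons {x y : Wd K m} (σ : Stg K m) (h : Eqw 𝔽 st x y) : Eqw 𝔽 (σ :: st) x y :=
  cl1_mono (fun _ _ h' => cl1_stp σ h') h

theorem EqB.eqw {B : ℕ} {x y : Wd K m} (h : EqB 𝔽 st B x y) : Eqw 𝔽 st x y :=
  cl1_mono (fun _ _ h' => h'.1) h

theorem EqB.mono {B B' : ℕ} (hB : B ≤ B') {x y : Wd K m} (h : EqB 𝔽 st B x y) : EqB 𝔽 st B' x y :=
  cl1_mono (fun _ _ h' => ⟨h'.1, lt_of_lt_of_le h'.2.1 hB, lt_of_lt_of_le h'.2.2 hB⟩) h

/-- Extensions of bounded chains. -/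
theorem EqB.ext {B : ℕ} {x y : Wd K m} (h : EqB 𝔽 st B x y) (z : List (Fin m)) :
    EqB 𝔽 st (B + z.length) (WFC.ext x z) (WFC.ext y z) := by
  induction h with
  | rel x y h =>
    obtain ⟨⟨g, g', z0, hg, rfl, rfl⟩, h1, h2⟩ := h
    refine Relation.EqvGen.rel _ _ ⟨⟨g, g', z ++ z0, hg, ext_ext g z0 z, ext_ext g' z0 z⟩, ?_, ?_⟩
    · rw [ext_snd, List.length_append]
      omega
    · rw [ext_snd, List.length_append]
      omega
  | refl x => exact Relation.EqvGen.refl _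
  | symm x y _ ih => exact Relation.EqvGen.symm _ _ ih
  | trans x y z' _ _ ih1 ih2 => exact Relation.EqvGen.trans _ _ _ ih1 ih2

theorem EqB.cons {B : ℕ} {x y : Wd K m} (σ : Stg K m) (h : EqB 𝔽 st B x y) : EqB 𝔽 (σ :: st) B x y :=
  cl1_mono (fun _ _ h' => ⟨cl1_stp σ h'.1, h'.2⟩) h

/-- Two occurrences with a claim are equivalent: a cross-row claim is a generator; for two occurrences in the same row
`(e, c)` go through the same occurrence in the clone `(e, !c)` (`G.R` is an equivalence, and the clone has the same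
nodes, rules and challenges). -/
theorem eqw_clm {o o' : Occ K m} (h : 𝔽.G.Clm o o') : Eqw 𝔽 st (ow o) (ow o') := by
  by_cases hne : o.1 = o'.1
  · have h2 : 𝔽.G.Ch (((o.1.1, !o.1.2), o.2) : Occ K m) := h.1
    have h3 : 𝔽.G.Clm o (((o.1.1, !o.1.2), o.2) : Occ K m) := ⟨h.1, h2, 𝔽.ok.eqv.refl _⟩
    have h4 : 𝔽.G.Clm (((o.1.1, !o.1.2), o.2) : Occ K m) o' := ⟨h2, h.2.1, h.2.2⟩
    have h5 : o.1 ≠ (((o.1.1, !o.1.2), o.2) : Occ K m).1 := by
      intro h6
      have h7 := congrArg Prod.snd h6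
      simp at h7
    have h8 : (((o.1.1, !o.1.2), o.2) : Occ K m).1 ≠ o'.1 := by
      rw [← hne]
      exact fun h6 => h5 h6.symm
    refine Relation.EqvGen.trans _ _ _ (Relation.EqvGen.rel _ _ ⟨_, _, [], Gen.tr h3 h5, rfl, rfl⟩)
      (Relation.EqvGen.rel _ _ ⟨_, _, [], Gen.tr h4 h8, rfl, rfl⟩)
  · exact Relation.EqvGen.rel _ _ ⟨_, _, [], Gen.tr h hne, rfl, rfl⟩

end Pool.Agent.WFC
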