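import Pool.Agent.WFC.CL1

set_option autoImplicit false

/-!
# CL2: generators in valid states
-/

namespace Pool.Agent.WFC

open Pool.Agent.H56

variable {k : ℕ} {ar : Fin k → ℕ} {T : List (Rule ar)} {D : Type} {K m : ℕ} {hm : ∀ i, ar i ≤ m} {J : Inst ar D}
  {q : CQ ar} {𝔽 : Fr hm J q T K} {st st' : List (Stg K m)} {τ : Tsk K m}

/-- Values of challenged occurrences are defined. -/
theorem cl2_dom {o : Occ K m} (h : 𝔽.G.vo o) : 𝔽.lbl (ow o) ≠ none := by
  obtain ⟨ρ, i⟩ := o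
  cases i with
  | none =>
    simp [Fr.lbl, val]
  | some p =>
    have h1 : Proper (𝔽.G.r ρ.1) p := h p rfl
    have h2 := (up1_ne_none_iff (p := p) (𝔽.rule ρ)).mpr h1
    rw [Fr.lbl, map_ne_none]
    exact h2

theorem cl2_cR_le : cR K m ≤ cN K m := by
  unfold cN
  omega

theorem cl2_one_le : 1 ≤ cR K m := by
  unfold cR
  omega

theorem cl2_short {x : Wd K m} (h : x.2.length ≤ cR K m) : ∀ w', w' <:+ x.2 →
    ∃ y : Wd K m, y.2.length ≤ cR K m ∧ EqB 𝔽 st (2 * cN K m + 1) (x.1, w') y := by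
  intro w' hw'
  exact ⟨(x.1, w'), le_trans hw'.length_le h, Relation.EqvGen.refl _⟩

/-- In a valid state every generator `(g, g')` has: length at most `N`, defined, equal labels to depth `2 N + L`, and all
tails of `g` and `g'` are connected to short words through words of length at most `2 N`.
(Cross-row claims: `𝔽.tr`, length at most `1`; equal values: clear, the words are short; merged words: `WOk`, with
`EqB.cons`, by induction on `st`.)  Definedness of `ow o` for a challenged occurrence: `𝔽.rule`, `Proper`, and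
`up1_ne_none_iff`. -/
theorem gen_ok (hv : Valid 𝔽 st) {g g' : Wd K m} (h : Gen 𝔽 st g g') :
    g.2.length ≤ cN K m ∧ g'.2.length ≤ cN K m ∧ 𝔽.lbl g ≠ none ∧
      (∀ z : List (Fin m), z.length ≤ 2 * cN K m + 𝔽.L → 𝔽.lbl (ext g z) = 𝔽.lbl (ext g' z)) ∧
      (∀ w', w' <:+ g.2 → ∃ x : Wd K m, x.2.length ≤ cR K m ∧ EqB 𝔽 st (2 * cN K m + 1) (g.1, w') x) ∧
      (∀ w', w' <:+ g'.2 → ∃ x : Wd K m, x.2.length ≤ cR K m ∧ EqB 𝔽 st (2 * cN K m + 1) (g'.1, w') x) := by
  have hRN : cR K m ≤ cN K m := cl2_cR_le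
  have h1R : 1 ≤ cR K m := cl2_one_le
  induction h with
  | @tr o o' hc hne =>
    have h1 := ow_len o
    have h2 := ow_len o'
    exact ⟨by omega, by omega, cl2_dom hc.1.1, fun z hz => 𝔽.tr o o' hc hne z hz,
      cl2_short (by omega), cl2_short (by omega)⟩
  | @eq ρ w w' e hw hw' h1 h2 =>
    refine ⟨by simpa using le_trans hw hRN, by simpa using le_trans hw' hRN, ?_, ?_,
      cl2_short hw, cl2_short hw'⟩
    · rw [Fr.lbl, map_ne_none]
      have h3 : val 𝔽.a ((ρ, w) : Wd K m) = some e := h1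
      rw [h3]
      simp
    · intro z _
      have h3 : val 𝔽.a ((ρ, w) : Wd K m) = some e := h1
      have h4 : val 𝔽.a ((ρ, w') : Wd K m) = some e := h2
      rw [Fr.lbl, Fr.lbl, val_ext, val_ext, h3, h4]
  | @mg σ w w' hσ hE =>
    induction st with
    | nil => simp at hσ
    | cons σ' st ih =>
      obtain ⟨hv1, -, hv2⟩ := hv
      rcases List.mem_cons.mp hσ with rfl | hσ
      · obtain ⟨h1, h2, h3⟩ := hv2 w w' hE
        refine ⟨h1.len, h2.len, h1.dom, h3, ?_, ?_⟩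
        · intro w₁ hw₁
          obtain ⟨x, hx, hx2⟩ := h1.tails w₁ hw₁
          exact ⟨x, hx, EqB.cons _ hx2⟩
        · intro w₁ hw₁
          obtain ⟨x, hx, hx2⟩ := h2.tails w₁ hw₁
          exact ⟨x, hx, EqB.cons _ hx2⟩
      · obtain ⟨h1, h2, h3, h4, h5, h6⟩ := ih hv1 hσ
        refine ⟨h1, h2, h3, h4, ?_, ?_⟩
        · intro w₁ hw₁
          obtain ⟨x, hx, hx2⟩ := h5 w₁ hw₁
          exact ⟨x, hx, EqB.cons _ hx2⟩
        · intro w₁ hw₁
          obtain ⟨x, hx, hx2⟩ := h6 w₁ hw₁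
          exact ⟨x, hx, EqB.cons _ hx2⟩

theorem cl2_stp (hv : Valid 𝔽 st) {x y : Wd K m} (h : Stp 𝔽 st x y) (hx : x.2.length < 2 * cN K m + 1) :
    𝔽.lbl x = 𝔽.lbl y := by
  obtain ⟨g, g', z, hg, rfl, rfl⟩ := h
  obtain ⟨-, -, -, h4, -, -⟩ := gen_ok hv hg
  refine h4 z ?_
  rw [ext_snd, List.length_append] at hx
  omega

/-- Words connected through words of length at most `2 N` have the same label. -/
theorem eqB_lbl (hv : Valid 𝔽 st) {x y : Wd K m} (h : EqB 𝔽 st (2 * cN K m + 1) x y) : 𝔽.lbl x = 𝔽.lbl y := by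
  induction h with
  | rel x y h => exact cl2_stp hv h.1 h.2.1
  | refl x => rfl
  | symm x y _ ih => exact ih.symm
  | trans x y z' _ _ ih1 ih2 => exact ih1.trans ih2

end Pool.Agent.WFC
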