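import Pool.Agent.WFC.CL2

set_option autoImplicit false

/-!
# CL3: the class lemma
-/

namespace Pool.Agent.WFC

open Pool.Agent.H56

variable {k : ℕ} {ar : Fin k → ℕ} {T : List (Rule ar)} {D : Type} {K m : ℕ} {hm : ∀ i, ar i ≤ m} {J : Inst ar D}
  {q : CQ ar} {𝔽 : Fr hm J q T K} {st st' : List (Stg K m)} {τ : Tsk K m}

/-- The property of the words in the class lemma. -/
def cl3P (𝔽 : Fr hm J q T K) (st : List (Stg K m)) (x : Wd K m) : Prop :=
  x.2.length < cN K m ∧ 𝔽.lbl x ≠ none ∧
    ∀ w', w' <:+ x.2 → ∃ y : Wd K m, y.2.length ≤ cR K m ∧ EqB 𝔽 st (2 * cN K m + 1) (x.1, w') y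

/-- A word with a defined value whose tails are connected with short words has length less than `N`. -/
theorem cl3_len (hv : Valid 𝔽 st) {y : Wd K m} (hd : 𝔽.lbl y ≠ none)
    (ht : ∀ w', w' <:+ y.2 → ∃ y' : Wd K m, y'.2.length ≤ cR K m ∧ EqB 𝔽 st (2 * cN K m + 1) (y.1, w') y') :
    y.2.length < cN K m := by
  by_contra hlen
  have hlen' : cN K m ≤ y.2.length := by omega
  have hsuf : ∀ i : ℕ, y.2.drop (y.2.length - i) <:+ y.2 := fun i => List.drop_suffix _ _
  choose f hf1 hf2 using ht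
  let g : ℕ → Wd K m := fun i => f (y.2.drop (y.2.length - i)) (hsuf i)
  have hfin : {x : Wd K m | x.2.length ≤ cR K m}.Finite := finite_short K m (cR K m)
  have hcard : hfin.toFinset.card < (Finset.range (cN K m + 1)).card := by
    rw [Finset.card_range, ← Set.ncard_eq_toFinset_card _ hfin]
    unfold cN
    omega
  have hmaps : ∀ i ∈ Finset.range (cN K m + 1), g i ∈ hfin.toFinset := by
    intro i _
    rw [Set.Finite.mem_toFinset]
    exact hf1 _ (hsuf i)
  obtain ⟨i, hi, j, hj, hij, hgij⟩ := Finset.exists_ne_map_eq_of_card_lt_of_maps_to hcard hmaps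
  have key : ∀ i j : ℕ, i < j → j < cN K m + 1 → g i = g j → False := by
    intro i j hij hj hg
    have h1 : EqB 𝔽 st (2 * cN K m + 1) (y.1, y.2.drop (y.2.length - i)) (g i) := hf2 _ (hsuf i)
    have h2 : EqB 𝔽 st (2 * cN K m + 1) (y.1, y.2.drop (y.2.length - j)) (g j) := hf2 _ (hsuf j)
    rw [← hg] at h2
    have h3 : 𝔽.lbl (y.1, y.2.drop (y.2.length - i)) = 𝔽.lbl (y.1, y.2.drop (y.2.length - j)) :=
      (eqB_lbl hv h1).trans (eqB_lbl hv h2).symm
    have hle : y.2.length - j ≤ y.2.length - i := by omega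
    have h4 : y.2.drop (y.2.length - i) <:+ y.2.drop (y.2.length - j) := by
      have h5 : y.2.drop (y.2.length - i) =
          (y.2.drop (y.2.length - j)).drop (y.2.length - i - (y.2.length - j)) := by
        rw [List.drop_drop]
        congr 1
        omega
      rw [h5]
      exact List.drop_suffix _ _
    obtain ⟨z, hz⟩ := h4
    have hzlen : z.length = j - i := by
      have h6 := congrArg List.length hz
      rw [List.length_append, List.length_drop, List.length_drop] at h6
      omega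
    have hz0 : z ≠ [] := by
      intro h6
      rw [h6] at hzlen
      simp only [List.length_nil] at hzlen
      omega
    obtain ⟨t, ht⟩ := hsuf j
    have hdy : val 𝔽.a y ≠ none := map_ne_none.mp hd
    have hdj : up (y.2.drop (y.2.length - j)) (𝔽.a y.1) ≠ none := by
      refine up_tail_ne (z := t) ?_
      rw [ht]
      exact hdy
    rw [← hz] at hdj
    have hdi := up_tail_ne hdj
    obtain ⟨e, he⟩ := Option.ne_none_iff_exists'.mp hdi
    obtain ⟨e', he'⟩ := Option.ne_none_iff_exists'.mp hdj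
    have h7 : up z e = some e' := by
      rw [up_append, he] at he'
      exact he'
    have h8 : 𝔽.lbl (y.1, y.2.drop (y.2.length - i)) = some (𝔽.ℓ e) := by
      change (up (y.2.drop (y.2.length - i)) (𝔽.a y.1)).map 𝔽.ℓ = _
      rw [he]
      rfl
    have h9 : 𝔽.lbl (y.1, y.2.drop (y.2.length - j)) = some (𝔽.ℓ e') := by
      change (up (y.2.drop (y.2.length - j)) (𝔽.a y.1)).map 𝔽.ℓ = _
      rw [← hz, he']
      rfl
    rw [h8, h9] at h3
    exact 𝔽.good.acyc z e e' hz0 (by omega) h7 (Option.some.inj h3)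
  rw [Finset.mem_range] at hi hj
  rcases lt_or_gt_of_ne hij with h | h
  · exact key i j h hj hgij
  · exact key j i h hi hgij.symm

/-- One step. -/
theorem cl3_step (hv : Valid 𝔽 st) {g g' : Wd K m} {z : List (Fin m)}
    (hs : ∀ z : List (Fin m), (ext g z).2.length < 2 * cN K m + 1 → (ext g' z).2.length < 2 * cN K m + 1 →
      EqB 𝔽 st (2 * cN K m + 1) (ext g z) (ext g' z))
    (hg : g.2.length ≤ cN K m) (hg' : g'.2.length ≤ cN K m)
    (hl : ∀ z : List (Fin m), z.length ≤ 2 * cN K m + 𝔽.L → 𝔽.lbl (ext g z) = 𝔽.lbl (ext g' z))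
    (ht : ∀ w', w' <:+ g'.2 → ∃ x : Wd K m, x.2.length ≤ cR K m ∧ EqB 𝔽 st (2 * cN K m + 1) (g'.1, w') x)
    (hP : cl3P 𝔽 st (ext g z)) : cl3P 𝔽 st (ext g' z) := by
  obtain ⟨h1, h2, h3⟩ := hP
  rw [ext_snd, List.length_append] at h1
  have hd : 𝔽.lbl (ext g' z) ≠ none := by
    rw [← hl z (by omega)]
    exact h2
  have ht' : ∀ w', w' <:+ (ext g' z).2 → ∃ y : Wd K m, y.2.length ≤ cR K m ∧
      EqB 𝔽 st (2 * cN K m + 1) ((ext g' z).1, w') y := by
    intro w' hw'
    rcases List.suffix_or_suffix_of_suffix hw' (List.suffix_append z g'.2) with h | h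
    · exact ht w' h
    · obtain ⟨z', rfl⟩ := h
      have hz' : z' <:+ z := by
        obtain ⟨t, ht⟩ := hw'
        rw [ext_snd, ← List.append_assoc] at ht
        exact ⟨t, List.append_cancel_right ht⟩
      have h4 : z' ++ g.2 <:+ (ext g z).2 := by
        obtain ⟨t, rfl⟩ := hz'
        exact ⟨t, by rw [ext_snd, List.append_assoc]⟩
      obtain ⟨y, hy1, hy2⟩ := h3 _ h4
      have h5 := hz'.length_le
      refine ⟨y, hy1, Relation.EqvGen.trans _ _ _ (Relation.EqvGen.symm _ _ (hs z' ?_ ?_)) hy2⟩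
      · rw [ext_snd, List.length_append]
        omega
      · rw [ext_snd, List.length_append]
        omega
  exact ⟨cl3_len hv hd ht', hd, ht'⟩

theorem cl3_main (hv : Valid 𝔽 st) {x y : Wd K m} (h : Eqw 𝔽 st x y) :
    (cl3P 𝔽 st x ↔ cl3P 𝔽 st y) ∧ (cl3P 𝔽 st x → EqB 𝔽 st (cN K m) x y) := by
  induction h with
  | rel x y h =>
    have h' := h
    obtain ⟨g, g', z, hg, rfl, rfl⟩ := h
    obtain ⟨h1, h2, -, h4, h5, h6⟩ := gen_ok hv hg
    have hiff : cl3P 𝔽 st (ext g z) ↔ cl3P 𝔽 st (ext g' z) := by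
      constructor
      · exact cl3_step hv (fun z h7 h8 => Relation.EqvGen.rel _ _ ⟨⟨g, g', z, hg, rfl, rfl⟩, h7, h8⟩) h1 h2 h4 h6
      · exact cl3_step hv (fun z h7 h8 => Relation.EqvGen.symm _ _
          (Relation.EqvGen.rel _ _ ⟨⟨g, g', z, hg, rfl, rfl⟩, h8, h7⟩)) h2 h1 (fun z hz => (h4 z hz).symm) h5
    exact ⟨hiff, fun hP => Relation.EqvGen.rel _ _ ⟨h', hP.1, (hiff.mp hP).1⟩⟩
  | refl x => exact ⟨Iff.rfl, fun _ => Relation.EqvGen.refl _⟩
  | symm x y _ ih => exact ⟨ih.1.symm, fun hP => Relation.EqvGen.symm _ _ (ih.2 (ih.1.mpr hP))⟩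
  | trans x y z' _ _ ih1 ih2 =>
    exact ⟨ih1.1.trans ih2.1, fun hP => Relation.EqvGen.trans _ _ _ (ih1.2 hP) (ih2.2 (ih1.1.mp hP))⟩

/-- THE CLASS LEMMA. Let `x₀` be a defined word of length at most `R` and `x₀ ~ x`. Then `x` has length less than `N`,
it is connected with `x₀` through words of length less than `N`, and all tails of `x` are connected to short words
through words of length at most `2 N`.
Proof: write the chain from `x₀` to `x` as `ReflTransGen` of steps in both directions and use induction. Let `x` have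
these properties and let `x = ext g z`, `y = ext g' z`, `(g, g')` or `(g', g)` a generator. Then `|z| < N`, `|g'| ≤ N`, so
`|y| ≤ 2 N` and this is a step through words of length at most `2 N`; so `lbl y = lbl x = lbl x₀` is defined. A tail of
`y` is a tail of `g'` (use `gen_ok`) or `ext g' z'` with a tail `z'` of `z`; the latter is connected by one step to
`ext g z'`, a tail of `x`. Suppose `|y| ≥ N`. Then `y` has `N + 1` tails of length `0, ..., N`, each connected (through
words of length at most `2 N`) to a short word; there are at most `N` short words, so two of the tails, `(ρ, w₁)` and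
`(ρ, z'' ++ w₁)` with `z'' ≠ []`, `|z''| ≤ N`, are connected, hence have the same label (`eqB_lbl`); but the value of the
second one is the ancestor along `z''` of the value of the first one (both defined, as tails of a defined word), and
this contradicts `𝔽.good.acyc`. So `|y| < N`. -/
theorem class_lemma (hv : Valid 𝔽 st) {x₀ x : Wd K m} (h₀ : x₀.2.length ≤ cR K m) (hd : 𝔽.lbl x₀ ≠ none)
    (h : Eqw 𝔽 st x₀ x) : x.2.length < cN K m ∧ EqB 𝔽 st (cN K m) x₀ x ∧
      ∀ w', w' <:+ x.2 → ∃ y : Wd K m, y.2.length ≤ cR K m ∧ EqB 𝔽 st (2 * cN K m + 1) (x.1, w') y := by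
  have hRN : cR K m < cN K m := by
    unfold cN
    omega
  have hP : cl3P 𝔽 st x₀ := ⟨by omega, hd, fun w' hw' =>
    ⟨(x₀.1, w'), le_trans hw'.length_le h₀, Relation.EqvGen.refl _⟩⟩
  obtain ⟨h1, h2⟩ := cl3_main hv h
  have hPx := h1.mp hP
  exact ⟨hPx.1, h2 hP, hPx.2.2⟩

end Pool.Agent.WFC
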