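import Pool.Agent.WFC.CL3

set_option autoImplicit false

/-!
# CL4: labels are constant on classes
-/

namespace Pool.Agent.WFC

open Pool.Agent.H56

variable {k : ℕ} {ar : Fin k → ℕ} {T : List (Rule ar)} {D : Type} {K m : ℕ} {hm : ∀ i, ar i ≤ m} {J : Inst ar D}
  {q : CQ ar} {𝔽 : Fr hm J q T K} {st st' : List (Stg K m)} {τ : Tsk K m}

/-- Labels are constant on classes of defined short words, also for all extensions by at most `N + L` steps: along a
chain through words of length less than `N` every step is an extension of a generator by fewer than `N` letters. -/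
theorem class_lbl (hv : Valid 𝔽 st) {x₀ x : Wd K m} (h₀ : x₀.2.length ≤ cR K m) (hd : 𝔽.lbl x₀ ≠ none)
    (h : Eqw 𝔽 st x₀ x) (z : List (Fin m)) (hz : z.length ≤ cN K m + 𝔽.L) :
    𝔽.lbl (ext x₀ z) = 𝔽.lbl (ext x z) := by
  have hB := (class_lemma hv h₀ hd h).2.1
  clear h hd h₀
  induction hB with
  | rel x y hxy =>
    obtain ⟨⟨g, g', z', hg, rfl, rfl⟩, hl, -⟩ := hxy
    have hok := (gen_ok hv hg).2.2.2.1
    rw [ext_ext, ext_ext]
    refine hok _ ?_
    rw [List.length_append]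
    rw [ext_snd, List.length_append] at hl
    omega
  | refl x => rfl
  | symm x y _ ih => exact ih.symm
  | trans x y z _ _ ih1 ih2 => exact ih1.trans ih2

theorem lb_ne_none_iff (x : Wd K m) : 𝔽.lb x ≠ none ↔ 𝔽.lbl x ≠ none := by
  rw [Fr.lb, Fr.lbl, map_ne_none, map_ne_none]

/-- The same for `lb` at the word itself. -/
theorem class_lb (hv : Valid 𝔽 st) {x₀ x : Wd K m} (h₀ : x₀.2.length ≤ cR K m) (hd : 𝔽.lbl x₀ ≠ none)
    (h : Eqw 𝔽 st x₀ x) : 𝔽.lb x₀ = 𝔽.lb x := by
  have h1 := class_lbl hv h₀ hd h [] (by simp)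
  rw [ext_nil, ext_nil] at h1
  exact val_map_lab 𝔽.good h1

end Pool.Agent.WFC
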