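import Pool.Agent.WFC.LP2

set_option autoImplicit false

/-!
# CP: copies of the rows of a task, admissibility
-/

namespace Pool.Agent.WFC

open Pool.Agent.H56

variable {k : ℕ} {ar : Fin k → ℕ} {T : List (Rule ar)} {D : Type} {K m : ℕ} {hm : ∀ i, ar i ≤ m} {J : Inst ar D}
  {q : CQ ar} {𝔽 : Fr hm J q T K} {st : List (Stg K m)} {τ : Tsk K m}

theorem CP_cR1_le (K m : ℕ) : cR1 K m ≤ cR K m := by unfold cR; omega

theorem CP_K_le (K m : ℕ) : K + 1 ≤ cN K m := by unfold cN; omega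

theorem exists_copy (hτ : TOk 𝔽 st τ) {o : Occ K m} (ho : o ∈ τ.M) (e : Fin K) :
    ∃ z : List (Fin m), Eqw 𝔽 st (ext (ow o) z) (τ.u e) := by
  have h := (hτ.mem e).2.2.1
  rw [← h] at ho
  exact ho.2

/-- Every row in `M` contains copies of all rows of the task; there is such a row (the row of `u 0`). -/
theorem exists_cps (hK : 1 ≤ K) (hv : Valid 𝔽 st) (hτ : TOk 𝔽 st τ) :
    ∃ ρ xs, Cps 𝔽 st τ ρ xs := by
  have h0 := hτ.mem ⟨0, hK⟩
  have hX : XX 𝔽 st (τ.u ⟨0, hK⟩) = XX' 𝔽 st (τ.u ⟨0, hK⟩) := h0.2.2.1.trans h0.2.2.2.symm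
  have hrow := (nonvar_row hv hX (Eqw.refl _)).2
  rw [h0.2.2.2] at hrow
  have hc := fun e => exists_copy hτ hrow e
  choose xs hxs using hc
  refine ⟨(τ.u ⟨0, hK⟩).1, xs, hrow, fun e => ?_⟩
  have := hxs e
  simpa [ext] using this

theorem CP_lbl (hτ : TOk 𝔽 st τ) (e : Fin K) : 𝔽.lbl (τ.u e) ≠ none := by
  obtain ⟨r, hr⟩ := hτ.cw _ (hτ.mem e).1
  rw [← lb_ne_none_iff, hr]
  simp

/-- Copies are nonempty paths of length less than `N`. -/
theorem copy_len (hv : Valid 𝔽 st) (hτ : TOk 𝔽 st τ) {ρ : Row K} {w : List (Fin m)} {e : Fin K}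
    (h : Eqw 𝔽 st (ρ, w) (τ.u e)) : w ≠ [] ∧ w.length < cN K m := by
  have h0 := hτ.mem e
  have hX : XX 𝔽 st (τ.u e) = XX' 𝔽 st (τ.u e) := h0.2.2.1.trans h0.2.2.2.symm
  refine ⟨(nonvar_row hv hX h).1, ?_⟩
  exact (class_lemma hv ((hτ.len _ h0.1).trans (CP_cR1_le K m)) (CP_lbl hτ e) h.symm).1

/-- In a box which looks like the sample, words of length at most `4 N + L` are defined iff they are defined at the
sample, with the same rules or constants. -/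
theorem box_lb {n : ℕ} {B : Box T D K} (hB : BoxOk 𝔽 n B) {ρ : Row K} {b : Elem T D} (hb : b ∈ B ρ)
    {w : List (Fin m)} (hw : w.length ≤ 4 * cN K m + 𝔽.L) : (up w b).map lab = 𝔽.lb (ρ, w) :=
  val_map_lab 𝔽.good (hB.lbl ρ b hb w hw)

theorem CP_lb_copy (hv : Valid 𝔽 st) (hτ : TOk 𝔽 st τ) {ρ : Row K} {w : List (Fin m)} {e : Fin K}
    (h : Eqw 𝔽 st (ρ, w) (τ.u e)) : 𝔽.lb (ρ, w) = some (.inr ((lowPat 𝔽 st τ).r e)) := by
  have h0 := hτ.mem e
  rw [← class_lb hv ((hτ.len _ h0.1).trans (CP_cR1_le K m)) (CP_lbl hτ e) h.symm]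
  exact ruleOf_spec (hτ.cw _ h0.1)

/-- The values of copies. -/
theorem copy_val (hv : Valid 𝔽 st) (hτ : TOk 𝔽 st τ) {n : ℕ} {B : Box T D K} (hB : BoxOk 𝔽 n B) {ρ : Row K}
    {b : Elem T D} (hb : b ∈ B ρ) {w : List (Fin m)} {e : Fin K} (h : Eqw 𝔽 st (ρ, w) (τ.u e)) :
    ∃ v, up w b = some v ∧ v ∈ stage J n ∧ lab v = .inr ((lowPat 𝔽 st τ).r e) := by
  obtain ⟨hne, hlen⟩ := copy_len hv hτ h
  have hl := box_lb hB hb (w := w) (by omega)
  rw [CP_lb_copy hv hτ h, Option.map_eq_some_iff] at hl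
  obtain ⟨v, hv1, hv2⟩ := hl
  exact ⟨v, hv1, up_stage_lt J hne (hB.stg ρ b hb) hv1, hv2⟩

/-- The values of words at the input of the lower pattern. -/
theorem val_lowIn {ρ : Row K} {xs : Fin K → List (Fin m)} {b : Elem T D} (x : Wd K m)
    (h : up (xs x.1.1) b ≠ none) : val (lowIn xs b) x = up (x.2 ++ xs x.1.1) b := by
  obtain ⟨v, hv⟩ := Option.ne_none_iff_exists'.mp h
  rw [up_append, hv]
  unfold val lowIn
  rw [hv]
  rfl

/-- The inputs of the lower pattern are admissible of level `n`. -/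
theorem lowIn_adm (hv : Valid 𝔽 st) (hτ : TOk 𝔽 st τ) {n : ℕ} {B : Box T D K} (hB : BoxOk 𝔽 n B) {ρ : Row K}
    {xs : Fin K → List (Fin m)} (hx : Cps 𝔽 st τ ρ xs) {b : Elem T D} (hb : b ∈ B ρ) :
    Adm J n (lowPat 𝔽 st τ) (lowIn xs b) := by
  intro ρ'
  obtain ⟨v, hv1, hv2, hv3⟩ := copy_val hv hτ hB hb (hx.cp ρ'.1)
  have : lowIn xs b ρ' = v := by
    unfold lowIn
    rw [hv1]
    rfl
  rw [this]
  exact ⟨hv2, hv3⟩

/-- Validity of a shape at the copies in a row, for an input in the box, gives validity at the sample. -/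
theorem validAt_sample (hv : Valid 𝔽 st) (hτ : TOk 𝔽 st τ) {n : ℕ} {B : Box T D K} (hB : BoxOk 𝔽 n B) {ρ : Row K}
    {xs : Fin K → List (Fin m)} (hx : Cps 𝔽 st τ ρ xs) {b : Elem T D} (hb : b ∈ B ρ) {ζ : Shape T D K m}
    (hζ : ValidAt 𝔽.ℓ (2 * cN K m + 𝔽.L) (lowIn xs b) ζ) :
    ValidAt 𝔽.ℓ (2 * cN K m + 𝔽.L) (lowIn xs (𝔽.a ρ)) ζ := by
  have hKN := CP_K_le K m
  -- values of words
  have hb1 : ∀ x : Wd K m, val (lowIn xs b) x = up (x.2 ++ xs x.1.1) b := by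
    intro x
    apply val_lowIn (ρ := ρ)
    obtain ⟨v, hv1, -⟩ := copy_val hv hτ hB hb (hx.cp x.1.1)
    rw [hv1]
    simp
  have ha1 : ∀ x : Wd K m, val (lowIn xs (𝔽.a ρ)) x = up (x.2 ++ xs x.1.1) (𝔽.a ρ) := by
    intro x
    apply val_lowIn (ρ := ρ)
    have h1 := CP_lb_copy hv hτ (hx.cp x.1.1)
    intro h2
    have h3 : 𝔽.lb (ρ, xs x.1.1) = none := by
      unfold Fr.lb val
      rw [show up ((ρ, xs x.1.1) : Wd K m).2 (𝔽.a ((ρ, xs x.1.1) : Wd K m).1) = none from h2]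
      rfl
    rw [h3] at h1
    cases h1
  have hlen : ∀ x : Wd K m, (xs x.1.1).length < cN K m := fun x => (copy_len hv hτ (hx.cp x.1.1)).2
  have hlbl : ∀ x : Wd K m, x.2.length ≤ 3 * cN K m + 𝔽.L →
      (val (lowIn xs (𝔽.a ρ)) x).map 𝔽.ℓ = (val (lowIn xs b) x).map 𝔽.ℓ := by
    intro x hxl
    rw [ha1, hb1]
    exact (hB.lbl ρ b hb _ (by rw [List.length_append]; have := hlen x; omega)).symm
  refine ⟨?_, ?_, ?_⟩
  · intro x t hxt
    have h1 := hζ.tau x t hxt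
    have h2 := ζ.htau _ hxt
    simp only at h2
    rw [← h1]
    exact val_map_lab 𝔽.good (hlbl x (by omega))
  · intro x y hxy
    have h1 := hζ.dom x y hxy
    have h2 := (ζ.hth _ hxy).1
    simp only at h2
    have h3 := hlbl x (by omega)
    cases hval : val (lowIn xs (𝔽.a ρ)) x with
    | some v => rfl
    | none =>
      rw [hval] at h3
      cases hval' : val (lowIn xs b) x with
      | none => rw [hval'] at h1; exact h1
      | some v => rw [hval'] at h3; cases h3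
  · intro x y hxy z hz
    obtain ⟨h2, h3⟩ := ζ.hth _ hxy
    simp only at h2 h3
    rw [hlbl (ext x z) (by rw [ext_snd, List.length_append]; omega),
      hlbl (ext y z) (by rw [ext_snd, List.length_append]; omega)]
    exact hζ.th x y hxy z hz

end Pool.Agent.WFC
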