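import Mathlib
import Pool.Agent.H56.Step

set_option autoImplicit false

/-!
# Finite quotients of chases of rewritable queries: definitions

See `/team-store/notes_MP_46e064_lc_helper56_wfc.md` for the whole proof on paper.
The chase, its stages and the landed lemmas are in `Pool.Agent.H56.*`.
-/

namespace Pool.Agent.WFC

open Pool.Agent.H56

/-! ### Words -/

/-- The rows: `K` rows, each with a clone. -/
abbrev Row (K : ℕ) : Type := Fin K × Bool

/-- Words: a row and a path. LAST STEP FIRST: the path `p :: w` is the path `w` followed by the step `p`. -/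
abbrev Wd (K m : ℕ) : Type := Row K × List (Fin m)

/-- Occurrences: a row and `none` (its top) or `some p` (its argument at the position `p`). -/
abbrev Occ (K m : ℕ) : Type := Row K × Option (Fin m)

/-- The word of an occurrence: length 0 or 1. -/
def ow {K m : ℕ} (o : Occ K m) : Wd K m := (o.1, o.2.toList)

/-- Extension of a word by a path (which follows the word). -/
def ext {K m : ℕ} (x : Wd K m) (z : List (Fin m)) : Wd K m := (x.1, z ++ x.2)

variable {k : ℕ} {ar : Fin k → ℕ} {T : List (Rule ar)} {D : Type} {K m : ℕ}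

/-- The position `p` of the head of `r` holds a body variable. -/
def Proper (r : Fin T.length) (p : Fin m) : Prop :=
  ∃ (h : p.1 < ar (symOf r)) (x : Fin (T.get r).1), headOf r ⟨p.1, h⟩ = some x

/-- The parent at the position `p`: the argument of the birth atom at this position if it holds a body variable. -/
def up1 (p : Fin m) : Elem T D → Option (Elem T D)
  | .base _ => none
  | .new r v => if h : p.1 < ar (symOf r) then (headOf r ⟨p.1, h⟩).map v else none

/-- The ancestor along a path (last step first). -/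
def up : List (Fin m) → Elem T D → Option (Elem T D)
  | [], e => some e
  | p :: w, e => (up w e).bind (up1 p)

/-- The value of a word at an input `a`. -/
def val (a : Row K → Elem T D) (x : Wd K m) : Option (Elem T D) := up x.2 (a x.1)

/-! ### Atoms and entailment -/

/-- Atoms over a set of nodes `X`. -/
abbrev Atom (ar : Fin k → ℕ) (X : Type) : Type := Σ i : Fin k, (Fin (ar i) → X)

/-- Renaming the nodes of an atom. -/
def amap {X Y : Type} (f : X → Y) (α : Atom ar X) : Atom ar Y := ⟨α.1, f ∘ α.2⟩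

/-- The atom with the head symbol of `r`, with `top` at the positions of the existential variable and `arg p` at the
other positions `p`. -/
def cell (hm : ∀ i, ar i ≤ m) {X : Type} (r : Fin T.length) (top : X) (arg : Fin m → X) : Atom ar X :=
  ⟨symOf r, fun p => if headOf r p = none then top else arg ⟨p.1, lt_of_lt_of_le p.2 (hm _)⟩⟩

/-- Entailment of `q` from the facts of `J` (at the constants `cD`) and the atoms `F` over the nodes `X`, where
`R`-related nodes are identified. -/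
def EntG (T : List (Rule ar)) (J : Inst ar D) (q : CQ ar) {X : Type} (R : X → X → Prop) (cD : D → X)
    (F : Set (Atom ar X)) : Prop :=
  ∀ (N : Type) (I : Inst ar N), IsModel T I → ∀ h : X → N, (∀ x y, R x y → h x = h y) →
    IsHom J I (fun d => h (cD d)) → (∀ α ∈ F, I α.1 (fun p => h (α.2 p))) → Sat I q

/-- Supports can be chosen with at most `K` atoms. -/
def Small (T : List (Rule ar)) (J : Inst ar D) (q : CQ ar) (K : ℕ) : Prop :=
  ∀ (X : Type) (R : X → X → Prop) (cD : D → X) (F : Set (Atom ar X)), F.Finite → EntG T J q R cD F →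
    ∃ F' ⊆ F, F'.ncard ≤ K ∧ EntG T J q R cD F'

/-- Entailment of `q` from the cells of the real elements `O` and a context: nodes `Z` with identifications `R`,
constants `cD`, atoms `F`, glued to the real elements `w i` at the nodes `γ i`. -/
def EntR (T : List (Rule ar)) (J : Inst ar D) (q : CQ ar) {Z : Type} (R : Z → Z → Prop) (cD : D → Z)
    (F : Set (Atom ar Z)) {ι : Type} (w : ι → Elem T D) (γ : ι → Z) (O : Set (Elem T D)) : Prop :=
  ∀ (N : Type) (I : Inst ar N), IsModel T I → ∀ (g : Elem T D → N) (h : Z → N), HomOn J O I g →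
    (∀ x y, R x y → h x = h y) → (∀ α ∈ F, I α.1 (fun p => h (α.2 p))) → (∀ i, g (w i) = h (γ i)) →
    (∀ d, g (.base d) = h (cD d)) → Sat I q

/-! ### Patterns, shapes, games -/

/-- A pattern: nodes with identifications `R`, constants, context atoms `F`, and `K` rows (cells) with their nodes;
`ch e i`: the occurrence `i` of the row `e` is challenged. -/
structure Pat (T : List (Rule ar)) (D : Type) (K m : ℕ) : Type 1 where
  X : Type
  R : X → X → Prop
  cD : D → X
  F : Set (Atom ar X)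
  r : Fin K → Fin T.length
  nd : Fin K → Option (Fin m) → X
  ch : Fin K → Option (Fin m) → Prop

namespace Pat

/-- Valid occurrences: tops and proper positions. -/
def vo (G : Pat T D K m) (o : Occ K m) : Prop := ∀ p, o.2 = some p → Proper (G.r o.1.1) p

/-- The node of an occurrence. -/
def node (G : Pat T D K m) (o : Occ K m) : G.X := G.nd o.1.1 o.2

/-- Challenged occurrences. -/
def Ch (G : Pat T D K m) (o : Occ K m) : Prop := G.vo o ∧ G.ch o.1.1 o.2

/-- Root occurrences: the unchallenged ones. -/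
def Rt (G : Pat T D K m) (o : Occ K m) : Prop := G.vo o ∧ ¬ G.ch o.1.1 o.2

/-- Claims: two challenged occurrences of the same node. -/
def Clm (G : Pat T D K m) (o o' : Occ K m) : Prop := G.Ch o ∧ G.Ch o' ∧ G.R (G.node o) (G.node o')

/-- The cells of a pattern. -/
def cells (hm : ∀ i, ar i ≤ m) (G : Pat T D K m) : Set (Atom ar G.X) :=
  {α | ∃ e, α = cell hm (G.r e) (G.nd e none) (fun p => G.nd e (some p))}

/-- The axioms of patterns. -/
structure Ok (hm : ∀ i, ar i ≤ m) (J : Inst ar D) (q : CQ ar) (G : Pat T D K m) : Prop where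
  eqv : Equivalence G.R
  finF : G.F.Finite
  top : ∀ e, G.ch e none
  inv : ∀ o o', G.Ch o → G.vo o' → G.R (G.node o) (G.node o') → G.Ch o'
  ctx : ∀ o, G.Ch o → ∀ α ∈ G.F, ∀ p, ¬ G.R (G.node o) (α.2 p)
  cst : ∀ o, G.Ch o → ∀ d, ¬ G.R (G.node o) (G.cD d)
  ent : EntG T J q G.R G.cD (G.F ∪ G.cells hm)

end Pat

/-- Shapes: a set of words `S`, identifications `th` of words and labels `tau` of words; all words have length at most
`K + 1`, so there are only finitely many shapes. -/
structure Shape (T : List (Rule ar)) (D : Type) (K m : ℕ) : Type where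
  S : Set (Wd K m)
  th : Set (Wd K m × Wd K m)
  tau : Set (Wd K m × (D ⊕ Fin T.length))
  hS : ∀ x ∈ S, x.2.length ≤ K
  hth : ∀ p ∈ th, p.1.2.length ≤ K + 1 ∧ p.2.2.length ≤ K + 1
  htau : ∀ p ∈ tau, p.1.2.length ≤ K + 1

/-- The identifications of a shape over a pattern. -/
inductive ShRel (G : Pat T D K m) (ζ : Shape T D K m) : G.X ⊕ Wd K m → G.X ⊕ Wd K m → Prop
  | nd {a b : G.X} : G.R a b → ShRel G ζ (.inl a) (.inl b)
  | th {x y : Wd K m} : (x, y) ∈ ζ.th → ShRel G ζ (.inr x) (.inr y)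
  | root {o : Occ K m} : G.Rt o → ShRel G ζ (.inr (ow o)) (.inl (G.node o))
  | base {x : Wd K m} {d : D} : (x, .inl d) ∈ ζ.tau → ShRel G ζ (.inr x) (.inl (G.cD d))

/-- The cells of a shape. -/
def Shape.cells (hm : ∀ i, ar i ≤ m) (X : Type) (ζ : Shape T D K m) : Set (Atom ar (X ⊕ Wd K m)) :=
  {α | ∃ x ∈ ζ.S, ∃ r, (x, .inr r) ∈ ζ.tau ∧ α = cell hm r (.inr x) (fun p => .inr (ext x [p]))}

/-- Good shapes of a pattern. -/
structure GoodShape (hm : ∀ i, ar i ≤ m) (J : Inst ar D) (q : CQ ar) (G : Pat T D K m) (ζ : Shape T D K m) :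
    Prop where
  root : ∀ x ∈ ζ.S, (∃ o, G.Rt o ∧ x = ow o) ∨ ∃ y ∈ ζ.S, ∃ p, x = ext y [p]
  card : ζ.S.ncard ≤ K
  rule : ∀ x ∈ ζ.S, ∃ r, (x, .inr r) ∈ ζ.tau
  ent : EntG T J q (ShRel G ζ) (fun d => .inl (G.cD d)) ((amap Sum.inl) '' G.F ∪ ζ.cells hm G.X)

/-- A shape is valid at an input: its labels are right and its identifications are label-consistent to depth `L`. -/
structure ValidAt {Λ : Type} (ℓ : Elem T D → Λ) (L : ℕ) (a : Row K → Elem T D) (ζ : Shape T D K m) : Prop where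
  tau : ∀ x t, (x, t) ∈ ζ.tau → (val a x).map lab = some t
  dom : ∀ x y, (x, y) ∈ ζ.th → (val a x).isSome
  th : ∀ x y, (x, y) ∈ ζ.th → ∀ z : List (Fin m), z.length ≤ L →
    (val a (ext x z)).map ℓ = (val a (ext y z)).map ℓ

/-- Outputs of protocols: two occurrences and a set which contains the value of the first one but not the value of the
second one. -/
abbrev Out (T : List (Rule ar)) (D : Type) (K m : ℕ) : Type := Occ K m × Occ K m × Set (Elem T D)

/-- The output is a correct refutation of a claim at the input `a`. -/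
def FailAt (G : Pat T D K m) (a : Row K → Elem T D) (out : Out T D K m) : Prop :=
  G.Clm out.1 out.2.1 ∧ (∃ e ∈ out.2.2, val a (ow out.1) = some e) ∧
    ∃ e, e ∉ out.2.2 ∧ val a (ow out.2.1) = some e

/-- Decision trees: `ρ` rows, `E` inputs of the rows, `O` outputs. -/
inductive Tree (ρ E O : Type) : Type
  | leaf : O → Tree ρ E O
  | node : ρ → Set E → Tree ρ E O → Tree ρ E O → Tree ρ E O

namespace Tree

variable {ρ E O : Type}

/-- The depth of a decision tree. -/
def depth : Tree ρ E O → ℕ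
  | leaf _ => 0
  | node _ _ t f => max t.depth f.depth + 1

open Classical in
/-- The output of a decision tree. -/
noncomputable def run (a : ρ → E) : Tree ρ E O → O
  | leaf o => o
  | node i S t f => if a i ∈ S then t.run a else f.run a

end Tree

/-- The protocols used here. -/
abbrev Prot (T : List (Rule ar)) (D : Type) (K m : ℕ) : Type := Tree (Row K) (Elem T D) (Out T D K m)

/-- Good labellings. -/
structure GoodLab (N m : ℕ) {Λ : Type} (ℓ : Elem T D → Λ) : Prop where
  lab : ∀ e e', ℓ e = ℓ e' → lab e = lab e'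
  acyc : ∀ (z : List (Fin m)) (e e' : Elem T D), z ≠ [] → z.length ≤ N → up z e = some e' → ℓ e ≠ ℓ e'

/-- Admissible inputs of level `n`. -/
def Adm (J : Inst ar D) (n : ℕ) (G : Pat T D K m) (a : Row K → Elem T D) : Prop :=
  ∀ ρ, a ρ ∈ stage J n ∧ lab (a ρ) = .inr (G.r ρ.1)

/-! ### Constants -/

/-- The bound `ω` for the number of occurrences. -/
def cω (K m : ℕ) : ℕ := 2 * K * (m + 1)

/-- `μ₀`: bound for the number of steps of a big round. -/
def cμ (K m : ℕ) : ℕ := K * (K + 1) ^ (2 * cω K m + 1)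

/-- `M`: bound for the number of words in a big round. -/
def cM (K m : ℕ) : ℕ := K + K * cμ K m

/-- `R₁`: bound for the length of words in a big round. -/
def cR1 (K m : ℕ) : ℕ := cM K m + 1 + (K + 1) * cμ K m

/-- `R`: short words have length at most `R`. -/
def cR (K m : ℕ) : ℕ := cR1 K m + K + 2

/-- `N`: words which are equivalent to short words have length less than `N`. -/
noncomputable def cN (K m : ℕ) : ℕ := {x : Wd K m | x.2.length ≤ cR K m}.ncard + cR K m + K + 2

/-- Protocols of depth at most `c` exist for all patterns and all good labellings with at most `2 ^ b` labels, for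
inputs of level `n` and label-consistency to depth `L`. -/
def Cst (hm : ∀ i, ar i ≤ m) (J : Inst ar D) (q : CQ ar) (T : List (Rule ar)) (K n b L c : ℕ) : Prop :=
  ∀ G : Pat T D K m, G.Ok hm J q → ∀ (Λ : Type) [Finite Λ], Nat.card Λ ≤ 2 ^ b → ∀ ℓ : Elem T D → Λ,
    GoodLab (cN K m) m ℓ → ∃ t : Prot T D K m, t.depth ≤ c ∧
      ∀ a, Adm J n G a → (∃ ζ, GoodShape hm J q G ζ ∧ ValidAt ℓ L a ζ) ∨ FailAt G a (t.run a)

/-! ### The frame of the recursion step -/

/-- The data of the recursion step which are fixed after the first announcements: a pattern, a good labelling, a sample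
input `a`, and label-consistency of all cross-row claims to depth `2 N + L`. -/
structure Fr (hm : ∀ i, ar i ≤ m) (J : Inst ar D) (q : CQ ar) (T : List (Rule ar)) (K : ℕ) : Type 1 where
  G : Pat T D K m
  ok : G.Ok hm J q
  Λ : Type
  ℓ : Elem T D → Λ
  good : GoodLab (cN K m) m ℓ
  a : Row K → Elem T D
  leg : ∀ ρ, a ρ ∈ Leg J
  rule : ∀ ρ, lab (a ρ) = .inr (G.r ρ.1)
  L : ℕ
  tr : ∀ o o', G.Clm o o' → o.1 ≠ o'.1 → ∀ z : List (Fin m), z.length ≤ 2 * cN K m + L →
    (val a (ext (ow o) z)).map ℓ = (val a (ext (ow o') z)).map ℓ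

/-- A stage: a row, a set of occurrences, and pairs of words of this row which are merged. -/
structure Stg (K m : ℕ) : Type where
  row : Row K
  X : Set (Occ K m)
  E : Set (List (Fin m) × List (Fin m))

section

variable {hm : ∀ i, ar i ≤ m} {J : Inst ar D} {q : CQ ar}

/-- The label of the value of a word at the sample input. -/
def Fr.lbl (𝔽 : Fr hm J q T K) (x : Wd K m) : Option 𝔽.Λ := (val 𝔽.a x).map 𝔽.ℓ

/-- The rule (or constant) of the value of a word at the sample input. -/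
def Fr.lb (𝔽 : Fr hm J q T K) (x : Wd K m) : Option (D ⊕ Fin T.length) := (val 𝔽.a x).map lab

/-- Cell words: their value is a new element. -/
def Fr.cw (𝔽 : Fr hm J q T K) (x : Wd K m) : Prop := ∃ r, 𝔽.lb x = some (.inr r)

/-- Generators of the equivalence of words: cross-row claims, equal values of short words in the same row, merged
words of the stages. -/
inductive Gen (𝔽 : Fr hm J q T K) (st : List (Stg K m)) : Wd K m → Wd K m → Prop
  | tr {o o' : Occ K m} : 𝔽.G.Clm o o' → o.1 ≠ o'.1 → Gen 𝔽 st (ow o) (ow o')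
  | eq {ρ : Row K} {w w' : List (Fin m)} {e : Elem T D} : w.length ≤ cR K m → w'.length ≤ cR K m →
      up w (𝔽.a ρ) = some e → up w' (𝔽.a ρ) = some e → Gen 𝔽 st (ρ, w) (ρ, w')
  | mg {σ : Stg K m} {w w' : List (Fin m)} : σ ∈ st → (w, w') ∈ σ.E → Gen 𝔽 st (σ.row, w) (σ.row, w')

/-- One step: an extension of a generator. -/
def Stp (𝔽 : Fr hm J q T K) (st : List (Stg K m)) (x y : Wd K m) : Prop :=
  ∃ g g' z, Gen 𝔽 st g g' ∧ x = ext g z ∧ y = ext g' z

/-- The equivalence of words. -/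
def Eqw (𝔽 : Fr hm J q T K) (st : List (Stg K m)) : Wd K m → Wd K m → Prop := Relation.EqvGen (Stp 𝔽 st)

/-- The equivalence of words through words of length less than `B`. -/
def EqB (𝔽 : Fr hm J q T K) (st : List (Stg K m)) (B : ℕ) : Wd K m → Wd K m → Prop :=
  Relation.EqvGen (fun x y => Stp 𝔽 st x y ∧ x.2.length < B ∧ y.2.length < B)

/-- The requirements for a merged word `w` of the stage `σ` over the older stages `st`. -/
structure WOk (𝔽 : Fr hm J q T K) (st : List (Stg K m)) (σ : Stg K m) (w : List (Fin m)) : Prop where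
  len : w.length ≤ cN K m
  dom : 𝔽.lbl (σ.row, w) ≠ none
  tails : ∀ w', w' <:+ w → ∃ x : Wd K m, x.2.length ≤ cR K m ∧ EqB 𝔽 st (2 * cN K m + 1) (σ.row, w') x
  sees : ∀ o ∈ σ.X, ∃ z, Eqw 𝔽 st (ext (ow o) z) (σ.row, w)

/-- Valid states. The newest stage is the first one. -/
def Valid (𝔽 : Fr hm J q T K) : List (Stg K m) → Prop
  | [] => True
  | σ :: st => Valid 𝔽 st ∧ (∀ o ∈ σ.X, 𝔽.G.Ch o) ∧ ∀ w w', (w, w') ∈ σ.E → WOk 𝔽 st σ w ∧ WOk 𝔽 st σ w' ∧
      ∀ z : List (Fin m), z.length ≤ 2 * cN K m + 𝔽.L → 𝔽.lbl (ext (σ.row, w) z) = 𝔽.lbl (ext (σ.row, w') z)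

/-- `X(x)`: the challenged occurrences which see the class of `x`. -/
def XX (𝔽 : Fr hm J q T K) (st : List (Stg K m)) (x : Wd K m) : Set (Occ K m) :=
  {o | 𝔽.G.Ch o ∧ ∃ z, Eqw 𝔽 st (ext (ow o) z) x}

/-- `X'(x)`: the challenged occurrences which see the class of `x` properly. -/
def XX' (𝔽 : Fr hm J q T K) (st : List (Stg K m)) (x : Wd K m) : Set (Occ K m) :=
  {o | 𝔽.G.Ch o ∧ ∃ z, z ≠ [] ∧ Eqw 𝔽 st (ext (ow o) z) x}

/-- The depth of a term. -/
def dep : Elem T D → ℕ
  | .base _ => 0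
  | .new _ v => Finset.univ.sup (fun x => dep (v x)) + 1

/-- The rank of the class of a word: the least depth of a value of one of its words. -/
noncomputable def rkw (𝔽 : Fr hm J q T K) (st : List (Stg K m)) (x : Wd K m) : ℕ :=
  sInf {n | ∃ y e, Eqw 𝔽 st x y ∧ val 𝔽.a y = some e ∧ dep e = n}

/-- The identifications of nodes and short words. -/
inductive VRel (𝔽 : Fr hm J q T K) (st : List (Stg K m)) : 𝔽.G.X ⊕ Wd K m → 𝔽.G.X ⊕ Wd K m → Prop
  | nd {a b : 𝔽.G.X} : 𝔽.G.R a b → VRel 𝔽 st (.inl a) (.inl b)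
  | wd {x y : Wd K m} : x.2.length ≤ cR K m → y.2.length ≤ cR K m → Eqw 𝔽 st x y →
      VRel 𝔽 st (.inr x) (.inr y)
  | root {o : Occ K m} : 𝔽.G.Rt o → VRel 𝔽 st (.inr (ow o)) (.inl (𝔽.G.node o))
  | base {x : Wd K m} {d : D} : x.2.length ≤ cR K m → 𝔽.lb x = some (.inl d) →
      VRel 𝔽 st (.inr x) (.inl (𝔽.G.cD d))

/-- The cells at the words of `V`. -/
def vcells (𝔽 : Fr hm J q T K) (V : Set (Wd K m)) : Set (Atom ar (𝔽.G.X ⊕ Wd K m)) :=
  {α | ∃ x ∈ V, ∃ r, 𝔽.lb x = some (.inr r) ∧ α = cell hm r (.inr x) (fun p => .inr (ext x [p]))}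

/-- Entailment from the cells at the words of `V` (and the context of the pattern). -/
def EntV (𝔽 : Fr hm J q T K) (st : List (Stg K m)) (V : Set (Wd K m)) : Prop :=
  EntG T J q (VRel 𝔽 st) (fun d => .inl (𝔽.G.cD d)) ((amap Sum.inl) '' 𝔽.G.F ∪ vcells 𝔽 V)

/-- Anchored words: equivalent to a root word, or to a parent of an anchored word of `V`. -/
inductive Anc (𝔽 : Fr hm J q T K) (st : List (Stg K m)) (V : Set (Wd K m)) : Wd K m → Prop
  | root {x : Wd K m} {o : Occ K m} : 𝔽.G.Rt o → Eqw 𝔽 st x (ow o) → Anc 𝔽 st V x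
  | step {x y : Wd K m} {p : Fin m} : y ∈ V → Anc 𝔽 st V y → Eqw 𝔽 st x (ext y [p]) → Anc 𝔽 st V x

/-! ### Tasks -/

/-- A task: a set of words `V`, a set of occurrences `M`, and `K` words of `V` (the rows of the lower pattern). -/
structure Tsk (K m : ℕ) : Type where
  V : Finset (Wd K m)
  M : Set (Occ K m)
  u : Fin K → Wd K m

/-- The words of `V` which are to be eliminated. -/
def P1 (𝔽 : Fr hm J q T K) (st : List (Stg K m)) (τ : Tsk K m) : Set (Wd K m) :=
  {x | x ∈ τ.V ∧ ¬ Anc 𝔽 st ↑τ.V x ∧ XX 𝔽 st x = τ.M ∧ XX' 𝔽 st x = τ.M}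

/-- The requirements for a task. -/
structure TOk (𝔽 : Fr hm J q T K) (st : List (Stg K m)) (τ : Tsk K m) : Prop where
  len : ∀ x ∈ τ.V, x.2.length ≤ cR1 K m
  cw : ∀ x ∈ τ.V, 𝔽.cw x
  mem : ∀ e, τ.u e ∈ P1 𝔽 st τ
  unt : ∀ x ∈ P1 𝔽 st τ, ∀ y ∈ τ.V, y ∉ P1 𝔽 st τ → ¬ Eqw 𝔽 st x y ∧ ∀ p, ¬ Eqw 𝔽 st x (ext y [p])
  ent : EntV 𝔽 st (Set.range τ.u ∪ (↑τ.V \ P1 𝔽 st τ))

/-- The challenged words among the parents of the rows of the lower pattern. -/
def lowch (𝔽 : Fr hm J q T K) (st : List (Stg K m)) (τ : Tsk K m) (x : Wd K m) : Prop :=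
  XX 𝔽 st x = τ.M ∧ (∀ d, 𝔽.lb x ≠ some (.inl d)) ∧ (∀ o, 𝔽.G.Rt o → ¬ Eqw 𝔽 st x (ow o)) ∧
    ∀ y ∈ τ.V, y ∉ P1 𝔽 st τ → ¬ Eqw 𝔽 st x y ∧ ∀ p, ¬ Eqw 𝔽 st x (ext y [p])

/-- A task is solved by a set of words `S'` below the unchallenged parents of its rows. -/
def Solved (𝔽 : Fr hm J q T K) (st : List (Stg K m)) (τ : Tsk K m) : Prop :=
  ∃ S' : Finset (Wd K m), S'.card ≤ K ∧
    (∀ s ∈ S', 𝔽.cw s ∧ (∃ e, s.2.length ≤ (τ.u e).2.length + K) ∧
      ((∃ e p, s = ext (τ.u e) [p] ∧ ¬ lowch 𝔽 st τ s) ∨ ∃ s' ∈ S', ∃ p, s = ext s' [p])) ∧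
    EntV 𝔽 st ((↑τ.V \ P1 𝔽 st τ) ∪ ↑S')

open Classical in
/-- The rule of a word (with a default value). -/
noncomputable def ruleOf (𝔽 : Fr hm J q T K) (e : Fin K) (x : Wd K m) : Fin T.length :=
  if h : 𝔽.cw x then h.choose else 𝔽.G.r e

/-- The lower pattern of a task. -/
noncomputable def lowPat (𝔽 : Fr hm J q T K) (st : List (Stg K m)) (τ : Tsk K m) : Pat T D K m where
  X := 𝔽.G.X ⊕ Wd K m
  R := Relation.EqvGen (VRel 𝔽 st)
  cD := fun d => .inl (𝔽.G.cD d)
  F := (amap Sum.inl) '' 𝔽.G.F ∪ vcells 𝔽 (↑τ.V \ P1 𝔽 st τ)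
  r := fun e => ruleOf 𝔽 e (τ.u e)
  nd := fun e i => .inr (ext (τ.u e) i.toList)
  ch := fun e i => i = none ∨ lowch 𝔽 st τ (ext (τ.u e) i.toList)

/-- The input of the lower pattern which consists of the copies along the paths `xs e` below `b`. -/
def lowIn (xs : Fin K → List (Fin m)) (b : Elem T D) : Row K → Elem T D := fun ρ => (up (xs ρ.1) b).getD b

/-- The new stage given by a shape `ζ` of the lower pattern. -/
def newStg (τ : Tsk K m) (ρ : Row K) (xs : Fin K → List (Fin m)) (ζ : Shape T D K m) : Stg K m :=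
  ⟨ρ, τ.M, {p | ∃ x y : Wd K m, (x, y) ∈ ζ.th ∧ p = (x.2 ++ xs x.1.1, y.2 ++ xs y.1.1)}⟩

/-- Copies of the rows of a task in a row `ρ` of `M`. -/
structure Cps (𝔽 : Fr hm J q T K) (st : List (Stg K m)) (τ : Tsk K m) (ρ : Row K) (xs : Fin K → List (Fin m)) :
    Prop where
  mem : (ρ, none) ∈ τ.M
  cp : ∀ e, Eqw 𝔽 st (ρ, xs e) (τ.u e)

/-! ### Boxes -/

/-- Boxes of inputs. -/
abbrev Box (T : List (Rule ar)) (D : Type) (K : ℕ) : Type := Row K → Set (Elem T D)

/-- All inputs of the box are of level `n + 1` and look like the sample input. -/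
structure BoxOk (𝔽 : Fr hm J q T K) (n : ℕ) (B : Box T D K) : Prop where
  stg : ∀ ρ, ∀ b ∈ B ρ, b ∈ stage J (n + 1)
  lbl : ∀ ρ, ∀ b ∈ B ρ, ∀ w : List (Fin m), w.length ≤ 4 * cN K m + 𝔽.L →
    (up w b).map 𝔽.ℓ = (up w (𝔽.a ρ)).map 𝔽.ℓ
  eqp : ∀ ρ, ∀ b ∈ B ρ, ∀ w w' : List (Fin m), w.length ≤ cR K m → w'.length ≤ cR K m → ∀ e,
    up w (𝔽.a ρ) = some e → up w' (𝔽.a ρ) = some e → up w b = up w' b

/-- A cross-row claim fails on the whole box. -/
def Fails (𝔽 : Fr hm J q T K) (B : Box T D K) : Prop :=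
  ∃ o o', 𝔽.G.Clm o o' ∧ o.1 ≠ o'.1 ∧ ∀ b ∈ B o.1, ∀ b' ∈ B o'.1, up (ow o).2 b ≠ up (ow o').2 b'

/-- The function `f` of the inputs of the rows is determined by the values of the occurrences in `M`. -/
def Det (𝔽 : Fr hm J q T K) (B : Box T D K) (M : Set (Occ K m)) {β : Type} (f : Row K → Elem T D → β) : Prop :=
  ∀ o o', 𝔽.G.Clm o o' → o.1 ≠ o'.1 → o ∈ M → ∀ b ∈ B o.1, ∀ b' ∈ B o'.1,
    up (ow o).2 b = up (ow o').2 b' → f o.1 b = f o'.1 b'

/-- The optional element is defined and belongs to `S`. -/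
def InS (x : Option (Elem T D)) (S : Set (Elem T D)) : Prop := ∃ e ∈ S, x = some e

/-- The stage `σ` is refuted on the box: determined predicates separate two of its merged words. -/
def Refutes (𝔽 : Fr hm J q T K) (B : Box T D K) (σ : Stg K m) : Prop :=
  ∃ fam : Row K → Elem T D → Set (Elem T D), Det 𝔽 B σ.X fam ∧ ∃ w w' z, (w, w') ∈ σ.E ∧ z.length ≤ cN K m ∧
    ∀ b ∈ B σ.row, ¬ (InS (up (z ++ w) b) (fam σ.row b) ↔ InS (up (z ++ w') b) (fam σ.row b))

end

/-- `Split c B Q`: with `c` bits the box `B` can be split into boxes with the property `Q`. -/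
inductive Split {ρ E : Type} [DecidableEq ρ] (Q : (ρ → Set E) → Prop) : ℕ → (ρ → Set E) → Prop
  | leaf {c : ℕ} {B : ρ → Set E} : Q B → Split Q c B
  | node {c : ℕ} {B : ρ → Set E} (i : ρ) (S : Set E) : Split Q c (Function.update B i (B i ∩ S)) →
      Split Q c (Function.update B i (B i \ S)) → Split Q (c + 1) B

end Pool.Agent.WFC
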