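import Pool.Agent.WFC.Base

set_option autoImplicit false

/-!
# More definitions: simulation, costs, top patterns
-/

namespace Pool.Agent.WFC

open Pool.Agent.H56

variable {k : ℕ} {ar : Fin k → ℕ} {T : List (Rule ar)} {D : Type} {K m : ℕ}

/-! ### Simulation -/

open Classical in
/-- `s` steps of a protocol on the sets of copies `cop e` of the inputs of the rows `(e, _)`, as long as all copies
agree. -/
noncomputable def walk {E O : Type} (cop : Fin K → Set E) : ℕ → Tree (Row K) E O → Option (Tree (Row K) E O)
  | 0, t => some t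
  | _ + 1, .leaf o => some (.leaf o)
  | s + 1, .node i S t f => if cop i.1 ⊆ S then walk cop s t else if Disjoint (cop i.1) S then walk cop s f else none

/-- The targets of the announcements: a row of the task, or a pair of occurrences of the lower pattern. -/
abbrev Tgt (K m : ℕ) : Type := Fin K ⊕ (Occ K m × Occ K m)

open Classical in
/-- The predicate of a state of the protocol for a target. -/
noncomputable def predOf (g : Tgt K m) : Option (Prot T D K m) → Set (Elem T D)
  | some (.node i S _ _) => if g = .inl i.1 then S else ∅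
  | some (.leaf (o, o', S)) => if g = .inr (o, o') then S else ∅
  | none => ∅

/-- The class of a target: `u e`, or the word of the first occurrence. -/
def tgtWord (τ : Tsk K m) : Tgt K m → Wd K m
  | .inl e => τ.u e
  | .inr (o, _) => ext (τ.u o.1.1) o.2.toList

/-- The number of bits of a simulation. -/
noncomputable def simCost (K m c : ℕ) : ℕ :=
  Fintype.card (Row K) * Nat.clog 2 (c + 2) + (Nat.clog 2 (Nat.card (Tgt K m) + 1) +
    Fintype.card (Row K) * Nat.card {w : List (Fin m) // w.length ≤ cN K m})

/-! ### Costs -/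

/-- The cost of the recursion: `s` per simulation, `Δ` shapes. -/
def recCost (s Δ : ℕ) : ℕ → ℕ
  | 0 => s
  | f + 1 => Δ * recCost s Δ f + s

/-- The number of paths of length at most `j`. -/
noncomputable def nW (m j : ℕ) : ℕ := Nat.card {w : List (Fin m) // w.length ≤ j}

/-- The number of bits of the first announcement of one row. -/
noncomputable def tyCost (K m b L : ℕ) : ℕ := (b + 1) * nW m (4 * cN K m + L) + nW m (cR K m) ^ 2

/-- The number of bits for level `n + 1`. -/
noncomputable def stepCost (T : List (Rule ar)) (D : Type) (K m b L c : ℕ) : ℕ :=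
  Fintype.card (Row K) * tyCost K m b L +
    recCost (simCost K m c) (Nat.card (Shape T D K m)) ({x : Wd K m | x.2.length ≤ cR K m}.ncard ^ 2)

/-- The type of an input of a row: the labels of its ancestors along paths of length at most `4 N + L`, and the
coincidences of the ancestors along paths of length at most `R`. -/
def tyOf (K : ℕ) {Λ : Type} (ℓ : Elem T D → Λ) (m L : ℕ) (b : Elem T D) :
    ({w : List (Fin m) // w.length ≤ 4 * cN K m + L} → Option Λ) ×
      Set ({w : List (Fin m) // w.length ≤ cR K m} × {w : List (Fin m) // w.length ≤ cR K m}) :=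
  (fun w => (up w.1 b).map ℓ, {p | up p.1.1 b = up p.2.1 b})

section

variable {hm : ∀ i, ar i ≤ m} {J : Inst ar D} {q : CQ ar}

/-- The values of the copies of the row `e` of the task in the row `ρ`, for the input `b`. -/
def cop (𝔽 : Fr hm J q T K) (st : List (Stg K m)) (τ : Tsk K m) (ρ : Row K) (b : Elem T D) (e : Fin K) :
    Set (Elem T D) :=
  {v | ∃ w, Eqw 𝔽 st (ρ, w) (τ.u e) ∧ up w b = some v}

/-- The number of pairs of short words which are not equivalent. -/
noncomputable def defi (𝔽 : Fr hm J q T K) (st : List (Stg K m)) : ℕ :=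
  {p : Wd K m × Wd K m | p.1.2.length ≤ cR K m ∧ p.2.2.length ≤ cR K m ∧ ¬ Eqw 𝔽 st p.1 p.2}.ncard

/-- The labelling of a row: the old label, and the predicates `fam ζ` of the shapes. -/
def refLab {𝔽 : Fr hm J q T K} (fam : Shape T D K m → Row K → Elem T D → Set (Elem T D)) (ρ : Row K) (b : Elem T D)
    (e : Elem T D) : 𝔽.Λ × Set (Shape T D K m) :=
  (𝔽.ℓ e, {ζ | e ∈ fam ζ ρ b})

end

/-! ### Top patterns -/

/-- The quotient of the facts of `J` and the birth atoms of the elements of `O` under a labelling `L`. -/
def HQ (J : Inst ar D) (O : Set (Elem T D)) {Λ : Type} (L : Elem T D → Λ) : Inst ar Λ := fun i t =>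
  (∃ t₀ : Fin (ar i) → D, J i t₀ ∧ t = fun p => L (.base (t₀ p))) ∨
  (∃ r v, Elem.new r v ∈ O ∧ (⟨i, t⟩ : Σ i : Fin k, Fin (ar i) → Λ) = ⟨symOf r, fun p => L (args r v p)⟩)

/-- The (finitely many) data of the patterns for a disjunct `p` of the rewriting: nodes `Fin p.1 ⊕ D`; identifications,
rules, nodes of the occurrences, challenges. -/
abbrev TIdx (T : List (Rule ar)) (D : Type) (K m : ℕ) (p : CQ ar) : Type :=
  (Fin p.1 ⊕ D → Fin p.1 ⊕ D → Prop) × (Fin K → Fin T.length) × (Fin K → Option (Fin m) → Fin p.1 ⊕ D) ×
    (Fin K → Option (Fin m) → Prop)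

/-- The pattern with these data. -/
def tPat {p : CQ ar} (t : TIdx T D K m p) : Pat T D K m where
  X := Fin p.1 ⊕ D
  R := t.1
  cD := .inr
  F := ∅
  r := t.2.1
  nd := t.2.2.1
  ch := t.2.2.2

/-- A match of `p` in the quotient `HQ J O L`: values of the variables, `K` rows which are atoms matched by birth atoms,
all other atoms are matched by facts of `J`. -/
structure TDat (J : Inst ar D) (O : Set (Elem T D)) {Λ : Type} (L : Elem T D → Λ) (p : CQ ar) (K : ℕ) : Type where
  v : Fin p.1 → Λ
  en : Fin K → Fin p.2.length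
  r : Fin K → Fin T.length
  w : ∀ e, Fin (T.get (r e)).1 → Elem T D
  mem : ∀ e, Elem.new (r e) (w e) ∈ O
  hs : ∀ e, symOf (r e) = (p.2.get (en e)).1
  harg : ∀ e (i : Fin (ar (symOf (r e)))),
    L (args (r e) (w e) i) = v ((p.2.get (en e)).2 (Fin.cast (congrArg ar (hs e)) i))
  fact : ∀ j, (∃ e, en e = j) ∨ ∃ t₀, J (p.2.get j).1 t₀ ∧ ∀ i, v ((p.2.get j).2 i) = L (.base (t₀ i))
  top : ∀ e, ∃ i, headOf (r e) i = none

namespace TDat

variable {J : Inst ar D} {O : Set (Elem T D)} {Λ : Type} {L : Elem T D → Λ} {p : CQ ar}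

/-- The labels of the nodes. -/
def V (c : TDat J O L p K) : Fin p.1 ⊕ D → Λ
  | .inl z => c.v z
  | .inr d => L (.base d)

/-- The node of the top of a row. -/
noncomputable def topn (c : TDat J O L p K) (e : Fin K) : Fin p.1 ⊕ D :=
  .inl ((p.2.get (c.en e)).2 (Fin.cast (congrArg ar (c.hs e)) (c.top e).choose))

open Classical in
/-- The nodes of the occurrences. -/
noncomputable def nd (c : TDat J O L p K) (e : Fin K) : Option (Fin m) → Fin p.1 ⊕ D
  | none => c.topn e
  | some l => if h : l.1 < ar (symOf (c.r e)) then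
      .inl ((p.2.get (c.en e)).2 (Fin.cast (congrArg ar (c.hs e)) ⟨l.1, h⟩)) else c.topn e

/-- The data of the pattern: nodes with the same label are identified; nodes with the label of a constant are not
challenged. -/
noncomputable def idx (c : TDat J O L p K) : TIdx T D K m p :=
  (fun x y => c.V x = c.V y, c.r, c.nd, fun e i => i = none ∨ ∀ d, c.V (c.nd e i) ≠ L (.base d))

/-- The input: the elements which match the atoms of the rows. -/
def inp (c : TDat J O L p K) (ρ : Row K) : Elem T D := .new (c.r ρ.1) (c.w ρ.1)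

end TDat

/-- The outputs of a decision tree. -/
def Tree.outs {ρ E O : Type} : Tree ρ E O → List O
  | .leaf o => [o]
  | .node _ _ t f => t.outs ++ f.outs

end Pool.Agent.WFC
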