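import Pool.Agent.WFC.ElimDefs

set_option autoImplicit false

/-!
# EL1: the elimination step (S)
-/

namespace Pool.Agent.WFC

variable {K m : ℕ}

/-- Progress from `V` to `V'`. -/
structure ElimSys.Prog (S : ElimSys K m) (ω d : ℕ) (V V' : Finset S.W) : Prop where
  card : V'.card ≤ V.card + K
  wf : ∀ x ∈ V', S.cw x ∧ S.len x ≤ d + K
  ent : S.E ↑V'
  mu : S.mu ω V' < S.mu ω V
  rs : S.rs V' < S.rs V

theorem el1_anc_eqv (S : ElimSys K m) {V : Set S.W} {x y : S.W} (h : S.eqv x y)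
    (ha : S.Anc V x) : S.Anc V y := by
  cases ha with
  | root ht hx => exact AncA.root ht (S.eqv_equiv.trans (S.eqv_equiv.symm h) hx)
  | step hy hya hx => exact AncA.step hy hya (S.eqv_equiv.trans (S.eqv_equiv.symm h) hx)

theorem el1_anc_mono (S : ElimSys K m) {V V' : Set S.W} (hsub : ∀ x ∈ V, S.Anc V x → x ∈ V')
    {x : S.W} (ha : S.Anc V x) : S.Anc V' x := by
  induction ha with
  | root ht hx => exact AncA.root ht hx
  | step hy hya hx ih => exact AncA.step (hsub _ hy hya) ih hx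

open Classical in
theorem el1_sum {α : Type} (V S₀ V' : Finset α) (P : Set α) (f f' : α → ℕ) (x₀ : α) (hx₀ : x₀ ∈ V)
    (hP : x₀ ∈ P) (hV' : ∀ x ∈ V', (x ∈ V ∧ x ∉ P) ∨ x ∈ S₀)
    (h1 : ∀ x ∈ V, x ∉ P → f' x ≤ f x) (h2 : ∑ x ∈ S₀, f' x < f x₀) :
    ∑ x ∈ V', f' x < ∑ x ∈ V, f x := by
  have e0 : ∑ x ∈ V', f' x ≤ ∑ x ∈ V.filter (fun x => x ∉ P) ∪ S₀, f' x := by
    refine Finset.sum_le_sum_of_subset fun x hx => ?_
    rw [Finset.mem_union, Finset.mem_filter]
    exact hV' x hx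
  have e1 : ∑ x ∈ V.filter (fun x => x ∉ P) ∪ S₀, f' x ≤
      ∑ x ∈ V.filter (fun x => x ∉ P), f' x + ∑ x ∈ S₀, f' x := by
    rw [← Finset.sum_union_inter]
    exact Nat.le_add_right _ _
  have e2 : ∑ x ∈ V.filter (fun x => x ∉ P), f' x ≤ ∑ x ∈ V.filter (fun x => x ∉ P), f x := by
    refine Finset.sum_le_sum fun x hx => ?_
    rw [Finset.mem_filter] at hx
    exact h1 x hx.1 hx.2
  have e3 : f x₀ ≤ ∑ x ∈ V.filter (fun x => ¬ x ∉ P), f x :=
    Finset.single_le_sum (f := f) (fun _ _ => Nat.zero_le _)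
      (Finset.mem_filter.2 ⟨hx₀, not_not.2 hP⟩)
  have e4 := Finset.sum_filter_add_sum_filter_not V (fun x => x ∉ P) f
  omega

theorem el1_ncard (S : ElimSys K m) {ω : ℕ} (hω : Nat.card S.O ≤ ω) (A : Set S.O) :
    A.ncard ≤ ω := by
  have := S.finO
  refine le_trans ?_ hω
  rw [← Set.ncard_univ]
  exact Set.ncard_le_ncard (Set.subset_univ _) Set.finite_univ

theorem el1_ncard_lt (S : ElimSys K m) {A B : Set S.O} (h : A ⊂ B) : A.ncard < B.ncard := by
  have := S.finO
  exact Set.ncard_lt_ncard h (Set.toFinite B)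

theorem el1_wt_mono (S : ElimSys K m) (ω : ℕ) {V V' : Set S.W} {x : S.W}
    (h : S.Anc V x → S.Anc V' x) : S.wt ω V' x ≤ S.wt ω V x := by
  unfold ElimSys.wt
  by_cases h1 : S.Anc V' x
  · rw [if_pos h1]
    exact Nat.zero_le _
  · rw [if_neg h1, if_neg (fun hc => h1 (h hc))]

theorem el1_sum_le {α : Type} (S₀ : Finset α) (f : α → ℕ) (K B : ℕ) (hc : S₀.card ≤ K)
    (h : ∀ s ∈ S₀, f s ≤ B) : ∑ s ∈ S₀, f s ≤ K * B := by
  refine (Finset.sum_le_card_nsmul S₀ f B h).trans ?_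
  rw [smul_eq_mul]
  exact Nat.mul_le_mul_right _ hc

/-- STEP (S). Put `P = {x ∈ V : not anchored, X x = M, X' x = M}` (nonempty).
(1) Hypothesis of `solveS`: let `x ∈ P`, `y ∈ V`, `y ∉ P`. If `eqv x y` then `y` has the same `X`, `X'` and is not
anchored (being anchored is invariant under `eqv`), so `y ∈ P`, contradiction. If `eqv x (app y p)`: `y` is not
anchored (otherwise `app y p` and `x` are anchored); `X y ⊆ X' (app y p) = X' x = M`, so `X' y ⊆ M`, and by
minimality (`hmin`) `X' y = M`; then `M = X' y ⊆ X y ⊆ M`, so `X y = M`, and `y ∈ P`, contradiction.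
(2) `solveS` gives `S₀`; take `V' = (V \ P) ∪ S₀`. Anchored words of `V` are not in `P`, so `Anc V x → Anc V' x`
(induction). Let `s ∈ S₀` be non-anchored in `V'`. CLAIM: `M ⊆ X' s`, and `X' s ≠ M` or `X s ≠ X' s`.
Proof: show by induction on `len s` that every `s ∈ S₀` is anchored in `V'`, or `M ⊂ X' s`, or (`X' s = M` and
`X s ≠ M`): if `s = app s' p` with `s' ∈ S₀`: `s'` anchored gives `s` anchored; otherwise `X s' ≠ M`, `M ⊆ X s'`, so
`M ⊂ X s' ⊆ X' s`. If `s = app x p`, `x ∈ P`: `M = X x ⊆ X' s ⊆ X s`. If `X s ≠ M`: fine. If `X s = M` then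
`X' s = M`; if `eqv s t` with a root word `t`: anchored. If `y ∈ V \ P` with `eqv s y`: `y` anchored in `V` gives `s`
anchored; otherwise `X' y = X' s = M = X s = X y` gives `y ∈ P`, contradiction. If `eqv s (app y p')`: `y` anchored gives
`s` anchored; otherwise `X y ⊆ X' (app y p') = X' s = M`, so by `hmin` `X' y = M = X y`, contradiction.
(3) So a non-anchored `s ∈ S₀` has weight at most `(K+1)^(2(ω-|M|))` (`|X' s| > |M|` by finiteness, `|X' s| ≤ ω`), and
there are at most `K` of them, while every `x ∈ P` has weight `(K+1)^(2(ω-|M|)+1)`; words of `V \ P` do not increase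
their weight (a non-anchored word of `V'` is non-anchored in `V`).
(4) Ranks: every `s ∈ S₀` has `rk s < rk x` for some `x ∈ P` (induction on `len s` with `rk_app`; lengths are at most
`d + K ≤ R1 + K`), so the sum over `S₀` is at most `K (K+1)^(r-1) < (K+1)^r`, `r = max` of the ranks of `P`. -/
theorem ElimSys.stepS (S : ElimSys K m) {ω d : ℕ} (hω : Nat.card S.O ≤ ω) (hd : d ≤ S.R1) (V : Finset S.W)
    (hV : ∀ x ∈ V, S.cw x ∧ S.len x ≤ d) (hE : S.E ↑V) (M : Set S.O)
    (hmin : ∀ x ∈ V, ¬ S.Anc ↑V x → ¬ S.X' x ⊂ M) (hex : ∃ x ∈ V, ¬ S.Anc ↑V x ∧ S.X x = M ∧ S.X' x = M) :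
    ∃ V' : Finset S.W, S.Prog ω d V V' := by
  classical
  set P : Set S.W := {x | x ∈ V ∧ ¬ S.Anc ↑V x ∧ S.X x = M ∧ S.X' x = M} with hPdef
  -- a non-anchored word touching M
  have hkey : ∀ y ∈ V, ¬ S.Anc ↑V y → ∀ p, S.X' (S.app y p) = M → y ∈ P := by
    intro y hy hya p hp
    have h1 : S.X y ⊆ M := by
      rw [← hp]
      exact S.X_app y p
    have h2 : M ⊆ S.X' y := by
      by_contra hc
      exact hmin y hy hya ⟨(S.X'_sub y).trans h1, hc⟩
    have h3 : S.X' y = M := Set.Subset.antisymm ((S.X'_sub y).trans h1) h2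
    have h4 : S.X y = M := Set.Subset.antisymm h1 (h2.trans (S.X'_sub y))
    exact ⟨hy, hya, h4, h3⟩
  have hne : P.Nonempty := by
    obtain ⟨x, hx, hxa, h1, h2⟩ := hex
    exact ⟨x, hx, hxa, h1, h2⟩
  have hyp : ∀ x ∈ P, ∀ y ∈ V, y ∉ P → ¬ S.eqv x y ∧ ∀ p, ¬ S.eqv x (S.app y p) := by
    rintro x ⟨hx, hxa, hx1, hx2⟩ y hy hyP
    constructor
    · intro he
      apply hyP
      refine ⟨hy, fun hya => hxa (el1_anc_eqv S (S.eqv_equiv.symm he) hya), ?_, ?_⟩
      · rw [← S.X_eqv x y he, hx1]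
      · rw [← S.X'_eqv x y he, hx2]
    · intro p he
      by_cases hya : S.Anc ↑V y
      · exact hxa (AncA.step (by exact_mod_cast hy) hya he)
      · exact hyP (hkey y hy hya p (by rw [← S.X'_eqv x _ he, hx2]))
  obtain ⟨S₀, hcard, hS₀, hent⟩ := S.solveS V M P hPdef
    (fun x hx => ⟨(hV x hx).1, (hV x hx).2.trans hd⟩) hE hne hyp
  set V' : Finset S.W := V.filter (fun x => x ∉ P) ∪ S₀ with hV'
  have hcoe : (↑V' : Set S.W) = (↑V \ P) ∪ ↑S₀ := by
    rw [hV', Finset.coe_union, Finset.coe_filter]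
    congr 1
  have hsub : ∀ x ∈ (↑V : Set S.W), S.Anc ↑V x → x ∈ (↑V' : Set S.W) := by
    intro x hx hxa
    rw [hcoe]
    exact Or.inl ⟨hx, fun hc => hc.2.1 hxa⟩
  have hmono : ∀ x, S.Anc ↑V x → S.Anc ↑V' x := fun x hx => el1_anc_mono S hsub hx
  have hS₀V' : ∀ s ∈ S₀, s ∈ (↑V' : Set S.W) := by
    intro s hs
    rw [hcoe]
    exact Or.inr hs
  -- the claim
  have hclaim : ∀ n, ∀ s ∈ S₀, S.len s = n → S.Anc ↑V' s ∨ M ⊂ S.X' s ∨ (S.X' s = M ∧ S.X s ≠ M) := by
    intro n
    induction n with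
    | zero =>
      intro s hs hn
      exfalso
      obtain ⟨_, _, h | h⟩ := hS₀ s hs
      · obtain ⟨x, _, p, rfl, _⟩ := h
        rw [S.len_app] at hn
        omega
      · obtain ⟨s', _, p, rfl⟩ := h
        rw [S.len_app] at hn
        omega
    | succ n ih =>
      intro s hs hn
      obtain ⟨_, _, h | h⟩ := hS₀ s hs
      · obtain ⟨x, hxP, p, rfl, hc⟩ := h
        have h1 : M ⊆ S.X' (S.app x p) := by
          have := S.X_app x p
          rwa [hxP.2.2.1] at this
        by_cases h2 : S.X' (S.app x p) = M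
        · by_cases h3 : S.X (S.app x p) = M
          · left
            rcases hc with hc | ⟨t, ht, he⟩ | ⟨y, hy, hyP, he | ⟨p', he⟩⟩
            · exact absurd h3 hc
            · exact AncA.root ht he
            · by_cases hya : S.Anc ↑V y
              · exact el1_anc_eqv S (S.eqv_equiv.symm he) (hmono y hya)
              · exfalso
                apply hyP
                refine ⟨hy, hya, ?_, ?_⟩
                · rw [← S.X_eqv _ _ he, h3]
                · rw [← S.X'_eqv _ _ he, h2]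
            · by_cases hya : S.Anc ↑V y
              · exact AncA.step (hsub y (by exact_mod_cast hy) hya) (hmono y hya) he
              · exfalso
                exact hyP (hkey y hy hya p' (by rw [← S.X'_eqv _ _ he, h2]))
          · exact Or.inr (Or.inr ⟨h2, h3⟩)
        · exact Or.inr (Or.inl (Set.ssubset_iff_subset_ne.2 ⟨h1, fun hc => h2 hc.symm⟩))
      · obtain ⟨s', hs', p, rfl⟩ := h
        rw [S.len_app] at hn
        rcases ih s' hs' (by omega) with h1 | h1 | ⟨h1, h2⟩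
        · exact Or.inl (AncA.step (hS₀V' s' hs') h1 (S.eqv_equiv.refl _))
        · exact Or.inr (Or.inl (h1.trans_subset ((S.X'_sub s').trans (S.X_app s' p))))
        · right; left
          have h3 : M ⊂ S.X s' := by
            refine Set.ssubset_iff_subset_ne.2 ⟨?_, fun hc => h2 hc.symm⟩
            rw [← h1]
            exact S.X'_sub s'
          exact h3.trans_subset (S.X_app s' p)
  have hlen : ∀ s ∈ S₀, S.cw s ∧ S.len s ≤ d + K := by
    intro s hs
    obtain ⟨h1, ⟨x, hxP, hx⟩, _⟩ := hS₀ s hs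
    have := (hV x hxP.1).2
    exact ⟨h1, by omega⟩
  -- ranks
  obtain ⟨x₁, hx₁, hmax⟩ := (V.filter (fun x => x ∈ P)).exists_max_image S.rk (by
    obtain ⟨x, hx⟩ := hne
    exact ⟨x, Finset.mem_filter.2 ⟨hx.1, hx⟩⟩)
  rw [Finset.mem_filter] at hx₁
  have hrk : ∀ n, ∀ s ∈ S₀, S.len s = n → S.rk s < S.rk x₁ := by
    intro n
    induction n with
    | zero =>
      intro s hs hn
      exfalso
      obtain ⟨_, _, h | h⟩ := hS₀ s hs
      · obtain ⟨x, _, p, rfl, _⟩ := h
        rw [S.len_app] at hn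
        omega
      · obtain ⟨s', _, p, rfl⟩ := h
        rw [S.len_app] at hn
        omega
    | succ n ih =>
      intro s hs hn
      have hs1 := hlen s hs
      obtain ⟨_, _, h | h⟩ := hS₀ s hs
      · obtain ⟨x, hxP, p, rfl, hc⟩ := h
        have h1 := hV x hxP.1
        have h2 := S.rk_app x p (by omega) h1.1 hs1.1
        exact h2.trans_le (hmax x (Finset.mem_filter.2 ⟨hxP.1, hxP⟩))
      · obtain ⟨s', hs', p, rfl⟩ := h
        rw [S.len_app] at hn
        have h1 := hlen s' hs'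
        have h2 := S.rk_app s' p (by omega) h1.1 hs1.1
        exact h2.trans (ih s' hs' (by omega))
  have hV'2 : ∀ x ∈ V', (x ∈ V ∧ x ∉ P) ∨ x ∈ S₀ := by
    intro x hx
    rw [hV', Finset.mem_union, Finset.mem_filter] at hx
    exact hx
  refine ⟨V', ⟨?_, ?_, ?_, ?_, ?_⟩⟩
  · have h1 := Finset.card_union_le (V.filter (fun x => x ∉ P)) S₀
    have h2 := Finset.card_filter_le V (fun x => x ∉ P)
    rw [← hV'] at h1
    omega
  · intro x hx
    rw [hV', Finset.mem_union, Finset.mem_filter] at hx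
    rcases hx with hx | hx
    · have := hV x hx.1
      exact ⟨this.1, by omega⟩
    · exact hlen x hx
  · rw [hcoe]
    exact hent
  · -- the measure
    obtain ⟨x₀, hx₀⟩ := hne
    refine el1_sum V S₀ V' P (S.wt ω ↑V) (S.wt ω ↑V') x₀ hx₀.1 hx₀ hV'2
      (fun x _ _ => el1_wt_mono S ω (hmono x)) ?_
    have hw : S.wt ω ↑V x₀ = (K + 1) ^ (2 * (ω - M.ncard) + 1) := by
      unfold ElimSys.wt
      rw [if_neg hx₀.2.1, hx₀.2.2.1, hx₀.2.2.2, if_pos rfl]
    have hb : ∀ s ∈ S₀, S.wt ω ↑V' s ≤ (K + 1) ^ (2 * (ω - M.ncard)) := by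
      intro s hs
      unfold ElimSys.wt
      by_cases ha : S.Anc ↑V' s
      · rw [if_pos ha]
        exact Nat.zero_le _
      · rw [if_neg ha]
        apply Nat.pow_le_pow_right (Nat.succ_pos K)
        rcases hclaim _ s hs rfl with h | h | ⟨h, h'⟩
        · exact absurd h ha
        · have h1 := el1_ncard_lt S h
          have h2 := el1_ncard S hω (S.X' s)
          split_ifs <;> omega
        · rw [if_neg (by rw [h]; exact h'), h]
          exact le_rfl
    have h1 := el1_sum_le S₀ (S.wt ω ↑V') K _ hcard hb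
    rw [hw, pow_succ]
    have h2 : 0 < (K + 1) ^ (2 * (ω - M.ncard)) := Nat.pow_pos (Nat.succ_pos K)
    nlinarith
  · -- the rank sum
    refine el1_sum V S₀ V' P (fun x => (K + 1) ^ S.rk x) (fun x => (K + 1) ^ S.rk x) x₁ hx₁.1 hx₁.2 hV'2
      (fun x _ _ => le_rfl) ?_
    rcases S₀.eq_empty_or_nonempty with h0 | ⟨s₀, hs₀⟩
    · rw [h0, Finset.sum_empty]
      exact Nat.pow_pos (Nat.succ_pos K)
    · have hpos := hrk _ s₀ hs₀ rfl
      have h1 := el1_sum_le S₀ (fun x => (K + 1) ^ S.rk x) K ((K + 1) ^ (S.rk x₁ - 1)) hcard (by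
        intro s hs
        have := hrk _ s hs rfl
        exact Nat.pow_le_pow_right (Nat.succ_pos K) (by omega))
      have h2 : (K + 1) ^ S.rk x₁ = (K + 1) ^ (S.rk x₁ - 1) * (K + 1) := by
        rw [← pow_succ]
        congr 1
        omega
      have h3 : 0 < (K + 1) ^ (S.rk x₁ - 1) := Nat.pow_pos (Nat.succ_pos K)
      change ∑ x ∈ S₀, (K + 1) ^ S.rk x < (K + 1) ^ S.rk x₁
      rw [h2]
      nlinarith

end Pool.Agent.WFC
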