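import Pool.Agent.WFC.EL1

set_option autoImplicit false

/-!
# EL2: the elimination step (U)
-/

namespace Pool.Agent.WFC

variable {K m : ℕ}

/-- STEP (U). Let `x ∈ V` be non-anchored with `X' x = M`, where `M` is minimal, and suppose that no non-anchored word of
`V` has `X = X' = M`. For `y ∈ V` never `eqv x (app y p)`: `y` would be non-anchored with
`X y ⊆ X' (app y p) = X' x = M`, so `X' y = M` by minimality and `X y = M`, excluded by `hno`. `X x ≠ X' x` by `hno`.
So `solveU` applies; `V' = (V \ {y | eqv x y}) ∪ S₀`. Words of `V` which are equivalent to `x` are non-anchored, so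
anchored words stay anchored. Every `s ∈ S₀` satisfies `X x ⊆ X' s` (induction on `len s`, `X_app`, `X'_sub`), hence
`M ⊂ X' s` (as `M = X' x ⊂ X x`), so its weight is at most `(K+1)^(2(ω-|M|-1)+1)`; there are at most `K` of them, and
the weight of `x` is `(K+1)^(2(ω-|M|))`. Ranks: `rk s < rk x` for `s ∈ S₀`. -/
theorem ElimSys.stepU (S : ElimSys K m) {ω d : ℕ} (hω : Nat.card S.O ≤ ω) (hd : d ≤ S.R1) (V : Finset S.W)
    (hV : ∀ x ∈ V, S.cw x ∧ S.len x ≤ d) (hE : S.E ↑V) (M : Set S.O)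
    (hmin : ∀ x ∈ V, ¬ S.Anc ↑V x → ¬ S.X' x ⊂ M)
    (hno : ∀ x ∈ V, ¬ S.Anc ↑V x → S.X' x = M → S.X x ≠ M) (x : S.W) (hx : x ∈ V) (hxa : ¬ S.Anc ↑V x)
    (hxM : S.X' x = M) :
    ∃ V' : Finset S.W, S.Prog ω d V V' := by
  classical
  have hXne : S.X x ≠ M := hno x hx hxa hxM
  have hXX' : S.X x ≠ S.X' x := by rw [hxM]; exact hXne
  have hyp : ∀ y ∈ V, ∀ p, ¬ S.eqv x (S.app y p) := by
    intro y hy p he
    have hya : ¬ S.Anc ↑V y := fun hya => hxa (AncA.step (by exact_mod_cast hy) hya he)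
    have h0 : S.X' (S.app y p) = M := by rw [← S.X'_eqv x _ he, hxM]
    have h1 : S.X y ⊆ M := by
      rw [← h0]
      exact S.X_app y p
    have h2 : M ⊆ S.X' y := by
      by_contra hc
      exact hmin y hy hya ⟨(S.X'_sub y).trans h1, hc⟩
    have h3 : S.X' y = M := Set.Subset.antisymm ((S.X'_sub y).trans h1) h2
    have h4 : S.X y = M := Set.Subset.antisymm h1 (h2.trans (S.X'_sub y))
    exact hno y hy hya h3 h4
  obtain ⟨S₀, hcard, hS₀, hent⟩ := S.solveU V x
    (fun y hy => ⟨(hV y hy).1, (hV y hy).2.trans hd⟩) hE hx hxa hXX' hyp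
  set P : Set S.W := {y | S.eqv x y} with hP
  set V' : Finset S.W := V.filter (fun y => y ∉ P) ∪ S₀ with hV'
  have hcoe : (↑V' : Set S.W) = (↑V \ P) ∪ ↑S₀ := by
    rw [hV', Finset.coe_union, Finset.coe_filter]
    congr 1
  have hsub : ∀ y ∈ (↑V : Set S.W), S.Anc ↑V y → y ∈ (↑V' : Set S.W) := by
    intro y hy hya
    rw [hcoe]
    exact Or.inl ⟨hy, fun hc => hxa (el1_anc_eqv S (S.eqv_equiv.symm hc) hya)⟩
  have hmono : ∀ y, S.Anc ↑V y → S.Anc ↑V' y := fun y hy => el1_anc_mono S hsub hy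
  have hlen : ∀ s ∈ S₀, S.cw s ∧ S.len s ≤ d + K := by
    intro s hs
    obtain ⟨h1, h2, _⟩ := hS₀ s hs
    have := (hV x hx).2
    exact ⟨h1, by omega⟩
  have hxd := hV x hx
  have hclaim : ∀ n, ∀ s ∈ S₀, S.len s = n → S.X x ⊆ S.X' s ∧ S.rk s < S.rk x := by
    intro n
    induction n with
    | zero =>
      intro s hs hn
      exfalso
      obtain ⟨_, _, h | h⟩ := hS₀ s hs
      · obtain ⟨p, rfl⟩ := h
        rw [S.len_app] at hn
        omega
      · obtain ⟨s', _, p, rfl⟩ := h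
        rw [S.len_app] at hn
        omega
    | succ n ih =>
      intro s hs hn
      have hs1 := hlen s hs
      obtain ⟨_, _, h | h⟩ := hS₀ s hs
      · obtain ⟨p, rfl⟩ := h
        exact ⟨S.X_app x p, S.rk_app x p (by omega) hxd.1 hs1.1⟩
      · obtain ⟨s', hs', p, rfl⟩ := h
        rw [S.len_app] at hn
        have h1 := hlen s' hs'
        obtain ⟨h2, h3⟩ := ih s' hs' (by omega)
        exact ⟨h2.trans ((S.X'_sub s').trans (S.X_app s' p)),
          (S.rk_app s' p (by omega) h1.1 hs1.1).trans h3⟩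
  have hMX : M ⊂ S.X x := by
    refine Set.ssubset_iff_subset_ne.2 ⟨?_, fun hc => hXne hc.symm⟩
    rw [← hxM]
    exact S.X'_sub x
  have hxP : x ∈ P := S.eqv_equiv.refl x
  have hV'2 : ∀ y ∈ V', (y ∈ V ∧ y ∉ P) ∨ y ∈ S₀ := by
    intro y hy
    rw [hV', Finset.mem_union, Finset.mem_filter] at hy
    exact hy
  refine ⟨V', ⟨?_, ?_, ?_, ?_, ?_⟩⟩
  · have h1 := Finset.card_union_le (V.filter (fun y => y ∉ P)) S₀
    have h2 := Finset.card_filter_le V (fun y => y ∉ P)
    rw [← hV'] at h1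
    omega
  · intro y hy
    rcases hV'2 y hy with hy | hy
    · have := hV y hy.1
      exact ⟨this.1, by omega⟩
    · exact hlen y hy
  · rw [hcoe]
    exact hent
  · refine el1_sum V S₀ V' P (S.wt ω ↑V) (S.wt ω ↑V') x hx hxP hV'2
      (fun y _ _ => el1_wt_mono S ω (hmono y)) ?_
    have hw : S.wt ω ↑V x = (K + 1) ^ (2 * (ω - M.ncard)) := by
      unfold ElimSys.wt
      rw [if_neg hxa, if_neg hXX', hxM, add_zero]
    rcases S₀.eq_empty_or_nonempty with h0 | ⟨s₀, hs₀⟩
    · rw [h0, Finset.sum_empty, hw]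
      exact Nat.pow_pos (Nat.succ_pos K)
    · have hM : ∀ s ∈ S₀, M.ncard < (S.X' s).ncard := fun s hs =>
        el1_ncard_lt S (hMX.trans_subset (hclaim _ s hs rfl).1)
      have h0 := hM s₀ hs₀
      have h00 := el1_ncard S hω (S.X' s₀)
      have hb : ∀ s ∈ S₀, S.wt ω ↑V' s ≤ (K + 1) ^ (2 * (ω - M.ncard) - 1) := by
        intro s hs
        unfold ElimSys.wt
        by_cases ha : S.Anc ↑V' s
        · rw [if_pos ha]
          exact Nat.zero_le _
        · rw [if_neg ha]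
          apply Nat.pow_le_pow_right (Nat.succ_pos K)
          have h1 := hM s hs
          have h2 := el1_ncard S hω (S.X' s)
          split_ifs <;> omega
      have h1 := el1_sum_le S₀ (S.wt ω ↑V') K _ hcard hb
      have h2 : (K + 1) ^ (2 * (ω - M.ncard)) = (K + 1) ^ (2 * (ω - M.ncard) - 1) * (K + 1) := by
        rw [← pow_succ]
        congr 1
        omega
      have h3 : 0 < (K + 1) ^ (2 * (ω - M.ncard) - 1) := Nat.pow_pos (Nat.succ_pos K)
      rw [hw, h2]
      nlinarith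
  · refine el1_sum V S₀ V' P (fun y => (K + 1) ^ S.rk y) (fun y => (K + 1) ^ S.rk y) x hx hxP hV'2
      (fun y _ _ => le_rfl) ?_
    rcases S₀.eq_empty_or_nonempty with h0 | ⟨s₀, hs₀⟩
    · rw [h0, Finset.sum_empty]
      exact Nat.pow_pos (Nat.succ_pos K)
    · have hpos := (hclaim _ s₀ hs₀ rfl).2
      have h1 := el1_sum_le S₀ (fun y => (K + 1) ^ S.rk y) K ((K + 1) ^ (S.rk x - 1)) hcard (by
        intro s hs
        have := (hclaim _ s hs rfl).2
        exact Nat.pow_le_pow_right (Nat.succ_pos K) (by omega))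
      have h2 : (K + 1) ^ S.rk x = (K + 1) ^ (S.rk x - 1) * (K + 1) := by
        rw [← pow_succ]
        congr 1
        omega
      have h3 : 0 < (K + 1) ^ (S.rk x - 1) := Nat.pow_pos (Nat.succ_pos K)
      change ∑ y ∈ S₀, (K + 1) ^ S.rk y < (K + 1) ^ S.rk x
      rw [h2]
      nlinarith

end Pool.Agent.WFC
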