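import Pool.Agent.WFC.EL2

set_option autoImplicit false

/-!
# EL3: big rounds
-/

namespace Pool.Agent.WFC

variable {K m : ℕ}

/-- One elimination step: choose `M` minimal (for inclusion, `O` is finite) among the sets `X' x`, `x ∈ V` non-anchored;
then use `stepS` or `stepU`. -/
theorem ElimSys.step1 (S : ElimSys K m) {ω d : ℕ} (hω : Nat.card S.O ≤ ω) (hd : d ≤ S.R1) (V : Finset S.W)
    (hV : ∀ x ∈ V, S.cw x ∧ S.len x ≤ d) (hE : S.E ↑V) (hna : ∃ x ∈ V, ¬ S.Anc ↑V x) :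
    ∃ V' : Finset S.W, S.Prog ω d V V' := by
  classical
  -- an element with `X'` of minimal cardinality
  obtain ⟨x, hx, hmin⟩ := (V.filter (fun x => ¬ S.Anc ↑V x)).exists_min_image
    (fun x => (S.X' x).ncard) (by
      obtain ⟨x, hx, hxa⟩ := hna
      exact ⟨x, Finset.mem_filter.2 ⟨hx, hxa⟩⟩)
  rw [Finset.mem_filter] at hx
  have hmin' : ∀ y ∈ V, ¬ S.Anc ↑V y → ¬ S.X' y ⊂ S.X' x := by
    intro y hy hya hc
    have h1 := el1_ncard_lt S hc
    have h2 := hmin y (Finset.mem_filter.2 ⟨hy, hya⟩)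
    omega
  by_cases hex : ∃ y ∈ V, ¬ S.Anc ↑V y ∧ S.X y = S.X' x ∧ S.X' y = S.X' x
  · exact S.stepS hω hd V hV hE (S.X' x) hmin' hex
  · refine S.stepU hω hd V hV hE (S.X' x) hmin' ?_ x hx.1 hx.2 rfl
    intro y hy hya h1 h2
    exact hex ⟨y, hy, hya, h2, h1⟩

/-- BIG ROUND, by strong induction on `mu ω V`: if all words of `V` are anchored take `V₁ = V`; otherwise apply
`step1` and induction (with `d + K`). -/
theorem ElimSys.bigRound (S : ElimSys K m) {ω M : ℕ} (hω : Nat.card S.O ≤ ω) (V : Finset S.W) (d : ℕ)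
    (hV : ∀ x ∈ V, S.cw x ∧ S.len x ≤ d) (hE : S.E ↑V) (hM : V.card + K * S.mu ω V ≤ M)
    (hR : d + (K + 1) * S.mu ω V ≤ S.R1) :
    ∃ V₁ : Finset S.W, V₁.card ≤ M ∧ (∀ x ∈ V₁, S.cw x ∧ S.len x ≤ S.R1 ∧ S.Anc ↑V₁ x) ∧ S.E ↑V₁ ∧
      S.rs V₁ ≤ S.rs V ∧ ((∃ x ∈ V, ¬ S.Anc ↑V x) → S.rs V₁ < S.rs V) := by
  have main : ∀ n, ∀ (V : Finset S.W) (d : ℕ), S.mu ω V = n →
      (∀ x ∈ V, S.cw x ∧ S.len x ≤ d) → S.E ↑V → V.card + K * S.mu ω V ≤ M →
      d + (K + 1) * S.mu ω V ≤ S.R1 →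
      ∃ V₁ : Finset S.W, V₁.card ≤ M ∧ (∀ x ∈ V₁, S.cw x ∧ S.len x ≤ S.R1 ∧ S.Anc ↑V₁ x) ∧ S.E ↑V₁ ∧
        S.rs V₁ ≤ S.rs V ∧ ((∃ x ∈ V, ¬ S.Anc ↑V x) → S.rs V₁ < S.rs V) := by
    intro n
    induction n using Nat.strong_induction_on with
    | _ n ih =>
      intro V d hn hV hE hM hR
      by_cases hna : ∃ x ∈ V, ¬ S.Anc ↑V x
      · obtain ⟨V', hP⟩ := S.step1 hω (le_trans (Nat.le_add_right _ _) hR) V hV hE hna
        have hmu := hP.mu
        have h1 : K * S.mu ω V' + K ≤ K * S.mu ω V := by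
          have : K * (S.mu ω V' + 1) ≤ K * S.mu ω V := Nat.mul_le_mul_left _ hmu
          rw [mul_add, mul_one] at this
          exact this
        have h2 : (K + 1) * S.mu ω V' + (K + 1) ≤ (K + 1) * S.mu ω V := by
          have : (K + 1) * (S.mu ω V' + 1) ≤ (K + 1) * S.mu ω V := Nat.mul_le_mul_left _ hmu
          rw [mul_add, mul_one] at this
          exact this
        have h3 := hP.card
        obtain ⟨V₁, a, b, c, e, _⟩ := ih (S.mu ω V') (by omega) V' (d + K) rfl hP.wf hP.ent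
          (by omega) (by omega)
        have h4 := hP.rs
        exact ⟨V₁, a, b, c, by omega, fun _ => by omega⟩
      · refine ⟨V, le_trans (Nat.le_add_right _ _) hM, ?_, hE, le_rfl, fun h => absurd h hna⟩
        intro x hx
        have h1 := hV x hx
        refine ⟨h1.1, ?_, ?_⟩
        · exact h1.2.trans (le_trans (Nat.le_add_right _ _) hR)
        · by_contra hc
          exact hna ⟨x, hx, hc⟩
  exact main _ V d rfl hV hE hM hR

/-- `mu ω V ≤ |V| (K+1)^(2ω+1)`. -/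
theorem ElimSys.mu_le (S : ElimSys K m) (ω : ℕ) (V : Finset S.W) :
    S.mu ω V ≤ V.card * (K + 1) ^ (2 * ω + 1) := by
  unfold ElimSys.mu
  refine (Finset.sum_le_card_nsmul V _ ((K + 1) ^ (2 * ω + 1)) ?_).trans ?_
  · intro x _
    unfold ElimSys.wt
    split_ifs
    · exact Nat.zero_le _
    · exact Nat.pow_le_pow_right (Nat.succ_pos K) (by omega)
    · exact Nat.pow_le_pow_right (Nat.succ_pos K) (by omega)
  · rw [smul_eq_mul]

end Pool.Agent.WFC
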