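import Pool.Agent.WFC.SM

set_option autoImplicit false

/-!
# RD: real descent in a context
-/

namespace Pool.Agent.WFC

open Pool.Agent.H56

variable {k : ℕ} {ar : Fin k → ℕ} {T : List (Rule ar)} {D : Type}

/-- Small supports for real cells in a context: apply `Small` to the nodes `Elem T D ⊕ Z` with the identifications
`R` on `Z`, `inl (w i) ~ inr (γ i)` and `inl (base d) ~ inr (cD d)`, the constants `inr ∘ cD`, and the atoms
`inr '' F` together with the birth atoms `⟨symOf r, fun p => inl (args r v p)⟩` of the elements `new r v` of `O`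
(the birth atom determines the element when `r` has a `none` position in its head; it is enough to CHOOSE for every
atom of `F'` which is not in `inr '' F` an element of `O` with this birth atom). -/
theorem entR_small {J : Inst ar D} {q : CQ ar} {K : ℕ} (hs : Small T J q K) {Z : Type} {R : Z → Z → Prop}
    {cD : D → Z} {F : Set (Atom ar Z)} (hF : F.Finite) {ι : Type} (w : ι → Elem T D) (γ : ι → Z)
    (O : Finset (Elem T D)) (h : EntR T J q R cD F w γ ↑O) :
    ∃ O' ⊆ O, O'.card ≤ K ∧ EntR T J q R cD F w γ ↑O' := by
  classical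
  let R' : Elem T D ⊕ Z → Elem T D ⊕ Z → Prop := fun x y =>
    (∃ a b, R a b ∧ x = .inr a ∧ y = .inr b) ∨ (∃ i, x = .inl (w i) ∧ y = .inr (γ i)) ∨
      ∃ d, x = .inl (.base d) ∧ y = .inr (cD d)
  let bt : (r : Fin T.length) → (Fin (T.get r).1 → Elem T D) → Atom ar (Elem T D ⊕ Z) := fun r v =>
    ⟨symOf r, fun p => .inl (args r v p)⟩
  let Fb : Set (Atom ar (Elem T D ⊕ Z)) := {α | ∃ r v, Elem.new r v ∈ O ∧ α = bt r v}
  have hFb : Fb.Finite := by
    refine (O.finite_toSet.biUnion (t := fun e => {α | ∃ r v, e = Elem.new r v ∧ α = bt r v}) ?_).subset ?_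
    · intro e _
      cases e with
      | base d =>
        refine Set.finite_empty.subset ?_
        rintro α ⟨r, v, he, -⟩
        cases he
      | new r v =>
        refine (Set.finite_singleton (bt r v)).subset ?_
        rintro α ⟨r', v', he, rfl⟩
        cases he
        rfl
    · rintro α ⟨r, v, hv, rfl⟩
      exact Set.mem_biUnion (x := Elem.new r v) hv ⟨r, v, rfl, rfl⟩
  have hent : EntG T J q R' (fun d => .inr (cD d)) ((amap Sum.inr) '' F ∪ Fb) := by
    intro N I hI h' hR hJ hA
    refine h N I hI (fun e => h' (.inl e)) (fun z => h' (.inr z)) ⟨?_, ?_⟩ ?_ ?_ ?_ ?_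
    · have e1 : (fun d => h' (.inl (.base d))) = fun d => h' (.inr (cD d)) := by
        funext d
        exact hR _ _ (Or.inr (Or.inr ⟨d, rfl, rfl⟩))
      rw [e1]
      exact hJ
    · intro r v hv
      exact hA (bt r v) (Or.inr ⟨r, v, hv, rfl⟩)
    · intro x y hxy
      exact hR _ _ (Or.inl ⟨x, y, hxy, rfl, rfl⟩)
    · intro α hα
      exact hA (amap Sum.inr α) (Or.inl ⟨α, hα, rfl⟩)
    · intro i
      exact hR _ _ (Or.inr (Or.inl ⟨i, rfl, rfl⟩))
    · intro d
      exact hR _ _ (Or.inr (Or.inr ⟨d, rfl, rfl⟩))
  have hfin : ((amap (ar := ar) (Sum.inr : Z → Elem T D ⊕ Z)) '' F ∪ Fb).Finite := (hF.image _).union hFb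
  obtain ⟨F', hF', hc, he⟩ := hs _ R' (fun d => .inr (cD d)) _ hfin hent
  have hF'fin : F'.Finite := hfin.subset hF'
  -- owners
  have hown : ∀ α : Atom ar (Elem T D ⊕ Z), ∃ o : Option (Elem T D),
      (∀ e, o = some e → ∃ r v, e = Elem.new r v ∧ Elem.new r v ∈ O ∧ α = bt r v) ∧
      (o = none → ¬ ∃ r v, Elem.new r v ∈ O ∧ α = bt r v) := by
    intro α
    by_cases hα : ∃ r v, Elem.new r v ∈ O ∧ α = bt r v
    · obtain ⟨r, v, hv, hα'⟩ := hα
      refine ⟨some (.new r v), ?_, fun h => by simp at h⟩
      intro e he
      exact ⟨r, v, (Option.some.inj he).symm, hv, hα'⟩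
    · exact ⟨none, fun e he => by simp at he, fun _ => hα⟩
  choose own own1 own2 using hown
  let O' : Finset (Elem T D) := (hF'fin.toFinset.toList.filterMap own).toFinset
  have hO' : ∀ e, e ∈ O' ↔ ∃ α ∈ F', own α = some e := by
    intro e
    simp only [O', List.mem_toFinset, List.mem_filterMap, Finset.mem_toList, Set.Finite.mem_toFinset]
  refine ⟨O', ?_, ?_, ?_⟩
  · intro e he
    obtain ⟨α, -, hα⟩ := (hO' e).1 he
    obtain ⟨r, v, rfl, hv, -⟩ := own1 α e hα
    exact hv
  · calc O'.card ≤ (hF'fin.toFinset.toList.filterMap own).length := List.toFinset_card_le _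
      _ ≤ hF'fin.toFinset.toList.length := List.length_filterMap_le _ _
      _ = hF'fin.toFinset.card := Finset.length_toList _
      _ = F'.ncard := (Set.ncard_eq_toFinset_card F' hF'fin).symm
      _ ≤ K := hc
  · intro N I hI g h' hg hR hA hw hcD
    refine he N I hI (Sum.elim g h') ?_ ?_ ?_
    · rintro x y (⟨a, b, hab, rfl, rfl⟩ | ⟨i, rfl, rfl⟩ | ⟨d, rfl, rfl⟩)
      · exact hR a b hab
      · exact hw i
      · exact hcD d
    · have e1 : (fun d => Sum.elim g h' (.inr (cD d))) = fun d => g (.base d) := by
        funext d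
        exact (hcD d).symm
      rw [e1]
      exact hg.1
    · intro α hα
      rcases ho : own α with _ | e
      · have h1 := own2 α ho
        rcases hF' hα with h2 | h2
        · obtain ⟨β, hβ, rfl⟩ := h2
          exact hA β hβ
        · exact absurd h2 h1
      · obtain ⟨r, v, rfl, -, rfl⟩ := own1 α e ho
        exact hg.2 r v ((hO' _).2 ⟨_, hα, ho⟩)

open Classical in
/-- REAL DESCENT. Same proof as `H56.valley` (file `Pool/Agent/H56/Bad.lean`), with `entR_small` instead of `hsmall`:
induction on `∑ e ∈ O, (K + 1) ^ rk J e`. If `e ∈ O` is neither one of the `w i` nor a parent of an element of `O`, its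
cell can be replaced by all elements of the earlier stage (in a model, choose a new witness for `e`; `h` is not
changed). -/
theorem rd [Finite D] {J : Inst ar D} {q : CQ ar} {K : ℕ} (hs : Small T J q K) {Z : Type}
    {R : Z → Z → Prop} {cD : D → Z} {F : Set (Atom ar Z)} (hF : F.Finite) {ι : Type} (w : ι → Elem T D) (γ : ι → Z)
    (O : Finset (Elem T D)) (hO : ∀ e ∈ O, e ∈ Leg J) (h : EntR T J q R cD F w γ ↑O) :
    ∃ O' : Finset (Elem T D), (∀ e ∈ O', e ∈ Leg J) ∧ O'.card ≤ K ∧ EntR T J q R cD F w γ ↑O' ∧
      Anchored O' (Set.range w) := by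
  -- reduction to small supports
  suffices H : ∀ n, ∀ O : Finset (Elem T D), (∀ e ∈ O, e ∈ Leg J) → O.card ≤ K → EntR T J q R cD F w γ ↑O →
      ∑ e ∈ O, (K + 1) ^ (rk J e) = n →
      ∃ O' : Finset (Elem T D), (∀ e ∈ O', e ∈ Leg J) ∧ O'.card ≤ K ∧ EntR T J q R cD F w γ ↑O' ∧
        Anchored O' (Set.range w) by
    obtain ⟨O₁, hO₁, hc, he⟩ := entR_small hs hF w γ O h
    exact H _ O₁ (fun e he' => hO e (hO₁ he')) hc he rfl
  intro n
  induction n using Nat.strong_induction_on with
  | _ n ih =>
    intro O hO hcard hent hsum
    by_cases hanch : Anchored O (Set.range w)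
    · exact ⟨O, hO, hcard, hent, hanch⟩
    · unfold Anchored at hanch
      push Not at hanch
      obtain ⟨e, heO, heW, hpar⟩ := hanch
      have hsplit : ∑ e' ∈ O, (K + 1) ^ (rk J e') = (K + 1) ^ (rk J e) + ∑ e' ∈ O.erase e, (K + 1) ^ (rk J e') :=
        (Finset.add_sum_erase O _ heO).symm
      cases e with
      | base d =>
        -- a base element can be dropped
        have hent' : EntR T J q R cD F w γ ↑(O.erase (.base d)) := by
          intro N I hI g h' hg hR hA hw hcD
          refine hent N I hI g h' ⟨hg.1, fun r v hv => hg.2 r v ?_⟩ hR hA hw hcD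
          exact Finset.mem_coe.mpr (Finset.mem_erase.mpr ⟨by simp, hv⟩)
        have hpos : 1 ≤ (K + 1) ^ (rk J (Elem.base d : Elem T D)) := Nat.one_le_pow _ _ (Nat.succ_pos _)
        refine ih _ ?_ (O.erase (.base d)) (fun e' he' => hO e' (Finset.mem_of_mem_erase he')) ?_ hent' rfl
        · omega
        · exact (Finset.card_erase_le).trans hcard
      | new r v =>
        obtain ⟨i, hi, ⟨p₀, hp₀⟩, hv, hb⟩ := new_rk J (hO _ heO)
        have hfin := stage_finite (T := T) J i
        set S : Finset (Elem T D) := hfin.toFinset with hS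
        have hmemS : ∀ e', e' ∈ S ↔ e' ∈ stage J i := fun e' => hfin.mem_toFinset
        have hent' : EntR T J q R cD F w γ ↑(O.erase (.new r v) ∪ S) := by
          intro N I hI g h' hg hR hA hw hcD
          have hgi : HomOn J (stage J i) I g := hg.mono (fun e' he' => by
            simp only [Finset.coe_union, Set.mem_union, Finset.mem_coe]
            exact Or.inr ((hmemS e').2 he'))
          obtain ⟨w', hw1, hw2, hw3⟩ := hI (T.get r) (List.get_mem T r) (fun x => g (v x))
            (fun a ha => hb a ha N I hI g hgi)
          let g' : Elem T D → N := fun e' => if e' = .new r v then w' p₀ else g e'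
          have hg' : ∀ e', e' ≠ .new r v → g' e' = g e' := fun e' he' => if_neg he'
          have hvx : ∀ x, v x ≠ .new r v := by
            intro x hx
            have := rk_parent J (hO _ heO) x
            rw [hx] at this
            exact lt_irrefl _ this
          apply hent N I hI g' h' ?_ hR hA ?_ ?_
          · refine ⟨?_, ?_⟩
            · have hbase : (fun d => g' (.base d)) = fun d => g (.base d) := by
                funext d
                exact hg' _ (by simp)
              rw [hbase]
              exact hg.1
            · intro r' v' hv'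
              by_cases hne : (Elem.new r' v' : Elem T D) = .new r v
              · cases hne
                convert hw3 using 1
                funext p
                rcases hp : headOf r p with _ | x
                · rw [args_none hp]
                  exact (if_pos rfl).trans (hw2 p₀ p hp₀ hp)
                · rw [args_some hp, hg' _ (hvx x)]
                  exact (hw1 p x hp).symm
              · have h1 : (fun p => g' (args r' v' p)) = fun p => g (args r' v' p) := by
                  funext p
                  rcases hp : headOf r' p with _ | x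
                  · rw [args_none hp, hg' _ hne]
                  · rw [args_some hp]
                    apply hg'
                    intro hx
                    exact hpar r' v' p x hv' hp hx.symm
                rw [h1]
                apply hg.2 r' v'
                simp only [Finset.coe_union, Set.mem_union, Finset.mem_coe, Finset.mem_erase]
                exact Or.inl ⟨hne, hv'⟩
          · intro j
            have h1 : w j ≠ .new r v := fun h => heW ⟨j, h⟩
            rw [hg' _ h1]
            exact hw j
          · intro d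
            rw [hg' _ (by simp)]
            exact hcD d
        obtain ⟨O₂, hO₂, hc₂, he₂⟩ := entR_small hs hF w γ _ hent'
        have hleg₂ : ∀ e' ∈ O₂, e' ∈ Leg J := by
          intro e' he'
          rcases Finset.mem_union.mp (hO₂ he') with h1 | h1
          · exact hO e' (Finset.mem_of_mem_erase h1)
          · exact ⟨i, (hmemS e').1 h1⟩
        refine ih _ ?_ O₂ hleg₂ hc₂ he₂ rfl
        -- the measure decreases
        have h1 : ∑ e' ∈ O₂, (K + 1) ^ (rk J e') ≤
            ∑ e' ∈ O.erase (.new r v), (K + 1) ^ (rk J e') + ∑ e' ∈ O₂ ∩ S, (K + 1) ^ (rk J e') := by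
          have hsub : O₂ ⊆ O.erase (.new r v) ∪ (O₂ ∩ S) := by
            intro e' he'
            rcases Finset.mem_union.mp (hO₂ he') with h2 | h2
            · exact Finset.mem_union_left _ h2
            · exact Finset.mem_union_right _ (Finset.mem_inter.mpr ⟨he', h2⟩)
          refine (Finset.sum_le_sum_of_subset hsub).trans ?_
          have := Finset.sum_union_inter (s₁ := O.erase (.new r v)) (s₂ := O₂ ∩ S) (f := fun e' => (K + 1) ^ (rk J e'))
          omega
        have h2 : ∑ e' ∈ O₂ ∩ S, (K + 1) ^ (rk J e') ≤ K * (K + 1) ^ i := by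
          calc ∑ e' ∈ O₂ ∩ S, (K + 1) ^ (rk J e') ≤ ∑ e' ∈ O₂ ∩ S, (K + 1) ^ i := by
                apply Finset.sum_le_sum
                intro e' he'
                exact Nat.pow_le_pow_right (Nat.succ_pos _) (rk_le J ((hmemS e').1 (Finset.mem_inter.mp he').2))
            _ = (O₂ ∩ S).card * (K + 1) ^ i := by rw [Finset.sum_const, smul_eq_mul]
            _ ≤ K * (K + 1) ^ i := Nat.mul_le_mul_right _ ((Finset.card_le_card Finset.inter_subset_left).trans hc₂)
        have h3 : K * (K + 1) ^ i < (K + 1) ^ (i + 1) := by
          rw [pow_succ]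
          have : 0 < (K + 1) ^ i := Nat.pow_pos (Nat.succ_pos _)
          nlinarith
        rw [hi] at hsplit
        omega

end Pool.Agent.WFC
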