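import Pool.Agent.WFC.CL4

set_option autoImplicit false

/-!
# XL2: ranks of classes; number of occurrences
-/

namespace Pool.Agent.WFC

open Pool.Agent.H56

variable {k : ℕ} {ar : Fin k → ℕ} {T : List (Rule ar)} {D : Type} {K m : ℕ} {hm : ∀ i, ar i ≤ m} {J : Inst ar D}
  {q : CQ ar} {𝔽 : Fr hm J q T K} {st st' : List (Stg K m)} {τ : Tsk K m}

theorem rkw_eqw {x y : Wd K m} (h : Eqw 𝔽 st x y) : rkw 𝔽 st x = rkw 𝔽 st y := by
  have hs : {n | ∃ y' e, Eqw 𝔽 st x y' ∧ val 𝔽.a y' = some e ∧ dep e = n} =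
      {n | ∃ y' e, Eqw 𝔽 st y y' ∧ val 𝔽.a y' = some e ∧ dep e = n} := by
    ext n
    constructor
    · rintro ⟨y', e, h1, h2⟩
      exact ⟨y', e, h.symm.trans h1, h2⟩
    · rintro ⟨y', e, h1, h2⟩
      exact ⟨y', e, h.trans h1, h2⟩
  rw [rkw, rkw, hs]

/-- Parents have smaller rank: let `y ~ x` have a value of depth `rkw x`; `y` is a cell word with the same rule as `x`
(`class_lb`), so `ext y [p]` is defined (as `ext x [p]` is), and `ext y [p] ~ ext x [p]`; use `dep_up1`. -/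
theorem rkw_app (hv : Valid 𝔽 st) {x : Wd K m} (hx : x.2.length ≤ cR K m) {p : Fin m}
    (hc : 𝔽.cw x) (hp : 𝔽.lb (ext x [p]) ≠ none) : rkw 𝔽 st (ext x [p]) < rkw 𝔽 st x := by
  obtain ⟨r, hr⟩ := hc
  have hr' := hr
  rw [Fr.lb, Option.map_eq_some_iff] at hr'
  obtain ⟨e₀, he₀, hl₀⟩ := hr'
  have hd : 𝔽.lbl x ≠ none := by
    rw [← lb_ne_none_iff, hr]
    simp
  have hne : {n | ∃ y e, Eqw 𝔽 st x y ∧ val 𝔽.a y = some e ∧ dep e = n}.Nonempty :=
    ⟨dep e₀, x, e₀, Eqw.refl x, he₀, rfl⟩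
  obtain ⟨y, e, hxy, hve, hde⟩ := Nat.sInf_mem hne
  have hlab : lab e = .inr r := by
    have h1 := class_lb hv hx hd hxy
    rw [hr, Fr.lb, hve, Option.map_some] at h1
    exact (Option.some.inj h1).symm
  have hpr : Proper r p := by
    rw [Fr.lb, map_ne_none, val_ext, he₀, Option.bind_some] at hp
    exact (up1_ne_none_iff hl₀).1 hp
  obtain ⟨e', he'⟩ := Option.ne_none_iff_exists'.1 ((up1_ne_none_iff hlab).2 hpr)
  have hlt := dep_up1 he'
  have hmem : dep e' ∈ {n | ∃ y e, Eqw 𝔽 st (ext x [p]) y ∧ val 𝔽.a y = some e ∧ dep e = n} := by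
    refine ⟨ext y [p], e', hxy.ext [p], ?_, rfl⟩
    rw [val_ext, hve, Option.bind_some]
    exact he'
  have h1 : rkw 𝔽 st (ext x [p]) ≤ dep e' := Nat.sInf_le hmem
  have h2 : dep e = rkw 𝔽 st x := hde
  omega

/-- Number of occurrences. -/
theorem card_occ (K m : ℕ) : Nat.card (Occ K m) = cω K m := by
  rw [Nat.card_eq_fintype_card, Fintype.card_prod, Fintype.card_prod, Fintype.card_option,
    Fintype.card_fin, Fintype.card_fin, Fintype.card_bool, cω]
  ring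

end Pool.Agent.WFC
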