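import Pool.Agent.WFC.XL1
import Pool.Agent.WFC.XL2
import Pool.Agent.WFC.RD

set_option autoImplicit false

/-!
# EV1: entailment from sets of words: basic lemmas
-/

namespace Pool.Agent.WFC

open Pool.Agent.H56

variable {k : ℕ} {ar : Fin k → ℕ} {T : List (Rule ar)} {D : Type} {K m : ℕ} {hm : ∀ i, ar i ≤ m} {J : Inst ar D}
  {q : CQ ar} {𝔽 : Fr hm J q T K} {st st' : List (Stg K m)} {τ : Tsk K m}

theorem ev1_vcells_mono {V V' : Set (Wd K m)} (hV : V ⊆ V') : vcells 𝔽 V ⊆ vcells 𝔽 V' := by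
  rintro α ⟨x, hx, r, hr, hα⟩
  exact ⟨x, hV hx, r, hr, hα⟩

theorem EntV.mono {V V' : Set (Wd K m)} (h : EntV 𝔽 st V) (hV : V ⊆ V') : EntV 𝔽 st V' :=
  EntG.mono h (fun _ _ hxy => hxy) (Set.union_subset_union_right _ (ev1_vcells_mono hV))

/-- `EntV` only depends on the equivalence of short words. -/
theorem EntV.congr {V : Set (Wd K m)} (h : EntV 𝔽 st V)
    (hst : ∀ x y : Wd K m, x.2.length ≤ cR K m → y.2.length ≤ cR K m → Eqw 𝔽 st x y → Eqw 𝔽 st' x y) :
    EntV 𝔽 st' V := by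
  refine EntG.mono h (fun x y hxy => ?_) subset_rfl
  cases hxy with
  | nd h => exact .nd h
  | wd h1 h2 h3 => exact .wd h1 h2 (hst _ _ h1 h2 h3)
  | root h => exact .root h
  | base h1 h2 => exact .base h1 h2

theorem EntV.cons {V : Set (Wd K m)} (σ : Stg K m) (h : EntV 𝔽 st V) : EntV 𝔽 (σ :: st) V :=
  h.congr fun _ _ _ _ hxy => hxy.cons σ

/-- The cells of a finite set of words form a finite set. -/
theorem finite_vcells {V : Set (Wd K m)} (hV : V.Finite) : (vcells 𝔽 V).Finite := by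
  have h1 : (V ×ˢ (Set.univ : Set (Fin T.length))).Finite := hV.prod Set.finite_univ
  refine (h1.image (fun p => cell hm p.2 (Sum.inr p.1 : 𝔽.G.X ⊕ Wd K m)
    (fun i => .inr (ext p.1 [i])))).subset ?_
  rintro α ⟨x, hx, r, -, hα⟩
  exact ⟨(x, r), ⟨hx, Set.mem_univ _⟩, hα.symm⟩

/-- Small supports: `Small` gives at most `K` atoms; choose a word for each of them which is not in the image of
`𝔽.G.F`. -/
theorem EntV.small (hs : Small T J q K) (V : Finset (Wd K m)) (h : EntV 𝔽 st ↑V) :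
    ∃ V' ⊆ V, V'.card ≤ K ∧ EntV 𝔽 st ↑V' := by
  classical
  have hfin : ((amap Sum.inl) '' 𝔽.G.F ∪ vcells 𝔽 (↑V : Set (Wd K m))).Finite :=
    (𝔽.ok.finF.image _).union (finite_vcells V.finite_toSet)
  obtain ⟨F', hF', hcard, hent⟩ := hs _ _ _ _ hfin h
  have hF'fin : F'.Finite := hfin.subset hF'
  have hAfin : (F' \ (amap Sum.inl) '' 𝔽.G.F).Finite := hF'fin.subset Set.sdiff_subset
  have hch : ∀ α ∈ hAfin.toFinset, ∃ x ∈ V, ∃ r, 𝔽.lb x = some (.inr r) ∧
      α = cell hm r (Sum.inr x : 𝔽.G.X ⊕ Wd K m) (fun i => .inr (ext x [i])) := by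
    intro α hα
    rw [Set.Finite.mem_toFinset] at hα
    rcases hF' hα.1 with h1 | ⟨x, hx, r, hr, he⟩
    · exact absurd h1 hα.2
    · exact ⟨x, hx, r, hr, he⟩
  choose f hfV hfr using hch
  refine ⟨hAfin.toFinset.attach.image (fun α => f α.1 α.2), ?_, ?_, ?_⟩
  · intro x hx
    rw [Finset.mem_image] at hx
    obtain ⟨α, -, rfl⟩ := hx
    exact hfV α.1 α.2
  · refine Finset.card_image_le.trans ?_
    rw [Finset.card_attach, ← Set.ncard_eq_toFinset_card _ hAfin]
    exact (Set.ncard_le_ncard Set.sdiff_subset hF'fin).trans hcard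
  · refine EntG.mono hent (fun _ _ hxy => hxy) ?_
    intro α hα
    by_cases h1 : α ∈ (amap Sum.inl) '' 𝔽.G.F
    · exact Or.inl h1
    · right
      have hα' : α ∈ hAfin.toFinset := by
        rw [Set.Finite.mem_toFinset]
        exact ⟨hα, h1⟩
      obtain ⟨r, hr, he⟩ := hfr α hα'
      exact ⟨f α hα', Finset.mem_coe.2 (Finset.mem_image.2 ⟨⟨α, hα'⟩, Finset.mem_attach _ _, rfl⟩), r, hr, he⟩

/-- Replacing words by equivalent words: the cells have the same rule (`class_lb`) and equivalent short arguments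
(`Eqw.ext`), so the same values in every model. -/
theorem EntV.ren (hv : Valid 𝔽 st) {V V' : Set (Wd K m)} (hV : ∀ x ∈ V, 𝔽.cw x ∧ x.2.length < cR K m)
    (hV' : ∀ x ∈ V', x.2.length < cR K m) (hVV : ∀ x ∈ V, ∃ y ∈ V', Eqw 𝔽 st x y) (h : EntV 𝔽 st V) :
    EntV 𝔽 st V' := by
  intro N I hI g hR hJ hF
  refine h N I hI g hR hJ ?_
  rintro α (hα | ⟨x, hx, r, hr, rfl⟩)
  · exact hF α (Or.inl hα)
  · obtain ⟨y, hy, hxy⟩ := hVV x hx
    obtain ⟨-, hlx⟩ := hV x hx
    have hly := hV' y hy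
    have hd : 𝔽.lbl x ≠ none := by
      rw [← lb_ne_none_iff, hr]
      simp
    have hlb : 𝔽.lb y = some (.inr r) := by
      rw [← class_lb hv hlx.le hd hxy, hr]
    have h1 := hF (cell hm r (Sum.inr y : 𝔽.G.X ⊕ Wd K m) (fun i => .inr (ext y [i])))
      (Or.inr ⟨y, hy, r, hlb, rfl⟩)
    have h2 : (fun p : Fin (ar (symOf r)) =>
          g ((cell hm r (Sum.inr x : 𝔽.G.X ⊕ Wd K m) (fun i => .inr (ext x [i]))).2 p)) =
        fun p : Fin (ar (symOf r)) =>
          g ((cell hm r (Sum.inr y : 𝔽.G.X ⊕ Wd K m) (fun i => .inr (ext y [i]))).2 p) := by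
      funext p
      refine (cell_args hm r _ _ g p).trans (Eq.trans ?_ (cell_args hm r _ _ g p).symm)
      split_ifs with hp
      · exact hR _ _ (.wd hlx.le hly.le hxy)
      · refine hR _ _ (.wd ?_ ?_ (hxy.ext _))
        · rw [ext_snd, List.length_append, List.length_singleton]
          omega
        · rw [ext_snd, List.length_append, List.length_singleton]
          omega
    exact (congrArg (I (symOf r)) h2).mpr h1

end Pool.Agent.WFC
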