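import Pool.Agent.WFC.EV1

set_option autoImplicit false

/-!
# EV2: entailment from the tops of the rows
-/

namespace Pool.Agent.WFC

open Pool.Agent.H56

variable {k : ℕ} {ar : Fin k → ℕ} {T : List (Rule ar)} {D : Type} {K m : ℕ} {hm : ∀ i, ar i ≤ m} {J : Inst ar D}
  {q : CQ ar} {𝔽 : Fr hm J q T K} {st st' : List (Stg K m)} {τ : Tsk K m}

/-- The start: the tops of the rows of `𝔽.G` (one of the two clones). Given a model and `h` on `𝔽.G.X ⊕ Wd` define
`h' : 𝔽.G.X → N` by `h' x = h (inr (ow o))` if `𝔽.G.R x (node o)` for a challenged occurrence `o` (well defined by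
`eqw_clm`, the words `ow o` are short), and `h' x = h (inl x)` otherwise. It respects `𝔽.G.R` (`inv` is used to see
that both cases are invariant), the constants (`cst`), `𝔽.G.F` (`ctx`) and the cells (for an unchallenged proper
position use `VRel.root`). Use `𝔽.ok.ent`. -/
theorem entV_init (hK : 1 ≤ K) (hm1 : 1 ≤ m) :
    EntV 𝔽 st (Set.range (fun e : Fin K => (((e, false), []) : Wd K m))) := by
  classical
  intro N I hI h hR hJ hF
  have hlen : ∀ o : Occ K m, (ow o).2.length ≤ cR K m := by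
    intro o
    have h1 := ow_len o
    have h2 : 1 ≤ cR K m := by
      unfold cR
      omega
    omega
  let h' : 𝔽.G.X → N := fun x => if H : ∃ o, 𝔽.G.Ch o ∧ 𝔽.G.R x (𝔽.G.node o) then h (.inr (ow H.choose))
    else h (.inl x)
  have hA : ∀ x o, 𝔽.G.Ch o → 𝔽.G.R x (𝔽.G.node o) → h' x = h (.inr (ow o)) := by
    intro x o ho hx
    have H : ∃ o, 𝔽.G.Ch o ∧ 𝔽.G.R x (𝔽.G.node o) := ⟨o, ho, hx⟩
    have h1 : h' x = h (.inr (ow H.choose)) := dif_pos H
    rw [h1]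
    refine hR _ _ (VRel.wd (hlen _) (hlen _) (eqw_clm ⟨H.choose_spec.1, ho, ?_⟩))
    exact 𝔽.ok.eqv.trans (𝔽.ok.eqv.symm H.choose_spec.2) hx
  have hB : ∀ x, (∀ o, 𝔽.G.Ch o → ¬ 𝔽.G.R x (𝔽.G.node o)) → h' x = h (.inl x) := by
    intro x hx
    exact dif_neg (fun ⟨o, h1, h2⟩ => hx o h1 h2)
  have hcD : ∀ d, h' (𝔽.G.cD d) = h (.inl (𝔽.G.cD d)) := by
    intro d
    refine hB _ (fun o ho hx => 𝔽.ok.cst o ho d (𝔽.ok.eqv.symm hx))
  refine 𝔽.ok.ent N I hI h' ?_ ?_ ?_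
  · intro x y hxy
    by_cases H : ∃ o, 𝔽.G.Ch o ∧ 𝔽.G.R x (𝔽.G.node o)
    · obtain ⟨o, h1, h2⟩ := H
      rw [hA x o h1 h2, hA y o h1 (𝔽.ok.eqv.trans (𝔽.ok.eqv.symm hxy) h2)]
    · have h3 : ∀ o, 𝔽.G.Ch o → ¬ 𝔽.G.R x (𝔽.G.node o) := fun o h1 h2 => H ⟨o, h1, h2⟩
      rw [hB x h3, hB y (fun o h1 h2 => h3 o h1 (𝔽.ok.eqv.trans hxy h2))]
      exact hR _ _ (VRel.nd hxy)
  · have h1 : (fun d => h' (𝔽.G.cD d)) = fun d => h (.inl (𝔽.G.cD d)) := funext hcD
    rw [h1]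
    exact hJ
  · rintro α (hα | ⟨e, rfl⟩)
    · have h1 := hF (amap Sum.inl α) (Or.inl ⟨α, hα, rfl⟩)
      have h2 : (fun p => h' (α.2 p)) = fun p => h ((amap Sum.inl α).2 p) := by
        funext p
        exact hB _ (fun o ho hx => 𝔽.ok.ctx o ho α hα p (𝔽.ok.eqv.symm hx))
      rw [h2]
      exact h1
    · have hlb : 𝔽.lb (((e, false), []) : Wd K m) = some (.inr (𝔽.G.r e)) := by
        have h1 := 𝔽.rule (e, false)
        show (up [] (𝔽.a (e, false))).map lab = _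
        rw [up_nil, Option.map_some, h1]
      have h1 := hF (cell hm (𝔽.G.r e) (.inr ((e, false), [])) (fun p => .inr (ext ((e, false), []) [p])))
        (Or.inr ⟨((e, false), []), ⟨e, rfl⟩, 𝔽.G.r e, hlb, rfl⟩)
      have h2 : ∀ p : Fin (ar (symOf (𝔽.G.r e))), h' (if headOf (𝔽.G.r e) p = none then 𝔽.G.nd e none
          else 𝔽.G.nd e (some ⟨p.1, lt_of_lt_of_le p.2 (hm _)⟩)) =
          h (if headOf (𝔽.G.r e) p = none then Sum.inr (((e, false), []) : Wd K m)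
          else Sum.inr (ext ((e, false), []) [⟨p.1, lt_of_lt_of_le p.2 (hm _)⟩])) := by
        intro p
        split_ifs with hp
        · have h3 : 𝔽.G.Ch (((e, false), none) : Occ K m) := ⟨fun p hp => (by cases hp), 𝔽.ok.top e⟩
          exact hA _ ((e, false), none) h3 (𝔽.ok.eqv.refl _)
        · obtain ⟨x, hx⟩ := Option.ne_none_iff_exists'.mp hp
          have hvo : 𝔽.G.vo (((e, false), some ⟨p.1, lt_of_lt_of_le p.2 (hm _)⟩) : Occ K m) := by
            intro p' hp'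
            cases hp'
            exact ⟨p.2, x, hx⟩
          by_cases hch : 𝔽.G.ch e (some ⟨p.1, lt_of_lt_of_le p.2 (hm _)⟩)
          · exact hA _ ((e, false), some ⟨p.1, lt_of_lt_of_le p.2 (hm _)⟩) ⟨hvo, hch⟩ (𝔽.ok.eqv.refl _)
          · have hrt : 𝔽.G.Rt (((e, false), some ⟨p.1, lt_of_lt_of_le p.2 (hm _)⟩) : Occ K m) := ⟨hvo, hch⟩
            have h4 : h' (𝔽.G.nd e (some ⟨p.1, lt_of_lt_of_le p.2 (hm _)⟩)) =
                h (.inl (𝔽.G.nd e (some ⟨p.1, lt_of_lt_of_le p.2 (hm _)⟩))) := by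
              refine hB _ (fun o ho hx => ?_)
              have h5 := 𝔽.ok.inv o (((e, false), some ⟨p.1, lt_of_lt_of_le p.2 (hm _)⟩) : Occ K m) ho hvo
                (𝔽.ok.eqv.symm hx)
              exact hch h5.2
            rw [h4]
            exact (hR _ _ (VRel.root hrt)).symm
      exact (congrArg (I (symOf (𝔽.G.r e))) (funext h2)).mpr h1

end Pool.Agent.WFC
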