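import Pool.Agent.WFC.EV1

set_option autoImplicit false

/-!
# EV3: classes which are not glued
-/

namespace Pool.Agent.WFC

open Pool.Agent.H56

variable {k : ℕ} {ar : Fin k → ℕ} {T : List (Rule ar)} {D : Type} {K m : ℕ} {hm : ∀ i, ar i ≤ m} {J : Inst ar D}
  {q : CQ ar} {𝔽 : Fr hm J q T K} {st st' : List (Stg K m)} {τ : Tsk K m}

/-- Classes which are not glued: if `x` is short, not equivalent to a root word, and has no constant as label, then the
nodes related to `inr x` are the equivalent short words. (Show by induction on `EqvGen` that `VRel` in both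
directions leads from `{inr y | y short, x ~ y}` only to itself.) -/
theorem vrel_pure (hv : Valid 𝔽 st) {x : Wd K m} (hx : x.2.length ≤ cR K m) (hd : 𝔽.lbl x ≠ none)
    (hb : ∀ d, 𝔽.lb x ≠ some (.inl d)) (hr : ∀ o, 𝔽.G.Rt o → ¬ Eqw 𝔽 st x (ow o)) {n : 𝔽.G.X ⊕ Wd K m}
    (h : Relation.EqvGen (VRel 𝔽 st) (.inr x) n) : ∃ y : Wd K m, n = .inr y ∧ y.2.length ≤ cR K m ∧
      Eqw 𝔽 st x y := by
  have key : ∀ a b : 𝔽.G.X ⊕ Wd K m, Relation.EqvGen (VRel 𝔽 st) a b →
      ((∃ y : Wd K m, a = .inr y ∧ y.2.length ≤ cR K m ∧ Eqw 𝔽 st x y) ↔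
        ∃ y : Wd K m, b = .inr y ∧ y.2.length ≤ cR K m ∧ Eqw 𝔽 st x y) := by
    intro a b hab
    induction hab with
    | rel a b h =>
      cases h with
      | nd _ => constructor <;> rintro ⟨y, hy, -⟩ <;> exact absurd hy (by simp)
      | @wd u v hu hv' huv =>
        constructor
        · rintro ⟨y, hy, -, hxy⟩
          have e : u = y := by simpa using hy
          subst e
          exact ⟨v, rfl, hv', hxy.trans huv⟩
        · rintro ⟨y, hy, -, hxy⟩
          have e : v = y := by simpa using hy
          subst e
          exact ⟨u, rfl, hu, hxy.trans huv.symm⟩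
      | @root o ho =>
        constructor
        · rintro ⟨y, hy, -, hxy⟩
          have e : ow o = y := by simpa using hy
          subst e
          exact absurd hxy (hr o ho)
        · rintro ⟨y, hy, -⟩
          exact absurd hy (by simp)
      | @base u d hu hud =>
        constructor
        · rintro ⟨y, hy, -, hxy⟩
          have e : u = y := by simpa using hy
          subst e
          exact absurd ((class_lb hv hx hd hxy).trans hud) (hb d)
        · rintro ⟨y, hy, -⟩
          exact absurd hy (by simp)
    | refl a => exact Iff.rfl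
    | symm a b _ ih => exact ih.symm
    | trans a b c _ _ ih1 ih2 => exact ih1.trans ih2
  exact (key _ _ h).1 ⟨x, rfl, hx, Eqw.refl x⟩

end Pool.Agent.WFC
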