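import Mathlib

set_option autoImplicit false

/-!
# Abstract elimination systems

Words `W` with one-letter extensions `app x p`, an equivalence, two visibility sets `X' x ⊆ X x`, cell words, root
words, a rank, and a monotone property `E` of sets of words (entailment) for which supports with at most `K` words
exist. Non-anchored words of `V` can be eliminated in two ways (`solveS`, `solveU`).
-/

namespace Pool.Agent.WFC

/-- Anchored words: equivalent to a root word, or to `app y p` for an anchored word `y` of `V`. -/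
inductive AncA {W : Type} {m : ℕ} (rt : W → Prop) (eqv : W → W → Prop) (app : W → Fin m → W) (V : Set W) : W → Prop
  | root {x t : W} : rt t → eqv x t → AncA rt eqv app V x
  | step {x y : W} {p : Fin m} : y ∈ V → AncA rt eqv app V y → eqv x (app y p) → AncA rt eqv app V x

structure ElimSys (K m : ℕ) : Type 1 where
  W : Type
  O : Type
  app : W → Fin m → W
  len : W → ℕ
  eqv : W → W → Prop
  X : W → Set O
  X' : W → Set O
  cw : W → Prop
  rt : W → Prop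
  rk : W → ℕ
  E : Set W → Prop
  R1 : ℕ
  finO : Finite O
  eqv_equiv : Equivalence eqv
  len_app : ∀ x p, len (app x p) = len x + 1
  len_rt : ∀ t, rt t → len t ≤ 1
  app_eqv : ∀ x y p, eqv x y → eqv (app x p) (app y p)
  X_eqv : ∀ x y, eqv x y → X x = X y
  X'_eqv : ∀ x y, eqv x y → X' x = X' y
  X'_sub : ∀ x, X' x ⊆ X x
  X_app : ∀ x p, X x ⊆ X' (app x p)
  cw_eqv : ∀ x y, len x ≤ R1 → cw x → eqv x y → cw y
  rk_eqv : ∀ x y, eqv x y → rk x = rk y
  rk_app : ∀ x p, len x ≤ R1 + K → cw x → cw (app x p) → rk (app x p) < rk x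
  E_mono : ∀ V V' : Set W, V ⊆ V' → E V → E V'
  E_small : ∀ V : Finset W, E ↑V → ∃ V' ⊆ V, V'.card ≤ K ∧ E ↑V'
  E_ren : ∀ V V' : Finset W, (∀ x ∈ V, cw x ∧ len x ≤ R1) → (∀ x ∈ V', len x ≤ R1) →
    (∀ x ∈ V, ∃ y ∈ V', eqv x y) → E ↑V → E ↑V'
  solveS : ∀ (V : Finset W) (M : Set O) (P : Set W),
    P = {x | x ∈ V ∧ ¬ AncA rt eqv app ↑V x ∧ X x = M ∧ X' x = M} →
    (∀ x ∈ V, cw x ∧ len x ≤ R1) → E ↑V → P.Nonempty →
    (∀ x ∈ P, ∀ y ∈ V, y ∉ P → ¬ eqv x y ∧ ∀ p, ¬ eqv x (app y p)) →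
    ∃ S : Finset W, S.card ≤ K ∧
      (∀ s ∈ S, cw s ∧ (∃ x ∈ P, len s ≤ len x + K) ∧
        ((∃ x ∈ P, ∃ p, s = app x p ∧ (X s ≠ M ∨ (∃ t, rt t ∧ eqv s t) ∨
          ∃ y ∈ V, y ∉ P ∧ (eqv s y ∨ ∃ p', eqv s (app y p')))) ∨
        ∃ s' ∈ S, ∃ p, s = app s' p)) ∧
      E ((↑V \ P) ∪ ↑S)
  solveU : ∀ (V : Finset W) (x : W), (∀ y ∈ V, cw y ∧ len y ≤ R1) → E ↑V → x ∈ V →
    ¬ AncA rt eqv app ↑V x → X x ≠ X' x → (∀ y ∈ V, ∀ p, ¬ eqv x (app y p)) →
    ∃ S : Finset W, S.card ≤ K ∧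
      (∀ s ∈ S, cw s ∧ len s ≤ len x + K ∧ ((∃ p, s = app x p) ∨ ∃ s' ∈ S, ∃ p, s = app s' p)) ∧
      E ((↑V \ {y | eqv x y}) ∪ ↑S)

namespace ElimSys

variable {K m : ℕ} (S : ElimSys K m)

/-- Anchored words. -/
abbrev Anc (V : Set S.W) (x : S.W) : Prop := AncA S.rt S.eqv S.app V x

open Classical in
/-- The weight of a word in `V`. -/
noncomputable def wt (ω : ℕ) (V : Set S.W) (x : S.W) : ℕ :=
  if S.Anc V x then 0 else (K + 1) ^ (2 * (ω - (S.X' x).ncard) + if S.X x = S.X' x then 1 else 0)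

/-- The measure of `V`. -/
noncomputable def mu (ω : ℕ) (V : Finset S.W) : ℕ := ∑ x ∈ V, S.wt ω ↑V x

/-- The rank sum of `V`. -/
noncomputable def rs (V : Finset S.W) : ℕ := ∑ x ∈ V, (K + 1) ^ S.rk x

end ElimSys

end Pool.Agent.WFC
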