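import Pool.Agent.WFC.LP1

set_option autoImplicit false

/-!
# SS: elimination by solved tasks
-/

namespace Pool.Agent.WFC

open Pool.Agent.H56

variable {k : ℕ} {ar : Fin k → ℕ} {T : List (Rule ar)} {D : Type} {K m : ℕ} {hm : ∀ i, ar i ≤ m} {J : Inst ar D}
  {q : CQ ar} {𝔽 : Fr hm J q T K} {st : List (Stg K m)}

/-- A nonempty set contains the range of a family indexed by `Fin K` which covers a given small subset. -/
theorem ss_cover {W : Type} (hK : 1 ≤ K) (P : Set W) (hne : P.Nonempty) (S : Finset W) (hS : ↑S ⊆ P)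
    (hc : S.card ≤ K) : ∃ u : Fin K → W, (∀ e, u e ∈ P) ∧ ∀ x ∈ S, x ∈ Set.range u := by
  classical
  obtain ⟨p₀, hp₀⟩ := hne
  have hlen : S.toList.length ≤ K := by rw [Finset.length_toList]; exact hc
  refine ⟨fun e => if h : e.1 < S.toList.length then S.toList[e.1] else p₀, ?_, ?_⟩
  · intro e
    by_cases h : e.1 < S.toList.length
    · simp only [dif_pos h]
      exact hS (Finset.mem_coe.2 (Finset.mem_toList.1 (List.getElem_mem h)))
    · simp only [dif_neg h]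
      exact hp₀
  · intro x hx
    obtain ⟨i, hi, hix⟩ := List.mem_iff_getElem.1 (Finset.mem_toList.2 hx)
    refine ⟨⟨i, by omega⟩, ?_⟩
    simp only [dif_pos hi]
    exact hix

/-- If all tasks are solved, step (S) is possible: `EntV.small` gives a subset `V₀` of `V` with at most `K` words;
choose `u : Fin K → P` (`1 ≤ K`, `P` nonempty) whose range contains `V₀ ∩ P`; then `(V, M, u)` is a task. A solution `S'` of
the task: an unchallenged parent `s = ext (u e) [p]` (a cell word, so it has no constant as label) satisfies `X s ≠ M`,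
or it is equivalent to a root word, or to `y` or `ext y [p']` with `y ∈ V \ P`. -/
theorem ss_step (hK : 1 ≤ K) (hs : Small T J q K) (hv : Valid 𝔽 st) (hsol : ∀ τ, TOk 𝔽 st τ → Solved 𝔽 st τ)
    (V : Finset (Wd K m)) (M : Set (Occ K m)) (P : Set (Wd K m))
    (hP : P = {x | x ∈ V ∧ ¬ Anc 𝔽 st ↑V x ∧ XX 𝔽 st x = M ∧ XX' 𝔽 st x = M})
    (hV : ∀ x ∈ V, 𝔽.cw x ∧ x.2.length ≤ cR1 K m) (hE : EntV 𝔽 st ↑V) (hne : P.Nonempty)
    (hun : ∀ x ∈ P, ∀ y ∈ V, y ∉ P → ¬ Eqw 𝔽 st x y ∧ ∀ p, ¬ Eqw 𝔽 st x (ext y [p])) :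
    ∃ S : Finset (Wd K m), S.card ≤ K ∧
      (∀ s ∈ S, 𝔽.cw s ∧ (∃ x ∈ P, s.2.length ≤ x.2.length + K) ∧
        ((∃ x ∈ P, ∃ p, s = ext x [p] ∧ (XX 𝔽 st s ≠ M ∨ (∃ t, (∃ o, 𝔽.G.Rt o ∧ t = ow o) ∧ Eqw 𝔽 st s t) ∨
          ∃ y ∈ V, y ∉ P ∧ (Eqw 𝔽 st s y ∨ ∃ p', Eqw 𝔽 st s (ext y [p'])))) ∨
        ∃ s' ∈ S, ∃ p, s = ext s' [p])) ∧
      EntV 𝔽 st ((↑V \ P) ∪ ↑S) := by
  classical
  obtain ⟨V₀, hV₀, hc₀, hE₀⟩ := EntV.small hs V hE
  obtain ⟨u, hu1, hu2⟩ := ss_cover hK P hne (V₀.filter (· ∈ P)) (by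
    intro x hx
    exact (Finset.mem_filter.1 (Finset.mem_coe.1 hx)).2) ((Finset.card_filter_le _ _).trans hc₀)
  have hP1 : P1 𝔽 st ⟨V, M, u⟩ = P := hP.symm
  have htok : TOk 𝔽 st ⟨V, M, u⟩ := by
    refine ⟨fun x hx => (hV x hx).2, fun x hx => (hV x hx).1, ?_, ?_, ?_⟩
    · intro e
      rw [hP1]
      exact hu1 e
    · rw [hP1]
      exact hun
    · rw [hP1]
      refine hE₀.mono ?_
      intro x hx
      by_cases hxP : x ∈ P
      · exact Or.inl (hu2 x (Finset.mem_filter.2 ⟨hx, hxP⟩))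
      · exact Or.inr ⟨hV₀ hx, hxP⟩
  obtain ⟨S', hc', hS', hE'⟩ := hsol _ htok
  rw [hP1] at hE'
  refine ⟨S', hc', ?_, hE'⟩
  intro s hs'
  obtain ⟨h1, ⟨e, he⟩, h3⟩ := hS' s hs'
  refine ⟨h1, ⟨u e, hu1 e, he⟩, ?_⟩
  rcases h3 with ⟨e', p, hep, hlow⟩ | h3
  · left
    refine ⟨u e', hu1 e', p, hep, ?_⟩
    by_contra hcon
    push Not at hcon
    obtain ⟨c1, c2, c3⟩ := hcon
    apply hlow
    refine ⟨c1, ?_, ?_, ?_⟩
    · intro d hd
      obtain ⟨r, hr⟩ := h1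
      rw [hr] at hd
      simp at hd
    · intro o ho
      exact c2 _ ⟨o, ho, rfl⟩
    · intro y hy hyP
      rw [hP1] at hyP
      exact c3 y hy hyP
  · exact Or.inr h3

end Pool.Agent.WFC
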