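import Pool.Agent.WFC.US2
import Pool.Agent.WFC.SS
import Pool.Agent.WFC.EL5
import Pool.Agent.WFC.EV2

set_option autoImplicit false

/-!
# FI1: the elimination system of a state all of whose tasks are solved
-/

namespace Pool.Agent.WFC

open Pool.Agent.H56

variable {k : ℕ} {ar : Fin k → ℕ} {T : List (Rule ar)} {D : Type} {K m : ℕ} {hm : ∀ i, ar i ≤ m} {J : Inst ar D}
  {q : CQ ar} {𝔽 : Fr hm J q T K} {st st' : List (Stg K m)} {τ : Tsk K m}

/-- `Anc` and `AncA` agree. -/
theorem anc_iff (𝔽 : Fr hm J q T K) (st : List (Stg K m)) (V : Set (Wd K m)) (x : Wd K m) :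
    Anc 𝔽 st V x ↔ AncA (fun t => ∃ o, 𝔽.G.Rt o ∧ t = ow o) (Eqw 𝔽 st) (fun x p => ext x [p]) V x := by
  constructor
  · intro h
    induction h with
    | root ho h => exact AncA.root ⟨_, ho, rfl⟩ h
    | step hy _ h ih => exact AncA.step hy ih h
  · intro h
    induction h with
    | root ht h =>
      obtain ⟨o, ho, rfl⟩ := ht
      exact Anc.root ho h
    | step hy _ h ih => exact Anc.step hy ih h

theorem fi1_le : cR1 K m < cR K m := by
  unfold cR
  omega

theorem fi1_cw {x : Wd K m} (h : 𝔽.cw x) : 𝔽.lbl x ≠ none := by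
  obtain ⟨r, hr⟩ := h
  rw [← lb_ne_none_iff, hr]
  simp

/-- The elimination system of a valid state all of whose tasks are solved. All fields have been proved in `CL`, `XL`,
`EV`, `US`, `SS`; `solveU`: `X x ≠ X' x` gives an occurrence `o ∈ X x \ X' x`, so `ow o ~ x` (`eqw_of_mem_XX`), and
`x` is not equivalent to a root word because it is not anchored. -/
noncomputable def elimSys [Finite D] (hK : 1 ≤ K) (hs : Small T J q K) (𝔽 : Fr hm J q T K) {st : List (Stg K m)}
    (hv : Valid 𝔽 st) (hsol : ∀ τ, TOk 𝔽 st τ → Solved 𝔽 st τ) : ElimSys K m where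
  W := Wd K m
  O := Occ K m
  app := fun x p => ext x [p]
  len := fun x => x.2.length
  eqv := Eqw 𝔽 st
  X := XX 𝔽 st
  X' := XX' 𝔽 st
  cw := 𝔽.cw
  rt := fun t => ∃ o, 𝔽.G.Rt o ∧ t = ow o
  rk := rkw 𝔽 st
  E := EntV 𝔽 st
  R1 := cR1 K m
  finO := inferInstance
  eqv_equiv := ⟨Eqw.refl, Eqw.symm, Eqw.trans⟩
  len_app := fun x p => by simp [ext]
  len_rt := by
    rintro t ⟨o, -, rfl⟩
    exact ow_len o
  app_eqv := fun x y p h => h.ext [p]
  X_eqv := fun x y h => XX_eqw h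
  X'_eqv := fun x y h => XX'_eqw h
  X'_sub := XX'_sub
  X_app := XX_app
  cw_eqv := by
    intro x y hl hx h
    obtain ⟨r, hr⟩ := hx
    refine ⟨r, ?_⟩
    rw [← class_lb hv (hl.trans fi1_le.le) (fi1_cw ⟨r, hr⟩) h, hr]
  rk_eqv := fun x y h => rkw_eqw h
  rk_app := by
    intro x p hl hx hp
    obtain ⟨r, hr⟩ := hp
    refine rkw_app hv (hl.trans (by unfold cR; omega)) hx ?_
    rw [hr]
    simp
  E_mono := fun V V' h hE => hE.mono h
  E_small := fun V hE => hE.small hs V
  E_ren := by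
    intro V V' hV hV' hVV hE
    exact EntV.ren hv (fun x hx => ⟨(hV x hx).1, lt_of_le_of_lt (hV x hx).2 fi1_le⟩)
      (fun x hx => lt_of_le_of_lt (hV' x hx) fi1_le) hVV hE
  solveS := by
    intro V M P hP hV hE hne hun
    refine ss_step hK hs hv hsol V M P ?_ hV hE hne hun
    rw [hP]
    ext x
    simp only [Set.mem_ofPred_eq, anc_iff]
  solveU := by
    intro V x hV hE hx hna hXX hun
    obtain ⟨o, ho, ho'⟩ : ∃ o ∈ XX 𝔽 st x, o ∉ XX' 𝔽 st x := by
      by_contra hcon
      push Not at hcon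
      exact hXX (Set.Subset.antisymm hcon (XX'_sub x))
    exact us_step hs hv hV hE hx ho.1 (eqw_of_mem_XX ho ho')
      (fun o' hr h => hna (AncA.root ⟨o', hr, rfl⟩ h)) hun

end Pool.Agent.WFC
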