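import Pool.Agent.WFC.EV3

set_option autoImplicit false

/-!
# FI2: from an anchored set of words to a good valid shape
-/

namespace Pool.Agent.WFC

open Pool.Agent.H56

variable {k : ℕ} {ar : Fin k → ℕ} {T : List (Rule ar)} {D : Type} {K m : ℕ} {hm : ∀ i, ar i ≤ m} {J : Inst ar D}
  {q : CQ ar} {𝔽 : Fr hm J q T K} {st st' : List (Stg K m)} {τ : Tsk K m}

theorem fi2_val_ne {𝔽 : Fr hm J q T K} {x : Wd K m} {r : Fin T.length} (hr : 𝔽.lb x = some (.inr r)) {p : Fin m}
    (hp : Proper r p) : 𝔽.lbl (ext x [p]) ≠ none := by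
  apply map_ne_none.2
  unfold Fr.lb at hr
  rw [Option.map_eq_some_iff] at hr
  obtain ⟨e, he, hle⟩ := hr
  rw [val_ext, he, Option.bind_some, up_cons, up_nil, Option.bind_some]
  exact (up1_ne_none_iff hle).2 hp

/-- root words are defined -/
theorem fi2_root {𝔽 : Fr hm J q T K} {o : Occ K m} (ho : 𝔽.G.Rt o) : 𝔽.lbl (ow o) ≠ none := by
  obtain ⟨ρ, i⟩ := o
  rcases i with _ | p
  · apply map_ne_none.2
    rw [val_ow_none]
    simp
  · have h1 : Proper (𝔽.G.r ρ.1) p := ho.1 p rfl
    have h2 : 𝔽.lb (ρ, []) = some (.inr (𝔽.G.r ρ.1)) := by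
      unfold Fr.lb val
      rw [up_nil, Option.map_some, 𝔽.rule]
    exact fi2_val_ne h2 h1

/-- The final conversion: an anchored set of at most `K` words with `EntV` gives a good shape of `𝔽.G` which is valid at
the sample. `S` = closed names (`ElimSys.closed` for `elimSys`, but it can also be proved directly), `th` = pairs of
defined words of length at most `K + 1` which are equivalent, `tau` = the labels `𝔽.lb` of the words of length at most
`K + 1`. Entailment: by `EntV.ren` `EntV 𝔽 st S`; given a model and `h` on `𝔽.G.X ⊕ Wd` for the shape, define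
`h' (inl n) = h (inl n)`, `h' (inr y) = h (inr x)` if `y ~ x` for a defined word `x` with `|x| ≤ K + 1`,
`h' (inr y) = h (inl (cD d))` if there is no such `x` and the label of `y` is `d` (or: the class of `y` contains a short
word with label `d`), and anything otherwise. Label consistency: `class_lbl`. -/
theorem final_shape [Finite D] {𝔽 : Fr hm J q T K} {st : List (Stg K m)} (hv : Valid 𝔽 st)
    (S : Finset (Wd K m)) (hc : S.card ≤ K) (hl : ∀ s ∈ S, s.2.length ≤ K) (hcw : ∀ s ∈ S, 𝔽.cw s)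
    (hcl : ∀ s ∈ S, (∃ o, 𝔽.G.Rt o ∧ s = ow o) ∨ ∃ y ∈ S, ∃ p, s = ext y [p]) (hE : EntV 𝔽 st ↑S) :
    ∃ ζ : Shape T D K m, GoodShape hm J q 𝔽.G ζ ∧ ValidAt 𝔽.ℓ 𝔽.L 𝔽.a ζ := by
  classical
  have hKR : K + 1 ≤ cR K m := by
    unfold cR
    omega
  let ζ : Shape T D K m :=
    { S := ↑S
      th := {p | p.1.2.length ≤ K + 1 ∧ p.2.2.length ≤ K + 1 ∧ 𝔽.lbl p.1 ≠ none ∧ Eqw 𝔽 st p.1 p.2}
      tau := {p | p.1.2.length ≤ K + 1 ∧ 𝔽.lb p.1 = some p.2}
      hS := hl
      hth := fun p hp => ⟨hp.1, hp.2.1⟩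
      htau := fun p hp => hp.1 }
  refine ⟨ζ, ⟨?_, ?_, ?_, ?_⟩, ⟨?_, ?_, ?_⟩⟩
  · intro x hx
    exact hcl x hx
  · show (↑S : Set (Wd K m)).ncard ≤ K
    rw [Set.ncard_coe_finset]
    exact hc
  · intro x hx
    obtain ⟨r, hr⟩ := hcw x hx
    exact ⟨r, (hl x hx).trans (by omega), hr⟩
  · intro N I hI h hR hJ hF
    -- the representatives
    let A : Wd K m → Prop := fun y => ∃ x : Wd K m, x.2.length ≤ K + 1 ∧ 𝔽.lbl x ≠ none ∧ Eqw 𝔽 st x y
    let B : Wd K m → Prop := fun y => ∃ d : D, ∃ y' : Wd K m, y'.2.length ≤ cR K m ∧ Eqw 𝔽 st y y' ∧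
      𝔽.lb y' = some (.inl d)
    set h' : 𝔽.G.X ⊕ Wd K m → N := fun n => match n with
      | .inl n => h (.inl n)
      | .inr y => if hA : A y then h (.inr hA.choose) else
          if hB : B y then h (.inl (𝔽.G.cD hB.choose)) else (⟨h (.inr y)⟩ : Nonempty N).some with hh'
    have hth : ∀ x y : Wd K m, x.2.length ≤ K + 1 → y.2.length ≤ K + 1 → 𝔽.lbl x ≠ none →
        Eqw 𝔽 st x y → h (.inr x) = h (.inr y) := by
      intro x y hx hy hd hxy
      exact hR _ _ (ShRel.th ⟨hx, hy, hd, hxy⟩)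
    have hA : ∀ x y : Wd K m, x.2.length ≤ K + 1 → 𝔽.lbl x ≠ none → Eqw 𝔽 st x y →
        h' (.inr y) = h (.inr x) := by
      intro x y hx hd hxy
      have hAy : A y := ⟨x, hx, hd, hxy⟩
      simp only [hh']
      rw [dif_pos hAy]
      obtain ⟨h1, h2, h3⟩ := hAy.choose_spec
      exact hth _ _ h1 hx h2 (h3.trans hxy.symm)
    have hlbu : ∀ (y y' : Wd K m) (d d' : D), y.2.length ≤ cR K m → y'.2.length ≤ cR K m → Eqw 𝔽 st y y' →
        𝔽.lb y = some (.inl d) → 𝔽.lb y' = some (.inl d') → d = d' := by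
      intro y y' d d' hy hy' hyy hd hd'
      have hdef : 𝔽.lbl y ≠ none := (lb_ne_none_iff y).1 (by rw [hd]; simp)
      have h1 := class_lb hv hy hdef hyy
      rw [hd, hd'] at h1
      simpa using h1
    apply hE N I hI h'
    · intro a b hab
      cases hab with
      | nd hab => exact hR _ _ (ShRel.nd hab)
      | @wd x y hx hy hxy =>
        by_cases hAx : A x
        · obtain ⟨z, hz, hzd, hzx⟩ := hAx
          rw [hA z x hz hzd hzx, hA z y hz hzd (hzx.trans hxy)]
        · have hAy : ¬ A y := by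
            rintro ⟨z, hz, hzd, hzy⟩
            exact hAx ⟨z, hz, hzd, hzy.trans hxy.symm⟩
          by_cases hBx : B x
          · have hBy : B y := by
              obtain ⟨d, y', h1, h2, h3⟩ := hBx
              exact ⟨d, y', h1, hxy.symm.trans h2, h3⟩
            simp only [hh']
            rw [dif_neg hAx, dif_neg hAy, dif_pos hBx, dif_pos hBy]
            obtain ⟨y1, h1, h2, h3⟩ := hBx.choose_spec
            obtain ⟨y2, g1, g2, g3⟩ := hBy.choose_spec
            rw [hlbu y1 y2 _ _ h1 g1 ((h2.symm.trans hxy).trans g2) h3 g3]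
          · have hBy : ¬ B y := by
              rintro ⟨d, y', h1, h2, h3⟩
              exact hBx ⟨d, y', h1, hxy.trans h2, h3⟩
            simp only [hh']
            rw [dif_neg hAx, dif_neg hAy, dif_neg hBx, dif_neg hBy]
      | @root o ho =>
        rw [hA (ow o) (ow o) ((ow_len o).trans (by omega)) (fi2_root ho) (Eqw.refl _)]
        exact hR _ _ (ShRel.root ho)
      | @base x d hx hd =>
        have hdef : 𝔽.lbl x ≠ none := (lb_ne_none_iff x).1 (by rw [hd]; simp)
        by_cases hAx : A x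
        · obtain ⟨z, hz, hzd, hzx⟩ := hAx
          rw [hA z x hz hzd hzx]
          have h1 := class_lb hv (hz.trans hKR) hzd hzx
          rw [hd] at h1
          exact hR _ _ (ShRel.base ⟨hz, h1⟩)
        · have hBx : B x := ⟨d, x, hx, Eqw.refl _, hd⟩
          simp only [hh']
          rw [dif_neg hAx, dif_pos hBx]
          obtain ⟨y1, h1, h2, h3⟩ := hBx.choose_spec
          rw [hlbu y1 x _ _ h1 hx h2.symm h3 hd]
    · exact hJ
    · rintro α (⟨β, hβ, rfl⟩ | ⟨x, hxS, r, hxr, rfl⟩)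
      · exact hF _ (Or.inl ⟨β, hβ, rfl⟩)
      · have hxl := hl x hxS
        have h2 := hF _ (Or.inr ⟨x, hxS, r, ⟨hxl.trans (by omega), hxr⟩, rfl⟩)
        have hdef : 𝔽.lbl x ≠ none := (lb_ne_none_iff x).1 (by rw [hxr]; simp)
        have h3 : (fun p => h' ((cell hm r (.inr x : 𝔽.G.X ⊕ Wd K m)
            (fun p => .inr (ext x [p]))).2 p)) =
            fun p => h ((cell hm r (.inr x : 𝔽.G.X ⊕ Wd K m)
            (fun p => .inr (ext x [p]))).2 p) := by
          funext (p : Fin (ar (symOf r)))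
          refine (cell_args hm r (.inr x : 𝔽.G.X ⊕ Wd K m)
            (fun p => .inr (ext x [p])) h' p).trans ?_
          refine Eq.trans ?_ (cell_args hm r (.inr x : 𝔽.G.X ⊕ Wd K m)
            (fun p => .inr (ext x [p])) h p).symm
          rcases hz : headOf r p with _ | z
          · rw [if_pos rfl, if_pos rfl]
            exact hA x x (by omega) hdef (Eqw.refl _)
          · rw [if_neg (by simp), if_neg (by simp)]
            refine hA _ _ ?_ (fi2_val_ne hxr ⟨p.2, z, hz⟩) (Eqw.refl _)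
            rw [ext_snd, List.length_append, List.length_singleton]
            omega
        rw [h3]
        exact h2
  · intro x t hxt
    exact hxt.2
  · intro x y hxy
    exact Option.isSome_iff_ne_none.2 (map_ne_none.1 hxy.2.2.1)
  · intro x y hxy z hz
    exact class_lbl hv (hxy.1.trans hKR) hxy.2.2.1 hxy.2.2.2 z (by omega)

end Pool.Agent.WFC
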