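import Pool.Agent.WFC.FI1
import Pool.Agent.WFC.FI2

set_option autoImplicit false

/-!
# FI3: the combinatorial lemma for frames
-/

namespace Pool.Agent.WFC

open Pool.Agent.H56

variable {k : ℕ} {ar : Fin k → ℕ} {T : List (Rule ar)} {D : Type} {K m : ℕ} {hm : ∀ i, ar i ≤ m} {J : Inst ar D}
  {q : CQ ar} {𝔽 : Fr hm J q T K} {st st' : List (Stg K m)} {τ : Tsk K m}

/-- THE COMBINATORIAL LEMMA for frames: `entV_init`, `ElimSys.final`, `ElimSys.closed`, `EntV.ren`, `final_shape`. -/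
theorem comb [Finite D] (hK : 1 ≤ K) (hm1 : 1 ≤ m) (hs : Small T J q K) (𝔽 : Fr hm J q T K) {st : List (Stg K m)}
    (hv : Valid 𝔽 st) (hsol : ∀ τ, TOk 𝔽 st τ → Solved 𝔽 st τ) :
    ∃ ζ : Shape T D K m, GoodShape hm J q 𝔽.G ζ ∧ ValidAt 𝔽.ℓ 𝔽.L 𝔽.a ζ := by
  classical
  let S := elimSys hK hs 𝔽 hv hsol
  let V : Finset (Wd K m) := Finset.univ.image (fun e : Fin K => (((e, false), []) : Wd K m))
  have hVset : (↑V : Set (Wd K m)) = Set.range (fun e : Fin K => (((e, false), []) : Wd K m)) := by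
    simp [V]
  have hVc : V.card ≤ K := by
    refine Finset.card_image_le.trans ?_
    simp
  have hVw : ∀ x ∈ V, 𝔽.cw x ∧ x.2.length ≤ 1 := by
    intro x hx
    obtain ⟨e, -, rfl⟩ := Finset.mem_image.1 hx
    refine ⟨⟨𝔽.G.r e, ?_⟩, by simp⟩
    have h1 := 𝔽.rule (e, false)
    simp only [Fr.lb, val, up_nil, Option.map_some, h1]
  have hVE : EntV 𝔽 st ↑V := by
    rw [hVset]
    exact entV_init hK hm1
  have hfin : ∃ V' : Finset (Wd K m), V'.card ≤ K ∧ (∀ x ∈ V', 𝔽.cw x ∧ x.2.length ≤ cR1 K m ∧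
      S.Anc (↑V' : Set (Wd K m)) x) ∧ EntV 𝔽 st ↑V' := ElimSys.final S (ω := cω K m) (by
    have h1 : Nat.card (Occ K m) = cω K m := card_occ K m
    exact le_of_eq h1) (le_of_eq rfl) V hVc hVw hVE
  obtain ⟨V', hc', hw', hE'⟩ := hfin
  have hclo : ∃ S₀ : Finset (Wd K m), S₀.card ≤ V'.card ∧
      (∀ s ∈ S₀, (∃ o, 𝔽.G.Rt o ∧ s = ow o) ∨ ∃ y ∈ S₀, ∃ p, s = ext y [p]) ∧
      (∀ s ∈ S₀, s.2.length ≤ V'.card) ∧ (∀ x ∈ V', ∃ s ∈ S₀, Eqw 𝔽 st x s) ∧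
      ∀ s ∈ S₀, ∃ x ∈ V', Eqw 𝔽 st x s := ElimSys.closed S V' (fun x hx => (hw' x hx).2.2)
  obtain ⟨S₀, b1, b2, b3, b4, b5⟩ := hclo
  have hl : ∀ s ∈ S₀, s.2.length ≤ K := fun s hs' => (b3 s hs').trans hc'
  have hE₀ : EntV 𝔽 st ↑S₀ := by
    refine EntV.ren hv (V := ↑V') ?_ ?_ ?_ hE'
    · intro x hx
      obtain ⟨h1, h2, -⟩ := hw' x hx
      refine ⟨h1, ?_⟩
      have h3 : x.2.length ≤ cR1 K m := h2
      unfold cR
      omega
    · intro x hx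
      have := hl x hx
      unfold cR
      omega
    · intro x hx
      exact b4 x hx
  refine final_shape hv S₀ (b1.trans hc') hl ?_ b2 hE₀
  intro s hs'
  obtain ⟨x, hx, hxs⟩ := b5 s hs'
  obtain ⟨h1, h2, -⟩ := hw' x hx
  exact S.cw_eqv x s h2 h1 hxs

end Pool.Agent.WFC
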