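import Pool.Agent.WFC.Defs2

set_option autoImplicit false

/-!
# GL: existence of good labellings
-/

namespace Pool.Agent.WFC

open Pool.Agent.H56

variable {k : ℕ} {ar : Fin k → ℕ} {T : List (Rule ar)} {D : Type} {m : ℕ}

/-- Colouring along a partial function which decreases a measure. -/
theorem gl_parity {E : Type} (f : E → Option E) (d : E → ℕ) (hf : ∀ e e', f e = some e' → d e' < d e) :
    ∃ χ : E → Bool, ∀ e e', f e = some e' → χ e ≠ χ e' := by
  classical
  have hwf : WellFounded (fun a b => d a < d b) := (measure d).wf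
  let F : (e : E) → ((e' : E) → d e' < d e → Bool) → Bool := fun e ih =>
    if h : ∃ e', f e = some e' then !(ih h.choose (hf _ _ h.choose_spec)) else false
  refine ⟨hwf.fix F, fun e e' h => ?_⟩
  have hex : ∃ e', f e = some e' := ⟨e', h⟩
  have he : hex.choose = e' := Option.some.inj (hex.choose_spec.symm.trans h)
  have h1 : hwf.fix F e = !(hwf.fix F e') := by
    rw [hwf.fix_eq]
    simp only [F]
    rw [dif_pos hex]
    congr 2
  rw [h1]
  cases hwf.fix F e' <;> simp

/-- For a nonempty path `z` there is a 2-colouring of all terms such that `e` and its ancestor along `z` have different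
colours: recursion on `dep` (`dep_up`: the ancestor has smaller depth). -/
theorem exists_parity (z : List (Fin m)) (hz : z ≠ []) :
    ∃ χ : Elem T D → Bool, ∀ e e', up z e = some e' → χ e ≠ χ e' := by
  refine gl_parity (up z) dep fun e e' h => ?_
  have h1 := dep_up h
  have h2 : 0 < z.length := List.length_pos_iff.2 hz
  omega

/-- Paths of bounded length: finitely many. -/
instance instFiniteLists (m N : ℕ) : Finite {w : List (Fin m) // w.length ≤ N} :=
  (List.finite_length_le (Fin m) N).to_subtype

/-- Good labellings exist: the label of `e` is `lab e` together with the colours `χ_z e` for the (finitely many) paths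
`z ≠ []` of length at most `N`. -/
theorem exists_goodLab [Finite D] (T : List (Rule ar)) (N m : ℕ) :
    ∃ (Λ : Type) (_ : Finite Λ) (ℓ : Elem T D → Λ), GoodLab N m ℓ := by
  classical
  have hχ : ∀ z : {w : List (Fin m) // w.length ≤ N}, ∃ χ : Elem T D → Bool,
      z.1 ≠ [] → ∀ e e', up z.1 e = some e' → χ e ≠ χ e' := by
    intro z
    by_cases hz : z.1 = []
    · exact ⟨fun _ => false, fun h => absurd hz h⟩
    · obtain ⟨χ, h⟩ := exists_parity (T := T) (D := D) z.1 hz
      exact ⟨χ, fun _ => h⟩
  choose χ hχ' using hχ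
  refine ⟨(D ⊕ Fin T.length) × ({w : List (Fin m) // w.length ≤ N} → Bool), inferInstance,
    fun e => (lab e, fun z => χ z e), fun e e' h => (Prod.mk.inj h).1, fun z e e' hz hl hu h => ?_⟩
  exact hχ' ⟨z, hl⟩ hz e e' hu (congrFun (Prod.mk.inj h).2 ⟨z, hl⟩)

/-- The short words form a finite set. -/
theorem finite_short (K m R : ℕ) : {x : Wd K m | x.2.length ≤ R}.Finite := by
  have h : (Set.univ ×ˢ {l : List (Fin m) | l.length ≤ R} : Set (Wd K m)).Finite :=
    Set.finite_univ.prod (List.finite_length_le (Fin m) R)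
  refine h.subset fun x hx => ⟨Set.mem_univ _, hx⟩

/-- There are finitely many shapes. -/
instance instFiniteShape [Finite D] (K m : ℕ) : Finite (Shape T D K m) := by
  have : Finite {x : Wd K m // x.2.length ≤ K + 1} := (finite_short K m (K + 1)).to_subtype
  let f : Shape T D K m → Set {x : Wd K m // x.2.length ≤ K + 1} ×
      Set ({x : Wd K m // x.2.length ≤ K + 1} × {x : Wd K m // x.2.length ≤ K + 1}) ×
      Set ({x : Wd K m // x.2.length ≤ K + 1} × (D ⊕ Fin T.length)) := fun ζ =>
    ({x | x.1 ∈ ζ.S}, {p | (p.1.1, p.2.1) ∈ ζ.th}, {p | (p.1.1, p.2) ∈ ζ.tau})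
  refine Finite.of_injective f fun ζ ζ' h => ?_
  obtain ⟨S, th, tau, hS, hth, htau⟩ := ζ
  obtain ⟨S', th', tau', hS', hth', htau'⟩ := ζ'
  simp only [f, Prod.mk.injEq] at h
  obtain ⟨h1, h2, h3⟩ := h
  have e1 : S = S' := by
    ext x
    constructor
    · intro hx
      have : (⟨x, (hS x hx).trans (Nat.le_succ K)⟩ : {x : Wd K m // x.2.length ≤ K + 1}) ∈
          {x : {x : Wd K m // x.2.length ≤ K + 1} | x.1 ∈ S} := hx
      rw [h1] at this
      exact this
    · intro hx
      have : (⟨x, (hS' x hx).trans (Nat.le_succ K)⟩ : {x : Wd K m // x.2.length ≤ K + 1}) ∈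
          {x : {x : Wd K m // x.2.length ≤ K + 1} | x.1 ∈ S'} := hx
      rw [← h1] at this
      exact this
  have e2 : th = th' := by
    ext p
    constructor
    · intro hx
      have : ((⟨p.1, (hth p hx).1⟩, ⟨p.2, (hth p hx).2⟩) :
          {x : Wd K m // x.2.length ≤ K + 1} × {x : Wd K m // x.2.length ≤ K + 1}) ∈
          {p : {x : Wd K m // x.2.length ≤ K + 1} × {x : Wd K m // x.2.length ≤ K + 1} |
            (p.1.1, p.2.1) ∈ th} := hx
      rw [h2] at this
      exact this
    · intro hx
      have : ((⟨p.1, (hth' p hx).1⟩, ⟨p.2, (hth' p hx).2⟩) :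
          {x : Wd K m // x.2.length ≤ K + 1} × {x : Wd K m // x.2.length ≤ K + 1}) ∈
          {p : {x : Wd K m // x.2.length ≤ K + 1} × {x : Wd K m // x.2.length ≤ K + 1} |
            (p.1.1, p.2.1) ∈ th'} := hx
      rw [← h2] at this
      exact this
  have e3 : tau = tau' := by
    ext p
    constructor
    · intro hx
      have : ((⟨p.1, htau p hx⟩, p.2) : {x : Wd K m // x.2.length ≤ K + 1} × (D ⊕ Fin T.length)) ∈
          {p : {x : Wd K m // x.2.length ≤ K + 1} × (D ⊕ Fin T.length) | (p.1.1, p.2) ∈ tau} := hx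
      rw [h3] at this
      exact this
    · intro hx
      have : ((⟨p.1, htau' p hx⟩, p.2) : {x : Wd K m // x.2.length ≤ K + 1} × (D ⊕ Fin T.length)) ∈
          {p : {x : Wd K m // x.2.length ≤ K + 1} × (D ⊕ Fin T.length) | (p.1.1, p.2) ∈ tau'} := hx
      rw [← h3] at this
      exact this
  subst e1 e2 e3
  rfl

/-- Number of paths of bounded length. -/
theorem card_lists_le (m N : ℕ) : Nat.card {w : List (Fin m) // w.length ≤ N} ≤ (m + 1) ^ N := by
  let f : {w : List (Fin m) // w.length ≤ N} → (Fin N → Option (Fin m)) := fun w i => w.1[i.1]?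
  have hf : Function.Injective f := by
    intro w w' h
    apply Subtype.ext
    apply List.ext_getElem?
    intro i
    by_cases hi : i < N
    · exact congrFun h ⟨i, hi⟩
    · rw [List.getElem?_eq_none (by have := w.2; omega), List.getElem?_eq_none (by have := w'.2; omega)]
  have h1 := Nat.card_le_card_of_injective f hf
  have h2 : Nat.card (Fin N → Option (Fin m)) = (m + 1) ^ N := by
    rw [Nat.card_eq_fintype_card, Fintype.card_fun, Fintype.card_option, Fintype.card_fin,
      Fintype.card_fin]
  rw [h2] at h1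
  exact h1

end Pool.Agent.WFC
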