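import Pool.Agent.WFC.EV3

set_option autoImplicit false

/-!
# LP1: the lower pattern of a task: its challenged nodes
-/

namespace Pool.Agent.WFC

open Pool.Agent.H56

variable {k : ℕ} {ar : Fin k → ℕ} {T : List (Rule ar)} {D : Type} {K m : ℕ} {hm : ∀ i, ar i ≤ m} {J : Inst ar D}
  {q : CQ ar} {𝔽 : Fr hm J q T K} {st st' : List (Stg K m)} {τ : Tsk K m}

theorem ruleOf_spec {e : Fin K} {x : Wd K m} (h : 𝔽.cw x) : 𝔽.lb x = some (.inr (ruleOf 𝔽 e x)) := by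
  unfold ruleOf
  rw [dif_pos h]
  exact h.choose_spec

/-- The words of `P1` are short, defined, have no constant label, are not equivalent to root words, and `X = X' = M`. -/
theorem P1_pure (hτ : TOk 𝔽 st τ) {x : Wd K m} (hx : x ∈ P1 𝔽 st τ) :
    x.2.length ≤ cR1 K m ∧ 𝔽.cw x ∧ (∀ d, 𝔽.lb x ≠ some (.inl d)) ∧ (∀ o, 𝔽.G.Rt o → ¬ Eqw 𝔽 st x (ow o)) ∧
      XX 𝔽 st x = τ.M ∧ XX' 𝔽 st x = τ.M := by
  obtain ⟨h1, h2, h3, h4⟩ := hx
  refine ⟨hτ.len x h1, hτ.cw x h1, ?_, ?_, h3, h4⟩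
  · intro d hd
    obtain ⟨r, hr⟩ := hτ.cw x h1
    rw [hr] at hd
    simp at hd
  · intro o ho he
    exact h2 (Anc.root ho he)

/-- The node words of the occurrences of the lower pattern are short; they are defined for valid occurrences. -/
theorem low_node (hv : Valid 𝔽 st) (hτ : TOk 𝔽 st τ) {o : Occ K m} (ho : (lowPat 𝔽 st τ).vo o) :
    (ext (τ.u o.1.1) o.2.toList).2.length ≤ cR K m ∧ 𝔽.lb (ext (τ.u o.1.1) o.2.toList) ≠ none := by
  obtain ⟨h1, h2, -⟩ := P1_pure hτ (hτ.mem o.1.1)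
  have h3 : 𝔽.lb (τ.u o.1.1) = some (.inr (ruleOf 𝔽 o.1.1 (τ.u o.1.1))) := ruleOf_spec h2
  obtain ⟨ρ, i⟩ := o
  constructor
  · rw [ext_snd, List.length_append]
    have h4 : (i.toList : List (Fin m)).length ≤ 1 := by cases i <;> simp
    unfold cR
    simp only at h1 ⊢
    omega
  · cases i with
    | none =>
      simp only [Option.toList_none, ext_nil]
      rw [h3]
      simp
    | some p =>
      have hp : Proper (ruleOf 𝔽 ρ.1 (τ.u ρ.1)) p := ho p rfl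
      simp only at h3
      simp only [Option.toList_some]
      unfold Fr.lb at h3 ⊢
      rw [Option.map_eq_some_iff] at h3
      obtain ⟨e, he1, he2⟩ := h3
      rw [val_ext, he1]
      rw [map_ne_none]
      exact (up1_ne_none_iff he2).2 hp

/-- Challenged occurrences of the lower pattern: their word satisfies the conditions of `vrel_pure`, has
`X = X' = M`, and is not equivalent to `y` or `ext y [p]` for `y ∈ V \ P1`. For tops use `P1_pure` and `TOk.unt`; for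
`X' = M` note `M = X(u) ⊆ X'(ext u [p]) ⊆ X(ext u [p]) = M`. -/
theorem low_ch (hv : Valid 𝔽 st) (hτ : TOk 𝔽 st τ) {o : Occ K m} (ho : (lowPat 𝔽 st τ).Ch o) :
    (∀ d, 𝔽.lb (ext (τ.u o.1.1) o.2.toList) ≠ some (.inl d)) ∧
    (∀ o', 𝔽.G.Rt o' → ¬ Eqw 𝔽 st (ext (τ.u o.1.1) o.2.toList) (ow o')) ∧
    XX 𝔽 st (ext (τ.u o.1.1) o.2.toList) = τ.M ∧ XX' 𝔽 st (ext (τ.u o.1.1) o.2.toList) = τ.M ∧
    ∀ y ∈ τ.V, y ∉ P1 𝔽 st τ → ¬ Eqw 𝔽 st (ext (τ.u o.1.1) o.2.toList) y ∧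
      ∀ p, ¬ Eqw 𝔽 st (ext (τ.u o.1.1) o.2.toList) (ext y [p]) := by
  obtain ⟨-, h2⟩ := ho
  obtain ⟨a1, a2, a3, a4, a5, a6⟩ := P1_pure hτ (hτ.mem o.1.1)
  obtain ⟨ρ, i⟩ := o
  simp only at a1 a2 a3 a4 a5 a6 h2 ⊢
  cases i with
  | none =>
    simp only [Option.toList_none, ext_nil]
    exact ⟨a3, a4, a5, a6, hτ.unt _ (hτ.mem ρ.1)⟩
  | some p =>
    have h3 : lowch 𝔽 st τ (ext (τ.u ρ.1) [p]) := by
      rcases h2 with h | h
      · simp at h
      · exact h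
    simp only [Option.toList_some]
    obtain ⟨b1, b2, b3, b4⟩ := h3
    refine ⟨b2, b3, b1, ?_, b4⟩
    apply subset_antisymm
    · rw [← b1]
      exact XX'_sub _
    · have h5 := XX_app (𝔽 := 𝔽) (st := st) (τ.u ρ.1) p
      rw [a5] at h5
      exact h5

/-- Claims of the lower pattern are equivalences of words. (`vrel_pure` for the first occurrence.) -/
theorem low_clm (hv : Valid 𝔽 st) (hτ : TOk 𝔽 st τ) {o o' : Occ K m} (h : (lowPat 𝔽 st τ).Clm o o') :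
    Eqw 𝔽 st (ext (τ.u o.1.1) o.2.toList) (ext (τ.u o'.1.1) o'.2.toList) := by
  obtain ⟨h1, -, h3⟩ := h
  obtain ⟨n1, n2⟩ := low_node hv hτ h1.1
  obtain ⟨c1, c2, -⟩ := low_ch hv hτ h1
  obtain ⟨y, hy, -, hy2⟩ := vrel_pure hv n1 ((lb_ne_none_iff _).1 n2) c1 c2 h3
  have h4 : (ext (τ.u o'.1.1) o'.2.toList : Wd K m) = y := Sum.inr.inj hy
  rw [h4]
  exact hy2

end Pool.Agent.WFC
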