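import Pool.Agent.WFC.LP1

set_option autoImplicit false

/-!
# LP2: the lower pattern of a task satisfies the axioms
-/

namespace Pool.Agent.WFC

open Pool.Agent.H56

variable {k : ℕ} {ar : Fin k → ℕ} {T : List (Rule ar)} {D : Type} {K m : ℕ} {hm : ∀ i, ar i ≤ m} {J : Inst ar D}
  {q : CQ ar} {𝔽 : Fr hm J q T K} {st st' : List (Stg K m)} {τ : Tsk K m}

/-- Related nodes of challenged occurrences are equivalent words. -/
theorem lp2_pure (hv : Valid 𝔽 st) (hτ : TOk 𝔽 st τ) {o : Occ K m} (ho : (lowPat 𝔽 st τ).Ch o)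
    {n : 𝔽.G.X ⊕ Wd K m} (h : (lowPat 𝔽 st τ).R ((lowPat 𝔽 st τ).node o) n) :
    ∃ y : Wd K m, n = .inr y ∧ y.2.length ≤ cR K m ∧ Eqw 𝔽 st (ext (τ.u o.1.1) o.2.toList) y := by
  obtain ⟨h1, h2, -, -, -⟩ := low_ch hv hτ ho
  obtain ⟨h3, h4⟩ := low_node hv hτ ho.1
  exact vrel_pure hv h3 ((lb_ne_none_iff _).1 h4) h1 h2 h

/-- The lower pattern satisfies the axioms of patterns. `inv`: if `ext u i` is challenged and related to the node
`ext u' i'` of a valid occurrence, then the words are equivalent (`vrel_pure`), so `i' = none` or `lowch` holds for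
the second word, because all conditions of `lowch` are invariant (`low_ch`, `XX_eqw`, `class_lb`). `ctx`: the nodes of
`F` are `inl` nodes (excluded by `vrel_pure`) or `inr y`, `inr (ext y [p])` with `y ∈ V \ P1` (excluded by `low_ch`).
`cst`: `vrel_pure`. `ent`: `TOk.ent`, `entG_eqvGen`; the cells of the rows are the cells of `vcells 𝔽 (range u)`. -/
theorem lowPat_ok (hv : Valid 𝔽 st) (hτ : TOk 𝔽 st τ) : (lowPat 𝔽 st τ).Ok hm J q := by
  refine ⟨Relation.EqvGen.is_equivalence _, ?_, fun e => Or.inl rfl, ?_, ?_, ?_, ?_⟩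
  · exact (𝔽.ok.finF.image _).union (finite_vcells (τ.V.finite_toSet.subset Set.sdiff_subset))
  · intro o o' ho ho' hR
    obtain ⟨y, h1, h2, h3⟩ := lp2_pure hv hτ ho hR
    have h4 : ext (τ.u o'.1.1) o'.2.toList = y := Sum.inr.inj h1
    rw [← h4] at h3
    obtain ⟨h5, h6, h7, -, h8⟩ := low_ch hv hτ ho
    obtain ⟨h9, h10⟩ := low_node hv hτ ho.1
    have h11 := class_lb hv h9 ((lb_ne_none_iff _).1 h10) h3
    refine ⟨ho', Or.inr ⟨?_, ?_, ?_, ?_⟩⟩
    · rw [← XX_eqw h3]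
      exact h7
    · intro d
      rw [← h11]
      exact h5 d
    · intro o'' ho'' he
      exact h6 o'' ho'' (h3.trans he)
    · intro z hz hz'
      obtain ⟨h12, h13⟩ := h8 z hz hz'
      exact ⟨fun he => h12 (h3.trans he), fun p he => h13 p (h3.trans he)⟩
  · rintro o ho α (⟨β, hβ, rfl⟩ | ⟨x, hx, r, hr, rfl⟩) p hR
    · obtain ⟨y, h1, -, -⟩ := lp2_pure hv hτ ho hR
      cases h1
    · obtain ⟨y, h1, -, h3⟩ := lp2_pure hv hτ ho hR
      obtain ⟨-, -, -, -, h8⟩ := low_ch hv hτ ho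
      obtain ⟨h12, h13⟩ := h8 x hx.1 hx.2
      have h14 : (if headOf r p = none then (Sum.inr x : 𝔽.G.X ⊕ Wd K m)
          else Sum.inr (ext x [⟨p.1, lt_of_lt_of_le p.2 (hm _)⟩])) = .inr y := h1
      split_ifs at h14 with hp
      · rw [← Sum.inr.inj h14] at h3
        exact h12 h3
      · rw [← Sum.inr.inj h14] at h3
        exact h13 _ h3
  · intro o ho d hR
    obtain ⟨y, h1, -, -⟩ := lp2_pure hv hτ ho hR
    cases h1
  · show EntG T J q (Relation.EqvGen (VRel 𝔽 st)) _ _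
    rw [entG_eqvGen]
    have h1 : EntG T J q (VRel 𝔽 st) (fun d => .inl (𝔽.G.cD d))
      ((amap Sum.inl) '' 𝔽.G.F ∪ vcells 𝔽 (Set.range τ.u ∪ (↑τ.V \ P1 𝔽 st τ))) := hτ.ent
    refine h1.mono (fun _ _ h => h) ?_
    rintro α (hα | ⟨x, hx, r, hr, rfl⟩)
    · exact Or.inl (Or.inl hα)
    · rcases hx with ⟨e, rfl⟩ | hx
      · refine Or.inr ⟨e, ?_⟩
        have h2 : 𝔽.lb (τ.u e) = some (.inr (ruleOf 𝔽 e (τ.u e))) := ruleOf_spec ⟨r, hr⟩
        rw [hr] at h2
        have h3 : r = ruleOf 𝔽 e (τ.u e) := Sum.inr.inj (Option.some.inj h2)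
        rw [h3]
        rfl
      · exact Or.inl (Or.inr ⟨x, hx, r, hr, rfl⟩)

end Pool.Agent.WFC
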