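import Pool.Agent.WFC.GL

set_option autoImplicit false

/-!
# TL2: a labelling of the whole chase; the quotient does not entail the query
-/

namespace Pool.Agent.WFC

open Pool.Agent.H56

variable {k : ℕ} {ar : Fin k → ℕ} {T : List (Rule ar)} {D : Type}

/-- Limits of functions to a finite set along a nonprincipal ultrafilter. -/
theorem tl2_lim {Λ : Type} [Finite Λ] (f : ℕ → Λ) :
    ∃ l, ∀ᶠ n in (Filter.hyperfilter ℕ : Filter ℕ), f n = l := by
  obtain ⟨l, hl⟩ := Ultrafilter.eq_pure_of_finite ((Filter.hyperfilter ℕ).map f)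
  refine ⟨l, ?_⟩
  have h1 : ({l} : Set Λ) ∈ (Filter.hyperfilter ℕ).map f := by
    rw [hl]
    exact Ultrafilter.mem_pure.mpr rfl
  exact h1

/-- COMPACTNESS: a limit of the labellings `L n` along a nonprincipal ultrafilter on `ℕ` (`Filter.hyperfilter ℕ`): the
label of `e` is the label which `L n` gives to `e` for almost all `n`. A match of `p` in `HQ J (Leg J) L` involves finitely
many elements; for almost all `n` they are in `stage J n` and have the labels given by `L n`. -/
theorem leg_label {J : Inst ar D} {Φ' : List (CQ ar)} {Λ : Type} [Finite Λ]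
    (h : ∀ n : ℕ, ∃ L : Elem T D → Λ, (∀ e e', L e = L e' → lab e = lab e') ∧
      ∀ p ∈ Φ', ¬ Sat (HQ J (stage J n) L) p) :
    ∃ L : Elem T D → Λ, (∀ e e', L e = L e' → lab e = lab e') ∧ ∀ p ∈ Φ', ¬ Sat (HQ J (Leg J) L) p := by
  choose L hL hp using h
  choose Li hLi using fun e => tl2_lim (fun n => L n e)
  have hLi' : ∀ e, ∀ᶠ n in (Filter.hyperfilter ℕ : Filter ℕ), L n e = Li e := hLi
  refine ⟨Li, ?_, ?_⟩
  · intro e e' he
    obtain ⟨n, h1, h2⟩ := ((hLi' e).and (hLi' e')).exists
    exact hL n e e' (h1.trans (he.trans h2.symm))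
  · rintro p hpΦ ⟨v, hv⟩
    have key : ∀ a ∈ p.2, ∀ᶠ n in (Filter.hyperfilter ℕ : Filter ℕ), HQ J (stage J n) (L n) a.1 (v ∘ a.2) := by
      intro a ha
      rcases hv a ha with ⟨t₀, h1, h2⟩ | ⟨r, w, ⟨j, hj⟩, h2⟩
      · have h3 : ∀ᶠ n in (Filter.hyperfilter ℕ : Filter ℕ), ∀ x, L n (.base (t₀ x)) = Li (.base (t₀ x)) :=
          Filter.eventually_all.mpr fun x => hLi' _
        filter_upwards [h3] with n hn
        refine Or.inl ⟨t₀, h1, ?_⟩
        rw [h2]
        funext x
        exact (hn x).symm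
      · have h3 : ∀ᶠ n in (Filter.hyperfilter ℕ : Filter ℕ), ∀ x, L n (args r w x) = Li (args r w x) :=
          Filter.eventually_all.mpr fun x => hLi' _
        have h4 : ∀ᶠ n in (Filter.hyperfilter ℕ : Filter ℕ), j ≤ n := by
          have h5 : ∀ᶠ n in (Filter.atTop : Filter ℕ), j ≤ n := Filter.eventually_ge_atTop j
          rw [← Nat.cofinite_eq_atTop] at h5
          exact Filter.hyperfilter_le_cofinite h5
        filter_upwards [h3, h4] with n hn hn'
        refine Or.inr ⟨r, w, stage_mono J hn' hj, ?_⟩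
        rw [funext hn]
        exact h2
    have key' : ∀ᶠ n in (Filter.hyperfilter ℕ : Filter ℕ), ∀ j : Fin p.2.length,
        HQ J (stage J n) (L n) (p.2.get j).1 (v ∘ (p.2.get j).2) :=
      Filter.eventually_all.mpr fun j => key _ (List.get_mem p.2 j)
    obtain ⟨n, hn⟩ := key'.exists
    refine hp n p hpΦ ⟨v, fun a ha => ?_⟩
    obtain ⟨j, rfl⟩ := List.get_of_mem ha
    exact hn j

/-- A finite quotient `Leg / L` in which no disjunct of the rewriting holds does not entail `q`; also for the quotient of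
all facts of the chase: a model of `T` with a homomorphism from `HQ J (Leg J) L` gives, by composition with `L`, a map
which respects `J` and all birth atoms (`HomOn`), so all facts of the chase. -/
theorem quotient_not_entails {J : Inst ar D} {q : CQ ar} {Φ' : List (CQ ar)}
    (hq : ∀ (D : Type), Finite D → ∀ J : Inst ar D, Entails T J q ↔ ∃ p ∈ Φ', Sat J p) {Λ : Type} [Finite Λ]
    {L : Elem T D → Λ} (h : ∀ p ∈ Φ', ¬ Sat (HQ J (Leg J) L) p) :
    ¬ Entails T (fun (i : Fin k) (t : Fin (ar i) → Λ) =>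
      ∃ t₀ : Fin (ar i) → Leg (T := T) J, chaseInst J i t₀ ∧ t = fun p => L (t₀ p).1) q := by
  intro hent
  have h1 : Entails T (HQ J (Leg J) L) q := by
    intro M I hI hf
    obtain ⟨f, hf⟩ := hf
    refine hent M I hI ⟨f, ?_⟩
    rintro i t ⟨t₀, ht₀, rfl⟩
    have h2 : HomOn J (Leg J) I (fun e => f (L e)) := by
      refine ⟨?_, ?_⟩
      · intro i t ht
        exact hf i (fun p => L (.base (t p))) (Or.inl ⟨t, ht, rfl⟩)
      · intro r v hv
        exact hf (symOf r) (fun p => L (args r v p)) (Or.inr ⟨r, v, hv, rfl⟩)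
    exact ht₀ M I hI _ h2
  obtain ⟨p, hp, hsat⟩ := (hq Λ inferInstance _).mp h1
  exact h p hp hsat

end Pool.Agent.WFC
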