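import Pool.Agent.WFC.TL1
import Pool.Agent.WFC.TL2
import Pool.Agent.WFC.SM

set_option autoImplicit false

/-!
# MA1: one query
-/

namespace Pool.Agent.WFC

open Pool.Agent.H56

variable {k : ℕ} {ar : Fin k → ℕ}

/-- One query, nonempty database: the chase has a finite homomorphic image which does not entail `q`; elements of the
database are not identified with other elements. `K` = 1 + the number of atoms of the rewriting, `m` = 1 + the sum of
the arities; `small_of_rewritable`, `Small.mono`, `stage_labels`, `leg_label`, `quotient_not_entails`. -/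
theorem one_query (T : List (Rule ar)) (q : CQ ar) (hq : Rewritable T q) (D : Type) [Finite D] [Nonempty D]
    (J : Inst ar D) (hJ : ¬ Entails T J q) :
    ∃ (H : Type) (_ : Finite H) (IH : Inst ar H) (g : Leg (T := T) J → H), IsHom (chaseInst J) IH g ∧
      ¬ Entails T IH q ∧ ∀ (e : Leg (T := T) J) (d : D), g e = g ⟨.base d, base_leg J d⟩ → e = ⟨.base d, base_leg J d⟩ := by
  obtain ⟨Φ', hΦ⟩ := hq
  have hm : ∀ i, ar i ≤ 1 + ∑ i, ar i := by
    intro i
    have := Finset.single_le_sum (f := ar) (fun _ _ => Nat.zero_le _) (Finset.mem_univ i)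
    omega
  have hs : Small T J q (1 + (Φ'.map (fun p => p.2.length)).sum) :=
    (small_of_rewritable hΦ J).mono (by omega)
  have hpK : ∀ p ∈ Φ', p.2.length ≤ 1 + (Φ'.map (fun p => p.2.length)).sum := by
    intro p hp
    have : p.2.length ≤ (Φ'.map (fun p => p.2.length)).sum :=
      List.le_sum_of_mem (List.mem_map.mpr ⟨p, hp, rfl⟩)
    omega
  obtain ⟨Λ, hΛ, hlab⟩ := stage_labels hm (by omega) (by omega) hΦ hJ hpK hs
  obtain ⟨L, hL1, hL2⟩ := leg_label hlab
  refine ⟨Λ, hΛ, fun (i : Fin k) (t : Fin (ar i) → Λ) =>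
      ∃ t₀ : Fin (ar i) → Leg (T := T) J, chaseInst J i t₀ ∧ t = fun p => L (t₀ p).1, fun e => L e.1,
      ?_, quotient_not_entails hΦ hL2, ?_⟩
  · intro i t ht
    exact ⟨t, ht, rfl⟩
  · intro e d hed
    have h1 : lab e.1 = lab (Elem.base d) := hL1 _ _ hed
    have h2 : lab e.1 = .inl d := by rw [h1]; simp [lab]
    exact Subtype.ext (lab_base h2)

end Pool.Agent.WFC
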