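import Pool.Agent.WFC.CP

set_option autoImplicit false

/-!
# NS: the new stage given by a good shape of the lower pattern
-/

namespace Pool.Agent.WFC

open Pool.Agent.H56

variable {k : ℕ} {ar : Fin k → ℕ} {T : List (Rule ar)} {D : Type} {K m : ℕ} {hm : ∀ i, ar i ≤ m} {J : Inst ar D}
  {q : CQ ar} {𝔽 : Fr hm J q T K} {st : List (Stg K m)} {τ : Tsk K m}

/-- The word `x.2 ++ xs x.1.1` of the row `ρ` is equivalent to the short word `ext (u x.1.1) x.2`, if `|x.2| ≤ K + 1`. If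
it is defined at the sample, the short word is defined too, and has the same label (the chain from `(ρ, xs e)` to
`u e` consists of words of length less than `N` by `class_lemma`; extend it by `x.2`; all steps preserve labels as
`N + K + 1 ≤ 2 N`). -/
theorem copy_word (hv : Valid 𝔽 st) (hτ : TOk 𝔽 st τ) {ρ : Row K} {xs : Fin K → List (Fin m)}
    (hx : Cps 𝔽 st τ ρ xs) (x : Wd K m) (hl : x.2.length ≤ K + 1) :
    Eqw 𝔽 st (ρ, x.2 ++ xs x.1.1) (ext (τ.u x.1.1) x.2) ∧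
      𝔽.lbl (ρ, x.2 ++ xs x.1.1) = 𝔽.lbl (ext (τ.u x.1.1) x.2) ∧
      (ext (τ.u x.1.1) x.2).2.length ≤ cR K m := by
  obtain ⟨h1, h2, -⟩ := P1_pure hτ (hτ.mem x.1.1)
  have hlen : (τ.u x.1.1).2.length ≤ cR K m := by
    unfold cR
    omega
  obtain ⟨r, hr⟩ := h2
  have hd : 𝔽.lbl (τ.u x.1.1) ≠ none := (lb_ne_none_iff _).1 (by rw [hr]; simp)
  have hcp := hx.cp x.1.1
  refine ⟨hcp.ext x.2, ?_, ?_⟩
  · refine (class_lbl hv hlen hd hcp.symm x.2 ?_).symm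
    unfold cN
    omega
  · rw [ext_snd, List.length_append]
    unfold cR
    omega

theorem ns_lbl (hv : Valid 𝔽 st) (hτ : TOk 𝔽 st τ) {ρ : Row K} {xs : Fin K → List (Fin m)}
    (hx : Cps 𝔽 st τ ρ xs) (e : Fin K) : up (xs e) (𝔽.a ρ) ≠ none := by
  obtain ⟨h1, h2, -⟩ := P1_pure hτ (hτ.mem e)
  obtain ⟨r, hr⟩ := h2
  have hlen : (τ.u e).2.length ≤ cR K m := by
    unfold cR
    omega
  have hd : 𝔽.lbl (τ.u e) ≠ none := (lb_ne_none_iff _).1 (by rw [hr]; simp)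
  have h3 := class_lbl hv hlen hd (hx.cp e).symm [] (by simp)
  rw [ext_nil, ext_nil] at h3
  rw [h3] at hd
  exact map_ne_none.1 hd

theorem ns_val (hv : Valid 𝔽 st) (hτ : TOk 𝔽 st τ) {ρ : Row K} {xs : Fin K → List (Fin m)}
    (hx : Cps 𝔽 st τ ρ xs) (x : Wd K m) : val (lowIn xs (𝔽.a ρ)) x = up (x.2 ++ xs x.1.1) (𝔽.a ρ) :=
  val_lowIn (ρ := ρ) x (ns_lbl hv hτ hx x.1.1)

/-- the label of the short word of a labelled word of a shape -/
theorem ns_tau (hv : Valid 𝔽 st) (hτ : TOk 𝔽 st τ) {ρ : Row K} {xs : Fin K → List (Fin m)}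
    (hx : Cps 𝔽 st τ ρ xs) {ζ : Shape T D K m}
    (hζ : ValidAt 𝔽.ℓ (2 * cN K m + 𝔽.L) (lowIn xs (𝔽.a ρ)) ζ) {x : Wd K m} {t : D ⊕ Fin T.length}
    (h : (x, t) ∈ ζ.tau) : 𝔽.lb (ext (τ.u x.1.1) x.2) = some t := by
  have h1 := hζ.tau x t h
  rw [ns_val hv hτ hx] at h1
  obtain ⟨-, h2, -⟩ := copy_word hv hτ hx x (ζ.htau _ h)
  have h3 : 𝔽.lb (ρ, x.2 ++ xs x.1.1) = 𝔽.lb (ext (τ.u x.1.1) x.2) := val_map_lab 𝔽.good h2
  rw [← h3]
  exact h1

/-- merged words of the new stage are defined -/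
theorem ns_dom (hv : Valid 𝔽 st) (hτ : TOk 𝔽 st τ) {ρ : Row K} {xs : Fin K → List (Fin m)}
    (hx : Cps 𝔽 st τ ρ xs) {ζ : Shape T D K m}
    (hζ : ValidAt 𝔽.ℓ (2 * cN K m + 𝔽.L) (lowIn xs (𝔽.a ρ)) ζ) {x y : Wd K m} (h : (x, y) ∈ ζ.th) :
    𝔽.lbl (ρ, x.2 ++ xs x.1.1) ≠ none ∧ 𝔽.lbl (ρ, y.2 ++ xs y.1.1) ≠ none := by
  have h1 := hζ.dom x y h
  rw [ns_val hv hτ hx] at h1
  have h2 := hζ.th x y h [] (by simp)
  rw [ext_nil, ext_nil, ns_val hv hτ hx, ns_val hv hτ hx] at h2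
  have h3 : 𝔽.lbl (ρ, x.2 ++ xs x.1.1) ≠ none := by
    apply map_ne_none.2
    exact Option.isSome_iff_ne_none.1 h1
  refine ⟨h3, ?_⟩
  have h4 : 𝔽.lbl (ρ, x.2 ++ xs x.1.1) = 𝔽.lbl (ρ, y.2 ++ xs y.1.1) := h2
  rw [← h4]
  exact h3

/-- the requirements for a word of the new stage -/
theorem ns_wok (hv : Valid 𝔽 st) (hτ : TOk 𝔽 st τ) {ρ : Row K} {xs : Fin K → List (Fin m)}
    (hx : Cps 𝔽 st τ ρ xs) (ζ : Shape T D K m) (x : Wd K m) (hl : x.2.length ≤ K + 1)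
    (hd : 𝔽.lbl (ρ, x.2 ++ xs x.1.1) ≠ none) :
    WOk 𝔽 st (newStg τ ρ xs ζ) (x.2 ++ xs x.1.1) := by
  obtain ⟨h1, h2, h3⟩ := copy_word hv hτ hx x hl
  have hd' : 𝔽.lbl (ext (τ.u x.1.1) x.2) ≠ none := by
    rw [← h2]
    exact hd
  obtain ⟨c1, -, c3⟩ := class_lemma hv h3 hd' h1.symm
  refine ⟨?_, hd, c3, ?_⟩
  · exact c1.le
  · intro o ho
    obtain ⟨-, -, -, -, hX, -⟩ := P1_pure hτ (hτ.mem x.1.1)
    have ho' : o ∈ XX 𝔽 st (τ.u x.1.1) := by
      rw [hX]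
      exact ho
    obtain ⟨-, z, hz⟩ := ho'
    refine ⟨x.2 ++ z, ?_⟩
    have h4 := hz.ext x.2
    rw [ext_ext] at h4
    exact h4.trans h1.symm

/-- The new state is valid. For `(x, y) ∈ ζ.th`: `WOk` for `w = x.2 ++ xs x.1.1`: defined (`ValidAt.dom`, `val_lowIn`);
length by `copy_word` and `class_lemma`; `tails`: a tail of `w` is a tail of `xs e` (class lemma for `(ρ, xs e) ~ u e`)
or `z' ++ xs e` with a tail `z'` of `x.2`, connected with the short word `ext (u e) z'` through words of length less than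
`N + K + 1`; `sees`: `M = X(u e) ⊆ X(ext (u e) x.2)`. Equal labels: `ValidAt.th`. -/
theorem newStg_valid (hK : 1 ≤ K) (hv : Valid 𝔽 st) (hτ : TOk 𝔽 st τ) {ρ : Row K} {xs : Fin K → List (Fin m)}
    (hx : Cps 𝔽 st τ ρ xs) {ζ : Shape T D K m}
    (hζ : ValidAt 𝔽.ℓ (2 * cN K m + 𝔽.L) (lowIn xs (𝔽.a ρ)) ζ) : Valid 𝔽 (newStg τ ρ xs ζ :: st) := by
  refine ⟨hv, ?_, ?_⟩
  · intro o ho
    obtain ⟨-, -, -, -, hX, -⟩ := P1_pure hτ (hτ.mem ⟨0, hK⟩)
    have ho' : o ∈ XX 𝔽 st (τ.u ⟨0, hK⟩) := by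
      rw [hX]
      exact ho
    exact ho'.1
  · rintro w w' ⟨x, y, hxy, hp⟩
    obtain ⟨rfl, rfl⟩ := Prod.mk.inj hp
    obtain ⟨d1, d2⟩ := ns_dom hv hτ hx hζ hxy
    have hl := ζ.hth _ hxy
    refine ⟨ns_wok hv hτ hx ζ x hl.1 d1, ns_wok hv hτ hx ζ y hl.2 d2, ?_⟩
    intro z hz
    have h1 := hζ.th x y hxy z hz
    rw [ns_val hv hτ hx, ns_val hv hτ hx] at h1
    have e1 : (ext x z).2 ++ xs (ext x z).1.1 = z ++ (x.2 ++ xs x.1.1) := by
      simp [List.append_assoc]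
    have e2 : (ext y z).2 ++ xs (ext y z).1.1 = z ++ (y.2 ++ xs y.1.1) := by
      simp [List.append_assoc]
    rw [e1, e2] at h1
    exact h1

theorem ns_eqv {X N : Type} {R : X → X → Prop} {h : X → N} (hR : ∀ a b, R a b → h a = h b) {a b : X}
    (hab : Relation.EqvGen R a b) : h a = h b := by
  induction hab with
  | rel a b h => exact hR a b h
  | refl a => rfl
  | symm a b _ ih => exact ih.symm
  | trans a b c _ _ ih ih' => exact ih.trans ih'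

theorem ns_vrel_cons {σ : Stg K m} {a b : 𝔽.G.X ⊕ Wd K m} (h : VRel 𝔽 st a b) :
    VRel 𝔽 (σ :: st) a b := by
  cases h with
  | nd h => exact VRel.nd h
  | wd h1 h2 h3 => exact VRel.wd h1 h2 (h3.cons σ)
  | root h => exact VRel.root h
  | base h1 h2 => exact VRel.base h1 h2

/-- TRANSFER. A good shape which is valid at the copies solves the task in the following sense.
Given a model and `h` on `𝔽.G.X ⊕ Wd` for the new state, evaluate the nodes `inl n` of `GoodShape.ent` by `h n`, and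
the words `inr x` by `h (inr (ext (u x.1.1) x.2))` if `|x.2| ≤ K + 1` (anything otherwise). Identifications: `nd`: `VRel`
of `st` is contained in `VRel` of the new state; `th`: `(x, y) ∈ ζ.th` gives a merged pair of the new stage, and
`copy_word`; `root`: equality; `base`: the label of `ext (u e) x.2` is the constant by `ValidAt.tau` and `copy_word`.
The cells of `ζ` are the cells at the words `ext (u x.1.1) x.2`, `x ∈ ζ.S` (same rule by `ValidAt.tau`, `copy_word`). -/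
theorem transfer_ent (hv : Valid 𝔽 st) (hτ : TOk 𝔽 st τ) {ρ : Row K} {xs : Fin K → List (Fin m)}
    (hx : Cps 𝔽 st τ ρ xs) {ζ : Shape T D K m} (hg : GoodShape hm J q (lowPat 𝔽 st τ) ζ)
    (hζ : ValidAt 𝔽.ℓ (2 * cN K m + 𝔽.L) (lowIn xs (𝔽.a ρ)) ζ) :
    EntV 𝔽 (newStg τ ρ xs ζ :: st) ((↑τ.V \ P1 𝔽 st τ) ∪ (fun x : Wd K m => ext (τ.u x.1.1) x.2) '' ζ.S) := by
  intro N I hI h hR hJ hF
  have hmg : ∀ x y : Wd K m, (x, y) ∈ ζ.th → h (.inr (ext (τ.u x.1.1) x.2)) =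
      h (.inr (ext (τ.u y.1.1) y.2)) := by
    intro x y hxy
    have hl := ζ.hth _ hxy
    obtain ⟨a1, a2, a3⟩ := copy_word hv hτ hx x hl.1
    obtain ⟨b1, b2, b3⟩ := copy_word hv hτ hx y hl.2
    apply hR
    apply VRel.wd a3 b3
    have h1 : Eqw 𝔽 (newStg τ ρ xs ζ :: st) (ρ, x.2 ++ xs x.1.1) (ρ, y.2 ++ xs y.1.1) := by
      apply Relation.EqvGen.rel
      refine ⟨(ρ, x.2 ++ xs x.1.1), (ρ, y.2 ++ xs y.1.1), [], ?_, rfl, rfl⟩
      exact Gen.mg (σ := newStg τ ρ xs ζ) List.mem_cons_self ⟨x, y, hxy, rfl⟩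
    exact ((a1.cons _).symm.trans h1).trans (b1.cons _)
  set h' : (lowPat 𝔽 st τ).X ⊕ Wd K m → N := fun n => match n with
    | .inl n => h n
    | .inr x => h (.inr (ext (τ.u x.1.1) x.2)) with hh'
  apply hg.ent N I hI h'
  · intro a b hab
    cases hab with
    | @nd a b hab => exact ns_eqv (fun a b hab => hR a b (ns_vrel_cons hab)) hab
    | @th x y hxy => exact hmg x y hxy
    | @root o ho => rfl
    | @base x d hxd =>
      have h1 := ns_tau hv hτ hx hζ hxd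
      obtain ⟨-, -, a3⟩ := copy_word hv hτ hx x (ζ.htau _ hxd)
      exact hR _ _ (VRel.base a3 h1)
  · exact hJ
  · rintro α (⟨β, hβ, rfl⟩ | ⟨x, hxS, r, hxr, rfl⟩)
    · rcases hβ with ⟨γ, hγ, rfl⟩ | ⟨y, hy, r, hyr, rfl⟩
      · exact hF _ (Or.inl ⟨γ, hγ, rfl⟩)
      · exact hF _ (Or.inr ⟨y, Or.inl hy, r, hyr, rfl⟩)
    · have h1 := ns_tau hv hτ hx hζ hxr
      have h2 := hF _ (Or.inr ⟨ext (τ.u x.1.1) x.2, Or.inr ⟨x, hxS, rfl⟩, r, h1, rfl⟩)
      have h3 : (fun p => h' ((cell hm r (.inr x : (lowPat 𝔽 st τ).X ⊕ Wd K m)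
          (fun p => .inr (ext x [p]))).2 p)) =
          fun p => h ((cell hm r (.inr (ext (τ.u x.1.1) x.2) : 𝔽.G.X ⊕ Wd K m)
          (fun p => .inr (ext (ext (τ.u x.1.1) x.2) [p]))).2 p) := by
        funext (p : Fin (ar (symOf r)))
        refine (cell_args hm r (.inr x : (lowPat 𝔽 st τ).X ⊕ Wd K m)
          (fun p => .inr (ext x [p])) h' p).trans ?_
        refine Eq.trans ?_ (cell_args hm r (.inr (ext (τ.u x.1.1) x.2) : 𝔽.G.X ⊕ Wd K m)
          (fun p => .inr (ext (ext (τ.u x.1.1) x.2) [p])) h p).symm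
        split_ifs <;> rfl
      rw [h3]
      exact h2

/-- If the new stage does not identify new pairs of short words, the task was solved already. (`EntV.congr`; the words
of `S'` are the `ext (u x.1.1) x.2`, `x ∈ ζ.S`; they are cell words by `GoodShape.rule`, `ValidAt.tau`, `copy_word`;
`root`: `x = ow o` with `Rt o`, i.e. `o.2 = some p` and `¬ lowch`.) -/
theorem grow (hv : Valid 𝔽 st) (hτ : TOk 𝔽 st τ) {ρ : Row K} {xs : Fin K → List (Fin m)}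
    (hx : Cps 𝔽 st τ ρ xs) {ζ : Shape T D K m} (hg : GoodShape hm J q (lowPat 𝔽 st τ) ζ)
    (hζ : ValidAt 𝔽.ℓ (2 * cN K m + 𝔽.L) (lowIn xs (𝔽.a ρ)) ζ) (hns : ¬ Solved 𝔽 st τ) :
    ∃ x y : Wd K m, x.2.length ≤ cR K m ∧ y.2.length ≤ cR K m ∧ Eqw 𝔽 (newStg τ ρ xs ζ :: st) x y ∧
      ¬ Eqw 𝔽 st x y := by
  classical
  by_contra hcon
  push Not at hcon
  apply hns
  have hent : EntV 𝔽 st ((↑τ.V \ P1 𝔽 st τ) ∪ (fun x : Wd K m => ext (τ.u x.1.1) x.2) '' ζ.S) :=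
    (transfer_ent hv hτ hx hg hζ).congr (fun x y hx hy hxy => hcon x y hx hy hxy)
  have hfin : ζ.S.Finite := by
    have h1 : ζ.S ⊆ (Set.univ : Set (Row K)) ×ˢ {w : List (Fin m) | w.length ≤ K} := by
      intro x hx
      exact ⟨Set.mem_univ _, ζ.hS x hx⟩
    exact ((Set.finite_univ).prod (List.finite_length_le (Fin m) K)).subset h1
  refine ⟨hfin.toFinset.image (fun x : Wd K m => ext (τ.u x.1.1) x.2), ?_, ?_, ?_⟩
  · refine Finset.card_image_le.trans ?_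
    rw [← Set.ncard_eq_toFinset_card _ hfin]
    exact hg.card
  · intro s hs
    rw [Finset.mem_image] at hs
    obtain ⟨x, hxS, rfl⟩ := hs
    rw [Set.Finite.mem_toFinset] at hxS
    refine ⟨?_, ⟨x.1.1, ?_⟩, ?_⟩
    · obtain ⟨r, hr⟩ := hg.rule x hxS
      exact ⟨r, ns_tau hv hτ hx hζ hr⟩
    · rw [ext_snd, List.length_append]
      have := ζ.hS x hxS
      omega
    · rcases hg.root x hxS with ⟨o, ho, rfl⟩ | ⟨y, hy, p, rfl⟩
      · left
        obtain ⟨⟨e, c⟩, i⟩ := o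
        have hnc : ¬ (i = none ∨ lowch 𝔽 st τ (ext (τ.u e) i.toList)) := ho.2
        push Not at hnc
        obtain ⟨p, rfl⟩ := Option.ne_none_iff_exists'.mp hnc.1
        exact ⟨e, p, rfl, hnc.2⟩
      · right
        refine ⟨ext (τ.u y.1.1) y.2, ?_, p, rfl⟩
        rw [Finset.mem_image]
        exact ⟨y, by rw [Set.Finite.mem_toFinset]; exact hy, rfl⟩
  · rw [Finset.coe_image, Set.Finite.coe_toFinset]
    exact hent

end Pool.Agent.WFC
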