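import Pool.Agent.WFC.GL

set_option autoImplicit false

/-!
# REC1: the cost of a step
-/

namespace Pool.Agent.WFC

open Pool.Agent.H56

variable {k : ℕ} {ar : Fin k → ℕ} {T : List (Rule ar)} {D : Type} {K m : ℕ} {hm : ∀ i, ar i ≤ m} {J : Inst ar D}
  {q : CQ ar} {𝔽 : Fr hm J q T K} {st st' : List (Stg K m)} {τ : Tsk K m}

theorem rec1_recCost (s Δ f : ℕ) : recCost s Δ f ≤ (Δ + 1) ^ (f + 1) * s := by
  induction f with
  | zero => simp only [recCost]; exact Nat.le_mul_of_pos_left _ (by positivity)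
  | succ f ih =>
    simp only [recCost]
    have h1 : Δ * recCost s Δ f ≤ Δ * ((Δ + 1) ^ (f + 1) * s) := Nat.mul_le_mul_left _ ih
    have h2 : s ≤ (Δ + 1) ^ (f + 1) * s := Nat.le_mul_of_pos_left _ (by positivity)
    calc Δ * recCost s Δ f + s ≤ Δ * ((Δ + 1) ^ (f + 1) * s) + (Δ + 1) ^ (f + 1) * s :=
          Nat.add_le_add h1 h2
      _ = (Δ + 1) ^ (f + 1 + 1) * s := by ring

/-- The cost of a step is at most `A (b + 1) (m + 1) ^ L + C (clog 2 (c + 2) + 1)`, where `A`, `C` do not depend on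
`b, L, c`. (`card_lists_le` for `nW`; `recCost s Δ f ≤ (Δ + 1) ^ (f + 1) * s`.) -/
theorem stepCost_le [Finite D] (T : List (Rule ar)) (K m : ℕ) : ∃ A C : ℕ, ∀ b L c : ℕ,
    stepCost T D K m b L c ≤ A * ((b + 1) * (m + 1) ^ L) + C * (Nat.clog 2 (c + 2) + 1) := by
  set R := Fintype.card (Row K) with hR
  set Δ := Nat.card (Shape T D K m) with hΔ
  set F := {x : Wd K m | x.2.length ≤ cR K m}.ncard ^ 2 with hF
  set Z := Nat.clog 2 (Nat.card (Tgt K m) + 1) +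
    Fintype.card (Row K) * Nat.card {w : List (Fin m) // w.length ≤ cN K m} with hZ
  refine ⟨R * ((m + 1) ^ (4 * cN K m) + nW m (cR K m) ^ 2), (Δ + 1) ^ (F + 1) * (R + Z), fun b L c => ?_⟩
  have h1 : nW m (4 * cN K m + L) ≤ (m + 1) ^ (4 * cN K m) * (m + 1) ^ L := by
    rw [← pow_add]
    exact card_lists_le m _
  have hG1 : 1 ≤ (b + 1) * (m + 1) ^ L :=
    Nat.succ_le_of_lt (Nat.mul_pos (Nat.succ_pos _) (Nat.pos_of_ne_zero (by positivity)))
  have h2 : tyCost K m b L ≤ ((m + 1) ^ (4 * cN K m) + nW m (cR K m) ^ 2) * ((b + 1) * (m + 1) ^ L) := by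
    unfold tyCost
    calc (b + 1) * nW m (4 * cN K m + L) + nW m (cR K m) ^ 2
        ≤ (b + 1) * ((m + 1) ^ (4 * cN K m) * (m + 1) ^ L) +
            nW m (cR K m) ^ 2 * ((b + 1) * (m + 1) ^ L) :=
          Nat.add_le_add (Nat.mul_le_mul_left _ h1) (Nat.le_mul_of_pos_right _ hG1)
      _ = _ := by ring
  have h3 : simCost K m c ≤ (R + Z) * (Nat.clog 2 (c + 2) + 1) := by
    unfold simCost
    rw [← hZ, ← hR]
    nlinarith [Nat.zero_le (Z * Nat.clog 2 (c + 2)), Nat.zero_le R]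
  have h4 : recCost (simCost K m c) Δ F ≤ (Δ + 1) ^ (F + 1) * (R + Z) * (Nat.clog 2 (c + 2) + 1) := by
    refine (rec1_recCost _ _ _).trans ?_
    calc (Δ + 1) ^ (F + 1) * simCost K m c
        ≤ (Δ + 1) ^ (F + 1) * ((R + Z) * (Nat.clog 2 (c + 2) + 1)) := Nat.mul_le_mul_left _ h3
      _ = _ := by ring
  unfold stepCost
  rw [← hR, ← hΔ, ← hF]
  refine Nat.add_le_add ?_ h4
  calc R * tyCost K m b L
      ≤ R * (((m + 1) ^ (4 * cN K m) + nW m (cR K m) ^ 2) * ((b + 1) * (m + 1) ^ L)) :=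
        Nat.mul_le_mul_left _ h2
    _ = _ := by ring

end Pool.Agent.WFC
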