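import Pool.Agent.WFC.Defs2

set_option autoImplicit false

/-!
# REC2: arithmetic of the recurrence
-/

namespace Pool.Agent.WFC

theorem rec2_aux (K₀ C : ℕ) : ∃ t : ℕ, K₀ + C * t ≤ 2 ^ t := by
  refine ⟨2 * (K₀ + 2 * C), ?_⟩
  set s := K₀ + 2 * C with hs
  have h1 : s + 1 ≤ 2 ^ s := Nat.lt_two_pow_self
  have h2 : (s + 1) * (s + 1) ≤ 2 ^ (2 * s) := by
    rw [two_mul, pow_add]
    exact Nat.mul_le_mul h1 h1
  have h3 : K₀ + C * (2 * s) ≤ (s + 1) * (s + 1) := by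
    have h4 : 2 * C ≤ s := by omega
    have h5 : K₀ ≤ s := by omega
    nlinarith
  exact h3.trans h2

theorem rec2_clog_mul (a G : ℕ) :
    Nat.clog 2 (a * G) ≤ Nat.clog 2 a + G := by
  rw [Nat.clog_le_iff_le_pow (by norm_num), pow_add]
  refine Nat.mul_le_mul (Nat.le_pow_clog (by norm_num) a) Nat.lt_two_pow_self.le

/-- Arithmetic: a fixed point of the recurrence. Let `G = (b + 1) (m + 1) ^ L ≥ 1`; the value of `G` at
`(b + Δ, Λ + L)` is at most `g * G` with `g = (Δ + 1) (m + 1) ^ Λ`; `clog 2 (E g G + 2) ≤ clog 2 (E g + 2) + clog 2 G`,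
`clog 2 G ≤ G`; choose `E` with `A + 2 C + C clog 2 (E g + 2) ≤ E`. -/
theorem exists_fix (A C Δ Λ m : ℕ) : ∃ E : ℕ, ∀ b L : ℕ,
    A * ((b + 1) * (m + 1) ^ L) + C * (Nat.clog 2 (E * ((b + Δ + 1) * (m + 1) ^ (Λ + L)) + 2) + 1) ≤
      E * ((b + 1) * (m + 1) ^ L) := by
  set g := (Δ + 1) * (m + 1) ^ Λ with hg
  obtain ⟨t, ht⟩ := rec2_aux (A + 2 * C + C * Nat.clog 2 (g + 2)) C
  refine ⟨2 ^ t, fun b L => ?_⟩
  set G := (b + 1) * (m + 1) ^ L with hG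
  have hG1 : 1 ≤ G := Nat.succ_le_of_lt (Nat.mul_pos (Nat.succ_pos _) (Nat.pos_of_ne_zero (by positivity)))
  have h1 : (b + Δ + 1) * (m + 1) ^ (Λ + L) ≤ g * G := by
    rw [hg, hG, pow_add]
    have : b + Δ + 1 ≤ (Δ + 1) * (b + 1) := by nlinarith
    calc (b + Δ + 1) * ((m + 1) ^ Λ * (m + 1) ^ L)
        ≤ ((Δ + 1) * (b + 1)) * ((m + 1) ^ Λ * (m + 1) ^ L) := Nat.mul_le_mul_right _ this
      _ = (Δ + 1) * (m + 1) ^ Λ * ((b + 1) * (m + 1) ^ L) := by ring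
  have h2 : 2 ^ t * ((b + Δ + 1) * (m + 1) ^ (Λ + L)) + 2 ≤ (2 ^ t * (g + 2)) * G := by
    have h3 : 1 ≤ 2 ^ t := Nat.one_le_two_pow
    calc 2 ^ t * ((b + Δ + 1) * (m + 1) ^ (Λ + L)) + 2
        ≤ 2 ^ t * (g * G) + 2 * (2 ^ t * G) := by
          refine Nat.add_le_add (Nat.mul_le_mul_left _ h1) ?_
          have : 1 ≤ 2 ^ t * G := Nat.succ_le_of_lt (Nat.mul_pos (by omega) (by omega))
          omega
      _ = (2 ^ t * (g + 2)) * G := by ring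
  have h4 : Nat.clog 2 (2 ^ t * ((b + Δ + 1) * (m + 1) ^ (Λ + L)) + 2) ≤
      t + Nat.clog 2 (g + 2) + G := by
    refine (Nat.clog_mono_right 2 h2).trans ((rec2_clog_mul _ G).trans ?_)
    refine Nat.add_le_add_right ?_ _
    rw [Nat.clog_le_iff_le_pow (by norm_num), pow_add]
    exact Nat.mul_le_mul_left _ (Nat.le_pow_clog (by norm_num) _)
  have h5 : C * (Nat.clog 2 (2 ^ t * ((b + Δ + 1) * (m + 1) ^ (Λ + L)) + 2) + 1) ≤
      C * (t + Nat.clog 2 (g + 2) + G + 1) := Nat.mul_le_mul_left _ (by omega)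
  have h6 : C * (t + Nat.clog 2 (g + 2) + G + 1) ≤ (C * t + C * Nat.clog 2 (g + 2) + 2 * C) * G := by
    have : t + Nat.clog 2 (g + 2) + G + 1 ≤ (t + Nat.clog 2 (g + 2) + 2) * G := by nlinarith
    calc C * (t + Nat.clog 2 (g + 2) + G + 1) ≤ C * ((t + Nat.clog 2 (g + 2) + 2) * G) :=
          Nat.mul_le_mul_left _ this
      _ = _ := by ring
  calc A * G + C * (Nat.clog 2 (2 ^ t * ((b + Δ + 1) * (m + 1) ^ (Λ + L)) + 2) + 1)
      ≤ A * G + (C * t + C * Nat.clog 2 (g + 2) + 2 * C) * G := Nat.add_le_add_left (h5.trans h6) _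
    _ = (A + 2 * C + C * Nat.clog 2 (g + 2) + C * t) * G := by ring
    _ ≤ 2 ^ t * G := Nat.mul_le_mul_right _ ht

end Pool.Agent.WFC
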