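import Pool.Agent.WFC.SIM2

set_option autoImplicit false

/-!
# SIM3: simulation of the lower protocols
-/

namespace Pool.Agent.WFC

open Pool.Agent.H56

variable {k : ℕ} {ar : Fin k → ℕ} {T : List (Rule ar)} {D : Type} {K m : ℕ} {hm : ∀ i, ar i ≤ m} {J : Inst ar D}
  {q : CQ ar} {𝔽 : Fr hm J q T K} {st st' : List (Stg K m)} {τ : Tsk K m}

/-- The announcement of the target: if on the whole box some target separates two copies of the row `ρ₀`. -/
theorem sim3_aux (hv : Valid 𝔽 st) (hτ : TOk 𝔽 st τ) {n : ℕ} {B : Box T D K} (hB : BoxOk 𝔽 n B)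
    {tr : Row K → Elem T D → Prot T D K m} (hdet : Det 𝔽 B τ.M tr) {s : ℕ}
    (hs : ∀ ρ, ((ρ, none) : Occ K m) ∈ τ.M → ∀ b ∈ B ρ, walk (cop 𝔽 st τ ρ b) s (tr ρ b) ≠ none) {ρ₀ : Row K}
    (hP : ∀ b ∈ B ρ₀, ∃ g : Tgt K m, (XX 𝔽 st (tgtWord τ g) = τ.M ∧ XX' 𝔽 st (tgtWord τ g) = τ.M ∧
      (tgtWord τ g).2.length ≤ cR K m ∧ 𝔽.lbl (tgtWord τ g) ≠ none) ∧
      ∃ w₁ w₂, Eqw 𝔽 st (ρ₀, w₁) (tgtWord τ g) ∧ Eqw 𝔽 st (ρ₀, w₂) (tgtWord τ g) ∧
      InS (up w₁ b) (predOf g (walk (cop 𝔽 st τ ρ₀ b) s (tr ρ₀ b))) ∧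
      ¬ InS (up w₂ b) (predOf g (walk (cop 𝔽 st τ ρ₀ b) s (tr ρ₀ b)))) :
    Split (fun B' => Fails 𝔽 B' ∨ ∃ σ ∈ st, Refutes 𝔽 B' σ)
      (Nat.clog 2 (Nat.card (Tgt K m) + 1) +
        Fintype.card (Row K) * Nat.card {w : List (Fin m) // w.length ≤ cN K m}) B := by
  classical
  let P : Tgt K m → Elem T D → Prop := fun g b =>
    (XX 𝔽 st (tgtWord τ g) = τ.M ∧ XX' 𝔽 st (tgtWord τ g) = τ.M ∧
      (tgtWord τ g).2.length ≤ cR K m ∧ 𝔽.lbl (tgtWord τ g) ≠ none) ∧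
      ∃ w₁ w₂, Eqw 𝔽 st (ρ₀, w₁) (tgtWord τ g) ∧ Eqw 𝔽 st (ρ₀, w₂) (tgtWord τ g) ∧
      InS (up w₁ b) (predOf g (walk (cop 𝔽 st τ ρ₀ b) s (tr ρ₀ b))) ∧
      ¬ InS (up w₂ b) (predOf g (walk (cop 𝔽 st τ ρ₀ b) s (tr ρ₀ b)))
  let f : Elem T D → Option (Tgt K m) := fun b => if H : ∃ g, P g b then some H.choose else none
  have hf1 : ∀ b ∈ B ρ₀, f b ≠ none := by
    intro b hb
    have H : ∃ g, P g b := hP b hb
    simp only [f, dif_pos H]
    simp
  have hf2 : ∀ b g, f b = some g → P g b := by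
    intro b g hg
    by_cases H : ∃ g, P g b
    · simp only [f, dif_pos H, Option.some.injEq] at hg
      rw [← hg]
      exact H.choose_spec
    · simp only [f, dif_neg H] at hg
      cases hg
  refine Split.announce ρ₀ f ?_ (fun x => ?_)
  · rw [Finite.card_option]
    exact Nat.le_pow_clog one_lt_two _
  · have hsub : ∀ i, Function.update B ρ₀ (B ρ₀ ∩ {e | f e = x}) i ⊆ B i := by
      intro i
      by_cases hi : i = ρ₀
      · subst hi
        rw [Function.update_self]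
        exact Set.inter_subset_left
      · rw [Function.update_of_ne hi]
    by_cases hne : (B ρ₀ ∩ {e | f e = x}) = ∅
    · refine Split.leaf (Or.inl (fails_of_empty (ρ := ρ₀) ?_))
      rw [Function.update_self]
      exact hne
    · obtain ⟨b₀, hb₀, hb₀'⟩ := Set.nonempty_iff_ne_empty.mpr hne
      obtain ⟨g, rfl⟩ : ∃ g, x = some g := by
        have h1 := hf1 b₀ hb₀
        rw [show f b₀ = x from hb₀'] at h1
        exact Option.ne_none_iff_exists'.mp h1
      obtain ⟨⟨h1, h2, h3, h4⟩, -⟩ := hf2 b₀ g hb₀'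
      refine sim_bits hv hτ (hB.sub hsub) (hdet.sub hsub) (s := s) (fun ρ' hρ' b hb => hs ρ' hρ' b (hsub _ hb))
        g h1 h2 h3 h4 (ρ₀ := ρ₀) (fun b hb => ?_)
      rw [Function.update_self] at hb
      exact (hf2 b g hb.2).2

/-- SIMULATION. Every row `ρ` announces the time `s_ρ ≤ c` of the first node where two of its copies disagree (or
`c + 1` if there is none; only rows with `(ρ, none) ∈ M` matter). Let `s` be the minimum over the rows in `M`.
If `s ≤ c`, take a row `ρ₀` in `M` with `s_ρ₀ = s`; it announces the row `e` of the task which is asked; target `inl e`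
(`walk_none`; values of copies of `u e` in `S` and not in `S`).
Otherwise all walks are defined for `c` steps, and the row `ρ` of the copies `xs` has reached a leaf `(o, o', S)`
(`walk_leaf`), which it announces (without `S`); target `inr (o, o')`. By `walk_run` (the input `lowIn xs b` belongs to
the copies) the output of the protocol on `lowIn xs b` is `(o, o', S)`; by `hfail` the value of `ow o` is in `S` and the
value of `ow o'` is not; these are the values of the words `o.2.toList ++ xs o.1.1`, `o'.2.toList ++ xs o'.1.1` of the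
row `ρ`, which are equivalent to the target word (`low_clm`). For `X = X' = M` use `low_ch`. Then `sim_bits`. -/
theorem sim (hv : Valid 𝔽 st) (hτ : TOk 𝔽 st τ) {n : ℕ} {B : Box T D K} (hB : BoxOk 𝔽 n B)
    {tr : Row K → Elem T D → Prot T D K m} (hdet : Det 𝔽 B τ.M tr) {c : ℕ} (hc : ∀ ρ b, (tr ρ b).depth ≤ c)
    {ρ : Row K} {xs : Fin K → List (Fin m)} (hx : Cps 𝔽 st τ ρ xs)
    (hfail : ∀ b ∈ B ρ, FailAt (lowPat 𝔽 st τ) (lowIn xs b) ((tr ρ b).run (lowIn xs b))) :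
    Split (fun B' => Fails 𝔽 B' ∨ ∃ σ ∈ st, Refutes 𝔽 B' σ) (simCost K m c) B := by
  classical
  -- two copies disagree at time `s`
  let D₀ : Row K → Elem T D → ℕ → Prop := fun i b s =>
    ∃ i' S t₁ t₂, walk (cop 𝔽 st τ i b) s (tr i b) = some (.node i' S t₁ t₂) ∧
      ∃ x ∈ cop 𝔽 st τ i b i'.1, ∃ y ∈ cop 𝔽 st τ i b i'.1, x ∈ S ∧ y ∉ S
  have hEx : ∀ i b, ∃ s, s = c + 1 ∨ D₀ i b s := fun i b => ⟨c + 1, Or.inl rfl⟩
  let tm : Row K → Elem T D → ℕ := fun i b => Nat.find (hEx i b)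
  have htm : ∀ i b, tm i b < c + 2 := by
    intro i b
    have h1 : tm i b ≤ c + 1 := Nat.find_min' (hEx i b) (Or.inl rfl)
    omega
  have htm1 : ∀ i b, tm i b ≠ c + 1 → D₀ i b (tm i b) := by
    intro i b h1
    rcases Nat.find_spec (hEx i b) with h2 | h2
    · exact absurd h2 h1
    · exact h2
  have htm2 : ∀ i b s, s ≤ tm i b → walk (cop 𝔽 st τ i b) s (tr i b) ≠ none := by
    intro i b s hs hn
    obtain ⟨s', hs', i', S, t₁, t₂, h1, h2⟩ := walk_none hn
    exact Nat.find_min (hEx i b) (lt_of_lt_of_le hs' hs) (Or.inr ⟨i', S, t₁, t₂, h1, h2⟩)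
  refine Split.announceAll (α := Fin (c + 2)) (fun i b => ⟨tm i b, htm i b⟩) ?_ (fun x => ?_)
  · rw [Nat.card_eq_fintype_card, Fintype.card_fin]
    exact Nat.le_pow_clog one_lt_two _
  have hsub : ∀ i, (fun i => B i ∩ {e | (⟨tm i e, htm i e⟩ : Fin (c + 2)) = x i}) i ⊆ B i :=
    fun i => Set.inter_subset_left
  have htmx : ∀ i, ∀ b ∈ (fun i => B i ∩ {e | (⟨tm i e, htm i e⟩ : Fin (c + 2)) = x i}) i, tm i b = (x i).1 := by
    intro i b hb
    exact congrArg Fin.val hb.2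
  -- the minimum over the rows in `M`
  obtain ⟨ρ₀, hρ₀, hmin⟩ : ∃ ρ₀ : Row K, ((ρ₀, none) : Occ K m) ∈ τ.M ∧
      ∀ ρ', ((ρ', none) : Occ K m) ∈ τ.M → (x ρ₀).1 ≤ (x ρ').1 := by
    obtain ⟨ρ₀, h1, h2⟩ := (Finset.univ.filter (fun ρ' : Row K => ((ρ', none) : Occ K m) ∈ τ.M)).exists_min_image
      (fun ρ' => (x ρ').1) ⟨ρ, by simp [hx.mem]⟩
    refine ⟨ρ₀, (Finset.mem_filter.mp h1).2, fun ρ' hρ' => h2 ρ' (Finset.mem_filter.mpr ⟨Finset.mem_univ _, hρ'⟩)⟩
  by_cases hlt : (x ρ₀).1 = c + 1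
  · -- all walks reach a leaf
    have hall : ∀ ρ', ((ρ', none) : Occ K m) ∈ τ.M → c ≤ (x ρ').1 := by
      intro ρ' hρ'
      have := hmin ρ' hρ'
      omega
    refine sim3_aux hv hτ (hB.sub hsub) (hdet.sub hsub) (s := c) (ρ₀ := ρ) ?_ ?_
    · intro ρ' hρ' b hb
      refine htm2 ρ' b c ?_
      rw [htmx ρ' b hb]
      exact hall ρ' hρ'
    · intro b hb
      have hw : walk (cop 𝔽 st τ ρ b) c (tr ρ b) ≠ none := by
        refine htm2 ρ b c ?_
        rw [htmx ρ b hb]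
        exact hall ρ hx.mem
      obtain ⟨t', ht'⟩ := Option.ne_none_iff_exists'.mp hw
      obtain ⟨⟨o, o', S⟩, rfl⟩ := walk_leaf (hc ρ b) ht'
      have hval : ∀ e, ∃ v, up (xs e) b = some v := by
        intro e
        obtain ⟨v, h1, -, -⟩ := copy_val hv hτ hB hb.1 (hx.cp e)
        exact ⟨v, h1⟩
      have hrun : (tr ρ b).run (lowIn xs b) = (o, o', S) := by
        have h1 : ∀ ρ', lowIn xs b ρ' ∈ cop 𝔽 st τ ρ b ρ'.1 := by
          intro ρ'
          obtain ⟨v, h2⟩ := hval ρ'.1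
          refine ⟨xs ρ'.1, hx.cp ρ'.1, ?_⟩
          simp only [lowIn, h2, Option.getD_some]
        exact walk_run h1 ht'
      have h2 := hfail b hb.1
      rw [hrun] at h2
      obtain ⟨hclm, ⟨e, he, hve⟩, e', he', hve'⟩ := h2
      have hvl : ∀ o : Occ K m, val (lowIn xs b) (ow o) = up (o.2.toList ++ xs o.1.1) b := by
        intro o
        refine val_lowIn (ρ := ρ) (ow o) ?_
        obtain ⟨v, h3⟩ := hval o.1.1
        show up (xs o.1.1) b ≠ none
        rw [h3]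
        simp
      obtain ⟨-, -, h5, h6, -⟩ := low_ch hv hτ hclm.1
      obtain ⟨h7, h8⟩ := low_node hv hτ hclm.1.1
      refine ⟨.inr (o, o'), ⟨h5, h6, h7, (lb_ne_none_iff _).1 h8⟩, o.2.toList ++ xs o.1.1,
        o'.2.toList ++ xs o'.1.1, ?_, ?_, ?_, ?_⟩
      · exact (hx.cp o.1.1).ext o.2.toList
      · exact ((hx.cp o'.1.1).ext o'.2.toList).trans (low_clm hv hτ hclm).symm
      · rw [ht', ← hvl o, hve]
        refine ⟨e, ?_, rfl⟩
        simp only [predOf, if_true]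
        exact he
      · rw [ht', ← hvl o', hve']
        rintro ⟨e'', h9, h10⟩
        simp only [predOf, if_true] at h9
        rw [Option.some.injEq] at h10
        rw [← h10] at h9
        exact he' h9
  · refine sim3_aux hv hτ (hB.sub hsub) (hdet.sub hsub) (s := (x ρ₀).1) (ρ₀ := ρ₀) ?_ ?_
    · intro ρ' hρ' b hb
      refine htm2 ρ' b _ ?_
      rw [htmx ρ' b hb]
      exact hmin ρ' hρ'
    · intro b hb
      have h1 := htmx ρ₀ b hb
      obtain ⟨i', S, t₁, t₂, h2, y₁, hy₁, y₂, hy₂, h3, h4⟩ := htm1 ρ₀ b (by rw [h1]; exact hlt)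
      rw [h1] at h2
      obtain ⟨w₁, hw₁, hw₁'⟩ := hy₁
      obtain ⟨w₂, hw₂, hw₂'⟩ := hy₂
      obtain ⟨h5, ⟨r, h6⟩, -, -, h7, h8⟩ := P1_pure hτ (hτ.mem i'.1)
      refine ⟨.inl i'.1, ⟨h7, h8, ?_, ?_⟩, w₁, w₂, hw₁, hw₂, ?_, ?_⟩
      · have h9 : cR1 K m ≤ cR K m := by
          unfold cR
          omega
        exact h5.trans h9
      · refine (lb_ne_none_iff _).1 ?_
        show 𝔽.lb (τ.u i'.1) ≠ none
        rw [h6]
        simp
      · rw [h2, hw₁']
        refine ⟨y₁, ?_, rfl⟩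
        simp only [predOf, if_true]
        exact h3
      · rw [h2, hw₂']
        rintro ⟨e'', h9, h10⟩
        simp only [predOf, if_true] at h9
        rw [Option.some.injEq] at h10
        rw [← h10] at h9
        exact h4 h9

end Pool.Agent.WFC
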