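import Pool.Agent.WFC.SP1

set_option autoImplicit false

/-!
# SP4: splitting boxes: successive splittings; decision trees
-/

namespace Pool.Agent.WFC

variable {ρ E : Type} [DecidableEq ρ]

namespace Split

open Classical in
theorem sp4_aux {ι : Type} {Q : ι → (ρ → Set E) → Prop}
    (hmono : ∀ i (B B' : ρ → Set E), (∀ j, B' j ⊆ B j) → Q i B → Q i B') {c : ℕ} {B : ρ → Set E}
    (h : ∀ i, ∀ B' : ρ → Set E, (∀ j, B' j ⊆ B j) → Split (Q i) c B') (s : Finset ι) :
    ∀ B' : ρ → Set E, (∀ j, B' j ⊆ B j) → Split (fun B'' => ∀ i ∈ s, Q i B'') (s.card * c) B' := by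
  induction s using Finset.induction_on with
  | empty =>
    intro B' _
    exact Split.leaf (by simp)
  | insert a s ha ih =>
    intro B' hB'
    have h1 : Split (fun B'' => ∀ i ∈ insert a s, Q i B'') (c + s.card * c) B' := by
      refine (h a B' hB').bind fun B'' hB'' hQ => ?_
      refine (ih B'' fun j => (hB'' j).trans (hB' j)).imp fun B₃ hB₃ hQ₃ => ?_
      intro i hi
      rcases Finset.mem_insert.1 hi with rfl | hi
      · exact hmono _ _ _ hB₃ hQ
      · exact hQ₃ i hi
    refine h1.weaken ?_
    rw [Finset.card_insert_of_notMem ha]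
    linarith [Nat.add_mul s.card 1 c]

/-- Successive splittings for finitely many properties which are inherited by subboxes. -/
theorem forall_fin {ι : Type} [Finite ι] {Q : ι → (ρ → Set E) → Prop}
    (hmono : ∀ i (B B' : ρ → Set E), (∀ j, B' j ⊆ B j) → Q i B → Q i B') {c : ℕ} {B : ρ → Set E}
    (h : ∀ i, ∀ B' : ρ → Set E, (∀ j, B' j ⊆ B j) → Split (Q i) c B') :
    Split (fun B' => ∀ i, Q i B') (Nat.card ι * c) B := by
  have := Fintype.ofFinite ι
  have h1 := sp4_aux hmono h Finset.univ B (fun j => subset_rfl)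
  rw [Nat.card_eq_fintype_card]
  exact h1.imp fun B' _ hQ i => hQ i (Finset.mem_univ i)

/-- From splittings to decision trees. -/
theorem toTree {O : Type} (P : (ρ → E) → O → Prop) {c : ℕ} {B : ρ → Set E}
    (h : Split (fun B' => ∃ o, ∀ a : ρ → E, (∀ i, a i ∈ B' i) → P a o) c B) :
    ∃ t : Tree ρ E O, t.depth ≤ c ∧ ∀ a : ρ → E, (∀ i, a i ∈ B i) → P a (t.run a) := by
  induction h with
  | leaf hQ =>
    obtain ⟨o, ho⟩ := hQ
    exact ⟨Tree.leaf o, Nat.zero_le _, fun a ha => ho a ha⟩
  | @node c B i S _ _ ih1 ih2 =>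
    obtain ⟨t, ht, ht'⟩ := ih1
    obtain ⟨f, hf, hf'⟩ := ih2
    refine ⟨Tree.node i S t f, ?_, ?_⟩
    · simp only [Tree.depth]
      omega
    · intro a ha
      simp only [Tree.run]
      split_ifs with hS
      · refine ht' a fun j => ?_
        by_cases hj : j = i
        · subst hj
          rw [Function.update_self]
          exact ⟨ha _, hS⟩
        · rw [Function.update_of_ne hj]
          exact ha j
      · refine hf' a fun j => ?_
        by_cases hj : j = i
        · subst hj
          rw [Function.update_self]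
          exact ⟨ha _, hS⟩
        · rw [Function.update_of_ne hj]
          exact ha j

end Split

end Pool.Agent.WFC
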