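import Pool.Agent.WFC.SOL1
import Pool.Agent.WFC.SIM3
import Pool.Agent.WFC.FI3
import Pool.Agent.WFC.SP4

set_option autoImplicit false

/-!
# SOL2: the refutation recursion
-/

namespace Pool.Agent.WFC

open Pool.Agent.H56

variable {k : ℕ} {ar : Fin k → ℕ} {T : List (Rule ar)} {D : Type} {K m : ℕ} {hm : ∀ i, ar i ≤ m} {J : Inst ar D}
  {q : CQ ar} {𝔽 : Fr hm J q T K} {st st' : List (Stg K m)} {τ : Tsk K m}

private theorem sol2_boxOk_mono {n : ℕ} {B B' : Box T D K} (h : BoxOk 𝔽 n B) (hs : ∀ i, B' i ⊆ B i) :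
    BoxOk 𝔽 n B' :=
  ⟨fun ρ b hb => h.stg ρ b (hs ρ hb), fun ρ b hb => h.lbl ρ b (hs ρ hb), fun ρ b hb => h.eqp ρ b (hs ρ hb)⟩

private theorem sol2_fails_mono {B B' : Box T D K} (h : Fails 𝔽 B) (hs : ∀ i, B' i ⊆ B i) : Fails 𝔽 B' := by
  obtain ⟨o, o', h1, h2, h3⟩ := h
  exact ⟨o, o', h1, h2, fun b hb b' hb' => h3 b (hs _ hb) b' (hs _ hb')⟩

private theorem sol2_refutes_mono {B B' : Box T D K} {σ : Stg K m} (h : Refutes 𝔽 B σ) (hs : ∀ i, B' i ⊆ B i) :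
    Refutes 𝔽 B' σ := by
  obtain ⟨fam, h1, w, w', z, h2, h3, h4⟩ := h
  refine ⟨fam, ?_, w, w', z, h2, h3, fun b hb => h4 b (hs _ hb)⟩
  intro o o' g1 g2 g3 b hb b' hb' g4
  exact h1 o o' g1 g2 g3 b (hs _ hb) b' (hs _ hb') g4

private theorem sol2_inS {𝔽 : Fr hm J q T K} {fam : Shape T D K m → Row K → Elem T D → Set (Elem T D)}
    {ρ : Row K} {b : Elem T D} {v v' : Option (Elem T D)}
    (h : v.map (refLab (𝔽 := 𝔽) fam ρ b) = v'.map (refLab (𝔽 := 𝔽) fam ρ b)) (ζ : Shape T D K m) :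
    InS v (fam ζ ρ b) ↔ InS v' (fam ζ ρ b) := by
  cases v with
  | none =>
    cases v' with
    | none => exact Iff.rfl
    | some e' => simp at h
  | some e =>
    cases v' with
    | none => simp at h
    | some e' =>
      simp only [Option.map_some, Option.some.injEq] at h
      have h2 : {ζ | e ∈ fam ζ ρ b} = {ζ | e' ∈ fam ζ ρ b} := congrArg Prod.snd h
      have h3 : e ∈ fam ζ ρ b ↔ e' ∈ fam ζ ρ b := by
        have : ζ ∈ {ζ | e ∈ fam ζ ρ b} ↔ ζ ∈ {ζ | e' ∈ fam ζ ρ b} := by rw [h2]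
        exact this
      constructor
      · rintro ⟨x, hx, hx'⟩
        cases hx'
        exact ⟨e', h3.mp hx, rfl⟩
      · rintro ⟨x, hx, hx'⟩
        cases hx'
        exact ⟨e, h3.mpr hx, rfl⟩

/-- The last step: all new stages are refuted. -/
private theorem sol2_last [Finite D] [Finite 𝔽.Λ] {n b c : ℕ}
    (hb : Nat.card 𝔽.Λ ≤ 2 ^ b)
    (hC : Cst hm J q T K n (b + Nat.card (Shape T D K m)) (2 * cN K m + 𝔽.L) c)
    (hv : Valid 𝔽 st) (hτ : TOk 𝔽 st τ) {ρ : Row K} {xs : Fin K → List (Fin m)} (hx : Cps 𝔽 st τ ρ xs)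
    {B : Box T D K} (hB : BoxOk 𝔽 n B)
    (hall : ∀ ζ : Shape T D K m, ¬ (GoodShape hm J q (lowPat 𝔽 st τ) ζ ∧
      ValidAt 𝔽.ℓ (2 * cN K m + 𝔽.L) (lowIn xs (𝔽.a ρ)) ζ) ∨ Fails 𝔽 B ∨
        ∃ σ ∈ newStg τ ρ xs ζ :: st, Refutes 𝔽 B σ) :
    Split (fun B' => Fails 𝔽 B' ∨ ∃ σ ∈ st, Refutes 𝔽 B' σ) (simCost K m c) B := by
  classical
  by_cases hF : Fails 𝔽 B ∨ ∃ σ ∈ st, Refutes 𝔽 B σ
  · exact Split.leaf hF
  have href : ∀ ζ : Shape T D K m, (GoodShape hm J q (lowPat 𝔽 st τ) ζ ∧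
      ValidAt 𝔽.ℓ (2 * cN K m + 𝔽.L) (lowIn xs (𝔽.a ρ)) ζ) → Refutes 𝔽 B (newStg τ ρ xs ζ) := by
    intro ζ hζ
    rcases hall ζ with h | h | ⟨σ, hσ, h⟩
    · exact absurd hζ h
    · exact absurd (Or.inl h) hF
    · rcases List.mem_cons.mp hσ with rfl | hσ'
      · exact h
      · exact absurd (Or.inr ⟨σ, hσ', h⟩) hF
  have hfam : ∀ ζ : Shape T D K m, ∃ fam : Row K → Elem T D → Set (Elem T D), Det 𝔽 B τ.M fam ∧
      ((GoodShape hm J q (lowPat 𝔽 st τ) ζ ∧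
        ValidAt 𝔽.ℓ (2 * cN K m + 𝔽.L) (lowIn xs (𝔽.a ρ)) ζ) →
        ∃ w w' z, (w, w') ∈ (newStg τ ρ xs ζ).E ∧ z.length ≤ cN K m ∧
          ∀ b ∈ B ρ, ¬ (InS (up (z ++ w) b) (fam ρ b) ↔ InS (up (z ++ w') b) (fam ρ b))) := by
    intro ζ
    by_cases hζ : (GoodShape hm J q (lowPat 𝔽 st τ) ζ ∧
        ValidAt 𝔽.ℓ (2 * cN K m + 𝔽.L) (lowIn xs (𝔽.a ρ)) ζ)
    · obtain ⟨fam, h1, h2⟩ := href ζ hζ
      exact ⟨fam, h1, fun _ => h2⟩
    · exact ⟨fun _ _ => ∅, fun _ _ _ _ _ _ _ _ _ _ => rfl, fun h => absurd h hζ⟩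
  choose fam hdet hsep using hfam
  have hcard : Nat.card (𝔽.Λ × Set (Shape T D K m)) ≤ 2 ^ (b + Nat.card (Shape T D K m)) := by
    have := Fintype.ofFinite (Shape T D K m)
    rw [Nat.card_prod, pow_add]
    refine Nat.mul_le_mul hb (le_of_eq ?_)
    rw [Nat.card_eq_fintype_card, Fintype.card_set, Nat.card_eq_fintype_card]
  have hprot : ∀ ℓ' : Elem T D → 𝔽.Λ × Set (Shape T D K m), ∃ t : Prot T D K m, GoodLab (cN K m) m ℓ' →
      t.depth ≤ c ∧ ∀ a, Adm J n (lowPat 𝔽 st τ) a →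
        (∃ ζ, GoodShape hm J q (lowPat 𝔽 st τ) ζ ∧ ValidAt ℓ' (2 * cN K m + 𝔽.L) a ζ) ∨
          FailAt (lowPat 𝔽 st τ) a (t.run a) := by
    intro ℓ'
    by_cases hg : GoodLab (cN K m) m ℓ'
    · obtain ⟨t, h1, h2⟩ := hC (lowPat 𝔽 st τ) (lowPat_ok hv hτ) _ hcard ℓ' hg
      exact ⟨t, fun _ => ⟨h1, h2⟩⟩
    · exact ⟨Tree.leaf ((ρ, none), (ρ, none), ∅), fun h => absurd h hg⟩
  choose Pt hPt using hprot
  refine sim hv hτ hB (tr := fun ρ' b' => Pt (refLab (𝔽 := 𝔽) fam ρ' b')) ?_ ?_ hx ?_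
  · intro o o' h1 h2 h3 b1 hb1 b2 hb2 h4
    have h5 : refLab (𝔽 := 𝔽) fam o.1 b1 = refLab (𝔽 := 𝔽) fam o'.1 b2 := by
      funext e
      refine Prod.ext rfl ?_
      show {ζ | e ∈ fam ζ o.1 b1} = {ζ | e ∈ fam ζ o'.1 b2}
      ext ζ
      show e ∈ fam ζ o.1 b1 ↔ e ∈ fam ζ o'.1 b2
      rw [hdet ζ o o' h1 h2 h3 b1 hb1 b2 hb2 h4]
    show Pt (refLab (𝔽 := 𝔽) fam o.1 b1) = Pt (refLab (𝔽 := 𝔽) fam o'.1 b2)
    rw [h5]
  · intro ρ' b'
    exact (hPt _ (refLab_good fam ρ' b')).1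
  · intro b' hb'
    rcases (hPt _ (refLab_good fam ρ b')).2 (lowIn xs b') (lowIn_adm hv hτ hB hx hb') with ⟨ζ, hζ, hval⟩ | h
    · exfalso
      have hζ' : ValidAt 𝔽.ℓ (2 * cN K m + 𝔽.L) (lowIn xs (𝔽.a ρ)) ζ :=
        validAt_sample hv hτ hB hx hb' (validAt_refLab hval)
      obtain ⟨w, w', z, hE, hz, hne⟩ := hsep ζ ⟨hζ, hζ'⟩
      obtain ⟨x, y, hxy, hww⟩ := hE
      have hw : w = x.2 ++ xs x.1.1 := congrArg Prod.fst hww
      have hw' : w' = y.2 ++ xs y.1.1 := congrArg Prod.snd hww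
      have hxn : ∀ e, up (xs e) b' ≠ none := by
        intro e
        obtain ⟨v, hv1, -, -⟩ := copy_val hv hτ hB hb' (hx.cp e)
        rw [hv1]
        simp
      have h1 := hval.th x y hxy z (by omega)
      rw [val_lowIn (ρ := ρ) (ext x z) (hxn _), val_lowIn (ρ := ρ) (ext y z) (hxn _)] at h1
      refine hne b' hb' ?_
      have h2 := sol2_inS h1 ζ
      rw [hw, hw', ← List.append_assoc, ← List.append_assoc]
      exact h2
    · exact h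

/-- THE RECURSION. `tree G Λ ℓ` are protocols of level `n` for good labellings with at most `2 ^ (b + Δ)` labels
(`Δ` = number of shapes) and depth `2 N + L` of label-consistency. Induction on `f`.
By `comb` and `hNG` there is an unsolved task `τ`; take copies `ρ, xs` (`exists_cps`). Let `Z` be the set of the shapes
`ζ` which are good for `lowPat 𝔽 st τ` and valid at `lowIn xs (𝔽.a ρ)`. For `ζ ∈ Z` the state `newStg τ ρ xs ζ :: st` is
valid and has smaller `defi` (`grow`, `defi_lt`); so for `f = 0` the set `Z` is empty. By the induction hypothesis and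
`Split.forall_fin` (index type: shapes, trivial property for `ζ ∉ Z`) we get with `Δ * recCost s Δ f` bits boxes on which
for every `ζ ∈ Z`: `Fails`, or `Refutes` a stage of `newStg τ ρ xs ζ :: st`. If `Fails`, or a stage of `st` is refuted,
we are done (`Split.leaf`). Otherwise for every `ζ ∈ Z` the new stage is refuted, with `fam ζ`; for `ζ ∉ Z` let `fam ζ = ∅`.
Use `sim` with the protocols `tr ρ b = ` the protocol for `lowPat 𝔽 st τ` and the labelling `refLab fam ρ b`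
(`Det` of `refLab fam` from `Det` of all `fam ζ`, as `(newStg τ ρ xs ζ).X = τ.M`). `hfail`: otherwise there is a good
shape `ζ` valid at `lowIn xs b` for `refLab fam ρ b`; it is valid for `𝔽.ℓ`, so `ζ ∈ Z` (`validAt_sample`); but
`Refutes` gives `(x, y) ∈ ζ.th` and `z` with `|z| ≤ N` such that the values of `z ++ (x.2 ++ xs _)`, `z ++ (y.2 ++ xs _)`
at `b` are separated by `fam ζ ρ b`; this contradicts `ValidAt.th` at `z` (`val_lowIn`). -/
theorem solve [Finite D] (hK : 1 ≤ K) (hm1 : 1 ≤ m) (hs : Small T J q K) [Finite 𝔽.Λ] {n b c : ℕ}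
    (hb : Nat.card 𝔽.Λ ≤ 2 ^ b)
    (hC : Cst hm J q T K n (b + Nat.card (Shape T D K m)) (2 * cN K m + 𝔽.L) c)
    (hNG : ¬ ∃ ζ : Shape T D K m, GoodShape hm J q 𝔽.G ζ ∧ ValidAt 𝔽.ℓ 𝔽.L 𝔽.a ζ) (f : ℕ) :
    ∀ st : List (Stg K m), Valid 𝔽 st → defi 𝔽 st ≤ f → ∀ B : Box T D K, BoxOk 𝔽 n B →
      Split (fun B' => Fails 𝔽 B' ∨ ∃ σ ∈ st, Refutes 𝔽 B' σ)
        (recCost (simCost K m c) (Nat.card (Shape T D K m)) f) B := by
  classical
  have main : ∀ st : List (Stg K m), Valid 𝔽 st → ∀ B : Box T D K, BoxOk 𝔽 n B → ∀ c' : ℕ,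
      (∀ st' : List (Stg K m), Valid 𝔽 st' → defi 𝔽 st' < defi 𝔽 st → ∀ B' : Box T D K, BoxOk 𝔽 n B' →
        Split (fun B'' => Fails 𝔽 B'' ∨ ∃ σ ∈ st', Refutes 𝔽 B'' σ) c' B') →
      Split (fun B' => Fails 𝔽 B' ∨ ∃ σ ∈ st, Refutes 𝔽 B' σ)
        (Nat.card (Shape T D K m) * c' + simCost K m c) B := by
    intro st hv B hB c' ih
    have hex : ∃ τ, TOk 𝔽 st τ ∧ ¬ Solved 𝔽 st τ := by
      by_contra hcon
      refine hNG (comb hK hm1 hs 𝔽 hv ?_)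
      intro τ hτ
      by_contra hns
      exact hcon ⟨τ, hτ, hns⟩
    obtain ⟨τ, hτ, hns⟩ := hex
    obtain ⟨ρ, xs, hx⟩ := exists_cps hK hv hτ
    refine Split.bind (Split.forall_fin
      (Q := fun (ζ : Shape T D K m) (B' : Box T D K) => ¬ (GoodShape hm J q (lowPat 𝔽 st τ) ζ ∧
        ValidAt 𝔽.ℓ (2 * cN K m + 𝔽.L) (lowIn xs (𝔽.a ρ)) ζ) ∨ Fails 𝔽 B' ∨
          ∃ σ ∈ newStg τ ρ xs ζ :: st, Refutes 𝔽 B' σ) ?_ ?_) ?_
    · intro ζ B1 B2 hsub h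
      rcases h with h | h | ⟨σ, hσ, h⟩
      · exact Or.inl h
      · exact Or.inr (Or.inl (sol2_fails_mono h hsub))
      · exact Or.inr (Or.inr ⟨σ, hσ, sol2_refutes_mono h hsub⟩)
    · intro ζ B' hsub
      by_cases hζ : (GoodShape hm J q (lowPat 𝔽 st τ) ζ ∧
        ValidAt 𝔽.ℓ (2 * cN K m + 𝔽.L) (lowIn xs (𝔽.a ρ)) ζ)
      · obtain ⟨x, y, hx1, hy1, hE, hnE⟩ := grow hv hτ hx hζ.1 hζ.2 hns
        have hd := defi_lt (newStg τ ρ xs ζ) hx1 hy1 hE hnE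
        exact (ih _ (newStg_valid hK hv hτ hx hζ.2) hd B' (sol2_boxOk_mono hB hsub)).imp
          (fun _ _ h => Or.inr h)
      · exact Split.leaf (Or.inl hζ)
    · intro B' hsub hall
      exact sol2_last hb hC hv hτ hx (sol2_boxOk_mono hB hsub) hall
  induction f with
  | zero =>
    intro st hv hd B hB
    have h := main st hv B hB 0 (fun st' _ hlt => by omega)
    simpa [recCost] using h
  | succ f ih =>
    intro st hv hd B hB
    exact main st hv B hB _ (fun st' hv' hlt B' hB' => ih st' hv' (by omega) B' hB')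

end Pool.Agent.WFC
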