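import Pool.Agent.WFC.STP1
import Pool.Agent.WFC.SOL2

set_option autoImplicit false

/-!
# STP2: the recursion step for the protocols
-/

namespace Pool.Agent.WFC

open Pool.Agent.H56

variable {k : ℕ} {ar : Fin k → ℕ} {T : List (Rule ar)} {D : Type} {K m : ℕ} {hm : ∀ i, ar i ≤ m} {J : Inst ar D}
  {q : CQ ar} {𝔽 : Fr hm J q T K} {st st' : List (Stg K m)} {τ : Tsk K m}

/-- Valid occurrences have values. -/
theorem stp2_val {G : Pat T D K m} {o : Occ K m} (ho : G.vo o) {b : Elem T D} (hb : lab b = .inr (G.r o.1.1)) :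
    ∃ e, up (ow o).2 b = some e := by
  rcases o with ⟨ρ, _ | p⟩
  · exact ⟨b, rfl⟩
  · have h1 : up1 p b ≠ none := (up1_ne_none_iff hb).2 (ho p rfl)
    obtain ⟨e, he⟩ := Option.ne_none_iff_exists'.mp h1
    exact ⟨e, by simp [up_cons, he]⟩

/-- The output for a claim which fails on a whole box. -/
theorem stp2_fail {G : Pat T D K m} {B : Box T D K} (hB : ∀ ρ, ∀ b ∈ B ρ, lab b = .inr (G.r ρ.1)) {o o' : Occ K m}
    (hc : G.Clm o o') (hne : ∀ b ∈ B o.1, ∀ b' ∈ B o'.1, up (ow o).2 b ≠ up (ow o').2 b') :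
    ∃ out : Out T D K m, ∀ a : Row K → Elem T D, (∀ i, a i ∈ B i) → FailAt G a out := by
  refine ⟨(o, o', {v | ∃ b ∈ B o.1, up (ow o).2 b = some v}), fun a ha => ⟨hc, ?_, ?_⟩⟩
  · obtain ⟨e, he⟩ := stp2_val hc.1.1 (hB _ _ (ha o.1))
    exact ⟨e, ⟨a o.1, ha _, he⟩, he⟩
  · obtain ⟨e, he⟩ := stp2_val hc.2.1.1 (hB _ _ (ha o'.1))
    refine ⟨e, ?_, he⟩
    rintro ⟨b, hb, hbe⟩
    exact hne b hb (a o'.1) (ha _) (hbe.trans he.symm)

/-- Validity of shapes is the same for all inputs with the same types. -/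
theorem stp2_valid {Λ : Type} {ℓ : Elem T D → Λ} (hℓ : GoodLab (cN K m) m ℓ) {L : ℕ} {a a' : Row K → Elem T D}
    (h : ∀ ρ, ∀ w : List (Fin m), w.length ≤ 4 * cN K m + L → (up w (a' ρ)).map ℓ = (up w (a ρ)).map ℓ)
    {ζ : Shape T D K m} (hζ : ValidAt ℓ L a ζ) : ValidAt ℓ L a' ζ := by
  have hN : K + 1 ≤ cN K m := by unfold cN; omega
  have hv : ∀ x : Wd K m, x.2.length ≤ 4 * cN K m + L → (val a' x).map ℓ = (val a x).map ℓ :=
    fun x hx => h x.1 x.2 hx
  refine ⟨?_, ?_, ?_⟩
  · intro x t hxt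
    have hx := ζ.htau _ hxt
    have hx' : x.2.length ≤ K + 1 := hx
    rw [val_map_lab hℓ (hv x (by omega))]
    exact hζ.tau x t hxt
  · intro x y hxy
    have hx : x.2.length ≤ K + 1 := (ζ.hth _ hxy).1
    have h1 := hζ.dom x y hxy
    have h2 := hv x (by omega)
    rw [Option.isSome_iff_ne_none] at h1 ⊢
    rw [← map_ne_none (f := ℓ), h2]
    exact map_ne_none.2 h1
  · intro x y hxy z hz
    have hx : x.2.length ≤ K + 1 := (ζ.hth _ hxy).1
    have hy : y.2.length ≤ K + 1 := (ζ.hth _ hxy).2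
    rw [hv (ext x z) (by simp only [ext_snd, List.length_append]; omega),
      hv (ext y z) (by simp only [ext_snd, List.length_append]; omega)]
    exact hζ.th x y hxy z hz

/-- THE STEP. Let `B₀ ρ` be the set of the elements of stage `n + 1` with the rule of the row. All rows announce their
types (`announceAll`); on a box `B` of inputs of constant type: if some `B ρ` is empty, the claim between the two
clones of `ρ` fails vacuously. Otherwise choose a sample `a` in `B`. If some good shape is valid at `a`, it is valid at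
all inputs of the box (labels to depth `L` of words of length at most `K + 1`); every output is fine. If for some
cross-row claim `o`, `o'` the labels of `ext (ow o) z`, `ext (ow o') z` at the sample differ for some `z`,
`|z| ≤ 2 N + L`, the values of `ow o` and `ow o'` are different for all inputs of the box: output
`(o, o', {v | v is the value of ow o for some b ∈ B o.1})`. Otherwise we have a frame `𝔽` with this sample, `BoxOk 𝔽 n B`,
and `solve` with `st = []`, `f = ` number of pairs; on the final boxes `Fails 𝔽 B'`, which gives the same kind of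
output. The pieces are combined with `Split.toTree`, `P a out := (∃ ζ, GoodShape ∧ ValidAt ℓ L a ζ) ∨ FailAt G a out`.
(If `K = 0` there are no rows; we assume `1 ≤ K`.) -/
theorem cst_step [Finite D] (hK : 1 ≤ K) (hm1 : 1 ≤ m) (hs : Small T J q K) {n b L c : ℕ}
    (hC : Cst hm J q T K n (b + Nat.card (Shape T D K m)) (2 * cN K m + L) c) :
    Cst hm J q T K (n + 1) b L (stepCost T D K m b L c) := by
  intro G hG Λ hfΛ hΛ ℓ hℓ
  let ρ₀ : Row K := (⟨0, hK⟩, true)
  let out₀ : Out T D K m := (((ρ₀, none) : Occ K m), ((ρ₀, none) : Occ K m), ∅)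
  let B₀ : Box T D K := fun ρ => {e | e ∈ stage J (n + 1) ∧ lab e = .inr (G.r ρ.1)}
  let P : (Row K → Elem T D) → Out T D K m → Prop := fun a out =>
    (∃ ζ, GoodShape hm J q G ζ ∧ ValidAt ℓ L a ζ) ∨ FailAt G a out
  have key : Split (fun B' : Row K → Set (Elem T D) => ∃ o, ∀ a : Row K → Elem T D, (∀ i, a i ∈ B' i) → P a o)
      (stepCost T D K m b L c) B₀ := by
    have : Nonempty (({w : List (Fin m) // w.length ≤ 4 * cN K m + L} → Option Λ) ×
      Set ({w : List (Fin m) // w.length ≤ cR K m} × {w : List (Fin m) // w.length ≤ cR K m})) :=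
      ⟨(fun _ => none, ∅)⟩
    refine Split.announceAll (fun _ e => tyOf K ℓ m L e) (card_ty hΛ K m L) ?_
    intro x
    set B : Box T D K := fun i => B₀ i ∩ {e | tyOf K ℓ m L e = x i} with hBdef
    have hB0 : ∀ ρ, ∀ e ∈ B ρ, lab e = .inr (G.r ρ.1) := fun ρ e he => he.1.2
    have hlen : ∀ ρ, ∀ e ∈ B ρ, ∀ e' ∈ B ρ, ∀ w : List (Fin m), w.length ≤ 4 * cN K m + L →
        (up w e).map ℓ = (up w e').map ℓ := by
      intro ρ e he e' he' w hw
      have h1 : tyOf K ℓ m L e = tyOf K ℓ m L e' := he.2.trans he'.2.symm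
      exact congrFun (congrArg Prod.fst h1) ⟨w, hw⟩
    by_cases hemp : ∃ ρ, B ρ = ∅
    · obtain ⟨ρ, hρ⟩ := hemp
      refine Split.leaf ⟨out₀, fun a ha => ?_⟩
      have := ha ρ
      rw [hρ] at this
      exact absurd this (Set.notMem_empty _)
    push Not at hemp
    choose a ha using fun ρ => hemp ρ
    by_cases hNG : ∃ ζ, GoodShape hm J q G ζ ∧ ValidAt ℓ L a ζ
    · obtain ⟨ζ, hζ, hv⟩ := hNG
      refine Split.leaf ⟨out₀, fun a' ha' => Or.inl ⟨ζ, hζ, ?_⟩⟩
      exact stp2_valid hℓ (fun ρ w hw => hlen ρ _ (ha' ρ) _ (ha ρ) w hw) hv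
    by_cases htr : ∀ o o', G.Clm o o' → o.1 ≠ o'.1 → ∀ z : List (Fin m), z.length ≤ 2 * cN K m + L →
        (val a (ext (ow o) z)).map ℓ = (val a (ext (ow o') z)).map ℓ
    · let 𝔽 : Fr hm J q T K :=
        { G := G
          ok := hG
          Λ := Λ
          ℓ := ℓ
          good := hℓ
          a := a
          leg := fun ρ => ⟨n + 1, (ha ρ).1.1⟩
          rule := fun ρ => (ha ρ).1.2
          L := L
          tr := htr }
      have hfin : Finite 𝔽.Λ := hfΛ
      have hBox : BoxOk 𝔽 n B := by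
        refine ⟨fun ρ e he => he.1.1, fun ρ e he w hw => hlen ρ e he _ (ha ρ) w hw, ?_⟩
        intro ρ e he w w' hw hw' e₁ h1 h2
        have h3 : tyOf K ℓ m L e = tyOf K ℓ m L (a ρ) := he.2.trans (ha ρ).2.symm
        have h4 := congrArg Prod.snd h3
        have h5 : ((⟨w, hw⟩, ⟨w', hw'⟩) : {w : List (Fin m) // w.length ≤ cR K m} ×
            {w : List (Fin m) // w.length ≤ cR K m}) ∈ (tyOf K ℓ m L (a ρ)).2 := by
          change up w (a ρ) = up w' (a ρ)
          rw [show up w (a ρ) = some e₁ from h1, show up w' (a ρ) = some e₁ from h2]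
        rw [← h4] at h5
        exact h5
      have hsol := solve (𝔽 := 𝔽) hK hm1 hs hΛ hC hNG ({x : Wd K m | x.2.length ≤ cR K m}.ncard ^ 2) [] trivial
        (defi_le 𝔽 []) B hBox
      refine hsol.imp ?_
      rintro B' hB' (⟨o, o', hc, -, hne⟩ | ⟨σ, hσ, -⟩)
      · obtain ⟨out, hout⟩ := stp2_fail (G := G) (B := B') (fun ρ e he => hB0 ρ e (hB' ρ he)) hc hne
        exact ⟨out, fun a' ha' => Or.inr (hout a' ha')⟩
      · exact absurd hσ (List.not_mem_nil)
    · push Not at htr
      obtain ⟨o, o', hc, -, z, hz, hne⟩ := htr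
      obtain ⟨out, hout⟩ := stp2_fail (G := G) (B := B) hB0 hc (by
        intro e he e' he' hee
        apply hne
        have h1 : ∀ o : Occ K m, (z ++ (ow o).2).length ≤ 4 * cN K m + L := by
          intro o
          have := ow_len o
          rw [List.length_append]
          have hN : 1 ≤ cN K m := by unfold cN; omega
          omega
        have h2 := hlen o.1 e he _ (ha _) (z ++ (ow o).2) (h1 o)
        have h3 := hlen o'.1 e' he' _ (ha _) (z ++ (ow o').2) (h1 o')
        rw [up_append, hee, ← up_append] at h2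
        exact h2.symm.trans h3)
      exact Split.leaf ⟨out, fun a' ha' => Or.inr (hout a' ha')⟩
  obtain ⟨t, ht, h⟩ := Split.toTree P key
  exact ⟨t, ht, fun a ha => h a ha⟩

end Pool.Agent.WFC
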