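import Pool.Agent.WFC.REC1
import Pool.Agent.WFC.REC2
import Pool.Agent.WFC.STP2

set_option autoImplicit false

/-!
# REC3: protocols of bounded cost for all levels
-/

namespace Pool.Agent.WFC

open Pool.Agent.H56

variable {k : ℕ} {ar : Fin k → ℕ} {T : List (Rule ar)} {D : Type} {K m : ℕ} {hm : ∀ i, ar i ≤ m} {J : Inst ar D}
  {q : CQ ar} {𝔽 : Fr hm J q T K} {st st' : List (Stg K m)} {τ : Tsk K m}

/-- Protocols of bounded cost for all levels: induction on `n` with `cst_zero`, `cst_step`, `Cst.mono`. -/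
theorem cst_all [Finite D] (hK : 1 ≤ K) (hm1 : 1 ≤ m) (hs : Small T J q K) :
    ∃ E : ℕ, ∀ n b L : ℕ, Cst hm J q T K n b L (E * ((b + 1) * (m + 1) ^ L)) := by
  obtain ⟨A, C, hAC⟩ := stepCost_le (D := D) T K m
  obtain ⟨E, hE⟩ := exists_fix A C (Nat.card (Shape T D K m)) (2 * cN K m) m
  refine ⟨E, fun n => ?_⟩
  induction n with
  | zero => intro b L; exact (cst_zero hK b L).mono (Nat.zero_le _)
  | succ n ih =>
    intro b L
    have h1 := ih (b + Nat.card (Shape T D K m)) (2 * cN K m + L)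
    exact (cst_step hK hm1 hs h1).mono ((hAC b L _).trans (hE b L))

end Pool.Agent.WFC
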