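import Pool.Agent.WFC.Defs2

set_option autoImplicit false

/-!
# WK: running a protocol on sets of copies
-/

namespace Pool.Agent.WFC

variable {K : ℕ} {E O : Type}

theorem wk_leaf (cop : Fin K → Set E) (s : ℕ) (o : O) : walk cop s (.leaf o : Tree (Row K) E O) = some (.leaf o) := by
  cases s <;> rfl

theorem wk_node (cop : Fin K → Set E) (s : ℕ) (i : Row K) (S : Set E) (t f : Tree (Row K) E O) [Decidable (cop i.1 ⊆ S)]
    [Decidable (Disjoint (cop i.1) S)] :
    walk cop (s + 1) (.node i S t f) =
      if cop i.1 ⊆ S then walk cop s t else if Disjoint (cop i.1) S then walk cop s f else none := by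
  rw [walk]
  congr

/-- Fewer (but some) copies: the same walk. -/
theorem walk_sub {cop cop' : Fin K → Set E} (hsub : ∀ e, cop' e ⊆ cop e) (hne : ∀ e, (cop' e).Nonempty) {s : ℕ}
    {t t' : Tree (Row K) E O} (h : walk cop s t = some t') : walk cop' s t = some t' := by
  classical
  induction s generalizing t with
  | zero => exact h
  | succ s ih =>
    cases t with
    | leaf o => rw [wk_leaf] at h ⊢; exact h
    | node i S t f =>
      rw [wk_node] at h ⊢
      split_ifs at h with h1 h2
      · rw [if_pos ((hsub i.1).trans h1)]
        exact ih h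
      · have h3 : Disjoint (cop' i.1) S := Set.disjoint_of_subset_left (hsub i.1) h2
        have h4 : ¬ cop' i.1 ⊆ S := by
          intro h5
          obtain ⟨x, hx⟩ := hne i.1
          exact Set.disjoint_left.1 h3 hx (h5 hx)
        rw [if_neg h4, if_pos h3]
        exact ih h

theorem walk_run {cop : Fin K → Set E} {a : Row K → E} (ha : ∀ ρ, a ρ ∈ cop ρ.1) {s : ℕ}
    {t t' : Tree (Row K) E O} (h : walk cop s t = some t') : t.run a = t'.run a := by
  classical
  induction s generalizing t with
  | zero =>
    have : t = t' := Option.some.inj h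
    rw [this]
  | succ s ih =>
    cases t with
    | leaf o =>
      rw [wk_leaf] at h
      rw [Option.some.inj h]
    | node i S t f =>
      rw [wk_node] at h
      split_ifs at h with h1 h2
      · rw [← ih h, Tree.run, if_pos (h1 (ha i))]
      · rw [← ih h, Tree.run, if_neg (Set.disjoint_left.1 h2 (ha i))]

/-- After `depth t` steps a leaf is reached. -/
theorem walk_leaf {cop : Fin K → Set E} {s : ℕ} {t t' : Tree (Row K) E O} (hs : t.depth ≤ s)
    (h : walk cop s t = some t') : ∃ o, t' = .leaf o := by
  classical
  induction s generalizing t with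
  | zero =>
    cases t with
    | leaf o =>
      rw [wk_leaf] at h
      exact ⟨o, (Option.some.inj h).symm⟩
    | node i S t f =>
      simp [Tree.depth] at hs
  | succ s ih =>
    cases t with
    | leaf o =>
      rw [wk_leaf] at h
      exact ⟨o, (Option.some.inj h).symm⟩
    | node i S t f =>
      simp only [Tree.depth] at hs
      rw [wk_node] at h
      split_ifs at h with h1 h2
      · exact ih (by have := le_max_left t.depth f.depth; omega) h
      · exact ih (by have := le_max_right t.depth f.depth; omega) h

/-- If the walk stops, it stops at a node where two copies disagree. -/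
theorem walk_none {cop : Fin K → Set E} {s : ℕ} {t : Tree (Row K) E O} (h : walk cop s t = none) :
    ∃ s' < s, ∃ i S t₁ t₂, walk cop s' t = some (.node i S t₁ t₂) ∧ ∃ x ∈ cop i.1, ∃ y ∈ cop i.1, x ∈ S ∧ y ∉ S := by
  classical
  induction s generalizing t with
  | zero => exact absurd h (by simp [walk])
  | succ s ih =>
    cases t with
    | leaf o => rw [wk_leaf] at h; exact absurd h (by simp)
    | node i S t f =>
      rw [wk_node] at h
      split_ifs at h with h1 h2
      · obtain ⟨s', hs', i', S', t₁, t₂, h3, h4⟩ := ih h
        refine ⟨s' + 1, by omega, i', S', t₁, t₂, ?_, h4⟩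
        rw [wk_node, if_pos h1]; exact h3
      · obtain ⟨s', hs', i', S', t₁, t₂, h3, h4⟩ := ih h
        refine ⟨s' + 1, by omega, i', S', t₁, t₂, ?_, h4⟩
        rw [wk_node, if_neg h1, if_pos h2]; exact h3
      · refine ⟨0, by omega, i, S, t, f, rfl, ?_⟩
        obtain ⟨y, hy, hyS⟩ := Set.not_subset.1 h1
        obtain ⟨x, hx, hxS⟩ := Set.not_disjoint_iff.1 h2
        exact ⟨x, hx, y, hy, hxS, hyS⟩

theorem walk_some_of_le {cop : Fin K → Set E} {s s' : ℕ} (hs : s' ≤ s) {t : Tree (Row K) E O}
    (h : walk cop s t ≠ none) : walk cop s' t ≠ none := by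
  classical
  induction s generalizing t s' with
  | zero =>
    have : s' = 0 := by omega
    subst this
    exact h
  | succ s ih =>
    cases s' with
    | zero => simp [walk]
    | succ s' =>
      cases t with
      | leaf o => rw [wk_leaf]; simp
      | node i S t f =>
        rw [wk_node] at h ⊢
        split_ifs at h ⊢ with h1 h2
        · exact ih (by omega) h
        · exact ih (by omega) h
        · exact h

end Pool.Agent.WFC
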