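import Pool.Agent.WFC.NS
import Pool.Agent.WFC.WK

set_option autoImplicit false

/-!
# SIM1: states of the simulation are determined
-/

namespace Pool.Agent.WFC

open Pool.Agent.H56

variable {k : ℕ} {ar : Fin k → ℕ} {T : List (Rule ar)} {D : Type} {K m : ℕ} {hm : ∀ i, ar i ≤ m} {J : Inst ar D}
  {q : CQ ar} {𝔽 : Fr hm J q T K} {st st' : List (Stg K m)} {τ : Tsk K m}

/-- The walk of a row of `M` can be computed from the value of an occurrence. -/
theorem sim1_sub (hv : Valid 𝔽 st) (hτ : TOk 𝔽 st τ) {n : ℕ} {B : Box T D K} (hB : BoxOk 𝔽 n B)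
    {t : Prot T D K m} {s : ℕ} {o : Occ K m} (ho : o ∈ τ.M) {b : Elem T D} (hb : b ∈ B o.1)
    {t' : Prot T D K m} (h : walk (cop 𝔽 st τ o.1 b) s t = some t') :
    walk (fun e => {v | ∃ z, Eqw 𝔽 st (ext (ow o) z) (τ.u e) ∧ (up (ow o).2 b).bind (up z) = some v}) s t =
      some t' := by
  refine walk_sub ?_ ?_ h
  · rintro e v ⟨z, hz, hv'⟩
    refine ⟨z ++ (ow o).2, hz, ?_⟩
    rw [up_append]
    exact hv'
  · intro e
    obtain ⟨z, hz⟩ := exists_copy (𝔽 := 𝔽) (st := st) hτ ho e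
    obtain ⟨v, h1, -, -⟩ := copy_val hv hτ hB hb (w := z ++ (ow o).2) (e := e) hz
    refine ⟨v, z, hz, ?_⟩
    rw [← up_append]
    exact h1

/-- States are determined: let `o ∈ M` and `o'` have a cross-row claim and the same value for `b`, `b'`. If the walks of
the rows are defined for `s` steps, they lead to the same state. (Both rows contain the copies
`{v | ∃ z, ext (ow o) z ~ u e, up z (value) = some v}`, which is the same set for `o` and `o'` because
`ow o ~ ow o'`; it is nonempty (`exists_copy`, `copy_val`); use `walk_sub`.) -/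
theorem walk_det (hv : Valid 𝔽 st) (hτ : TOk 𝔽 st τ) {n : ℕ} {B : Box T D K} (hB : BoxOk 𝔽 n B)
    {tr : Row K → Elem T D → Prot T D K m} (hdet : Det 𝔽 B τ.M tr) {s : ℕ}
    (hs : ∀ ρ, ((ρ, none) : Occ K m) ∈ τ.M → ∀ b ∈ B ρ, walk (cop 𝔽 st τ ρ b) s (tr ρ b) ≠ none) :
    Det 𝔽 B τ.M (fun ρ b => walk (cop 𝔽 st τ ρ b) s (tr ρ b)) := by
  intro o o' hc hne ho b hb b' hb' hbb
  have hM : XX' 𝔽 st (τ.u o.1.1) = τ.M := (hτ.mem o.1.1).2.2.2
  have ho' : o' ∈ τ.M := by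
    rw [← hM] at ho ⊢
    exact XX'_clm ho hc
  have htop : ((o.1, none) : Occ K m) ∈ τ.M := by
    rw [← hM] at ho ⊢
    exact top_mem ho
  have htop' : ((o'.1, none) : Occ K m) ∈ τ.M := by
    rw [← hM] at ho' ⊢
    exact top_mem ho'
  have htr : tr o.1 b = tr o'.1 b' := hdet o o' hc hne ho b hb b' hb' hbb
  obtain ⟨t1, h1⟩ := Option.ne_none_iff_exists'.mp (hs o.1 htop b hb)
  obtain ⟨t2, h2⟩ := Option.ne_none_iff_exists'.mp (hs o'.1 htop' b' hb')
  show walk (cop 𝔽 st τ o.1 b) s (tr o.1 b) = walk (cop 𝔽 st τ o'.1 b') s (tr o'.1 b')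
  have h1' := sim1_sub hv hτ hB ho hb h1
  have h2' := sim1_sub hv hτ hB ho' hb' h2
  have hcop : (fun e => {v | ∃ z, Eqw 𝔽 st (ext (ow o) z) (τ.u e) ∧ (up (ow o).2 b).bind (up z) = some v}) =
      (fun e => {v | ∃ z, Eqw 𝔽 st (ext (ow o') z) (τ.u e) ∧ (up (ow o').2 b').bind (up z) = some v}) := by
    funext e
    ext v
    have hz : ∀ z, Eqw 𝔽 st (ext (ow o) z) (ext (ow o') z) := fun z => (eqw_clm hc).ext z
    constructor
    · rintro ⟨z, h, h'⟩
      exact ⟨z, (hz z).symm.trans h, by rw [← hbb]; exact h'⟩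
    · rintro ⟨z, h, h'⟩
      exact ⟨z, (hz z).trans h, by rw [hbb]; exact h'⟩
  rw [h1, h2, ← h1', ← h2', htr, hcop]

end Pool.Agent.WFC
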