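import Pool.Agent.WFC.SP2

set_option autoImplicit false

/-!
# SP3: splitting boxes: all rows announce values
-/

namespace Pool.Agent.WFC

variable {ρ E : Type} [DecidableEq ρ]

namespace Split

theorem sp3_aux {Q : (ρ → Set E) → Prop} {α : Type} [Finite α] [Nonempty α] (f : ρ → E → α)
    {b c : ℕ} (hb : Nat.card α ≤ 2 ^ b) (t : Finset ρ) : ∀ B : ρ → Set E,
    (∀ x : ρ → α, Split Q c (fun i => if i ∈ t then B i ∩ {e | f i e = x i} else B i)) →
      Split Q (t.card * b + c) B := by
  induction t using Finset.induction_on with
  | empty =>
    intro B h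
    have h1 := h (fun _ => Classical.arbitrary α)
    simpa using h1
  | insert a t ha ih =>
    intro B h
    have h1 : Split Q (b + (t.card * b + c)) B := by
      refine announce a (f a) hb fun y => ?_
      refine ih _ fun x => ?_
      have h2 := h (Function.update x a y)
      convert h2 using 1
      funext i
      by_cases hi : i = a
      · subst hi
        simp [ha]
      · simp [Finset.mem_insert, hi]
    refine h1.weaken ?_
    rw [Finset.card_insert_of_notMem ha]
    linarith [Nat.add_mul t.card 1 b]

/-- All rows announce the values of functions. -/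
theorem announceAll {Q : (ρ → Set E) → Prop} {α : Type} [Finite α] [Nonempty α] [Fintype ρ] (f : ρ → E → α)
    {b c : ℕ} (hb : Nat.card α ≤ 2 ^ b) {B : ρ → Set E}
    (h : ∀ x : ρ → α, Split Q c (fun i => B i ∩ {e | f i e = x i})) : Split Q (Fintype.card ρ * b + c) B := by
  refine sp3_aux f hb Finset.univ B fun x => ?_
  simpa using h x

end Split

end Pool.Agent.WFC
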