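import Pool.Agent.WFC.SIM1
import Pool.Agent.WFC.BC
import Pool.Agent.WFC.SP3

set_option autoImplicit false

/-!
# SIM2: simulation: the bits of the target class
-/

namespace Pool.Agent.WFC

open Pool.Agent.H56

variable {k : ℕ} {ar : Fin k → ℕ} {T : List (Rule ar)} {D : Type} {K m : ℕ} {hm : ∀ i, ar i ≤ m} {J : Inst ar D}
  {q : CQ ar} {𝔽 : Fr hm J q T K} {st st' : List (Stg K m)} {τ : Tsk K m}

instance sim2_fin (N : ℕ) : Finite {w : List (Fin m) // w.length ≤ N} :=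
  (List.finite_length_le (Fin m) N).to_subtype

/-- Second half of the simulation: the time `s` and the target `g` are known, the walks of all rows in `M` are defined
for `s` steps, and for every input of the row `ρ₀` the predicate of its state separates two words of `ρ₀` in the class
of the target. All rows announce the set of the words `w`, `|w| < N`, in the class of the target whose values belong
to their predicate; then `chain` applies. -/
theorem sim_bits (hv : Valid 𝔽 st) (hτ : TOk 𝔽 st τ) {n : ℕ} {B : Box T D K} (hB : BoxOk 𝔽 n B)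
    {tr : Row K → Elem T D → Prot T D K m} (hdet : Det 𝔽 B τ.M tr) {s : ℕ}
    (hs : ∀ ρ, ((ρ, none) : Occ K m) ∈ τ.M → ∀ b ∈ B ρ, walk (cop 𝔽 st τ ρ b) s (tr ρ b) ≠ none)
    (g : Tgt K m) (hX : XX 𝔽 st (tgtWord τ g) = τ.M) (hX' : XX' 𝔽 st (tgtWord τ g) = τ.M)
    (hy : (tgtWord τ g).2.length ≤ cR K m) (hd : 𝔽.lbl (tgtWord τ g) ≠ none) {ρ₀ : Row K}
    (hsep : ∀ b ∈ B ρ₀, ∃ w₁ w₂, Eqw 𝔽 st (ρ₀, w₁) (tgtWord τ g) ∧ Eqw 𝔽 st (ρ₀, w₂) (tgtWord τ g) ∧
      InS (up w₁ b) (predOf g (walk (cop 𝔽 st τ ρ₀ b) s (tr ρ₀ b))) ∧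
      ¬ InS (up w₂ b) (predOf g (walk (cop 𝔽 st τ ρ₀ b) s (tr ρ₀ b)))) :
    Split (fun B' => Fails 𝔽 B' ∨ ∃ σ ∈ st, Refutes 𝔽 B' σ)
      (Fintype.card (Row K) * Nat.card {w : List (Fin m) // w.length ≤ cN K m}) B := by
  classical
  have hfin : Finite {w : List (Fin m) // w.length ≤ cN K m} := sim2_fin _
  set Pred : Row K → Elem T D → Set (Elem T D) :=
    fun ρ b => predOf g (walk (cop 𝔽 st τ ρ b) s (tr ρ b)) with hPred
  set f : Row K → Elem T D → Set {w : List (Fin m) // w.length ≤ cN K m} :=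
    fun ρ b => {w | InS (up w.1 b) (Pred ρ b)} with hf
  have hcard : Nat.card (Set {w : List (Fin m) // w.length ≤ cN K m}) ≤
      2 ^ Nat.card {w : List (Fin m) // w.length ≤ cN K m} := by
    have : Fintype {w : List (Fin m) // w.length ≤ cN K m} := Fintype.ofFinite _
    rw [Nat.card_eq_fintype_card, Nat.card_eq_fintype_card, Fintype.card_set]
  have hsplit := Split.announceAll (Q := fun B' => Fails 𝔽 B' ∨ ∃ σ ∈ st, Refutes 𝔽 B' σ) f hcard (c := 0) (B := B) ?_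
  · simpa using hsplit
  intro x
  refine Split.leaf ?_
  have hsub : ∀ i, (fun i => B i ∩ {e | f i e = x i}) i ⊆ B i := fun i => Set.inter_subset_left
  have hB' : BoxOk 𝔽 n (fun i => B i ∩ {e | f i e = x i}) := hB.sub hsub
  rcases Set.eq_empty_or_nonempty (B ρ₀ ∩ {e | f ρ₀ e = x ρ₀}) with hemp | ⟨b, hb, hbx⟩
  · exact Or.inl (fails_of_empty (ρ := ρ₀) hemp)
  obtain ⟨w₁, w₂, h1, h2, h3, h4⟩ := hsep b hb
  have hlen : ∀ ρ w, Eqw 𝔽 st (ρ, w) (tgtWord τ g) → w.length ≤ cN K m := fun ρ w h =>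
    (class_lemma hv hy hd h.symm).1.le
  have hdet' : Det 𝔽 (fun i => B i ∩ {e | f i e = x i}) τ.M Pred := by
    have h := (walk_det hv hτ hB hdet hs).sub hsub
    intro o o' hc hne ho b hb b' hb' hbb
    exact congrArg (predOf g) (h o o' hc hne ho b hb b' hb' hbb)
  have hbits : ∀ ρ, ((ρ, none) : Occ K m) ∈ τ.M → ∀ b ∈ B ρ ∩ {e | f ρ e = x ρ}, ∀ w,
      Eqw 𝔽 st (ρ, w) (tgtWord τ g) →
      (InS (up w b) (Pred ρ b) ↔ w ∈ {w | ∃ h : w.length ≤ cN K m, (⟨w, h⟩ : {w : List (Fin m) // w.length ≤ cN K m}) ∈ x ρ}) := by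
    intro ρ _ b hb w hw
    have hl := hlen ρ w hw
    have hfx : f ρ b = x ρ := hb.2
    constructor
    · intro h
      refine ⟨hl, ?_⟩
      rw [← hfx]
      exact h
    · rintro ⟨h, h'⟩
      rw [← hfx] at h'
      exact h'
  refine chain hv hB' hy hd hX hX' Pred hdet'
    (fun ρ => {w | ∃ h : w.length ≤ cN K m, (⟨w, h⟩ : {w : List (Fin m) // w.length ≤ cN K m}) ∈ x ρ}) hbits h1 h2 ?_ ?_
  · have htop : ((ρ₀, none) : Occ K m) ∈ τ.M := by
      have := (nonvar_row hv (x := tgtWord τ g) (hX.trans hX'.symm) h1).2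
      rwa [hX'] at this
    exact (hbits ρ₀ htop b ⟨hb, hbx⟩ w₁ h1).1 h3
  · have htop : ((ρ₀, none) : Occ K m) ∈ τ.M := by
      have := (nonvar_row hv (x := tgtWord τ g) (hX.trans hX'.symm) h1).2
      rwa [hX'] at this
    exact fun h => h4 ((hbits ρ₀ htop b ⟨hb, hbx⟩ w₂ h2).2 h)

end Pool.Agent.WFC
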