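import Pool.Agent.WFC.GL
import Pool.Agent.WFC.CL1

set_option autoImplicit false

/-!
# SOL1: preparations for the recursion
-/

namespace Pool.Agent.WFC

open Pool.Agent.H56

variable {k : ℕ} {ar : Fin k → ℕ} {T : List (Rule ar)} {D : Type} {K m : ℕ} {hm : ∀ i, ar i ≤ m} {J : Inst ar D}
  {q : CQ ar} {𝔽 : Fr hm J q T K} {st st' : List (Stg K m)} {τ : Tsk K m}

theorem defi_lt {st : List (Stg K m)} (σ : Stg K m) {x y : Wd K m} (hx : x.2.length ≤ cR K m)
    (hy : y.2.length ≤ cR K m) (h : Eqw 𝔽 (σ :: st) x y) (h' : ¬ Eqw 𝔽 st x y) : defi 𝔽 (σ :: st) < defi 𝔽 st := by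
  unfold defi
  apply Set.ncard_lt_ncard
  · constructor
    · rintro ⟨u, v⟩ ⟨h1, h2, h3⟩
      exact ⟨h1, h2, fun h4 => h3 (h4.cons σ)⟩
    · intro hsub
      have h1 : (x, y) ∈ {p : Wd K m × Wd K m | p.1.2.length ≤ cR K m ∧ p.2.2.length ≤ cR K m ∧
          ¬ Eqw 𝔽 st p.1 p.2} := ⟨hx, hy, h'⟩
      exact (hsub h1).2.2 h
  · refine ((finite_short K m (cR K m)).prod (finite_short K m (cR K m))).subset ?_
    rintro ⟨u, v⟩ ⟨h1, h2, -⟩
    exact ⟨h1, h2⟩

theorem recCost_mono (s Δ : ℕ) {f f' : ℕ} (h : f ≤ f') : recCost s Δ f ≤ recCost s Δ f' := by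
  have h1 : ∀ n, recCost s Δ n ≤ recCost s Δ (n + 1) := by
    intro n
    induction n with
    | zero => exact Nat.le_add_left _ _
    | succ n ih =>
      change Δ * recCost s Δ n + s ≤ Δ * recCost s Δ (n + 1) + s
      exact Nat.add_le_add_right (Nat.mul_le_mul_left _ ih) _
  exact monotone_nat_of_le_succ h1 h

theorem refLab_good (fam : Shape T D K m → Row K → Elem T D → Set (Elem T D)) (ρ : Row K) (b : Elem T D) :
    GoodLab (cN K m) m (refLab (𝔽 := 𝔽) fam ρ b) :=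
  𝔽.good.prod _

/-- Validity for the refined labelling implies validity for the old one. -/
theorem validAt_refLab {fam : Shape T D K m → Row K → Elem T D → Set (Elem T D)} {ρ : Row K} {b : Elem T D} {L : ℕ}
    {a : Row K → Elem T D} {ζ : Shape T D K m} (h : ValidAt (refLab (𝔽 := 𝔽) fam ρ b) L a ζ) :
    ValidAt 𝔽.ℓ L a ζ := by
  refine ⟨h.tau, h.dom, fun x y hxy z hz => ?_⟩
  have h1 := congrArg (Option.map Prod.fst) (h.th x y hxy z hz)
  rw [Option.map_map, Option.map_map] at h1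
  exact h1

end Pool.Agent.WFC
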