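import Pool.Agent.WFC.Defs2

set_option autoImplicit false

/-!
# SP1: splitting boxes: composition
-/

namespace Pool.Agent.WFC

variable {ρ E : Type} [DecidableEq ρ]

namespace Split

theorem sp1_sub (B B' : ρ → Set E) (i : ρ) (S' : Set E) (hS : S' ⊆ B i)
    (h : ∀ j, B' j ⊆ Function.update B i S' j) : ∀ j, B' j ⊆ B j := by
  intro j
  refine (h j).trans ?_
  by_cases hj : j = i
  · subst hj
    rw [Function.update_self]
    exact hS
  · rw [Function.update_of_ne hj]

theorem weaken {Q : (ρ → Set E) → Prop} {c c' : ℕ} {B : ρ → Set E} (h : Split Q c B) (hc : c ≤ c') :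
    Split Q c' B := by
  induction h generalizing c' with
  | leaf hQ => exact .leaf hQ
  | node i S h1 h2 ih1 ih2 =>
    obtain ⟨c'', rfl⟩ : ∃ c'', c' = c'' + 1 := ⟨c' - 1, by omega⟩
    exact .node i S (ih1 (by omega)) (ih2 (by omega))

/-- Composition; the smaller boxes are contained in `B`. -/
theorem bind {Q Q' : (ρ → Set E) → Prop} {c c' : ℕ} {B : ρ → Set E} (h : Split Q c B)
    (hQ : ∀ B' : ρ → Set E, (∀ i, B' i ⊆ B i) → Q B' → Split Q' c' B') : Split Q' (c + c') B := by
  induction h with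
  | leaf hq => exact (hQ _ (fun _ => subset_rfl) hq).weaken (by omega)
  | @node c B i S h1 h2 ih1 ih2 =>
    have e : c + 1 + c' = (c + c') + 1 := by omega
    rw [e]
    refine .node i S (ih1 fun B' hB' hq => ?_) (ih2 fun B' hB' hq => ?_)
    · exact hQ B' (sp1_sub B B' i _ Set.inter_subset_left hB') hq
    · exact hQ B' (sp1_sub B B' i _ Set.sdiff_subset hB') hq

theorem imp {Q Q' : (ρ → Set E) → Prop} {c : ℕ} {B : ρ → Set E} (h : Split Q c B)
    (hQ : ∀ B' : ρ → Set E, (∀ i, B' i ⊆ B i) → Q B' → Q' B') : Split Q' c B := by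
  have := h.bind (Q' := Q') (c' := 0) fun B' hB hq => .leaf (hQ B' hB hq)
  simpa using this

end Split

end Pool.Agent.WFC
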