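import Pool.Agent.WFC.SP1

set_option autoImplicit false

/-!
# SP2: splitting boxes: one row announces a value
-/

namespace Pool.Agent.WFC

variable {ρ E : Type} [DecidableEq ρ]

namespace Split

theorem sp2_aux {Q : (ρ → Set E) → Prop} {α : Type} [Finite α] (i : ρ) (f : E → α) {c : ℕ} {B : ρ → Set E}
    (h : ∀ x : α, Split Q c (Function.update B i (B i ∩ {e | f e = x}))) (b : ℕ) :
    ∀ s : Set α, s.Nonempty → s.ncard ≤ 2 ^ b →
      Split Q (b + c) (Function.update B i (B i ∩ {e | f e ∈ s})) := by
  induction b with
  | zero =>
    intro s hs hc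
    have h1 : s.ncard = 1 := by
      have := (Set.ncard_pos (Set.toFinite s)).2 hs
      simp only [pow_zero] at hc
      omega
    obtain ⟨x, rfl⟩ := Set.ncard_eq_one.1 h1
    rw [Nat.zero_add]
    exact h x
  | succ b ih =>
    intro s hs hc
    by_cases hle : s.ncard ≤ 2 ^ b
    · exact (ih s hs hle).weaken (by omega)
    · push Not at hle
      obtain ⟨s₁, hs₁, hc₁⟩ := Set.exists_subset_card_eq (s := s) (n := 2 ^ b) hle.le
      have hc₂ : (s \ s₁).ncard = s.ncard - 2 ^ b := by
        rw [Set.ncard_sdiff hs₁ (Set.toFinite _), hc₁]
      have hpos : 0 < 2 ^ b := by positivity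
      have hn₁ : s₁.Nonempty := by
        rw [← Set.ncard_pos (Set.toFinite s₁), hc₁]; exact hpos
      have hn₂ : (s \ s₁).Nonempty := by
        rw [← Set.ncard_pos (Set.toFinite (s \ s₁)), hc₂]; omega
      have e1 := ih s₁ hn₁ hc₁.le
      have e2 := ih (s \ s₁) hn₂ (by rw [hc₂]; rw [pow_succ] at hc; omega)
      have hnode : Split Q (b + c + 1) (Function.update B i (B i ∩ {e | f e ∈ s})) := by
        refine Split.node i {e | f e ∈ s₁} ?_ ?_
        · have : Function.update (Function.update B i (B i ∩ {e | f e ∈ s})) i
              ((Function.update B i (B i ∩ {e | f e ∈ s})) i ∩ {e | f e ∈ s₁}) =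
              Function.update B i (B i ∩ {e | f e ∈ s₁}) := by
            rw [Function.update_idem, Function.update_self]
            congr 1
            ext e
            simp only [Set.mem_inter_iff, Set.mem_ofPred_eq]
            constructor
            · rintro ⟨⟨h1, _⟩, h2⟩; exact ⟨h1, h2⟩
            · rintro ⟨h1, h2⟩; exact ⟨⟨h1, hs₁ h2⟩, h2⟩
          rw [this]; exact e1
        · have : Function.update (Function.update B i (B i ∩ {e | f e ∈ s})) i
              ((Function.update B i (B i ∩ {e | f e ∈ s})) i \ {e | f e ∈ s₁}) =
              Function.update B i (B i ∩ {e | f e ∈ s \ s₁}) := by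
            rw [Function.update_idem, Function.update_self]
            congr 1
            ext e
            simp only [Set.mem_inter_iff, Set.mem_ofPred_eq, Set.mem_sdiff]
            tauto
          rw [this]; exact e2
      exact hnode.weaken (by omega)

/-- Row `i` announces the value of `f` with `b` bits. Induction on `b`: split the (nonempty, finite) set of values in
two halves. -/
theorem announce {Q : (ρ → Set E) → Prop} {α : Type} [Finite α] [Nonempty α] (i : ρ) (f : E → α) {b c : ℕ}
    (hb : Nat.card α ≤ 2 ^ b) {B : ρ → Set E}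
    (h : ∀ x : α, Split Q c (Function.update B i (B i ∩ {e | f e = x}))) : Split Q (b + c) B := by
  have h1 := sp2_aux i f h b Set.univ Set.univ_nonempty (by rw [Set.ncard_univ]; exact hb)
  have h2 : Function.update B i (B i ∩ {e | f e ∈ Set.univ}) = B := by
    have : B i ∩ {e | f e ∈ (Set.univ : Set α)} = B i := by
      ext e; simp
    rw [this, Function.update_eq_self]
  rwa [h2] at h1

end Split

end Pool.Agent.WFC
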