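import Pool.Agent.WFC.GL

set_option autoImplicit false

/-!
# STP1: preparations for the step
-/

namespace Pool.Agent.WFC

open Pool.Agent.H56

variable {k : ℕ} {ar : Fin k → ℕ} {T : List (Rule ar)} {D : Type} {K m : ℕ} {hm : ∀ i, ar i ≤ m} {J : Inst ar D}
  {q : CQ ar} {𝔽 : Fr hm J q T K} {st st' : List (Stg K m)} {τ : Tsk K m}

/-- `defi` is at most the number of pairs of short words. -/
theorem defi_le (𝔽 : Fr hm J q T K) (st : List (Stg K m)) :
    defi 𝔽 st ≤ {x : Wd K m | x.2.length ≤ cR K m}.ncard ^ 2 := by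
  have hfin := finite_short K m (cR K m)
  have hsub : {p : Wd K m × Wd K m | p.1.2.length ≤ cR K m ∧ p.2.2.length ≤ cR K m ∧ ¬ Eqw 𝔽 st p.1 p.2} ⊆
      {x : Wd K m | x.2.length ≤ cR K m} ×ˢ {x : Wd K m | x.2.length ≤ cR K m} :=
    fun p hp => ⟨hp.1, hp.2.1⟩
  calc defi 𝔽 st ≤ ({x : Wd K m | x.2.length ≤ cR K m} ×ˢ {x : Wd K m | x.2.length ≤ cR K m}).ncard :=
        Set.ncard_le_ncard hsub (hfin.prod hfin)
    _ = {x : Wd K m | x.2.length ≤ cR K m}.ncard ^ 2 := by rw [Set.ncard_prod, sq]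

theorem card_ty {Λ : Type} [Finite Λ] {b : ℕ} (hb : Nat.card Λ ≤ 2 ^ b) (K m L : ℕ) :
    Nat.card (({w : List (Fin m) // w.length ≤ 4 * cN K m + L} → Option Λ) ×
      Set ({w : List (Fin m) // w.length ≤ cR K m} × {w : List (Fin m) // w.length ≤ cR K m})) ≤
      2 ^ tyCost K m b L := by
  haveI := Fintype.ofFinite Λ
  rw [Nat.card_prod, Nat.card_fun, tyCost, pow_add]
  have h1 : Nat.card (Option Λ) ≤ 2 ^ (b + 1) := by
    rw [Nat.card_eq_fintype_card, Fintype.card_option, ← Nat.card_eq_fintype_card, pow_succ]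
    have : 1 ≤ 2 ^ b := Nat.one_le_two_pow
    omega
  have h2 : Nat.card (Set ({w : List (Fin m) // w.length ≤ cR K m} × {w : List (Fin m) // w.length ≤ cR K m})) =
      2 ^ (nW m (cR K m) ^ 2) := by
    have : Nat.card (Set ({w : List (Fin m) // w.length ≤ cR K m} × {w : List (Fin m) // w.length ≤ cR K m})) =
      Nat.card (({w : List (Fin m) // w.length ≤ cR K m} × {w : List (Fin m) // w.length ≤ cR K m}) → Prop) := rfl
    rw [this, Nat.card_fun, Nat.card_prod]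
    simp [nW, sq]
  rw [h2]
  refine Nat.mul_le_mul_right _ ?_
  rw [pow_mul]
  exact Nat.pow_le_pow_left h1 _

/-- Level `0`: there are no admissible inputs. -/
theorem cst_zero (hK : 1 ≤ K) (b L : ℕ) : Cst hm J q T K 0 b L 0 := by
  intro G _ Λ _ _ ℓ _
  let ρ : Row K := (⟨0, hK⟩, true)
  refine ⟨.leaf (((ρ, none) : Occ K m), ((ρ, none) : Occ K m), ∅), le_rfl, fun a ha => ?_⟩
  exact absurd (ha ρ).2 (not_new_stage_zero J (ha ρ).1)

theorem Cst.mono {n b L c c' : ℕ} (h : Cst hm J q T K n b L c) (hc : c ≤ c') : Cst hm J q T K n b L c' := by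
  intro G hG Λ _ hΛ ℓ hℓ
  obtain ⟨t, ht, h'⟩ := h G hG Λ hΛ ℓ hℓ
  exact ⟨t, ht.trans hc, h'⟩

end Pool.Agent.WFC
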