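import Pool.Agent.WFC.GL

set_option autoImplicit false

/-!
# TF1: a match of a disjunct of the rewriting in a quotient
-/

namespace Pool.Agent.WFC

open Pool.Agent.H56

variable {k : ℕ} {ar : Fin k → ℕ} {T : List (Rule ar)} {D : Type} {K m : ℕ}

/-- Equal atoms have equal arguments. -/
theorem tf1_sigma {Λ : Type} {i i' : Fin k} {t : Fin (ar i) → Λ} {t' : Fin (ar i') → Λ}
    (h : (⟨i, t⟩ : Σ i : Fin k, Fin (ar i) → Λ) = ⟨i', t'⟩) :
    ∃ h' : i' = i, ∀ x : Fin (ar i'), t' x = t (Fin.cast (congrArg ar h') x) := by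
  cases h
  exact ⟨rfl, fun x => rfl⟩

/-- Matches in the quotient. For every atom choose a fact of `J` or an element of `O`. Not all atoms are facts of `J`:
otherwise `p` would hold in `J` (`L ∘ base` is injective because `L` determines `lab`; for a variable `z` of an atom take
the constant `d` with `v z = L (base d)`, and any constant for the variables which do not occur), so
`Entails T J q`. There are between `1` and `K` atoms with elements: enumerate them by `Fin K` (with repetitions). -/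
theorem exists_tDat {J : Inst ar D} {q : CQ ar} {Φ' : List (CQ ar)}
    (hq : ∀ (D : Type), Finite D → ∀ J : Inst ar D, Entails T J q ↔ ∃ p ∈ Φ', Sat J p) [Finite D] [Nonempty D]
    (hJ : ¬ Entails T J q) {p : CQ ar} (hp : p ∈ Φ') (hpK : p.2.length ≤ K) {O : Set (Elem T D)}
    (hO : ∀ r v, Elem.new r v ∈ O → ∃ i, headOf r i = none) {Λ : Type} {L : Elem T D → Λ}
    (hL : ∀ e e', L e = L e' → lab e = lab e') (hsat : Sat (HQ J O L) p) : Nonempty (TDat J O L p K) := by
  classical
  obtain ⟨v, hv⟩ := hsat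
  obtain ⟨d₀⟩ := ‹Nonempty D›
  have hLb : ∀ d d' : D, L (.base d) = L (.base d') → d = d' := by
    intro d d' h
    have h1 := hL _ _ h
    simpa [lab] using h1
  -- the atoms which are matched by facts of `J`
  let A : Fin p.2.length → Prop := fun j => ∃ t₀ : Fin (ar (p.2.get j).1) → D, J (p.2.get j).1 t₀ ∧
    ∀ i, v ((p.2.get j).2 i) = L (.base (t₀ i))
  have hB : ∀ j, ¬ A j → ∃ (r : Fin T.length) (w : Fin (T.get r).1 → Elem T D), Elem.new r w ∈ O ∧
      ∃ hs : symOf r = (p.2.get j).1, ∀ i : Fin (ar (symOf r)),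
        L (args r w i) = v ((p.2.get j).2 (Fin.cast (congrArg ar hs) i)) := by
    intro j hj
    rcases hv (p.2.get j) (List.get_mem p.2 j) with ⟨t₀, h1, h2⟩ | ⟨r, w, h1, h2⟩
    · exact absurd ⟨t₀, h1, fun i => congrFun h2 i⟩ hj
    · obtain ⟨h3, h4⟩ := tf1_sigma h2
      exact ⟨r, w, h1, h3, fun i => h4 i⟩
  have hex : ∃ j, ¬ A j := by
    by_contra hcon
    push Not at hcon
    apply hJ
    rw [hq D inferInstance J]
    refine ⟨p, hp, fun z => if h : ∃ d, v z = L (.base d) then h.choose else d₀, ?_⟩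
    intro a ha
    obtain ⟨j, rfl⟩ := List.get_of_mem ha
    obtain ⟨t₀, h1, h2⟩ := hcon j
    have h3 : ((fun z => if h : ∃ d, v z = L (.base d) then h.choose else d₀) ∘ (p.2.get j).2) = t₀ := by
      funext x
      have h4 : ∃ d, v ((p.2.get j).2 x) = L (.base d) := ⟨t₀ x, h2 x⟩
      have h5 : (if h : ∃ d, v ((p.2.get j).2 x) = L (.base d) then h.choose else d₀) = h4.choose := dif_pos h4
      refine h5.trans ?_
      exact hLb _ _ (h4.choose_spec.symm.trans (h2 x))
    rw [h3]
    exact h1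
  obtain ⟨j₀, hj₀⟩ := hex
  let en : Fin K → Fin p.2.length := fun e =>
    if h : ∃ h' : e.1 < p.2.length, ¬ A ⟨e.1, h'⟩ then ⟨e.1, h.choose⟩ else j₀
  have hen : ∀ e, ¬ A (en e) := by
    intro e
    by_cases h : ∃ h' : e.1 < p.2.length, ¬ A ⟨e.1, h'⟩
    · have h1 : en e = ⟨e.1, h.choose⟩ := dif_pos h
      rw [h1]
      exact h.choose_spec
    · have h1 : en e = j₀ := dif_neg h
      rw [h1]
      exact hj₀
  have hsur : ∀ j, ¬ A j → ∃ e, en e = j := by
    intro j hj
    refine ⟨⟨j.1, lt_of_lt_of_le j.2 hpK⟩, ?_⟩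
    have h : ∃ h' : j.1 < p.2.length, ¬ A ⟨j.1, h'⟩ := ⟨j.2, hj⟩
    exact dif_pos h
  choose r w hmem hs harg using fun e => hB (en e) (hen e)
  refine ⟨⟨v, en, r, w, hmem, hs, harg, ?_, fun e => hO _ _ (hmem e)⟩⟩
  intro j
  by_cases hj : A j
  · exact Or.inr hj
  · exact Or.inl (hsur j hj)

end Pool.Agent.WFC
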