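import Pool.Agent.WFC.GL

set_option autoImplicit false

/-!
# TF2: the pattern of a match satisfies the axioms
-/

namespace Pool.Agent.WFC

open Pool.Agent.H56

variable {k : ℕ} {ar : Fin k → ℕ} {T : List (Rule ar)} {D : Type} {K m : ℕ} {J : Inst ar D} {O : Set (Elem T D)}
  {Λ : Type} {L : Elem T D → Λ} {p : CQ ar}

/-- Atoms are transported along equalities of symbols. -/
theorem tf2_cast {N : Type} (I : Inst ar N) {i i' : Fin k} (h : i = i') (t : Fin (ar i') → N)
    (ht : I i (fun x => t (Fin.cast (congrArg ar h) x))) : I i' t := by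
  subst h
  exact ht

/-- The label of the top node. -/
theorem tf2_topn (c : TDat J O L p K) (e : Fin K) : c.V (c.topn e) = L (.new (c.r e) (c.w e)) := by
  have h1 := c.harg e (c.top e).choose
  rw [args_none (c.top e).choose_spec] at h1
  exact h1.symm

/-- The node at a position of the head. -/
theorem tf2_nd_some (c : TDat J O L p K) (e : Fin K) (l : Fin m) (h : l.1 < ar (symOf (c.r e))) :
    c.nd e (some l) = .inl ((p.2.get (c.en e)).2 (Fin.cast (congrArg ar (c.hs e)) ⟨l.1, h⟩)) := by
  simp only [TDat.nd]
  exact dif_pos h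

/-- The label of the node of a valid occurrence is the label of the value of its word. (`harg` at the position, and
`args_none`, `args_some`.) -/
theorem TDat.V_node (c : TDat J O L p K) {o : Occ K m} (ho : (tPat (m := m) c.idx).vo o) :
    ∃ e, val c.inp (ow o) = some e ∧ c.V ((tPat (m := m) c.idx).node o) = L e := by
  rcases o with ⟨ρ, _ | l⟩
  · exact ⟨.new (c.r ρ.1) (c.w ρ.1), rfl, tf2_topn c ρ.1⟩
  · obtain ⟨hl, x, hx⟩ : Proper (c.r ρ.1) l := ho l rfl
    refine ⟨c.w ρ.1 x, up1_new hx, ?_⟩
    have h1 : (tPat (m := m) c.idx).node (ρ, some l) = c.nd ρ.1 (some l) := rfl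
    rw [h1, tf2_nd_some c ρ.1 l hl]
    have h2 := c.harg ρ.1 ⟨l.1, hl⟩
    rw [args_some hx] at h2
    exact h2.symm

/-- Challenged nodes do not have the label of a constant. -/
theorem tf2_ch (hL : ∀ e e', L e = L e' → lab e = lab e') (c : TDat J O L p K) {o : Occ K m}
    (ho : (tPat (m := m) c.idx).Ch o) (d : D) : c.V ((tPat (m := m) c.idx).node o) ≠ L (.base d) := by
  rcases o with ⟨ρ, i⟩
  rcases ho.2 with h | h
  · have hi : i = none := h
    subst hi
    have h1 : c.V ((tPat (m := m) c.idx).node (ρ, none)) = L (.new (c.r ρ.1) (c.w ρ.1)) := tf2_topn c ρ.1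
    intro h2
    have h3 := hL _ _ (h1.symm.trans h2)
    simp [lab] at h3
  · exact h d

/-- The pattern of a match satisfies the axioms. `ent`: in a model `I` with `h`, the query `p` holds by `h ∘ inl`: for an
atom which is a fact of `J` we have `V (inl z) = V (inr d)`, so `h (inl z) = h (inr d)`; for the atom of a row `e` and a
position `i` with `headOf = none` the node has the same `V` as `nd e none` (both are `L` of the element), the
other positions are proper. Then `I` is a model of `T` to which the canonical instance of `p` (nodes `Fin p.1`, finite)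
maps, and `hq` for this instance gives `Sat I q`. -/
theorem TDat.ok (hm : ∀ i, ar i ≤ m) {q : CQ ar} {Φ' : List (CQ ar)}
    (hq : ∀ (D : Type), Finite D → ∀ J : Inst ar D, Entails T J q ↔ ∃ p ∈ Φ', Sat J p) (hp : p ∈ Φ')
    (hL : ∀ e e', L e = L e' → lab e = lab e') (c : TDat J O L p K) : (tPat (m := m) c.idx).Ok hm J q := by
  refine ⟨⟨fun x => rfl, fun h => Eq.symm h, fun h h' => Eq.trans h h'⟩, Set.finite_empty, fun e => Or.inl rfl, ?_, ?_,
    ?_, ?_⟩
  · intro o o' ho ho' hR
    have hR' : c.V ((tPat (m := m) c.idx).node o) = c.V ((tPat (m := m) c.idx).node o') := hR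
    refine ⟨ho', Or.inr fun d hd => ?_⟩
    exact tf2_ch hL c ho d (hR'.trans hd)
  · intro o _ α hα
    exact absurd hα (Set.notMem_empty α)
  · intro o ho d hd
    exact tf2_ch hL c ho d hd
  · intro N I hI h hR hJ' hF
    have hRV : ∀ x y : Fin p.1 ⊕ D, c.V x = c.V y → h x = h y := fun x y hxy => hR x y hxy
    -- the canonical instance
    let J' : Inst ar (Fin p.1) := fun i t => (⟨i, t⟩ : Σ i : Fin k, Fin (ar i) → Fin p.1) ∈ p.2
    have hsat : Sat J' p := ⟨id, fun a ha => ha⟩
    have hent : Entails T J' q := (hq (Fin p.1) inferInstance J').mpr ⟨p, hp, hsat⟩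
    refine hent N I hI ⟨fun z => h (.inl z), ?_⟩
    intro i t ht
    obtain ⟨j, hj⟩ := List.get_of_mem ht
    have key : I (p.2.get j).1 (fun x => h (.inl ((p.2.get j).2 x))) := by
      rcases c.fact j with ⟨e, rfl⟩ | ⟨t₀, ht₀, hv⟩
      · apply tf2_cast I (c.hs e)
        have h1 := hF (cell hm (c.r e) (c.nd (m := m) e none) (fun l => c.nd e (some l))) (Or.inr ⟨e, rfl⟩)
        have h2 : ∀ x : Fin (ar (symOf (c.r e))),
            h ((cell hm (c.r e) (c.nd (m := m) e none) (fun l => c.nd e (some l))).2 x) =
              h (.inl ((p.2.get (c.en e)).2 (Fin.cast (congrArg ar (c.hs e)) x))) := by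
          intro x
          refine (cell_args hm (c.r e) (c.nd (m := m) e none) (fun l => c.nd e (some l)) h x).trans ?_
          split_ifs with hx
          · apply hRV
            have h3 : c.V (c.nd (m := m) e none) = L (.new (c.r e) (c.w e)) := tf2_topn c e
            rw [h3]
            have h4 := c.harg e x
            rw [args_none hx] at h4
            exact h4
          · rw [tf2_nd_some c e ⟨x.1, lt_of_lt_of_le x.2 (hm _)⟩ x.2]
        have h5 : I (symOf (c.r e))
            (fun x => h ((cell hm (c.r e) (c.nd (m := m) e none) (fun l => c.nd e (some l))).2 x)) := h1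
        rw [funext h2] at h5
        exact h5
      · have h1 := hJ' (p.2.get j).1 t₀ ht₀
        have h2 : (fun d => h ((tPat (m := m) c.idx).cD d)) ∘ t₀ = fun x => h (.inl ((p.2.get j).2 x)) := by
          funext x
          exact hRV (.inr (t₀ x)) (.inl ((p.2.get j).2 x)) (hv x).symm
        rw [h2] at h1
        exact h1
    rw [hj] at key
    exact key

end Pool.Agent.WFC
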