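import Pool.Agent.WFC.TF1
import Pool.Agent.WFC.TF2

set_option autoImplicit false

/-!
# TF3: the input of a match has no good valid shape
-/

namespace Pool.Agent.WFC

open Pool.Agent.H56

variable {k : ℕ} {ar : Fin k → ℕ} {T : List (Rule ar)} {D : Type} {K m : ℕ}

/-- Root occurrences are constants. -/
theorem tf3_root {J : Inst ar D} {p : CQ ar} {O : Set (Elem T D)} {Λ : Type} {L : Elem T D → Λ}
    (hL : ∀ e e', L e = L e' → lab e = lab e') (c : TDat J O L p K) {o : Occ K m}
    (ho : (tPat (m := m) c.idx).Rt o) :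
    ∃ d, val c.inp (ow o) = some (.base d) ∧ c.V ((tPat (m := m) c.idx).node o) = L (.base d) := by
  obtain ⟨h1, h2⟩ := ho
  have h3 : ¬ (o.2 = none ∨ ∀ d, c.V ((tPat (m := m) c.idx).node o) ≠ L (.base d)) := h2
  push Not at h3
  obtain ⟨-, d, hd⟩ := h3
  obtain ⟨e, he1, he2⟩ := c.V_node h1
  have h4 : e = .base d := lab_base ((hL _ _ (he2.symm.trans hd)).trans rfl)
  subst h4
  exact ⟨d, he1, he2⟩

/-- NO GOOD SHAPE. Let `ζ` be good and valid. For a root occurrence `o = (e, some l)` we have `V (node o) = L (base d)` for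
some `d`, so the value of `ow o` is `base d` (`TDat.V_node`, `L` determines `lab`); words of `ζ.S` have values with a
rule (`GoodShape.rule`, `ValidAt.tau`); so `ζ.S = ∅` (a word of `ζ.S` of minimal length is a root word). So
`GoodShape.ent` has no atoms; given any model `I` and a homomorphism `f` from `J` define `h (inl n) = f d` if
`V n = L (base d)` (`d` is unique), `h (inr x) = f d` if the value of `x` is `base d`, and anything otherwise (`D` is
nonempty): all identifications are respected (`th`: label-consistent, so equal `lab`). So `Entails T J q`. -/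
theorem TDat.no_shape (hm : ∀ i, ar i ≤ m) {J : Inst ar D} {q : CQ ar} [Nonempty D] (hJ : ¬ Entails T J q)
    {p : CQ ar} {O : Set (Elem T D)} {Λ : Type} {L : Elem T D → Λ} (hL : ∀ e e', L e = L e' → lab e = lab e')
    (c : TDat J O L p K) {N : ℕ} {Λ' : Type} {ℓ : Elem T D → Λ'} (hℓ : GoodLab N m ℓ) :
    ¬ ∃ ζ : Shape T D K m, GoodShape hm J q (tPat c.idx) ζ ∧ ValidAt ℓ 0 c.inp ζ := by
  classical
  rintro ⟨ζ, hg, hv⟩
  obtain ⟨d₀⟩ := ‹Nonempty D›
  -- the shape has no words
  have hS : ∀ n : ℕ, ∀ x : Wd K m, x.2.length = n → x ∉ ζ.S := by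
    intro n
    induction n with
    | zero =>
      intro x hx hxS
      obtain ⟨r, hr⟩ := hg.rule x hxS
      have h1 := hv.tau x _ hr
      rcases hg.root x hxS with ⟨o, ho, rfl⟩ | ⟨y, hy, l, rfl⟩
      · obtain ⟨d, hd, -⟩ := tf3_root hL c ho
        rw [hd] at h1
        simp [lab] at h1
      · simp at hx
    | succ n ih =>
      intro x hx hxS
      obtain ⟨r, hr⟩ := hg.rule x hxS
      have h1 := hv.tau x _ hr
      rcases hg.root x hxS with ⟨o, ho, rfl⟩ | ⟨y, hy, l, rfl⟩
      · obtain ⟨d, hd, -⟩ := tf3_root hL c ho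
        rw [hd] at h1
        simp [lab] at h1
      · have h2 : y.2.length = n := by
          have h3 : ([l] ++ y.2).length = n + 1 := hx
          simpa using h3
        exact ih y h2 hy
  have hS' : ∀ x, x ∉ ζ.S := fun x => hS _ x rfl
  apply hJ
  intro M I hI hf
  obtain ⟨f, hf⟩ := hf
  let F : Λ → M := fun l => if h : ∃ d, l = L (.base d) then f h.choose else f d₀
  have hF : ∀ d, F (L (.base d)) = f d := by
    intro d
    have h : ∃ d', L (.base d) = L (.base d') := ⟨d, rfl⟩
    have h1 : F (L (.base d)) = f h.choose := dif_pos h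
    have h2 : lab (Elem.base d : Elem T D) = lab (Elem.base h.choose : Elem T D) := hL _ _ h.choose_spec
    have h3 : d = h.choose := by simpa only [lab, Sum.inl.injEq] using h2
    rw [h1, ← h3]
  let g : Option (D ⊕ Fin T.length) → M := fun o => match o with
    | some (.inl d) => f d
    | _ => f d₀
  have hgd : ∀ d, g (some (.inl d)) = f d := fun d => rfl
  let h : (tPat (m := m) c.idx).X ⊕ Wd K m → M := fun x => match x with
    | .inl n => F (c.V n)
    | .inr x => g ((val c.inp x).map lab)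
  have hl : ∀ n : (tPat (m := m) c.idx).X, h (.inl n) = F (c.V n) := fun n => rfl
  have hr : ∀ x : Wd K m, h (.inr x) = g ((val c.inp x).map lab) := fun x => rfl
  refine hg.ent M I hI h ?_ ?_ ?_
  · intro x y hxy
    cases hxy with
    | nd hab =>
      rename_i a b
      have h1 : c.V a = c.V b := hab
      rw [hl, hl, h1]
    | th hab =>
      rename_i a b
      have h1 := hv.th a b hab [] (le_refl _)
      rw [ext_nil, ext_nil] at h1
      rw [hr, hr, val_map_lab hℓ h1]
    | root ho =>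
      rename_i o
      obtain ⟨d, hd1, hd2⟩ := tf3_root hL c ho
      rw [hr, hl, hd1, hd2, hF]
      exact hgd d
    | base hb =>
      rename_i a d
      have h1 := hv.tau a _ hb
      rw [hr, hl, h1]
      exact (hgd d).trans (hF d).symm
  · have h1 : (fun d => h (.inl ((tPat (m := m) c.idx).cD d))) = f := by
      funext d
      exact hF d
    rw [h1]
    exact hf
  · rintro α (⟨β, hβ, -⟩ | ⟨x, hx, -⟩)
    · exact absurd hβ (Set.notMem_empty β)
    · exact absurd hx (hS' x)

/-- TOP INPUTS: `exists_tDat`, `TDat.ok`, `TDat.V_node`, `TDat.no_shape`. -/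
theorem top_input (hm : ∀ i, ar i ≤ m) {J : Inst ar D} {q : CQ ar} {Φ' : List (CQ ar)}
    (hq : ∀ (D : Type), Finite D → ∀ J : Inst ar D, Entails T J q ↔ ∃ p ∈ Φ', Sat J p) [Finite D] [Nonempty D]
    (hJ : ¬ Entails T J q) {p : CQ ar} (hp : p ∈ Φ') (hpK : p.2.length ≤ K) {O : Set (Elem T D)}
    (hO : ∀ r v, Elem.new r v ∈ O → ∃ i, headOf r i = none) {Λ : Type} {L : Elem T D → Λ}
    (hL : ∀ e e', L e = L e' → lab e = lab e') (hsat : Sat (HQ J O L) p) :
    ∃ (t : TIdx T D K m p) (a : Row K → Elem T D), (tPat t).Ok hm J q ∧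
      (∀ ρ, a ρ ∈ O ∧ lab (a ρ) = .inr ((tPat t).r ρ.1)) ∧
      (∀ o o', (tPat t).Clm o o' → ∀ e e', val a (ow o) = some e → val a (ow o') = some e' → L e = L e') ∧
      ∀ (N : ℕ) (Λ' : Type) (ℓ : Elem T D → Λ'), GoodLab N m ℓ →
        ¬ ∃ ζ : Shape T D K m, GoodShape hm J q (tPat t) ζ ∧ ValidAt ℓ 0 a ζ := by
  obtain ⟨c⟩ := exists_tDat hq hJ hp hpK hO hL hsat
  refine ⟨c.idx, c.inp, c.ok hm hq hp hL, fun ρ => ⟨c.mem ρ.1, rfl⟩, ?_, ?_⟩
  · intro o o' ho e e' he he'
    obtain ⟨e₁, h1, h2⟩ := c.V_node ho.1.1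
    obtain ⟨e₂, h3, h4⟩ := c.V_node ho.2.1.1
    have h5 : e = e₁ := Option.some.inj (he.symm.trans h1)
    have h6 : e' = e₂ := Option.some.inj (he'.symm.trans h3)
    subst h5
    subst h6
    have h7 : c.V ((tPat (m := m) c.idx).node o) = c.V ((tPat (m := m) c.idx).node o') := ho.2.2
    rw [← h2, h7, h4]
  · intro N Λ' ℓ hℓ
    exact c.no_shape hm hJ hL hℓ

end Pool.Agent.WFC
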