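import Pool.Agent.WFC.TF3
import Pool.Agent.WFC.REC3

set_option autoImplicit false

/-!
# TL1: labellings of the stages with a bounded number of labels
-/

namespace Pool.Agent.WFC

open Pool.Agent.H56

variable {k : ℕ} {ar : Fin k → ℕ} {T : List (Rule ar)} {D : Type} {K m : ℕ}

theorem Tree.outs_length {ρ E O : Type} (t : Tree ρ E O) : t.outs.length ≤ 2 ^ t.depth := by
  induction t with
  | leaf o => simp [Tree.outs, Tree.depth]
  | node i S t f iht ihf =>
    simp only [Tree.outs, Tree.depth, List.length_append, pow_succ]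
    have h1 : 2 ^ t.depth ≤ 2 ^ (max t.depth f.depth) := Nat.pow_le_pow_right (by norm_num) (le_max_left _ _)
    have h2 : 2 ^ f.depth ≤ 2 ^ (max t.depth f.depth) := Nat.pow_le_pow_right (by norm_num) (le_max_right _ _)
    omega

theorem Tree.run_mem {ρ E O : Type} (t : Tree ρ E O) (a : ρ → E) : t.run a ∈ t.outs := by
  induction t with
  | leaf o => simp [Tree.outs, Tree.run]
  | node i S t f iht ihf =>
    simp only [Tree.outs, Tree.run, List.mem_append]
    split_ifs
    · exact Or.inl iht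
    · exact Or.inr ihf

/-- LABELLINGS OF THE STAGES: a finite set of labels, independent of `n`. Take a good labelling `ℓ₀`
(`exists_goodLab`, with `N = cN K m`) with at most `2 ^ b` labels, `c` = the cost of `Cst` for `(b, 0)` (`cst_all`), and
for every `n`, every `p` in `Φ'` (index in `Fin Φ'.length`) and every `t : TIdx T D K m p` with `(tPat t).Ok` a protocol
of depth at most `c`. The label of `e` at level `n` is `ℓ₀ e` together with the bits `e ∈ S` for the outputs
`(o, o', S)` of all these protocols (output number `j : Fin (2 ^ c)`). If `p` holds in `HQ J (stage J n) L`,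
`top_input` (with `O = stage J n`; `hO` from `new_mem`) gives `t` and an admissible input `a` without good valid shape, so
the output `(o, o', S)` of the protocol is correct (`FailAt`): the values of `ow o`, `ow o'` have the same `L`-label
but exactly one of them is in `S`, contradiction. -/
theorem stage_labels (hm : ∀ i, ar i ≤ m) (hm1 : 1 ≤ m) (hK : 1 ≤ K) {J : Inst ar D} {q : CQ ar} {Φ' : List (CQ ar)}
    (hq : ∀ (D : Type), Finite D → ∀ J : Inst ar D, Entails T J q ↔ ∃ p ∈ Φ', Sat J p) [Finite D] [Nonempty D]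
    (hJ : ¬ Entails T J q) (hpK : ∀ p ∈ Φ', p.2.length ≤ K) (hs : Small T J q K) :
    ∃ (Λ : Type) (_ : Finite Λ), ∀ n : ℕ, ∃ L : Elem T D → Λ, (∀ e e', L e = L e' → lab e = lab e') ∧
      ∀ p ∈ Φ', ¬ Sat (HQ J (stage J n) L) p := by
  classical
  obtain ⟨E, hE⟩ := cst_all (hm := hm) (T := T) (J := J) (q := q) (K := K) hK hm1 hs
  obtain ⟨Λ₀, hfin, ℓ₀, hgood⟩ := exists_goodLab (D := D) T (cN K m) m
  have hb : Nat.card Λ₀ ≤ 2 ^ Nat.card Λ₀ := Nat.lt_two_pow_self.le
  set b := Nat.card Λ₀ with hbdef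
  set c := E * ((b + 1) * (m + 1) ^ 0) with hc
  let S : Type := Σ i : Fin Φ'.length, TIdx T D K m (Φ'.get i)
  have hS : Finite S := by
    have h1 : ∀ i : Fin Φ'.length, Finite (TIdx T D K m (Φ'.get i)) := fun i => by
      unfold TIdx
      infer_instance
    exact inferInstance
  refine ⟨Λ₀ × Set (S × Fin (2 ^ c)), inferInstance, fun n => ?_⟩
  -- the protocols of level `n`
  have hprot : ∀ s : S, ∃ P : Option (Prot T D K m), (tPat s.2).Ok hm J q → ∃ t, P = some t ∧ t.depth ≤ c ∧
      ∀ a, Adm J n (tPat s.2) a →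
        (∃ ζ, GoodShape hm J q (tPat s.2) ζ ∧ ValidAt ℓ₀ 0 a ζ) ∨ FailAt (tPat s.2) a (t.run a) := by
    intro s
    by_cases hok : (tPat s.2).Ok hm J q
    · obtain ⟨t, h1, h2⟩ := hE n b 0 (tPat s.2) hok Λ₀ hb ℓ₀ hgood
      exact ⟨some t, fun _ => ⟨t, rfl, h1, h2⟩⟩
    · exact ⟨none, fun h => absurd h hok⟩
  choose P hP using hprot
  let outs : S → List (Out T D K m) := fun s => match P s with
    | some t => t.outs
    | none => []
  let L : Elem T D → Λ₀ × Set (S × Fin (2 ^ c)) := fun e =>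
    (ℓ₀ e, {x | ∃ o ∈ (outs x.1)[x.2.1]?, e ∈ o.2.2})
  have hL : ∀ e e', L e = L e' → lab e = lab e' := fun e e' h => hgood.lab e e' (Prod.mk.inj h).1
  refine ⟨L, hL, ?_⟩
  intro p hp hsat
  obtain ⟨i, rfl⟩ := List.get_of_mem hp
  have hO : ∀ r v, Elem.new r v ∈ stage (T := T) J n → ∃ i, headOf r i = none := by
    intro r v h
    obtain ⟨-, -, h1, -⟩ := new_mem J h
    exact h1
  obtain ⟨t, a, hok, hadm, hclm, hno⟩ := top_input hm hq hJ hp (hpK _ hp) hO hL hsat
  obtain ⟨π, h1, h2, h3⟩ := hP ⟨i, t⟩ hok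
  rcases h3 a hadm with h4 | h4
  · exact hno (cN K m) Λ₀ ℓ₀ hgood h4
  · obtain ⟨h5, ⟨e, h6, h7⟩, e', h8, h9⟩ := h4
    have h10 : L e = L e' := hclm _ _ h5 e e' h7 h9
    have h11 : outs ⟨i, t⟩ = π.outs := by
      simp only [outs, h1]
    obtain ⟨j, hj, hj'⟩ := List.mem_iff_getElem.mp (Tree.run_mem π a)
    have hj2 : j < 2 ^ c := lt_of_lt_of_le hj ((Tree.outs_length π).trans (Nat.pow_le_pow_right (by norm_num) h2))
    have h12 : (outs ⟨i, t⟩)[j]? = some (π.run a) := by
      rw [h11, List.getElem?_eq_getElem hj, hj']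
    have h13 : ((⟨i, t⟩, ⟨j, hj2⟩) : S × Fin (2 ^ c)) ∈ (L e).2 := ⟨π.run a, h12, h6⟩
    rw [h10] at h13
    obtain ⟨o, ho, ho'⟩ := h13
    have h14 : o = π.run a := Option.some.inj ((Option.mem_def.mp ho).symm.trans h12)
    rw [h14] at ho'
    exact h8 ho'

end Pool.Agent.WFC
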