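import Pool.Agent.WFC.EV3

set_option autoImplicit false

/-!
# US1: elimination of a word of an occurrence: the real cell in its context
-/

namespace Pool.Agent.WFC

open Pool.Agent.H56

variable {k : ℕ} {ar : Fin k → ℕ} {T : List (Rule ar)} {D : Type} {K m : ℕ} {hm : ∀ i, ar i ≤ m} {J : Inst ar D}
  {q : CQ ar} {𝔽 : Fr hm J q T K} {st st' : List (Stg K m)} {τ : Tsk K m}

/-- Step 1. Let `x ∈ V` be a cell word equivalent to the word of a challenged occurrence `o`, not equivalent to a root
word, and not touched: never `x ~ ext y [p]` with `y ∈ V`. Let `e` be the value of `ow o` (a new element with the rule of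
`x`, `class_lb`). Then the cell of the real element `e`, in the context of the cells of `V \ [x]` and `𝔽.G.F`, glued at the
parents of `e` to the nodes `ext x [p]`, entails `q`. Proof: given `g`, `h`, change `h` at the words equivalent to `x`
to the value `g e`. -/
theorem us_entR (hv : Valid 𝔽 st) {V : Finset (Wd K m)} (hV : ∀ y ∈ V, 𝔽.cw y ∧ y.2.length ≤ cR1 K m)
    (hE : EntV 𝔽 st ↑V) {x : Wd K m} (hx : x ∈ V) {o : Occ K m} (ho : 𝔽.G.Ch o) (hxo : Eqw 𝔽 st (ow o) x)
    (hr : ∀ o', 𝔽.G.Rt o' → ¬ Eqw 𝔽 st x (ow o')) (ht : ∀ y ∈ V, ∀ p, ¬ Eqw 𝔽 st x (ext y [p]))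
    {e : Elem T D} (he : val 𝔽.a (ow o) = some e) :
    EntR T J q (Relation.EqvGen (VRel 𝔽 st)) (fun d => .inl (𝔽.G.cD d))
      ((amap Sum.inl) '' 𝔽.G.F ∪ vcells 𝔽 (↑V \ {y | Eqw 𝔽 st x y}))
      (fun p : {p : Fin m // (up1 p e).isSome} => (up1 p.1 e).get p.2)
      (fun p : {p : Fin m // (up1 p e).isSome} => (.inr (ext x [p.1]) : 𝔽.G.X ⊕ Wd K m)) {e} := by
  classical
  have hlen : ∀ y ∈ V, y.2.length ≤ cR K m := by
    intro y hy
    have := (hV y hy).2
    unfold cR
    omega
  have hlen1 : ∀ y ∈ V, ∀ p : Fin m, (ext y [p]).2.length ≤ cR K m := by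
    intro y hy p
    have := (hV y hy).2
    simp only [ext_snd, List.length_append, List.length_singleton]
    unfold cR
    omega
  obtain ⟨rx, hrx⟩ := (hV x hx).1
  have hxd : 𝔽.lbl x ≠ none := (lb_ne_none_iff x).1 (by rw [hrx]; simp)
  have hxb : ∀ d, 𝔽.lb x ≠ some (.inl d) := by
    intro d hd
    rw [hrx] at hd
    simp at hd
  have hpure := fun (n : 𝔽.G.X ⊕ Wd K m) h => vrel_pure hv (hlen x hx) hxd hxb hr (n := n) h
  -- the rule of `e`
  have hlab : lab e = .inr rx := by
    have h1 := class_lb hv (hlen x hx) hxd hxo.symm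
    rw [hrx] at h1
    have h2 : 𝔽.lb (ow o) = some (lab e) := by
      unfold Fr.lb
      rw [he]
      rfl
    rw [h2] at h1
    exact (Option.some.inj h1).symm
  obtain ⟨v, rfl⟩ := lab_new hlab
  intro N I hI g h hg hR hF hw hc
  set P : 𝔽.G.X ⊕ Wd K m → Prop := fun n => Relation.EqvGen (VRel 𝔽 st) (.inr x) n with hP
  set h' : 𝔽.G.X ⊕ Wd K m → N := fun n => if P n then g (.new rx v) else h n with hh'
  have hinl : ∀ n, h' (.inl n) = h (.inl n) := by
    intro n
    have : ¬ P (.inl n) := by
      intro hc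
      obtain ⟨y, hy, -⟩ := hpure _ hc
      simp at hy
    simp only [hh']
    rw [if_neg this]
  have hne : ∀ y : Wd K m, ¬ Eqw 𝔽 st x y → h' (.inr y) = h (.inr y) := by
    intro y hy
    have : ¬ P (.inr y) := by
      intro hc
      obtain ⟨z, hz, -, hxz⟩ := hpure _ hc
      have hyz : y = z := by simpa using hz
      rw [hyz] at hy
      exact hy hxz
    simp only [hh']
    rw [if_neg this]
  apply hE N I hI h'
  · intro a b hab
    have hab' : Relation.EqvGen (VRel 𝔽 st) a b := Relation.EqvGen.rel _ _ hab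
    by_cases ha : P a
    · have hb : P b := Relation.EqvGen.trans _ _ _ ha hab'
      simp only [hh']
      rw [if_pos ha, if_pos hb]
    · have hb : ¬ P b := fun hb => ha (Relation.EqvGen.trans _ _ _ hb (Relation.EqvGen.symm _ _ hab'))
      simp only [hh']
      rw [if_neg ha, if_neg hb]
      exact hR _ _ hab'
  · have h1 := hg.1
    have h2 : (fun d => h' (.inl (𝔽.G.cD d))) = fun d => g (.base d) := by
      funext d
      rw [hinl]
      exact (hc d).symm
    rw [h2]
    exact h1
  · rintro α (⟨β, hβ, rfl⟩ | ⟨y, hy, r, hry, rfl⟩)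
    · have h1 := hF _ (Or.inl ⟨β, hβ, rfl⟩)
      have h2 : (fun p => h' ((amap (Sum.inl : 𝔽.G.X → 𝔽.G.X ⊕ Wd K m) β).2 p)) =
          fun p => h ((amap (Sum.inl : 𝔽.G.X → 𝔽.G.X ⊕ Wd K m) β).2 p) := by
        funext p
        exact hinl _
      rw [h2]
      exact h1
    · have hy' : y ∈ V := hy
      by_cases hxy : Eqw 𝔽 st x y
      · have hrr : r = rx := by
          have h1 := class_lb hv (hlen x hx) hxd hxy
          rw [hrx, hry] at h1
          simpa using h1.symm
        subst hrr
        have h1 := hg.2 r v (Set.mem_singleton _)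
        have h2 : (fun p => h' ((cell hm r (.inr y : 𝔽.G.X ⊕ Wd K m)
            (fun p => .inr (ext y [p]))).2 p)) = fun p => g (args r v p) := by
          funext (p : Fin (ar (symOf r)))
          refine (cell_args hm r (.inr y : 𝔽.G.X ⊕ Wd K m) (fun p => .inr (ext y [p])) h' p).trans ?_
          rcases hz : headOf r p with _ | z
          · rw [if_pos rfl, args_none hz]
            have hPy : P (.inr y) :=
              Relation.EqvGen.rel _ _ (VRel.wd (hlen x hx) (hlen y hy') hxy)
            simp only [hh']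
            rw [if_pos hPy]
          · rw [if_neg (by simp), args_some hz, hne _ (ht y hy' _)]
            have hup := up1_cell (T := T) (D := D) hm (v := v) hz
            have h3 := hw ⟨⟨p.1, lt_of_lt_of_le p.2 (hm _)⟩, by rw [hup]; rfl⟩
            simp only [hup, Option.get_some] at h3
            rw [h3]
            refine hR _ _ (Relation.EqvGen.rel _ _ (VRel.wd (hlen1 y hy' _) (hlen1 x hx _) ?_))
            exact (hxy.ext _).symm
        rw [h2]
        exact h1
      · have h1 := hF _ (Or.inr ⟨y, ⟨hy, hxy⟩, r, hry, rfl⟩)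
        have h2 : (fun p => h' ((cell hm r (.inr y : 𝔽.G.X ⊕ Wd K m)
            (fun p => .inr (ext y [p]))).2 p)) = fun p => h ((cell hm r (.inr y : 𝔽.G.X ⊕ Wd K m)
            (fun p => .inr (ext y [p]))).2 p) := by
          funext (p : Fin (ar (symOf r)))
          refine (cell_args hm r (.inr y : 𝔽.G.X ⊕ Wd K m) (fun p => .inr (ext y [p])) h' p).trans ?_
          refine Eq.trans ?_
            (cell_args hm r (.inr y : 𝔽.G.X ⊕ Wd K m) (fun p => .inr (ext y [p])) h p).symm
          split_ifs
          · exact hne _ hxy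
          · exact hne _ (ht y hy' _)
        rw [h2]
        exact h1

end Pool.Agent.WFC
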