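import Pool.Agent.WFC.US1

set_option autoImplicit false

/-!
# US2: elimination of a word of an occurrence by real descent
-/

namespace Pool.Agent.WFC

open Pool.Agent.H56

variable {k : ℕ} {ar : Fin k → ℕ} {T : List (Rule ar)} {D : Type} {K m : ℕ} {hm : ∀ i, ar i ≤ m} {J : Inst ar D}
  {q : CQ ar} {𝔽 : Fr hm J q T K} {st st' : List (Stg K m)} {τ : Tsk K m}

/-- names of anchored elements -/
theorem us2_names {E : Type} {m : ℕ} (O : Finset E) (d : E → ℕ) (P : E → Fin m → Prop)
    (Q : E → E → Fin m → Prop) (hQ : ∀ a b p, Q a b p → d b < d a)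
    (h : ∀ e ∈ O, (∃ p, P e p) ∨ ∃ e' ∈ O, ∃ p, Q e' e p) :
    ∃ z : E → List (Fin m), ∀ e ∈ O, (∃ p, z e = [p] ∧ P e p) ∨
      ∃ e' ∈ O, ∃ p, Q e' e p ∧ z e = p :: z e' := by
  classical
  set f : E → ℕ := fun e => (O.filter fun e' => d e < d e').card with hf
  have hlt : ∀ e e', e' ∈ O → d e < d e' → f e' < f e := by
    intro e e' he' hd
    apply Finset.card_lt_card
    rw [Finset.ssubset_iff_of_subset]
    · refine ⟨e', Finset.mem_filter.2 ⟨he', hd⟩, ?_⟩
      intro hc
      exact lt_irrefl _ (Finset.mem_filter.1 hc).2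
    · intro y hy
      rw [Finset.mem_filter] at hy ⊢
      exact ⟨hy.1, hd.trans hy.2⟩
  let z : E → List (Fin m) := WellFounded.fix (C := fun _ => List (Fin m)) (measure f).wf (fun e rec =>
    if hP : ∃ p, P e p then [hP.choose] else
      if hE : ∃ e', e' ∈ O ∧ ∃ p, Q e' e p then
        hE.choose_spec.2.choose :: rec hE.choose
          (hlt e hE.choose hE.choose_spec.1 (hQ _ _ _ hE.choose_spec.2.choose_spec))
      else [])
  refine ⟨z, ?_⟩
  intro e he
  have hz : z e = if hP : ∃ p, P e p then [hP.choose] else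
      if hE : ∃ e', e' ∈ O ∧ ∃ p, Q e' e p then
        hE.choose_spec.2.choose :: z hE.choose
      else [] := WellFounded.fix_eq _ _ _
  by_cases hP : ∃ p, P e p
  · left
    rw [dif_pos hP] at hz
    exact ⟨hP.choose, hz, hP.choose_spec⟩
  · right
    have hE : ∃ e', e' ∈ O ∧ ∃ p, Q e' e p := by
      rcases h e he with h1 | ⟨e', he', h1⟩
      · exact absurd h1 hP
      · exact ⟨e', he', h1⟩
    rw [dif_neg hP, dif_pos hE] at hz
    exact ⟨hE.choose, hE.choose_spec.1, hE.choose_spec.2.choose, hE.choose_spec.2.choose_spec, hz⟩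

/-- lengths of names -/
theorem us2_len {E : Type} {m : ℕ} (O : Finset E) (d : E → ℕ) (P : E → Fin m → Prop)
    (Q : E → E → Fin m → Prop) (hQ : ∀ a b p, Q a b p → d b < d a) (z : E → List (Fin m))
    (hz : ∀ e ∈ O, (∃ p, z e = [p] ∧ P e p) ∨ ∃ e' ∈ O, ∃ p, Q e' e p ∧ z e = p :: z e') :
    ∀ e ∈ O, (z e).length ≤ O.card := by
  classical
  have key : ∀ n, ∀ e ∈ O, (O.filter fun e' => d e < d e').card ≤ n →
      (z e).length ≤ (O.filter fun e' => d e ≤ d e').card := by
    intro n
    induction n with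
    | zero =>
      intro e he hc
      rcases hz e he with ⟨p, hp, -⟩ | ⟨e', he', p, hq, -⟩
      · rw [hp, List.length_singleton]
        exact Finset.card_pos.2 ⟨e, Finset.mem_filter.2 ⟨he, le_rfl⟩⟩
      · have : 0 < (O.filter fun e' => d e < d e').card :=
          Finset.card_pos.2 ⟨e', Finset.mem_filter.2 ⟨he', hQ _ _ _ hq⟩⟩
        omega
    | succ n ih =>
      intro e he hc
      rcases hz e he with ⟨p, hp, -⟩ | ⟨e', he', p, hq, hp⟩
      · rw [hp, List.length_singleton]
        exact Finset.card_pos.2 ⟨e, Finset.mem_filter.2 ⟨he, le_rfl⟩⟩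
      · have hd := hQ _ _ _ hq
        have h1 : (O.filter fun y => d e' < d y).card < (O.filter fun y => d e < d y).card := by
          apply Finset.card_lt_card
          rw [Finset.ssubset_iff_of_subset]
          · refine ⟨e', Finset.mem_filter.2 ⟨he', hd⟩, ?_⟩
            intro hc
            exact lt_irrefl _ (Finset.mem_filter.1 hc).2
          · intro y hy
            rw [Finset.mem_filter] at hy ⊢
            exact ⟨hy.1, hd.trans hy.2⟩
        have h2 := ih e' he' (by omega)
        have h3 : (O.filter fun y => d e' ≤ d y).card < (O.filter fun y => d e ≤ d y).card := by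
          apply Finset.card_lt_card
          rw [Finset.ssubset_iff_of_subset]
          · refine ⟨e, Finset.mem_filter.2 ⟨he, le_rfl⟩, ?_⟩
            intro hc
            have := (Finset.mem_filter.1 hc).2
            omega
          · intro y hy
            rw [Finset.mem_filter] at hy ⊢
            exact ⟨hy.1, hd.le.trans hy.2⟩
        rw [hp, List.length_cons]
        omega
  intro e he
  exact (key _ e he le_rfl).trans (Finset.card_filter_le _ _)

theorem us2_eqv {X N : Type} {R : X → X → Prop} {h : X → N} (hR : ∀ a b, R a b → h a = h b) {a b : X}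
    (hab : Relation.EqvGen R a b) : h a = h b := by
  induction hab with
  | rel a b h => exact hR a b h
  | refl a => rfl
  | symm a b _ ih => exact ih.symm
  | trans a b c _ _ ih ih' => exact ih.trans ih'

/-- Step 2. Real descent (`rd` with `O = {e}`, `us_entR`) gives `O'`; drop the base elements from `O'` (they have no
cells and no parents, so `EntR` and anchoredness remain); every element of `O'` is the ancestor of `e` along a nonempty
path of length at most `K`; choose paths `z e'` such that the set of paths is closed under removing the last step (as in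
`ElimSys.names`: anchored elements, predecessors have larger depth), and let `S` be the set of the words
`ext x (z e')`. Entailment: given `h` for `EntV`, define `g e'' = h (inr (ext (ow o) z))` if `e''` is the ancestor of
`e` along a path `z` of length at most `K + 1` (well defined: equal values of short words in the row of `o` are
equivalent words, `Gen.eq`), `g (base d) = h (inl (cD d))`, and anything otherwise. -/
theorem us_step (hs : Small T J q K) (hv : Valid 𝔽 st) {V : Finset (Wd K m)}
    (hV : ∀ y ∈ V, 𝔽.cw y ∧ y.2.length ≤ cR1 K m) (hE : EntV 𝔽 st ↑V) {x : Wd K m} (hx : x ∈ V) {o : Occ K m}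
    (ho : 𝔽.G.Ch o) (hxo : Eqw 𝔽 st (ow o) x) (hr : ∀ o', 𝔽.G.Rt o' → ¬ Eqw 𝔽 st x (ow o'))
    (ht : ∀ y ∈ V, ∀ p, ¬ Eqw 𝔽 st x (ext y [p])) [Finite D] :
    ∃ S : Finset (Wd K m), S.card ≤ K ∧
      (∀ s ∈ S, 𝔽.cw s ∧ s.2.length ≤ x.2.length + K ∧ ((∃ p, s = ext x [p]) ∨ ∃ s' ∈ S, ∃ p, s = ext s' [p])) ∧
      EntV 𝔽 st ((↑V \ {y | Eqw 𝔽 st x y}) ∪ ↑S) := by
  classical
  have hxl1 := (hV x hx).2
  have hxl : x.2.length ≤ cR K m := by
    unfold cR
    omega
  have hKN : K + 2 ≤ cN K m := by
    unfold cN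
    omega
  have hKR : K + 2 ≤ cR K m := by
    unfold cR
    omega
  obtain ⟨rx, hrx⟩ := (hV x hx).1
  have hxd : 𝔽.lbl x ≠ none := (lb_ne_none_iff x).1 (by rw [hrx]; simp)
  -- the element `e`
  have hod : val 𝔽.a (ow o) ≠ none := by
    have h1 := class_lbl hv hxl hxd hxo.symm [] (by simp)
    rw [ext_nil, ext_nil] at h1
    rw [h1] at hxd
    exact map_ne_none.1 hxd
  obtain ⟨e, he⟩ := Option.ne_none_iff_exists'.mp hod
  have heL : e ∈ Leg J := up_leg J (𝔽.leg _) he
  have hR1 := us_entR hv hV hE hx ho hxo hr ht he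
  have hFf : ((amap Sum.inl) '' 𝔽.G.F ∪ vcells 𝔽 (↑V \ {y | Eqw 𝔽 st x y})).Finite :=
    (𝔽.ok.finF.image _).union (finite_vcells (V.finite_toSet.subset Set.diff_subset))
  obtain ⟨O₁, hO₁L, hO₁c, hO₁E, hO₁A⟩ := rd hs hFf _ _ ({e} : Finset (Elem T D))
    (by intro e' he'; rw [Finset.mem_singleton] at he'; rw [he']; exact heL)
    (by rw [Finset.coe_singleton]; exact hR1)
  -- drop the base elements
  set O : Finset (Elem T D) := O₁.filter (fun e' => ∃ r v, e' = Elem.new r v) with hO
  have hOc : O.card ≤ K := (Finset.card_filter_le _ _).trans hO₁c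
  have hOE : EntR T J q (Relation.EqvGen (VRel 𝔽 st)) (fun d => .inl (𝔽.G.cD d))
      ((amap Sum.inl) '' 𝔽.G.F ∪ vcells 𝔽 (↑V \ {y | Eqw 𝔽 st x y}))
      (fun p : {p : Fin m // (up1 p e).isSome} => (up1 p.1 e).get p.2)
      (fun p : {p : Fin m // (up1 p e).isSome} => (.inr (ext x [p.1]) : 𝔽.G.X ⊕ Wd K m)) ↑O := by
    intro N I hI g h hg
    apply hO₁E N I hI g h
    refine ⟨hg.1, fun r v hrv => hg.2 r v ?_⟩
    exact Finset.mem_coe.2 (Finset.mem_filter.2 ⟨hrv, r, v, rfl⟩)
  have hOA : ∀ e' ∈ O, (∃ p : Fin m, up1 p e = some e') ∨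
      ∃ e'' ∈ O, ∃ p : Fin m, up1 p e'' = some e' := by
    intro e' he'
    rw [hO, Finset.mem_filter] at he'
    rcases hO₁A e' he'.1 with ⟨⟨p, hp⟩, rfl⟩ | ⟨r, v, p, y, hmem, hp, rfl⟩
    · left
      exact ⟨p, (Option.some_get hp).symm⟩
    · right
      exact ⟨.new r v, Finset.mem_filter.2 ⟨hmem, r, v, rfl⟩, _, up1_cell hm hp⟩
  obtain ⟨z, hz⟩ := us2_names O dep (fun e' p => up1 p e = some e')
    (fun e'' e' p => up1 p e'' = some e') (fun a b p h => dep_up1 h) hOA
  have hzl : ∀ e' ∈ O, (z e').length ≤ K := fun e' he' =>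
    (us2_len O dep _ _ (fun a b p h => dep_up1 h) z hz e' he').trans hOc
  -- the names lead to the elements
  have hup : ∀ n, ∀ e' ∈ O, (z e').length ≤ n → up (z e') e = some e' := by
    intro n
    induction n with
    | zero =>
      intro e' he' hc
      rcases hz e' he' with ⟨p, hp, -⟩ | ⟨e'', -, p, -, hp⟩ <;> rw [hp] at hc <;> simp at hc
    | succ n ih =>
      intro e' he' hc
      rcases hz e' he' with ⟨p, hp, hq⟩ | ⟨e'', he'', p, hq, hp⟩
      · rw [hp, up_cons, up_nil, Option.bind_some]
        exact hq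
      · rw [hp, List.length_cons] at hc
        rw [hp, up_cons, ih e'' he'' (by omega), Option.bind_some]
        exact hq
  have hup' : ∀ e' ∈ O, up (z e') e = some e' := fun e' he' => hup _ e' he' le_rfl
  have hvalo : ∀ w : List (Fin m), val 𝔽.a (ext (ow o) w) = up w e := by
    intro w
    rw [val_ext, he, Option.bind_some]
  have hlbl : ∀ w : List (Fin m), w.length ≤ K + 1 → 𝔽.lbl (ext (ow o) w) = 𝔽.lbl (ext x w) := by
    intro w hw
    exact (class_lbl hv hxl hxd hxo.symm w (by omega)).symm
  have hlb : ∀ w : List (Fin m), w.length ≤ K + 1 → 𝔽.lb (ext x w) = (up w e).map lab := by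
    intro w hw
    have h1 : 𝔽.lb (ext (ow o) w) = 𝔽.lb (ext x w) := val_map_lab 𝔽.good (hlbl w hw)
    rw [← h1]
    unfold Fr.lb
    rw [hvalo]
  have hxw : ∀ w : List (Fin m), w.length ≤ K + 1 → (ext x w).2.length ≤ cR K m := by
    intro w hw
    rw [ext_snd, List.length_append]
    unfold cR
    omega
  have how : ∀ w : List (Fin m), w.length ≤ K + 1 → (ext (ow o) w).2.length ≤ cR K m := by
    intro w hw
    rw [ext_snd, List.length_append]
    have := ow_len o
    omega
  refine ⟨O.image (fun e' => ext x (z e')), Finset.card_image_le.trans hOc, ?_, ?_⟩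
  · intro s hs
    rw [Finset.mem_image] at hs
    obtain ⟨e', he', rfl⟩ := hs
    have hzl' := hzl e' he'
    refine ⟨?_, ?_, ?_⟩
    · have h1 := hlb (z e') (by omega)
      rw [hup' e' he', Option.map_some] at h1
      obtain ⟨-, r, v, rfl⟩ := Finset.mem_filter.1 (hO ▸ he')
      exact ⟨r, h1⟩
    · rw [ext_snd, List.length_append]
      omega
    · rcases hz e' he' with ⟨p, hp, -⟩ | ⟨e'', he'', p, -, hp⟩
      · left
        exact ⟨p, by rw [hp]⟩
      · right
        refine ⟨ext x (z e''), Finset.mem_image.2 ⟨e'', he'', rfl⟩, p, ?_⟩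
        rw [hp]
        rfl
  · intro N I hI h hR hJ hF
    set g : Elem T D → N := fun e'' => match e'' with
      | .base d => h (.inl (𝔽.G.cD d))
      | e'' => if hw : ∃ w : List (Fin m), w.length ≤ K + 1 ∧ up w e = some e'' then
          h (.inr (ext (ow o) hw.choose)) else h (.inr x) with hg
    have hgk : ∀ (w : List (Fin m)) (e'' : Elem T D), w.length ≤ K + 1 → up w e = some e'' →
        g e'' = h (.inr (ext (ow o) w)) := by
      intro w e'' hw hwe
      cases e'' with
      | base d =>
        have h1 : 𝔽.lb (ext (ow o) w) = some (.inl d) := by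
          unfold Fr.lb
          rw [hvalo, hwe]
          rfl
        exact (hR _ _ (VRel.base (how w hw) h1)).symm
      | new r v =>
        have hex : ∃ w : List (Fin m), w.length ≤ K + 1 ∧ up w e = some (.new r v) := ⟨w, hw, hwe⟩
        have h1 : g (.new r v) = h (.inr (ext (ow o) hex.choose)) := by
          simp only [hg]
          rw [dif_pos hex]
        rw [h1]
        obtain ⟨h2, h3⟩ := hex.choose_spec
        apply hR
        apply VRel.wd (how _ h2) (how _ hw)
        apply Relation.EqvGen.rel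
        refine ⟨ext (ow o) hex.choose, ext (ow o) w, [], ?_, rfl, rfl⟩
        have e1 := hvalo hex.choose
        have e2 := hvalo w
        rw [h3] at e1
        rw [hwe] at e2
        exact Gen.eq (how _ h2) (how _ hw) e1 e2
    have hgx : ∀ (w : List (Fin m)) (e'' : Elem T D), w.length ≤ K + 1 → up w e = some e'' →
        g e'' = h (.inr (ext x w)) := by
      intro w e'' hw hwe
      rw [hgk w e'' hw hwe]
      exact hR _ _ (VRel.wd (how w hw) (hxw w hw) (hxo.ext w))
    apply hOE N I hI g h
    · refine ⟨hJ, ?_⟩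
      intro r v hrv
      have hmem : Elem.new r v ∈ O := hrv
      have hzl' := hzl _ hmem
      have h1 := hlb (z (.new r v)) (by omega)
      rw [hup' _ hmem, Option.map_some] at h1
      have h2 := hF _ (Or.inr ⟨ext x (z (.new r v)), Or.inr (Finset.mem_coe.2
        (Finset.mem_image.2 ⟨_, hmem, rfl⟩)), r, h1, rfl⟩)
      have h3 : (fun p => h ((cell hm r (.inr (ext x (z (.new r v))) : 𝔽.G.X ⊕ Wd K m)
          (fun p => .inr (ext (ext x (z (.new r v))) [p]))).2 p)) = fun p => g (args r v p) := by
        funext (p : Fin (ar (symOf r)))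
        refine (cell_args hm r (.inr (ext x (z (.new r v))) : 𝔽.G.X ⊕ Wd K m)
          (fun p => .inr (ext (ext x (z (.new r v))) [p])) h p).trans ?_
        rcases hy : headOf r p with _ | y
        · rw [if_pos rfl, args_none hy]
          exact (hgx _ _ (by omega) (hup' _ hmem)).symm
        · rw [if_neg (by simp), args_some hy]
          refine (hgx (⟨p.1, lt_of_lt_of_le p.2 (hm _)⟩ :: z (.new r v)) _ ?_ ?_).symm
          · rw [List.length_cons]
            omega
          · rw [up_cons, hup' _ hmem, Option.bind_some]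
            exact up1_cell hm hy
      rw [h3] at h2
      exact h2
    · intro a b hab
      exact us2_eqv hR hab
    · rintro α (hα | ⟨y, hy, hyr⟩)
      · exact hF α (Or.inl hα)
      · exact hF α (Or.inr ⟨y, Or.inl hy, hyr⟩)
    · rintro ⟨p, hp⟩
      exact hgx [p] _ (by simp) (by rw [up_cons, up_nil, Option.bind_some]; exact (Option.some_get hp).symm)
    · intro d
      rfl

end Pool.Agent.WFC
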