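import Pool.Agent.WFC.CL4

set_option autoImplicit false

/-!
# XL1: visibility sets
-/

namespace Pool.Agent.WFC

open Pool.Agent.H56

variable {k : ℕ} {ar : Fin k → ℕ} {T : List (Rule ar)} {D : Type} {K m : ℕ} {hm : ∀ i, ar i ≤ m} {J : Inst ar D}
  {q : CQ ar} {𝔽 : Fr hm J q T K} {st st' : List (Stg K m)} {τ : Tsk K m}

/-- Challenged occurrences have a value. -/
theorem xl1_defined {o : Occ K m} (ho : 𝔽.G.Ch o) : 𝔽.lbl (ow o) ≠ none := by
  rw [Fr.lbl, map_ne_none]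
  rcases o with ⟨ρ, _ | p⟩
  · rw [val_ow_none]
    simp
  · have h1 : Proper (𝔽.G.r ρ.1) p := ho.1 p rfl
    have h2 := (up1_ne_none_iff (p := p) (𝔽.rule ρ)).2 h1
    exact h2

/-- The tops are challenged. -/
theorem xl1_top (ρ : Row K) : 𝔽.G.Ch ((ρ, none) : Occ K m) :=
  ⟨fun p hp => by simp at hp, 𝔽.ok.top ρ.1⟩

theorem XX_eqw {x y : Wd K m} (h : Eqw 𝔽 st x y) : XX 𝔽 st x = XX 𝔽 st y := by
  ext o
  constructor
  · rintro ⟨ho, z, hz⟩
    exact ⟨ho, z, hz.trans h⟩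
  · rintro ⟨ho, z, hz⟩
    exact ⟨ho, z, hz.trans h.symm⟩

theorem XX'_eqw {x y : Wd K m} (h : Eqw 𝔽 st x y) : XX' 𝔽 st x = XX' 𝔽 st y := by
  ext o
  constructor
  · rintro ⟨ho, z, hz0, hz⟩
    exact ⟨ho, z, hz0, hz.trans h⟩
  · rintro ⟨ho, z, hz0, hz⟩
    exact ⟨ho, z, hz0, hz.trans h.symm⟩

theorem XX'_sub (x : Wd K m) : XX' 𝔽 st x ⊆ XX 𝔽 st x := by
  rintro o ⟨ho, z, -, hz⟩
  exact ⟨ho, z, hz⟩

theorem XX_app (x : Wd K m) (p : Fin m) : XX 𝔽 st x ⊆ XX' 𝔽 st (ext x [p]) := by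
  rintro o ⟨ho, z, hz⟩
  refine ⟨ho, p :: z, by simp, ?_⟩
  rw [← ext_cons]
  exact hz.ext [p]

theorem xl1_ext (x : Wd K m) (z' : List (Fin m)) : XX 𝔽 st x ⊆ XX 𝔽 st (ext x z') := by
  rintro o ⟨ho, z, hz⟩
  refine ⟨ho, z' ++ z, ?_⟩
  rw [← ext_ext]
  exact hz.ext z'

/-- The visibility sets are closed under claims (`eqw_clm`). -/
theorem XX_clm {x : Wd K m} {o o' : Occ K m} (ho : o ∈ XX 𝔽 st x) (h : 𝔽.G.Clm o o') : o' ∈ XX 𝔽 st x := by
  obtain ⟨-, z, hz⟩ := ho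
  exact ⟨h.2.1, z, ((eqw_clm h).symm.ext z).trans hz⟩

theorem XX'_clm {x : Wd K m} {o o' : Occ K m} (ho : o ∈ XX' 𝔽 st x) (h : 𝔽.G.Clm o o') : o' ∈ XX' 𝔽 st x := by
  obtain ⟨-, z, hz0, hz⟩ := ho
  exact ⟨h.2.1, z, hz0, ((eqw_clm h).symm.ext z).trans hz⟩

/-- `o ∈ X(x) \ X'(x)` gives `ow o ~ x`. -/
theorem eqw_of_mem_XX {x : Wd K m} {o : Occ K m} (h : o ∈ XX 𝔽 st x) (h' : o ∉ XX' 𝔽 st x) :
    Eqw 𝔽 st (ow o) x := by
  obtain ⟨ho, z, hz⟩ := h
  by_cases h0 : z = []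
  · subst h0
    exact hz
  · exact absurd ⟨ho, z, h0, hz⟩ h'

/-- Acyclicity: an occurrence does not see its own class properly. (`ext (ow o) z ~ ow o` with `z ≠ []`: by the class
lemma `|ext (ow o) z| < N`, and the labels are equal, so `𝔽.good.acyc` is violated.) -/
theorem not_mem_XX' (hv : Valid 𝔽 st) {x : Wd K m} {o : Occ K m} (h : Eqw 𝔽 st (ow o) x) :
    o ∉ XX' 𝔽 st x := by
  rintro ⟨ho, z, hz0, hz⟩
  have he : Eqw 𝔽 st (ow o) (ext (ow o) z) := h.trans hz.symm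
  have hd := xl1_defined ho
  have hl : (ow o).2.length ≤ cR K m := (ow_len o).trans (by unfold cR; omega)
  have h1 := (class_lemma hv hl hd he).1
  have h2 := class_lbl hv hl hd he [] (by simp)
  rw [ext_nil, ext_nil] at h2
  rw [ext_snd, List.length_append] at h1
  rw [Fr.lbl, map_ne_none] at hd
  obtain ⟨e, hve⟩ := Option.ne_none_iff_exists'.1 hd
  rw [Fr.lbl, Fr.lbl, val_ext, hve, Option.bind_some, Option.map_some] at h2
  obtain ⟨e', he', hℓ⟩ := Option.map_eq_some_iff.1 h2.symm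
  exact 𝔽.good.acyc z e e' hz0 (by omega) he' hℓ.symm

/-- A defined short word whose class has `X = X'` is not equivalent to a word of a challenged occurrence; in particular
all equivalent words are nonempty, and the tops of their rows are in `X'`. -/
theorem nonvar_row (hv : Valid 𝔽 st) {x y : Wd K m} (hX : XX 𝔽 st x = XX' 𝔽 st x) (h : Eqw 𝔽 st y x) :
    y.2 ≠ [] ∧ ((y.1, none) : Occ K m) ∈ XX' 𝔽 st x := by
  have hy : y = ext (ow ((y.1, none) : Occ K m)) y.2 := by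
    rw [ow_none]
    simp [ext]
  have hmem : ((y.1, none) : Occ K m) ∈ XX 𝔽 st x := by
    refine ⟨xl1_top y.1, y.2, ?_⟩
    rw [← hy]
    exact h
  rw [hX] at hmem
  refine ⟨fun h0 => ?_, hmem⟩
  refine not_mem_XX' hv (o := (y.1, none)) ?_ hmem
  rw [hy, h0, ext_nil] at h
  exact h

/-- If an occurrence of a row is in `X'(x)`, so is the top of the row. -/
theorem top_mem {x : Wd K m} {o : Occ K m} (h : o ∈ XX' 𝔽 st x) : ((o.1, none) : Occ K m) ∈ XX' 𝔽 st x := by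
  obtain ⟨-, z, hz0, hz⟩ := h
  refine ⟨xl1_top o.1, z ++ o.2.toList, by simp [hz0], ?_⟩
  have he : ext (ow ((o.1, none) : Occ K m)) (z ++ o.2.toList) = ext (ow o) z := by
    rw [ow_none]
    simp [ext, ow]
  rw [he]
  exact hz

/-- More stages: larger visibility sets. -/
theorem XX_cons (σ : Stg K m) (x : Wd K m) : XX 𝔽 st x ⊆ XX 𝔽 (σ :: st) x := by
  rintro o ⟨ho, z, hz⟩
  exact ⟨ho, z, hz.cons σ⟩

/-- For a merged word `w` of a stage `σ` of a valid state, all occurrences in `σ.X` see `(σ.row, w)`. -/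
theorem stage_sees (hv : Valid 𝔽 st) {σ : Stg K m} (hσ : σ ∈ st) {w w' : List (Fin m)} (hw : (w, w') ∈ σ.E)
    (z : List (Fin m)) :
    σ.X ⊆ XX 𝔽 st (ext (σ.row, w) z) ∧ σ.X ⊆ XX 𝔽 st (ext (σ.row, w') z) := by
  have key : σ.X ⊆ XX 𝔽 st (σ.row, w) ∧ σ.X ⊆ XX 𝔽 st (σ.row, w') := by
    induction st with
    | nil => exact absurd hσ List.not_mem_nil
    | cons σ₁ st ih =>
      rw [Valid] at hv
      obtain ⟨hv1, hch, hE⟩ := hv
      rcases List.mem_cons.1 hσ with rfl | hσ'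
      · obtain ⟨h1, h2, -⟩ := hE w w' hw
        constructor
        · intro o ho
          obtain ⟨z, hz⟩ := h1.sees o ho
          exact ⟨hch o ho, z, hz.cons σ⟩
        · intro o ho
          obtain ⟨z, hz⟩ := h2.sees o ho
          exact ⟨hch o ho, z, hz.cons σ⟩
      · obtain ⟨h1, h2⟩ := ih hv1 hσ'
        exact ⟨h1.trans (XX_cons σ₁ _), h2.trans (XX_cons σ₁ _)⟩
  exact ⟨key.1.trans (xl1_ext _ z), key.2.trans (xl1_ext _ z)⟩

end Pool.Agent.WFC
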